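import Pool.Agent.RN.PrDefs

/-!
# BALL: a bounded universal quantification from its instances
-/

set_option maxRecDepth 20000
set_option linter.unusedVariables false

namespace Pool.Agent.RN.BALL

open Pool.Agent.H19 (T Tm scons)
open Pool.Agent.RO

theorem fs_imp (a b : Fm) : fs (Fm.imp a b) = fs a + fs b + 25 := by
  simp only [fs, Fm.enc, T.size, Pool.Agent.H19.T.size_unary]; omega

theorem fs_all (a : Fm) : fs (Fm.all a) = fs a + 28 := by
  simp only [fs, Fm.enc, T.size, Pool.Agent.H19.T.size_unary]; omega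

theorem fs_bot : fs Fm.bot = 21 := by
  simp only [fs, Fm.enc, T.size, Pool.Agent.H19.T.size_unary]

theorem fs_eq (a b : Tm) : fs (Fm.eq a b) = ts a + ts b + 21 := by
  simp only [fs, ts, Fm.enc, T.size, Pool.Agent.H19.T.size_unary]; omega

theorem fs_le (a b : Tm) : fs (Fm.le a b) = ts a + ts b + 23 := by
  simp only [fs, ts, Fm.enc, T.size, Pool.Agent.H19.T.size_unary]; omega

theorem fs_neg (a : Fm) : fs (Fm.neg a) = fs a + 46 := by
  rw [Fm.neg, fs_imp, fs_bot]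

theorem fs_or (a b : Fm) : fs (Fm.or a b) = fs a + fs b + 71 := by
  rw [Fm.or, fs_imp, fs_neg]; omega

theorem ts_var (i : ℕ) : ts (Tm.var i) = 2 * i + 5 := by
  simp only [ts, Tm.enc, Pool.Agent.H19.Tm.enc, T.size, Pool.Agent.H19.T.size_unary]; omega

theorem ts_zero : ts Tm.zero = 7 := by
  simp only [ts, Pool.Agent.H19.Tm.enc, T.size, Pool.Agent.H19.T.size_unary]

theorem ts_succ (t : Tm) : ts (Tm.succ t) = ts t + 8 := by
  simp only [ts, Pool.Agent.H19.Tm.enc, T.size, Pool.Agent.H19.T.size_unary]; omega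

/-- A single axiom is a proof. -/
theorem pr_step {Th : Set Fm} (a : Step) (ha : a.ok Th []) {s : ℕ} (hs : a.enc.size ≤ s) :
    Pr Th 1 s a.concl := by
  refine ⟨[a], ⟨ha, rfl⟩, le_rfl, ?_⟩
  intro b hb
  rw [List.mem_singleton] at hb
  rw [hb]; exact hs

/-- From `a → b → c` and `a → b` infer `a → c`. -/
theorem sRule (hc : Calc) {Th : Set Fm} {l l' s : ℕ} {a b c : Fm}
    (h1 : Pr Th l s (Fm.imp a (Fm.imp b c))) (h2 : Pr Th l' s (Fm.imp a b))
    (h : 4000 * (fs a + fs b + fs c + 100) ≤ s) : Pr Th (l + l' + 2001) s (Fm.imp a c) := by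
  have h3 : Pr Th 1 s (Fm.imp (Fm.imp a (Fm.imp b c)) (Fm.imp (Fm.imp a b) (Fm.imp a c))) := by
    refine pr_step (Step.axS a b c) trivial ?_
    simp only [Step.enc, T.size, Pool.Agent.H19.T.size_unary]
    simp only [fs] at h
    omega
  have h4 := hc.mp h3 h1 (by simp only [fs_imp]; omega)
  have h5 := hc.mp h4 h2 (by simp only [fs_imp]; omega)
  exact hc.mono h5 (by omega) le_rfl

theorem instVarT (t : Tm) (k : ℕ) : (t.shift (k + 1) 1).inst k (Tm.var 0) = t := by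
  induction t with
  | var i =>
    simp only [Tm.shift]
    split_ifs with h
    · simp only [Tm.inst]
      split_ifs with h1 h2
      · rfl
      · simp only [Tm.shift]; simp [h2]
      · omega
    · simp only [Tm.inst]
      rw [if_neg (by omega), if_neg (by omega)]
      simp
  | zero => rfl
  | succ t ih => simp only [Tm.shift, Tm.inst, ih]
  | half t ih => simp only [Tm.shift, Tm.inst, ih]
  | len t ih => simp only [Tm.shift, Tm.inst, ih]
  | add s t ih1 ih2 => simp only [Tm.shift, Tm.inst, ih1, ih2]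
  | mul s t ih1 ih2 => simp only [Tm.shift, Tm.inst, ih1, ih2]
  | smash s t ih1 ih2 => simp only [Tm.shift, Tm.inst, ih1, ih2]

theorem instVarF (φ : Fm) : ∀ k : ℕ, (φ.shift (k + 1) 1).inst k (Tm.var 0) = φ := by
  induction φ with
  | bot => intro k; rfl
  | eq s t => intro k; simp only [Fm.shift, Fm.inst, instVarT]
  | le s t => intro k; simp only [Fm.shift, Fm.inst, instVarT]
  | rel t => intro k; simp only [Fm.shift, Fm.inst, instVarT]
  | imp φ ψ ih1 ih2 => intro k; simp only [Fm.shift, Fm.inst, ih1, ih2]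
  | all φ ih => intro k; simp only [Fm.shift, Fm.inst, ih]

/-- `χ(x) = χ` if `χ` has only the variable `x`. -/
theorem instVar0 (hs : Sub) {χ : Fm} (h : χ.fvBelow 1) : χ.inst 0 (Tm.var 0) = χ := by
  have h1 := hs.shiftIdF χ 1 1 h
  have h2 := instVarF χ 0
  rw [show 0 + 1 = 1 from rfl, h1] at h2
  exact h2

/-- From `χ(n)` infer `x = n → χ(x)`. -/
theorem eqCase (hs : Sub) (hc : Calc) {Th : Set Fm} {l s : ℕ} {χ : Fm} (hχ : χ.fvBelow 1)
    (n : ℕ) (h : Pr Th l s (χ.inst 0 (Tm.numeral n)))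
    (hsz : 100000 * (fs χ + fs (χ.inst 0 (Tm.numeral n)) + ts (Tm.numeral n) + 10) ≤ s) :
    Pr Th (l + 15000) s (Fm.imp (Fm.eq (Tm.var 0) (Tm.numeral n)) χ) := by
  set t := Tm.numeral n with ht
  have hclosed : ∀ k d, t.shift k d = t := fun k d => hs.shiftIdT t k d (hs.numBelow n k)
  have e1 : (Fm.eq (Tm.var 0) (Tm.var 1)).inst 0 (Tm.var 0) = Fm.eq (Tm.var 0) (Tm.var 0) := rfl
  have e2 : (Fm.eq (Tm.var 0) (Tm.var 1)).inst 0 t = Fm.eq t (Tm.var 0) := by
    show Fm.eq (t.shift 0 0) (Tm.var 0) = _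
    rw [hclosed]
  -- `x = t → t = x`
  have a1 := hc.substI (Th := Th) (s := s) (φ := Fm.eq (Tm.var 0) (Tm.var 1)) (x := Tm.var 0)
    (y := t) (by rw [e1, e2]; simp only [fs_eq, ts_var]; omega)
  rw [e1, e2] at a1
  have a2 := hc.weak (a := Fm.eq (Tm.var 0) t) (hc.refl (Th := Th) (s := s) (x := Tm.var 0)
    (by simp only [ts_var]; omega)) (by simp only [fs_eq, ts_var]; omega)
  have a3 := sRule hc a1 a2 (by simp only [fs_eq, ts_var]; omega)
  -- `t = x → χ(t) → χ(x)`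
  have a4 := hc.substI (Th := Th) (s := s) (φ := χ) (x := t) (y := Tm.var 0)
    (by rw [instVar0 hs hχ]; simp only [ts_var]; omega)
  rw [instVar0 hs hχ] at a4
  have a5 := hc.trans a3 a4 (by simp only [fs_eq, fs_imp, ts_var]; omega)
  have a6 := hc.weak (a := Fm.eq (Tm.var 0) t) h (by simp only [fs_eq, ts_var]; omega)
  have a7 := sRule hc a5 a6 (by simp only [fs_eq, ts_var]; omega)
  exact hc.mono a7 (by omega) le_rfl

/-- The instance of `x ≤ S y → x ≤ y ∨ x = S y`. -/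
theorem leStep (hs : Sub) (hc : Calc) {Th : Set Fm} {l l' s : ℕ} (n : ℕ)
    (hF : Pr Th l s (Fm.imp (Fm.le (Tm.var 0) (Tm.succ (Tm.var 1)))
      (Fm.or (Fm.le (Tm.var 0) (Tm.var 1)) (Fm.eq (Tm.var 0) (Tm.succ (Tm.var 1))))))
    (hN : Pr Th l' s (Fm.eq (Tm.succ (Tm.numeral n)) (Tm.numeral (n + 1))))
    (hsz : 100000 * (ts (Tm.numeral n) + ts (Tm.numeral (n + 1)) + 10) ≤ s) :
    Pr Th (l + l' + 5000) s (Fm.imp (Fm.le (Tm.var 0) (Tm.numeral (n + 1)))
      (Fm.or (Fm.le (Tm.var 0) (Tm.numeral n)) (Fm.eq (Tm.var 0) (Tm.numeral (n + 1))))) := by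
  set t := Tm.numeral n with ht
  set t' := Tm.numeral (n + 1) with ht'
  have hclosed : ∀ k d, t.shift k d = t := fun k d => hs.shiftIdT t k d (hs.numBelow n k)
  have hclosed' : ∀ k d, t'.shift k d = t' :=
    fun k d => hs.shiftIdT t' k d (hs.numBelow (n + 1) k)
  have hinst : ∀ k r, t.inst k r = t := fun k r => hs.instIdT t k r (hs.numBelow n k)
  have hinst' : ∀ k r, t'.inst k r = t' := fun k r => hs.instIdT t' k r (hs.numBelow (n + 1) k)
  have g1 := hc.gen hF (by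
    simp only [fs_imp, fs_le, fs_or, fs_eq, ts_var, ts_succ]; omega)
  have g2 := hc.gen g1 (by
    simp only [fs_all, fs_imp, fs_le, fs_or, fs_eq, ts_var, ts_succ]; omega)
  have e1 : (Fm.all (Fm.imp (Fm.le (Tm.var 0) (Tm.succ (Tm.var 1)))
      (Fm.or (Fm.le (Tm.var 0) (Tm.var 1)) (Fm.eq (Tm.var 0) (Tm.succ (Tm.var 1)))))).inst 0 t =
      Fm.all (Fm.imp (Fm.le (Tm.var 0) (Tm.succ t))
      (Fm.or (Fm.le (Tm.var 0) t) (Fm.eq (Tm.var 0) (Tm.succ t)))) := by
    show Fm.all (Fm.imp (Fm.le (Tm.var 0) (Tm.succ (t.shift 0 1)))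
      (Fm.or (Fm.le (Tm.var 0) (t.shift 0 1)) (Fm.eq (Tm.var 0) (Tm.succ (t.shift 0 1))))) = _
    rw [hclosed]
  have g3 := hc.inst (t := t) g2 (by
    rw [e1]; simp only [fs_all, fs_imp, fs_le, fs_or, fs_eq, ts_var, ts_succ]; omega)
  rw [e1] at g3
  have e2 : (Fm.imp (Fm.le (Tm.var 0) (Tm.succ t))
      (Fm.or (Fm.le (Tm.var 0) t) (Fm.eq (Tm.var 0) (Tm.succ t)))).inst 0 (Tm.var 0) =
      Fm.imp (Fm.le (Tm.var 0) (Tm.succ t))
      (Fm.or (Fm.le (Tm.var 0) t) (Fm.eq (Tm.var 0) (Tm.succ t))) := by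
    show Fm.imp (Fm.le (Tm.var 0) (Tm.succ (t.inst 0 (Tm.var 0))))
      (Fm.or (Fm.le (Tm.var 0) (t.inst 0 (Tm.var 0)))
        (Fm.eq (Tm.var 0) (Tm.succ (t.inst 0 (Tm.var 0))))) = _
    rw [hinst]
  have g4 := hc.inst (t := Tm.var 0) g3 (by
    rw [e2]; simp only [fs_imp, fs_le, fs_or, fs_eq, ts_var, ts_succ]; omega)
  rw [e2] at g4
  -- replace `S t` by `t'`
  have e3 : ∀ r : Tm, (∀ k d, r.shift k d = r) → (Fm.imp (Fm.le (Tm.var 1) (Tm.var 0))
      (Fm.or (Fm.le (Tm.var 1) t) (Fm.eq (Tm.var 1) (Tm.var 0)))).inst 0 r =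
      Fm.imp (Fm.le (Tm.var 0) r) (Fm.or (Fm.le (Tm.var 0) t) (Fm.eq (Tm.var 0) r)) := by
    intro r hr
    show Fm.imp (Fm.le (Tm.var 0) (r.shift 0 0))
      (Fm.or (Fm.le (Tm.var 0) (t.inst 0 r)) (Fm.eq (Tm.var 0) (r.shift 0 0))) = _
    rw [hinst, hr]
  have hcs : ∀ k d, (Tm.succ t).shift k d = Tm.succ t := by
    intro k d; show Tm.succ (t.shift k d) = _; rw [hclosed]
  have g5 : Pr Th (l + 4000) s ((Fm.imp (Fm.le (Tm.var 1) (Tm.var 0))
      (Fm.or (Fm.le (Tm.var 1) t) (Fm.eq (Tm.var 1) (Tm.var 0)))).inst 0 (Tm.succ t)) := by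
    rw [e3 _ hcs]
    exact hc.mono g4 (by omega) le_rfl
  have g6 := hc.subst hN g5 (by
    rw [e3 _ hcs, e3 _ hclosed']
    simp only [fs_imp, fs_le, fs_or, fs_eq, ts_var, ts_succ]; omega)
  rw [e3 _ hclosed'] at g6
  exact hc.mono g6 (by omega) le_rfl

end Pool.Agent.RN.BALL

namespace Pool.Agent.RN

open Pool.Agent.H19 (T Tm scons)
open Pool.Agent.RO

open BALL in
theorem BALL_thm (hs : Sub) (hc : Calc) (hi : Stmt_INST) (hf : Stmt_FACTS)
    (h1 : Stmt_NUM1) : Stmt_BALL := by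
  obtain ⟨C0, hC0⟩ := hc.ofProvable (hf (Fm.imp (Fm.le (Tm.var 0) (Tm.succ (Tm.var 1)))
    (Fm.or (Fm.le (Tm.var 0) (Tm.var 1)) (Fm.eq (Tm.var 0) (Tm.succ (Tm.var 1)))))
    (by simp [factList]))
  obtain ⟨C1, hC1⟩ := hc.ofProvable (hf (Fm.imp (Fm.le (Tm.var 0) Tm.zero)
    (Fm.eq (Tm.var 0) Tm.zero)) (by simp [factList]))
  obtain ⟨C2, hC2⟩ := h1
  refine ⟨C0 + C1 + C2 + 100000000, ?_⟩
  intro Th hTh χ b l s hχ hall
  set L := b.size with hL
  set N := (fs χ + 1) * (L + 1) with hN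
  have hN1 : fs χ ≤ N := by rw [hN]; nlinarith
  have hN2 : L + 1 ≤ N := by rw [hN]; nlinarith
  have hN3 : (L + 1) * fs χ ≤ N := by rw [hN]; nlinarith
  set S := s + (C0 + C1 + C2 + 100000000) * N with hS
  have hSS : s + (C0 + C1 + C2 + 100000000) * (fs χ + 1) * (L + 1) = S := by
    rw [hS, hN]; ring
  rw [hSS]
  have q0 : C0 ≤ C0 * N := by nlinarith
  have q1 : C1 ≤ C1 * N := by nlinarith
  have q2 : C2 * (L + 1) ≤ C2 * N := Nat.mul_le_mul_left _ hN2
  have hS' : S = s + (C0 * N + C1 * N + C2 * N + 100000000 * N) := by rw [hS]; ring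
  have hsize : ∀ m ≤ b, m.size ≤ L := fun m hm => Nat.size_le_size hm
  have hnum : ∀ m ≤ b, ts (Tm.numeral m) ≤ 60 * N := by
    intro m hm
    have := hs.numSize m
    have := hsize m hm
    omega
  have hinst : ∀ m ≤ b, fs (χ.inst 0 (Tm.numeral m)) ≤ 60 * N := by
    intro m hm
    have h2 := hs.instSizeF χ 0 m
    have h3 := hsize m hm
    have h4 : 60 * (m.size + 1) * fs χ ≤ 60 * ((L + 1) * fs χ) := by
      rw [mul_assoc]
      exact Nat.mul_le_mul_left _ (Nat.mul_le_mul_right _ (by omega))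
    omega
  have F0 : Pr Th C0 S (Fm.imp (Fm.le (Tm.var 0) (Tm.succ (Tm.var 1)))
      (Fm.or (Fm.le (Tm.var 0) (Tm.var 1)) (Fm.eq (Tm.var 0) (Tm.succ (Tm.var 1))))) :=
    hc.mono (hc.monoTh hC0 hTh) le_rfl (by omega)
  have F1 : Pr Th C1 S (Fm.imp (Fm.le (Tm.var 0) Tm.zero) (Fm.eq (Tm.var 0) Tm.zero)) :=
    hc.mono (hc.monoTh hC1 hTh) le_rfl (by omega)
  have hcase : ∀ m ≤ b, Pr Th (l + 15000) S (Fm.imp (Fm.eq (Tm.var 0) (Tm.numeral m)) χ) := by
    intro m hm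
    have h2 := hnum m hm
    have h3 := hinst m hm
    exact eqCase hs hc hχ m (hc.mono (hall m hm) le_rfl (by omega)) (by omega)
  have key : ∀ k ≤ b, Pr Th ((k + 1) * (l + (C0 + C1 + C2 * (L + 1) + 50000))) S
      (Fm.imp (Fm.le (Tm.var 0) (Tm.numeral k)) χ) := by
    intro k
    induction k with
    | zero =>
      intro hk
      have h2 := hnum 0 hk
      have h3 := hcase 0 hk
      rw [hs.num0] at h2 h3 ⊢
      have h4 := hc.trans F1 h3 (by simp only [fs_le, fs_eq, ts_var, ts_zero]; omega)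
      exact hc.mono h4 (by omega) le_rfl
    | succ k ih =>
      intro hk
      have h2 := hnum (k + 1) hk
      have h2' := hnum k (by omega)
      have h3 := hcase (k + 1) hk
      have h4 := ih (by omega)
      have h5 := (hC2 Th hTh L k 0 (hsize k (by omega)) (by simp)).1
      have h6 := leStep hs hc (s := S) k F0 (hc.mono h5 le_rfl (by omega)) (by omega)
      have h7 := hc.cases h6 h4 h3 (by simp only [fs_le, fs_eq, ts_var]; omega)
      refine hc.mono h7 ?_ le_rfl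
      have : (k + 1 + 1) * (l + (C0 + C1 + C2 * (L + 1) + 50000)) =
        (k + 1) * (l + (C0 + C1 + C2 * (L + 1) + 50000)) +
          (l + (C0 + C1 + C2 * (L + 1) + 50000)) := by ring
      rw [this]
      omega
  have h8 := key b le_rfl
  have h9 := hnum b le_rfl
  have h10 := hc.gen h8 (by simp only [fs_imp, fs_le, ts_var]; omega)
  refine hc.mono h10 ?_ le_rfl
  have h11 : l + (C0 + C1 + C2 * (L + 1) + 50000) + 1000 ≤
      l + (C0 + C1 + C2 + 100000000) * (L + 1) ^ 2 := by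
    have h12 : L + 1 ≤ (L + 1) ^ 2 := by nlinarith
    have h13 : C2 * (L + 1) ≤ C2 * (L + 1) ^ 2 := Nat.mul_le_mul_left _ h12
    have h14 : C0 ≤ C0 * (L + 1) ^ 2 := Nat.le_mul_of_pos_right _ (by positivity)
    have h15 : C1 ≤ C1 * (L + 1) ^ 2 := Nat.le_mul_of_pos_right _ (by positivity)
    have h16 : 100000000 ≤ 100000000 * (L + 1) ^ 2 := Nat.le_mul_of_pos_right _ (by positivity)
    have h17 : (C0 + C1 + C2 + 100000000) * (L + 1) ^ 2 = C0 * (L + 1) ^ 2 + C1 * (L + 1) ^ 2 +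
      C2 * (L + 1) ^ 2 + 100000000 * (L + 1) ^ 2 := by ring
    rw [h17]
    linarith
  calc (b + 1) * (l + (C0 + C1 + C2 * (L + 1) + 50000)) + 1000
      ≤ (b + 1) * (l + (C0 + C1 + C2 * (L + 1) + 50000) + 1000) := by nlinarith
    _ ≤ _ := Nat.mul_le_mul_left _ h11

end Pool.Agent.RN
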