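import Pool.Agent.RN.PrDefs

/-!
# Derived rules of the calculus, with bounds

Proofs are closed under concatenation; the propositional rules are derived from the schemes `K`,
`S` and double negation, the equality rules from reflexivity and substitution.
-/

namespace Pool.Agent.RN

open Pool.Agent.H19 (T Tm scons)
open Pool.Agent.RO

namespace CALC

/-! ### Sizes -/

lemma fs_bot : fs Fm.bot = 21 := by
  simp [fs, Fm.enc, T.size, Pool.Agent.H19.T.size_unary]

lemma fs_eq (s t : Tm) : fs (Fm.eq s t) = ts s + ts t + 21 := by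
  simp only [fs, ts, Fm.enc, T.size, Pool.Agent.H19.T.size_unary]; omega

lemma fs_le (s t : Tm) : fs (Fm.le s t) = ts s + ts t + 23 := by
  simp only [fs, ts, Fm.enc, T.size, Pool.Agent.H19.T.size_unary]; omega

lemma fs_rel (t : Tm) : fs (Fm.rel t) = ts t + 30 := by
  simp only [fs, ts, Fm.enc, T.size, Pool.Agent.H19.T.size_unary]; omega

lemma fs_imp (a b : Fm) : fs (Fm.imp a b) = fs a + fs b + 25 := by
  simp only [fs, Fm.enc, T.size, Pool.Agent.H19.T.size_unary]; omega

lemma fs_all (a : Fm) : fs (Fm.all a) = fs a + 28 := by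
  simp only [fs, Fm.enc, T.size, Pool.Agent.H19.T.size_unary]; omega

lemma fs_neg (a : Fm) : fs (Fm.neg a) = fs a + 46 := by
  unfold Fm.neg; rw [fs_imp, fs_bot]

lemma fs_or (a b : Fm) : fs (Fm.or a b) = fs a + fs b + 71 := by
  unfold Fm.or; rw [fs_imp, fs_neg]; omega

lemma ts_var0 : ts (Tm.var 0) = 5 := by
  simp [ts, Pool.Agent.H19.Tm.enc, T.size, Pool.Agent.H19.T.size_unary]

lemma ts_succ (t : Tm) : ts (Tm.succ t) = ts t + 8 := by
  simp only [ts, Pool.Agent.H19.Tm.enc, T.size, Pool.Agent.H19.T.size_unary]; omega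

lemma ts_half (t : Tm) : ts (Tm.half t) = ts t + 10 := by
  simp only [ts, Pool.Agent.H19.Tm.enc, T.size, Pool.Agent.H19.T.size_unary]; omega

lemma ts_len (t : Tm) : ts (Tm.len t) = ts t + 12 := by
  simp only [ts, Pool.Agent.H19.Tm.enc, T.size, Pool.Agent.H19.T.size_unary]; omega

lemma ts_add (s t : Tm) : ts (Tm.add s t) = ts s + ts t + 13 := by
  simp only [ts, Pool.Agent.H19.Tm.enc, T.size, Pool.Agent.H19.T.size_unary]; omega

lemma ts_mul (s t : Tm) : ts (Tm.mul s t) = ts s + ts t + 15 := by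
  simp only [ts, Pool.Agent.H19.Tm.enc, T.size, Pool.Agent.H19.T.size_unary]; omega

lemma ts_smash (s t : Tm) : ts (Tm.smash s t) = ts s + ts t + 17 := by
  simp only [ts, Pool.Agent.H19.Tm.enc, T.size, Pool.Agent.H19.T.size_unary]; omega

lemma ts_pos (t : Tm) : 1 ≤ ts t := Pool.Agent.H19.T.size_pos _

lemma fs_pos (a : Fm) : 21 ≤ fs a := by
  cases a
  · rw [fs_bot]
  · rw [fs_eq]; omega
  · rw [fs_le]; omega
  · rw [fs_rel]; omega
  · rw [fs_imp]; omega
  · rw [fs_all]; omega

/-- sizes of the lines -/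
lemma sz_hyp (a : Fm) : (Step.hyp a).enc.size = fs a + 2 := by
  simp only [fs, Step.enc, T.size, Pool.Agent.H19.T.size_unary]; omega

lemma sz_axK (a b : Fm) : (Step.axK a b).enc.size = fs a + fs b + 5 := by
  simp only [fs, Step.enc, T.size, Pool.Agent.H19.T.size_unary]; omega

lemma sz_axS (a b c : Fm) : (Step.axS a b c).enc.size = fs a + fs b + fs c + 8 := by
  simp only [fs, Step.enc, T.size, Pool.Agent.H19.T.size_unary]; omega

lemma sz_dne (a : Fm) : (Step.dne a).enc.size = fs a + 8 := by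
  simp only [fs, Step.enc, T.size, Pool.Agent.H19.T.size_unary]; omega

lemma sz_allE (a : Fm) (t : Tm) : (Step.allE a t).enc.size = fs a + ts t + 11 := by
  simp only [fs, ts, Step.enc, T.size, Pool.Agent.H19.T.size_unary]; omega

lemma sz_refl (t : Tm) : (Step.refl t).enc.size = ts t + 16 := by
  simp only [ts, Step.enc, T.size, Pool.Agent.H19.T.size_unary]; omega

lemma sz_subst (a : Fm) (s t : Tm) : (Step.subst a s t).enc.size = fs a + ts s + ts t + 20 := by
  simp only [fs, ts, Step.enc, T.size, Pool.Agent.H19.T.size_unary]; omega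

lemma sz_mp (a b : Fm) : (Step.mp a b).enc.size = fs a + fs b + 21 := by
  simp only [fs, Step.enc, T.size, Pool.Agent.H19.T.size_unary]; omega

lemma sz_gen (a : Fm) : (Step.gen a).enc.size = fs a + 22 := by
  simp only [fs, Step.enc, T.size, Pool.Agent.H19.T.size_unary]; omega

/-! ### Concatenation -/

/-- the lines after a list of steps -/
def fin (prev : List Fm) (π : List Step) : List Fm := (π.map Step.concl).reverse ++ prev

/-- all steps are correct -/
def Ok (Th : Set Fm) : List Fm → List Step → Prop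
  | _, [] => True
  | prev, s :: π => s.ok Th prev ∧ Ok Th (s.concl :: prev) π

lemma fin_cons (prev : List Fm) (s : Step) (π : List Step) :
    fin prev (s :: π) = fin (s.concl :: prev) π := by
  simp [fin]

lemma derives_iff (Th : Set Fm) (π : List Step) (φ : Fm) : ∀ prev,
    Derives Th prev π φ ↔ Ok Th prev π ∧ (fin prev π).head? = some φ := by
  induction π with
  | nil => intro prev; simp [Derives, Ok, fin]
  | cons s π ih =>
    intro prev
    simp only [Derives, Ok, ih, fin_cons, and_assoc]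

lemma ok_append (Th : Set Fm) (π ρ : List Step) : ∀ prev,
    Ok Th prev (π ++ ρ) ↔ Ok Th prev π ∧ Ok Th (fin prev π) ρ := by
  induction π with
  | nil => intro prev; simp [Ok, fin]
  | cons s π ih =>
    intro prev
    simp only [List.cons_append, Ok, ih, fin_cons, and_assoc]

lemma fin_append (prev : List Fm) (π ρ : List Step) :
    fin prev (π ++ ρ) = fin (fin prev π) ρ := by
  simp [fin]

lemma step_mono {Th Th' : Set Fm} (hT : Th ⊆ Th') {prev prev' : List Fm}
    (h : ∀ a ∈ prev, a ∈ prev') (s : Step) (hs : s.ok Th prev) : s.ok Th' prev' := by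
  cases s <;> simp only [Step.ok] at hs ⊢
  · exact hT hs
  · exact ⟨h _ hs.1, h _ hs.2⟩
  · exact h _ hs

lemma ok_mono {Th Th' : Set Fm} (hT : Th ⊆ Th') (π : List Step) : ∀ {prev prev' : List Fm},
    (∀ a ∈ prev, a ∈ prev') → Ok Th prev π → Ok Th' prev' π := by
  induction π with
  | nil => intro prev prev' _ _; trivial
  | cons s π ih =>
    intro prev prev' h hs
    refine ⟨step_mono hT h s hs.1, ih ?_ hs.2⟩
    intro a ha
    rcases List.mem_cons.1 ha with h1 | h1
    · exact List.mem_cons.2 (Or.inl h1)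
    · exact List.mem_cons.2 (Or.inr (h a h1))

lemma pr_mono {Th : Set Fm} {l s l' s' : ℕ} {φ : Fm} (h : Pr Th l s φ) (hl : l ≤ l')
    (hs : s ≤ s') : Pr Th l' s' φ := by
  obtain ⟨π, h1, h2, h3⟩ := h
  exact ⟨π, h1, h2.trans hl, fun a ha => (h3 a ha).trans hs⟩

lemma pr_line {Th : Set Fm} {l s l' : ℕ} {φ : Fm} (h : Pr Th l s φ) (hl : l ≤ l') :
    Pr Th l' s φ := pr_mono h hl le_rfl

lemma ax {Th : Set Fm} {s : ℕ} (a : Step) (ha : a.ok Th []) (hs : a.enc.size ≤ s) :
    Pr Th 1 s a.concl := by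
  refine ⟨[a], ?_, le_rfl, ?_⟩
  · exact ⟨ha, rfl⟩
  · intro b hb
    rw [List.mem_singleton] at hb
    rw [hb]
    exact hs

/-- modus ponens -/
lemma mp0 {Th : Set Fm} {l l' s : ℕ} {a b : Fm} (h1 : Pr Th l s (Fm.imp a b))
    (h2 : Pr Th l' s a) (hs : fs a + fs b + 21 ≤ s) : Pr Th (l + l' + 1) s b := by
  obtain ⟨π, p1, p2, p3⟩ := h1
  obtain ⟨ρ, r1, r2, r3⟩ := h2
  refine ⟨π ++ ρ ++ [Step.mp a b], ?_, ?_, ?_⟩
  · unfold IsProof at p1 r1 ⊢
    rw [derives_iff] at p1 r1 ⊢
    have m1 : Fm.imp a b ∈ fin [] π := List.mem_of_mem_head? p1.2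
    have m2 : a ∈ fin [] ρ := List.mem_of_mem_head? r1.2
    have e1 : ∀ x ∈ fin [] π, x ∈ fin [] (π ++ ρ) := by
      intro x hx
      rw [fin_append]
      unfold fin at hx ⊢
      exact List.mem_append_right _ hx
    have e2 : ∀ x ∈ fin [] ρ, x ∈ fin [] (π ++ ρ) := by
      intro x hx
      rw [fin_append]
      unfold fin at hx ⊢
      rw [List.append_nil] at hx
      exact List.mem_append_left _ hx
    constructor
    · rw [ok_append, ok_append]
      refine ⟨⟨p1.1, ok_mono (le_refl Th) ρ (by simp) r1.1⟩, ?_⟩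
      exact ⟨⟨e1 _ m1, e2 _ m2⟩, trivial⟩
    · rw [fin_append]
      simp [fin, Step.concl]
  · simp only [List.length_append, List.length_singleton]
    omega
  · intro x hx
    rw [List.mem_append, List.mem_append, List.mem_singleton] at hx
    rcases hx with (hx | hx) | hx
    · exact p3 x hx
    · exact r3 x hx
    · rw [hx, sz_mp]
      exact hs

/-- generalisation -/
lemma gen0 {Th : Set Fm} {l s : ℕ} {a : Fm} (h1 : Pr Th l s a) (hs : fs a + 22 ≤ s) :
    Pr Th (l + 1) s (Fm.all a) := by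
  obtain ⟨π, p1, p2, p3⟩ := h1
  refine ⟨π ++ [Step.gen a], ?_, ?_, ?_⟩
  · unfold IsProof at p1 ⊢
    rw [derives_iff] at p1 ⊢
    constructor
    · rw [ok_append]
      exact ⟨p1.1, List.mem_of_mem_head? p1.2, trivial⟩
    · rw [fin_append]
      simp [fin, Step.concl]
  · simp only [List.length_append, List.length_singleton]
    omega
  · intro x hx
    rw [List.mem_append, List.mem_singleton] at hx
    rcases hx with hx | hx
    · exact p3 x hx
    · rw [hx, sz_gen]
      exact hs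

/-! ### Propositional rules -/

variable {Th : Set Fm} {l l' l'' s : ℕ} {a b c d : Fm}

lemma wk (h : Pr Th l s b) (hs : 2 * (fs a + fs b) + 100 ≤ s) : Pr Th (l + 2) s (Fm.imp a b) := by
  have h1 : Pr Th 1 s (Fm.imp b (Fm.imp a b)) :=
    ax (Step.axK b a) trivial (by rw [sz_axK]; omega)
  exact pr_line (mp0 h1 h (by rw [fs_imp]; omega)) (by omega)

lemma sI (h : Pr Th l s (Fm.imp a (Fm.imp b c))) (h' : Pr Th l' s (Fm.imp a b))
    (hs : 3 * (fs a + fs b + fs c) + 200 ≤ s) : Pr Th (l + l' + 3) s (Fm.imp a c) := by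
  have h1 : Pr Th 1 s (Fm.imp (Fm.imp a (Fm.imp b c)) (Fm.imp (Fm.imp a b) (Fm.imp a c))) :=
    ax (Step.axS a b c) trivial (by rw [sz_axS]; omega)
  have h2 := mp0 h1 h (by simp only [fs_imp]; omega)
  exact pr_line (mp0 h2 h' (by simp only [fs_imp]; omega)) (by omega)

lemma idn (a : Fm) (hs : 12 * fs a + 300 ≤ s) : Pr Th 5 s (Fm.imp a a) := by
  have h1 : Pr Th 1 s (Fm.imp a (Fm.imp (Fm.imp a a) a)) :=
    ax (Step.axK a (Fm.imp a a)) trivial (by rw [sz_axK, fs_imp]; omega)
  have h2 : Pr Th 1 s (Fm.imp a (Fm.imp a a)) :=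
    ax (Step.axK a a) trivial (by rw [sz_axK]; omega)
  exact pr_line (sI h1 h2 (by rw [fs_imp]; omega)) (by omega)

lemma tr (h : Pr Th l s (Fm.imp a b)) (h' : Pr Th l' s (Fm.imp b c))
    (hs : 3 * (fs a + fs b + fs c) + 200 ≤ s) : Pr Th (l + l' + 5) s (Fm.imp a c) := by
  have h1 : Pr Th (l' + 2) s (Fm.imp a (Fm.imp b c)) := wk h' (by rw [fs_imp]; omega)
  exact pr_line (sI h1 h hs) (by omega)

lemma cmp (a b c : Fm) (hs : 9 * (fs a + fs b + fs c) + 700 ≤ s) :
    Pr Th 7 s (Fm.imp (Fm.imp b c) (Fm.imp (Fm.imp a b) (Fm.imp a c))) := by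
  have h1 : Pr Th 1 s (Fm.imp (Fm.imp b c) (Fm.imp a (Fm.imp b c))) :=
    ax (Step.axK (Fm.imp b c) a) trivial (by rw [sz_axK, fs_imp]; omega)
  have h2 : Pr Th 1 s (Fm.imp (Fm.imp a (Fm.imp b c)) (Fm.imp (Fm.imp a b) (Fm.imp a c))) :=
    ax (Step.axS a b c) trivial (by rw [sz_axS]; omega)
  exact tr h1 h2 (by simp only [fs_imp]; omega)

lemma efq (b : Fm) (hs : 6 * fs b + 700 ≤ s) : Pr Th 7 s (Fm.imp Fm.bot b) := by
  have h1 : Pr Th 1 s (Fm.imp Fm.bot (Fm.imp (Fm.imp b Fm.bot) Fm.bot)) :=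
    ax (Step.axK Fm.bot (Fm.imp b Fm.bot)) trivial (by rw [sz_axK, fs_imp, fs_bot]; omega)
  have h2 : Pr Th 1 s (Fm.imp (Fm.imp (Fm.imp b Fm.bot) Fm.bot) b) :=
    ax (Step.dne b) trivial (by rw [sz_dne]; omega)
  exact tr h1 h2 (by simp only [fs_imp, fs_bot]; omega)

lemma contra (h : Pr Th l s (Fm.imp b d)) (hs : 20 * (fs b + fs d) + 2000 ≤ s) :
    Pr Th (l + 12) s (Fm.imp (Fm.neg d) (Fm.neg b)) := by
  have h1 : Pr Th 7 s (Fm.imp (Fm.neg d) (Fm.imp (Fm.imp b d) (Fm.neg b))) :=
    cmp b d Fm.bot (by rw [fs_bot]; omega)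
  have h2 : Pr Th (l + 2) s (Fm.imp (Fm.neg d) (Fm.imp b d)) :=
    wk h (by simp only [fs_imp, fs_neg]; omega)
  exact pr_line (sI h1 h2 (by simp only [fs_imp, fs_neg]; omega)) (by omega)

lemma clav (d : Fm) (hs : 30 * fs d + 2000 ≤ s) :
    Pr Th 13 s (Fm.imp (Fm.imp (Fm.neg d) d) d) := by
  have h1 : Pr Th 5 s (Fm.imp (Fm.neg d) (Fm.imp d Fm.bot)) :=
    idn (Fm.neg d) (by rw [fs_neg]; omega)
  have h2 : Pr Th 1 s (Fm.imp (Fm.imp (Fm.neg d) (Fm.imp d Fm.bot))
      (Fm.imp (Fm.imp (Fm.neg d) d) (Fm.imp (Fm.neg d) Fm.bot))) :=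
    ax (Step.axS (Fm.neg d) d Fm.bot) trivial (by rw [sz_axS, fs_neg, fs_bot]; omega)
  have h3 := mp0 h2 h1 (by simp only [fs_imp, fs_neg, fs_bot]; omega)
  have h4 : Pr Th 1 s (Fm.imp (Fm.imp (Fm.neg d) Fm.bot) d) :=
    ax (Step.dne d) trivial (by rw [sz_dne]; omega)
  exact pr_line (tr h3 h4 (by simp only [fs_imp, fs_neg, fs_bot]; omega)) (by omega)

lemma cases0 (h1 : Pr Th l s (Fm.imp a (Fm.or b c))) (h2 : Pr Th l' s (Fm.imp b d))
    (h3 : Pr Th l'' s (Fm.imp c d)) (hs : 100 * (fs a + fs b + fs c + fs d) + 10000 ≤ s) :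
    Pr Th (l + l' + l'' + 60) s (Fm.imp a d) := by
  have x1 := contra h2 (by omega)
  have x2 : Pr Th (l' + 12 + 2) s (Fm.imp a (Fm.imp (Fm.neg d) (Fm.neg b))) :=
    wk x1 (by simp only [fs_imp, fs_neg]; omega)
  have x3 : Pr Th 7 s (Fm.imp (Fm.or b c)
      (Fm.imp (Fm.imp (Fm.neg d) (Fm.neg b)) (Fm.imp (Fm.neg d) c))) :=
    cmp (Fm.neg d) (Fm.neg b) c (by simp only [fs_neg]; omega)
  have x4 := tr h1 x3 (by simp only [fs_or, fs_imp, fs_neg]; omega)
  have x5 := sI x4 x2 (by simp only [fs_imp, fs_neg]; omega)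
  have x6 : Pr Th 7 s (Fm.imp (Fm.imp c d)
      (Fm.imp (Fm.imp (Fm.neg d) c) (Fm.imp (Fm.neg d) d))) :=
    cmp (Fm.neg d) c d (by simp only [fs_neg]; omega)
  have x7 := mp0 x6 h3 (by simp only [fs_imp, fs_neg]; omega)
  have x8 := tr x7 (clav d (by omega)) (by simp only [fs_imp, fs_neg]; omega)
  exact pr_line (tr x5 x8 (by simp only [fs_imp, fs_neg]; omega)) (by omega)

/-! ### Equality -/

lemma shift0 (t : Tm) : ∀ k, t.shift k 0 = t := by
  induction t <;> intro k <;> simp_all [Pool.Agent.H19.Tm.shift]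

lemma inst0 (t : Tm) : (Tm.var 0).inst 0 t = t := by
  simp [Pool.Agent.H19.Tm.inst, shift0]

lemma sub2 {φ : Fm} {x y : Tm} (h : Pr Th l s (Fm.eq x y)) (h' : Pr Th l' s (φ.inst 0 x))
    (hs : 2 * (fs φ + ts x + ts y + fs (φ.inst 0 x) + fs (φ.inst 0 y)) + 100 ≤ s) :
    Pr Th (l + l' + 3) s (φ.inst 0 y) := by
  have h1 : Pr Th 1 s (Fm.imp (Fm.eq x y) (Fm.imp (φ.inst 0 x) (φ.inst 0 y))) :=
    ax (Step.subst φ x y) trivial (by rw [sz_subst]; omega)
  have h2 := mp0 h1 h (by simp only [fs_imp, fs_eq]; omega)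
  exact pr_line (mp0 h2 h' (by omega)) (by omega)

/-- the version of `sub2` for formulas known up to an equality -/
lemma sub3 {φ A B : Fm} {x y : Tm} (h : Pr Th l s (Fm.eq x y)) (h' : Pr Th l' s A)
    (hA : φ.inst 0 x = A) (hB : φ.inst 0 y = B)
    (hs : 2 * (fs φ + ts x + ts y + fs A + fs B) + 100 ≤ s) :
    Pr Th (l + l' + 3) s B := by
  subst hA hB
  exact sub2 h h' hs

lemma refl0 (x : Tm) (hs : ts x + 16 ≤ s) : Pr Th 1 s (Fm.eq x x) :=
  ax (Step.refl x) trivial (by rw [sz_refl]; exact hs)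

section
variable (S : Sub) {x y z x' y' : Tm}
include S

lemma symm0 (h : Pr Th l s (Fm.eq x y)) (hs : 20 * (ts x + ts y) + 300 ≤ s) :
    Pr Th (l + 4) s (Fm.eq y x) := by
  have hz := S.shiftSizeT x 0 1
  refine pr_line (sub3 (φ := Fm.eq (Tm.var 0) (x.shift 0 1)) h (refl0 x (by omega)) ?_ ?_ ?_)
    (by omega)
  · simp only [Fm.inst, inst0, S.instShiftT]
  · simp only [Fm.inst, inst0, S.instShiftT]
  · simp only [fs_eq, ts_var0]; omega

lemma etr0 (h : Pr Th l s (Fm.eq x y)) (h' : Pr Th l' s (Fm.eq y z))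
    (hs : 20 * (ts x + ts y + ts z) + 300 ≤ s) : Pr Th (l + l' + 3) s (Fm.eq x z) := by
  have hz := S.shiftSizeT x 0 1
  refine pr_line (sub3 (φ := Fm.eq (x.shift 0 1) (Tm.var 0)) h' h ?_ ?_ ?_)
    (by omega)
  · simp only [Fm.inst, inst0, S.instShiftT]
  · simp only [Fm.inst, inst0, S.instShiftT]
  · simp only [fs_eq, ts_var0]; omega

/-- congruence for the context `e` -/
lemma cong0 (e : Tm) {X Y : Tm} (h : Pr Th l s (Fm.eq x y)) (hX : e.inst 0 x = X)
    (hY : e.inst 0 y = Y)
    (hs : 20 * (ts e + ts x + ts y + ts X + ts Y) + 300 ≤ s) :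
    Pr Th (l + 4) s (Fm.eq X Y) := by
  have hz := S.shiftSizeT X 0 1
  refine pr_line (sub3 (φ := Fm.eq (X.shift 0 1) e) h (refl0 X (by omega)) ?_ ?_ ?_)
    (by omega)
  · simp only [Fm.inst, S.instShiftT, hX]
  · simp only [Fm.inst, S.instShiftT, hY]
  · simp only [fs_eq]; omega

/-- congruence for a binary function -/
lemma cong2 (f : Tm → Tm → Tm) (K : ℕ) (hf : ∀ p q, ts (f p q) = ts p + ts q + K)
    (hK : K ≤ 20) (hfi : ∀ p q t, (f p q).inst 0 t = f (p.inst 0 t) (q.inst 0 t))
    (h : Pr Th l s (Fm.eq x y)) (h' : Pr Th l' s (Fm.eq x' y'))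
    (hs : 200 * (ts x + ts y + ts x' + ts y') + 3000 ≤ s) :
    Pr Th (l + l' + 20) s (Fm.eq (f x x') (f y y')) := by
  have hz := S.shiftSizeT x' 0 1
  have hz' := S.shiftSizeT y 0 1
  have h1 : Pr Th (l + 4) s (Fm.eq (f x x') (f y x')) :=
    cong0 S (f (Tm.var 0) (x'.shift 0 1)) h (by rw [hfi, inst0, S.instShiftT])
      (by rw [hfi, inst0, S.instShiftT]) (by simp only [hf, ts_var0]; omega)
  have h2 : Pr Th (l' + 4) s (Fm.eq (f y x') (f y y')) :=
    cong0 S (f (y.shift 0 1) (Tm.var 0)) h' (by rw [hfi, inst0, S.instShiftT])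
      (by rw [hfi, inst0, S.instShiftT]) (by simp only [hf, ts_var0]; omega)
  exact pr_line (etr0 S h1 h2 (by simp only [hf]; omega)) (by omega)

/-- replacement in a binary predicate -/
lemma pred2 (R : Tm → Tm → Fm) (K : ℕ) (hR : ∀ p q, fs (R p q) = ts p + ts q + K)
    (hK : K ≤ 100) (hRi : ∀ p q t, (R p q).inst 0 t = R (p.inst 0 t) (q.inst 0 t))
    (h : Pr Th l s (Fm.eq x y)) (h' : Pr Th l' s (Fm.eq x' y')) (h'' : Pr Th l'' s (R y y'))
    (hs : 200 * (ts x + ts y + ts x' + ts y') + 1000 ≤ s) :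
    Pr Th (l + l' + l'' + 20) s (R x x') := by
  have hz := S.shiftSizeT y' 0 1
  have hz' := S.shiftSizeT x 0 1
  have g1 := symm0 S h (by omega)
  have g2 := symm0 S h' (by omega)
  have h1 : Pr Th (l + 4 + l'' + 3) s (R x y') :=
    sub3 (φ := R (Tm.var 0) (y'.shift 0 1)) g1 h'' (by rw [hRi, inst0, S.instShiftT])
      (by rw [hRi, inst0, S.instShiftT]) (by simp only [hR, ts_var0]; omega)
  have h2 : Pr Th (l' + 4 + (l + 4 + l'' + 3) + 3) s (R x x') :=
    sub3 (φ := R (x.shift 0 1) (Tm.var 0)) g2 h1 (by rw [hRi, inst0, S.instShiftT])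
      (by rw [hRi, inst0, S.instShiftT]) (by simp only [hR, ts_var0]; omega)
  exact pr_line h2 (by omega)

/-- replacement in a unary predicate -/
lemma pred1 (R : Tm → Fm) (K : ℕ) (hR : ∀ p, fs (R p) = ts p + K)
    (hK : K ≤ 100) (hRi : ∀ p t, (R p).inst 0 t = R (p.inst 0 t))
    (h : Pr Th l s (Fm.eq x y)) (h' : Pr Th l' s (R y))
    (hs : 200 * (ts x + ts y) + 1000 ≤ s) :
    Pr Th (l + l' + 20) s (R x) := by
  have g1 := symm0 S h (by omega)
  have h1 : Pr Th (l + 4 + l' + 3) s (R x) :=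
    sub3 (φ := R (Tm.var 0)) g1 h' (by rw [hRi, inst0])
      (by rw [hRi, inst0]) (by simp only [hR, ts_var0]; omega)
  exact pr_line h1 (by omega)

end

/-! ### Proofs as trees -/

lemma encProof_size (π : List Step) (s : ℕ) (h : ∀ a ∈ π, a.enc.size ≤ s) :
    (encProof π).size ≤ π.length * (s + 1) + 1 := by
  induction π with
  | nil => simp [encProof, T.size]
  | cons a π ih =>
    have h1 := ih (fun b hb => h b (List.mem_cons_of_mem _ hb))
    have h2 := h a (List.mem_cons_self)
    simp only [encProof, T.size, List.length_cons]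
    have h3 : (π.length + 1) * (s + 1) = π.length * (s + 1) + (s + 1) := by ring
    omega

lemma length_le_size (π : List Step) : π.length ≤ (encProof π).size := by
  induction π with
  | nil => simp [encProof, T.size]
  | cons a π ih =>
    simp only [encProof, T.size, List.length_cons]
    omega

lemma mem_le_size (π : List Step) : ∀ a ∈ π, a.enc.size ≤ (encProof π).size := by
  induction π with
  | nil => simp
  | cons b π ih =>
    intro a ha
    simp only [encProof, T.size]
    rcases List.mem_cons.1 ha with h | h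
    · rw [h]; omega
    · have := ih a h
      omega

end CALC

open CALC in
/-- CALC: the derived rules. -/
theorem CALC_thm (S : Sub) : Calc where
  mono h hl hs := pr_mono h hl hs
  monoTh := by
    rintro Th Th' l s φ ⟨π, h1, h2, h3⟩ hT
    refine ⟨π, ?_, h2, h3⟩
    unfold IsProof at h1 ⊢
    rw [derives_iff] at h1 ⊢
    exact ⟨ok_mono hT π (fun _ h => h) h1.1, h1.2⟩
  size := by
    rintro Th l s φ ⟨π, h1, h2, h3⟩
    refine ⟨π, h1, (encProof_size π s h3).trans ?_⟩
    gcongr
  ofProvable := by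
    rintro Th φ ⟨π, h⟩
    exact ⟨(encProof π).size, π, h, length_le_size π, mem_le_size π⟩
  hyp := by
    intro Th s φ h hs
    exact pr_line (ax (Step.hyp φ) h (by rw [sz_hyp]; omega)) (by omega)
  mp := by
    intro Th l l' s a b h h' hs
    exact pr_line (mp0 h h' (by omega)) (by omega)
  gen := by
    intro Th l s φ h hs
    exact pr_line (gen0 h (by omega)) (by omega)
  inst := by
    intro Th l s φ t h hs
    have h1 : Pr Th 1 s (Fm.imp (Fm.all φ) (φ.inst 0 t)) :=
      ax (Step.allE φ t) trivial (by rw [sz_allE]; omega)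
    exact pr_line (mp0 h1 h (by rw [fs_all]; omega)) (by omega)
  weak := by
    intro Th l s a b h hs
    exact pr_line (wk h (by omega)) (by omega)
  exf := by
    intro Th l s a b h hs
    exact pr_line (tr h (efq b (by omega)) (by rw [fs_bot]; omega)) (by omega)
  botE := by
    intro Th l s b h hs
    exact pr_line (mp0 (efq b (by omega)) h (by rw [fs_bot]; omega)) (by omega)
  nbot := by
    intro Th s hs
    exact pr_line (idn Fm.bot (by rw [fs_bot]; omega)) (by omega)
  nimp := by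
    intro Th l l' s a b h h' hs
    have h1 : Pr Th 5 s (Fm.imp (Fm.imp a b) (Fm.imp a b)) :=
      idn _ (by rw [fs_imp]; omega)
    have h2 : Pr Th (l + 2) s (Fm.imp (Fm.imp a b) a) := wk h (by rw [fs_imp]; omega)
    have h3 := sI h1 h2 (by rw [fs_imp]; omega)
    exact pr_line (tr h3 h' (by rw [fs_imp, fs_bot]; omega)) (by omega)
  nall := by
    intro Th l s φ t h hs
    have h1 : Pr Th 1 s (Fm.imp (Fm.all φ) (φ.inst 0 t)) :=
      ax (Step.allE φ t) trivial (by rw [sz_allE]; omega)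
    exact pr_line (tr h1 h (by rw [fs_all, fs_bot]; omega)) (by omega)
  trans := by
    intro Th l l' s a b c h h' hs
    exact pr_line (tr h h' (by omega)) (by omega)
  cases := by
    intro Th l l' l'' s a b c d h h' h'' hs
    have := fs_pos a
    have := fs_pos b
    have := fs_pos c
    have := fs_pos d
    exact pr_line (cases0 h h' h'' (by omega)) (by omega)
  subst := by
    intro Th l l' s φ x y h h' hs
    exact pr_line (sub2 h h' (by omega)) (by omega)
  substI := by
    intro Th s φ x y hs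
    exact pr_line (ax (Step.subst φ x y) trivial (by rw [sz_subst]; omega)) (by omega)
  refl := by
    intro Th s x hs
    exact pr_line (refl0 x (by omega)) (by omega)
  symm := by
    intro Th l s x y h hs
    exact pr_line (symm0 S h (by omega)) (by omega)
  etrans := by
    intro Th l l' s x y z h h' hs
    exact pr_line (etr0 S h h' (by omega)) (by omega)
  succ := by
    intro Th l s x y h hs
    refine pr_line (cong0 S (Tm.succ (Tm.var 0)) h (X := Tm.succ x) (Y := Tm.succ y) ?_ ?_ ?_)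
      (by omega)
    · change Tm.succ ((Tm.var 0).inst 0 x) = _; rw [inst0]
    · change Tm.succ ((Tm.var 0).inst 0 y) = _; rw [inst0]
    · have := ts_pos x
      have := ts_pos y
      simp only [ts_succ, ts_var0]; omega
  half := by
    intro Th l s x y h hs
    refine pr_line (cong0 S (Tm.half (Tm.var 0)) h (X := Tm.half x) (Y := Tm.half y) ?_ ?_ ?_)
      (by omega)
    · change Tm.half ((Tm.var 0).inst 0 x) = _; rw [inst0]
    · change Tm.half ((Tm.var 0).inst 0 y) = _; rw [inst0]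
    · have := ts_pos x
      have := ts_pos y
      simp only [ts_half, ts_var0]; omega
  len := by
    intro Th l s x y h hs
    refine pr_line (cong0 S (Tm.len (Tm.var 0)) h (X := Tm.len x) (Y := Tm.len y) ?_ ?_ ?_)
      (by omega)
    · change Tm.len ((Tm.var 0).inst 0 x) = _; rw [inst0]
    · change Tm.len ((Tm.var 0).inst 0 y) = _; rw [inst0]
    · have := ts_pos x
      have := ts_pos y
      simp only [ts_len, ts_var0]; omega
  add := by
    intro Th l l' s x y x' y' h h' hs
    have := ts_pos x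
    have := ts_pos y
    have := ts_pos x'
    have := ts_pos y'
    exact pr_line (cong2 S Tm.add 13 ts_add (by norm_num) (fun _ _ _ => rfl) h h' (by omega))
      (by omega)
  mul := by
    intro Th l l' s x y x' y' h h' hs
    have := ts_pos x
    have := ts_pos y
    have := ts_pos x'
    have := ts_pos y'
    exact pr_line (cong2 S Tm.mul 15 ts_mul (by norm_num) (fun _ _ _ => rfl) h h' (by omega))
      (by omega)
  smash := by
    intro Th l l' s x y x' y' h h' hs
    have := ts_pos x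
    have := ts_pos y
    have := ts_pos x'
    have := ts_pos y'
    exact pr_line (cong2 S Tm.smash 17 ts_smash (by norm_num) (fun _ _ _ => rfl) h h' (by omega))
      (by omega)
  leC := by
    intro Th l l' l'' s x y x' y' h h' h'' hs
    exact pr_line (pred2 S Fm.le 23 fs_le (by norm_num) (fun _ _ _ => rfl) h h' h'' (by omega))
      (by omega)
  nleC := by
    intro Th l l' l'' s x y x' y' h h' h'' hs
    exact pr_line (pred2 S (fun p q => Fm.neg (Fm.le p q)) 69
      (fun p q => by rw [fs_neg, fs_le]) (by norm_num) (fun _ _ _ => rfl) h h' h'' (by omega))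
      (by omega)
  neqC := by
    intro Th l l' l'' s x y x' y' h h' h'' hs
    exact pr_line (pred2 S (fun p q => Fm.neg (Fm.eq p q)) 67
      (fun p q => by rw [fs_neg, fs_eq]) (by norm_num) (fun _ _ _ => rfl) h h' h'' (by omega))
      (by omega)
  relC := by
    intro Th l l' s x y h h' hs
    exact pr_line (pred1 S Fm.rel 30 fs_rel (by norm_num) (fun _ _ => rfl) h h' (by omega))
      (by omega)
  nrelC := by
    intro Th l l' s x y h h' hs
    exact pr_line (pred1 S (fun p => Fm.neg (Fm.rel p)) 76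
      (fun p => by rw [fs_neg, fs_rel]) (by norm_num) (fun _ _ => rfl) h h' (by omega))
      (by omega)

end Pool.Agent.RN
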