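import Pool.Agent.RN.PrDefs

/-!
# FACTS: facts about numbers provable from BASIC
-/

namespace Pool.Agent.RN

open Pool.Agent.H19 (T Tm scons)
open Pool.Agent.RO

namespace FACTS

/-- The facts that hold in a model of BASIC, beyond `Good`. -/
structure More {M : Type} (A : H19.Str M) : Prop where
  g : H19.Good A
  addC : ∀ x y, A.add x y = A.add y x
  mulC : ∀ x y, A.mul x y = A.mul y x
  dist : ∀ x y z, A.mul x (A.add y z) = A.add (A.mul x y) (A.mul x z)
  b5 : ∀ x, x ≠ A.zero → A.mul (A.succ (A.succ A.zero)) x ≠ A.zero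

theorem more_of_basic {M : Type} {A : H19.Str M}
    (hb : ∀ φ ∈ H19.basicList, ∀ v : ℕ → M, φ.sat A v) : More A := by
  simp only [H19.basicList, List.mem_cons, List.not_mem_nil, or_false, forall_eq_or_imp,
    forall_eq] at hb
  obtain ⟨h1, h2, h3, h4, h5, h6, h7, h8, h9, h10, h11, h12, h13, h14, h15, h16, h17, h18, h19,
    h20, h21, h22, h23, h24, h25, h26, h27, h28, h29, h30, h31, h32⟩ := hb
  simp only [H19.Fm.sat_neg, H19.Fm.sat_and, H19.Fm.sat_or, H19.Fm.sat_iff, H19.Fm.sat,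
    H19.Tm.val, H19.Tm.two] at *
  let v (x y z u : M) : ℕ → M := scons x (scons y (scons z (scons u fun _ => A.zero)))
  refine ⟨?_, ?_, ?_, ?_, ?_⟩
  · constructor
    · intro x y; exact h1 (v x y x x)
    · intro x; exact h2 (v x x x x)
    · intro x; exact h3 (v x x x x)
    · intro x y; exact h4 (v x y x x)
    · intro x y; exact h6 (v x y x x)
    · intro x y h h'; exact h7 (v x y x x) ⟨h, h'⟩
    · exact h9 (fun _ => A.zero)
    · intro x y; exact h13 (v x y x x)
    · intro y; exact h14 (v y y y y)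
    · intro x; exact h15 (v x x x x)
    · intro x y; exact h16 (v x y x x)
    · intro x y z u; exact h18 (v x y z u)
    · intro x y; exact h19 (v x y x x)
    · intro x; exact h22 (v x x x x)
    · intro x y; exact h23 (v x y x x)
    · intro x; exact h26 (v x x x x)
    · intro x y; exact h27 (v x y x x)
    · intro x y z; exact h30 (v x y z x)
    · intro x; exact h31 (v x x x x)
    · intro x y; exact h32 (v x y x x)
  · intro x y; exact h21 (v x y x x)
  · intro x y; exact h28 (v x y x x)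
  · intro x y z; exact h29 (v x y z x)
  · intro x; exact h5 (v x x x x)

section
variable {M : Type} {A : H19.Str M} (m : More A)
include m

theorem More.dd (x : M) : A.mul (A.succ (A.succ A.zero)) x = A.add x x := by
  rw [m.mulC, m.g.b27, m.g.b27, m.g.b26, m.addC A.zero x, m.g.b22]

theorem More.f2 (x : M) : A.succ (A.succ (A.mul (A.succ (A.succ A.zero)) x)) =
    A.mul (A.succ (A.succ A.zero)) (A.succ x) := by
  rw [m.g.b27, m.g.b23, m.g.b23, m.g.b22]

theorem More.f3 (x y : M) : A.add (A.mul (A.succ (A.succ A.zero)) x)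
    (A.mul (A.succ (A.succ A.zero)) y) = A.mul (A.succ (A.succ A.zero)) (A.add x y) :=
  (m.dist _ _ _).symm

theorem More.f4 (x y : M) : A.add (A.succ (A.mul (A.succ (A.succ A.zero)) x))
    (A.mul (A.succ (A.succ A.zero)) y) =
    A.succ (A.mul (A.succ (A.succ A.zero)) (A.add x y)) := by
  rw [m.addC, m.g.b23, m.f3, m.addC y x]

theorem More.f5 (x y : M) : A.add (A.mul (A.succ (A.succ A.zero)) x)
    (A.succ (A.mul (A.succ (A.succ A.zero)) y)) =
    A.succ (A.mul (A.succ (A.succ A.zero)) (A.add x y)) := by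
  rw [m.g.b23, m.f3]

theorem More.f6 (x y : M) : A.add (A.succ (A.mul (A.succ (A.succ A.zero)) x))
    (A.succ (A.mul (A.succ (A.succ A.zero)) y)) =
    A.mul (A.succ (A.succ A.zero)) (A.succ (A.add x y)) := by
  rw [m.g.b23, m.f4, m.f2]

theorem More.f7 (x : M) : A.add A.zero x = x := by
  rw [m.addC, m.g.b22]

theorem More.f9 (x y : M) : A.mul (A.mul (A.succ (A.succ A.zero)) x) y =
    A.mul (A.succ (A.succ A.zero)) (A.mul x y) := by
  rw [m.mulC, m.dd x, m.dist, ← m.dd, m.mulC y x]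

theorem More.f10 (x y : M) : A.mul (A.succ (A.mul (A.succ (A.succ A.zero)) x)) y =
    A.add (A.mul (A.succ (A.succ A.zero)) (A.mul x y)) y := by
  rw [m.mulC, m.g.b27, m.mulC y, m.f9]

theorem More.f11 (x : M) : A.mul A.zero x = A.zero := by
  rw [m.mulC, m.g.b26]

theorem More.f13 (x : M) : A.half (A.mul (A.succ (A.succ A.zero)) x) = x :=
  ((m.g.b32 x _).2 (Or.inl rfl)).symm

theorem More.f14 (x : M) : A.half (A.succ (A.mul (A.succ (A.succ A.zero)) x)) = x :=
  ((m.g.b32 x _).2 (Or.inr rfl)).symm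

theorem More.f15 : A.half A.zero = A.zero :=
  ((m.g.b32 A.zero A.zero).2 (Or.inl (m.g.b26 _))).symm

theorem More.f19 (x : M) : A.succ x ≠ A.zero := by
  intro h
  have h1 : A.le (A.succ x) A.zero := by
    rw [h]
    exact m.g.b3 _
  obtain ⟨h2, h3⟩ := (m.g.b4 x A.zero).2 h1
  exact h3 (m.g.b7 _ _ h2 (m.g.b3 x))

theorem More.f17 (x : M) : A.len (A.succ (A.mul (A.succ (A.succ A.zero)) x)) =
    A.succ (A.len x) := by
  rw [m.g.b31 _ (m.f19 _), m.f14]

theorem More.f18 (x : M) (hx : x ≠ A.zero) : A.len (A.mul (A.succ (A.succ A.zero)) x) =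
    A.succ (A.len x) := by
  rw [m.g.b31 _ (m.b5 x hx), m.f13]

theorem More.len1 : A.len (A.succ A.zero) = A.succ A.zero := by
  have h := m.f17 A.zero
  rwa [m.g.b26, m.g.b9] at h

theorem More.f22 (x : M) : A.smash x A.zero = A.succ A.zero := by
  rw [m.g.b16, m.g.b14]

theorem More.f23 : A.smash (A.succ A.zero) (A.succ A.zero) =
    A.mul (A.succ (A.succ A.zero)) (A.succ A.zero) := by
  have h1 : A.smash (A.succ A.zero) (A.succ A.zero) = A.nat 2 := m.g.smash_one_one
  have h2 : A.mul (A.succ (A.succ A.zero)) (A.succ A.zero) = A.nat 2 := m.g.mul 2 1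
  rw [h1, h2]

theorem More.addone (x : M) : A.add x (A.succ A.zero) = A.succ x := by
  rw [m.g.b23, m.g.b22]

theorem More.f26 (x y : M) (hx : x ≠ A.zero) :
    A.smash (A.mul (A.succ (A.succ A.zero)) x) y =
      A.mul (A.smash x y) (A.smash (A.succ A.zero) y) := by
  apply m.g.b18
  rw [m.f18 x hx, m.len1, m.addone]

theorem More.f27 (x y : M) :
    A.smash (A.succ (A.mul (A.succ (A.succ A.zero)) x)) y =
      A.mul (A.smash x y) (A.smash (A.succ A.zero) y) := by
  apply m.g.b18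
  rw [m.f17 x, m.len1, m.addone]

theorem More.refl (x : M) : A.le x x := by
  rcases m.g.b6 x x with h | h <;> exact h

theorem More.f31 (x y : M) (h : A.le (A.succ x) y) : ¬ A.le y x := by
  obtain ⟨h2, h3⟩ := (m.g.b4 x y).2 h
  exact fun h4 => h3 (m.g.b7 _ _ h2 h4)

theorem More.f32 (x y : M) (h : A.le x (A.succ y)) : A.le x y ∨ x = A.succ y := by
  by_cases hxy : y = x
  · left
    rw [hxy]
    exact m.refl x
  · rcases m.g.b6 x y with h1 | h1
    · right
      exact m.g.b7 _ _ h ((m.g.b4 y x).1 ⟨h1, hxy⟩)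
    · exact Or.inl h1

end

theorem facts_qf : ∀ θ ∈ factList, qf θ = true := by
  decide

theorem facts_sat {M : Type} {A : Str M} (m : More A.toStr) (θ : Fm) (hθ : θ ∈ factList)
    (v : ℕ → M) : θ.sat A v := by
  simp only [factList, List.mem_cons, List.not_mem_nil, or_false] at hθ
  rcases hθ with rfl | rfl | rfl | rfl | rfl | rfl | rfl | rfl | rfl | rfl | rfl | rfl | rfl |
    rfl | rfl | rfl | rfl | rfl | rfl | rfl | rfl | rfl | rfl | rfl | rfl | rfl | rfl | rfl |
    rfl | rfl | rfl | rfl | rfl <;>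
  simp only [Fm.sat_neg, Fm.sat_or, Fm.sat, H19.Tm.val, H19.Tm.two, one]
  · rw [m.g.b26]
  · exact m.f2 _
  · exact m.f3 _ _
  · exact m.f4 _ _
  · exact m.f5 _ _
  · exact m.f6 _ _
  · exact m.f7 _
  · exact m.g.b22 _
  · exact m.f9 _ _
  · exact m.f10 _ _
  · exact m.f11 _
  · exact m.g.b26 _
  · exact m.f13 _
  · exact m.f14 _
  · exact m.f15
  · exact m.g.b9
  · exact m.f17 _
  · exact m.f18 _
  · exact m.f19 _
  · exact m.b5 _
  · rw [m.g.b26]; exact m.g.b14 _
  · rw [m.g.b26]; exact m.f22 _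
  · rw [m.g.b26]; exact m.f23
  · rw [m.g.b26]; exact fun h => (m.g.b15 _ h).1
  · rw [m.g.b26]; exact fun h => (m.g.b15 _ h).2
  · rw [m.g.b26]; exact m.f26 _ _
  · rw [m.g.b26]; exact fun _ => m.f27 _ _
  · exact m.g.b19 _ _
  · exact fun h => ((m.g.b4 _ _).2 h).2
  · exact fun h h' => ((m.g.b4 _ _).2 h).2 h'.symm
  · exact m.f31 _ _
  · exact m.f32 _ _
  · exact fun h => m.g.b7 _ _ h (m.g.b3 _)

end FACTS

theorem FACTS_thm (hQ : Stmt_QFC) : Stmt_FACTS := by
  intro θ hθ
  refine hQ θ (FACTS.facts_qf θ hθ) fun M A hA v => ?_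
  have m : FACTS.More A.toStr := FACTS.more_of_basic fun φ hφ w =>
    (Fm.emb_sat A φ w).1 (hA _ (List.mem_map_of_mem hφ) w)
  exact FACTS.facts_sat m θ hθ v

end Pool.Agent.RN
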