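import Pool.Agent.RN.PrDefs

/-!
# INST: instances by numerals of a provable formula have short proofs
-/

namespace Pool.Agent.RN

open Pool.Agent.H19 (T Tm scons)
open Pool.Agent.RO

namespace INST

/-- `n` universal quantifiers -/
def allN : ℕ → Fm → Fm
  | 0, φ => φ
  | n + 1, φ => Fm.all (allN n φ)

theorem allN_inst (n k : ℕ) (t : Tm) (φ : Fm) :
    (allN n φ).inst k t = allN n (φ.inst (k + n) t) := by
  induction n generalizing k with
  | zero => rfl
  | succ n ih =>
    show Fm.all ((allN n φ).inst (k + 1) t) = Fm.all (allN n (φ.inst (k + (n + 1)) t))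
    rw [ih (k + 1), Nat.add_right_comm, Nat.add_assoc]

theorem fs_all (φ : Fm) : fs (Fm.all φ) ≤ fs φ + 100 := by
  simp only [fs, Fm.enc, T.size]
  have : (T.unary 12).size ≤ 50 := by decide
  omega

theorem fs_allN (n : ℕ) (φ : Fm) : fs (allN n φ) ≤ fs φ + 100 * n := by
  induction n with
  | zero => exact le_rfl
  | succ n ih =>
    have h1 := fs_all (allN n φ)
    show fs (Fm.all (allN n φ)) ≤ _
    omega

end INST

open INST in
theorem INST_thm (hs : Sub) (hc : Calc) : Stmt_INST := by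
  intro θ hθ
  obtain ⟨k, hk⟩ := hs.exBelowF θ
  obtain ⟨C₀, h0⟩ := hc.ofProvable hθ
  refine ⟨C₀ + 2000 * k + 1000 * (120 * fs θ + 200 * k + 61), fun Th hTh v L hv => ?_⟩
  obtain ⟨X, hX⟩ : ∃ X, X = (L + 1) * fs θ := ⟨_, rfl⟩
  obtain ⟨f, hf⟩ : ∃ f, f = fs θ := ⟨_, rfl⟩
  obtain ⟨S, hS⟩ : ∃ S, S = (C₀ + 2000 * k + 1000 * (120 * fs θ + 200 * k + 61)) * (L + 1) :=
    ⟨_, rfl⟩
  rw [← hS, ← hf]
  have hSb : C₀ + 1000 * (120 * X + 200 * k + 60 * (L + 1) + 1) ≤ S := by
    rw [hS, hX]
    have e : (C₀ + 2000 * k + 1000 * (120 * fs θ + 200 * k + 61)) * (L + 1) =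
      C₀ + 1000 * (120 * ((L + 1) * fs θ) + 200 * k + 60 * (L + 1) + 1) +
      (L * C₀ + 2000 * k * (L + 1) + 200000 * k * L + 1000 * L) := by ring
    rw [e]
    exact Nat.le_add_right _ _
  have hF : f ≤ X := by
    rw [hX, hf]
    exact Nat.le_mul_of_pos_left _ (by positivity)
  have hz : ∀ (w : ℕ → ℕ) (d : ℕ), (∀ i, (w i).size ≤ L) → fs (clF w d θ) ≤ 60 * X := by
    intro w d hw
    rw [hX, ← mul_assoc]
    exact hs.sizeF w L d θ hw
  clear hX hS
  obtain ⟨B, hB⟩ : ∃ B, B = 120 * X + 200 * k + 60 * (L + 1) + 1 := ⟨_, rfl⟩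
  rw [← hB] at hSb
  have hBS : ∀ x, x ≤ B → 1000 * x ≤ S := fun x hx =>
    (Nat.mul_le_mul_left 1000 hx).trans ((Nat.le_add_left _ _).trans hSb)
  have hC₀ : C₀ ≤ S := (Nat.le_add_right _ _).trans hSb
  clear hSb
  have hθ1 : Pr Th C₀ S θ := hc.mono (hc.monoTh h0 hTh) le_rfl hC₀
  -- generalisation
  have h1 : ∀ j, j ≤ k → Pr Th (C₀ + 1000 * j) S (allN j θ) := by
    intro j
    induction j with
    | zero => intro _; exact hθ1
    | succ j ih =>
      intro hj
      have h2 := ih (by omega)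
      clear ih
      have h3 := fs_allN j θ
      rw [← hf] at h3
      exact hc.mono (hc.gen h2 (hBS _ (by omega))) (by omega) le_rfl
  -- instantiation
  have h3 : ∀ i, i ≤ k → Pr Th (C₀ + 1000 * k + 1000 * i) S
      (allN (k - i) (clF (fun m => v (m + (k - i))) (k - i) θ)) := by
    intro i
    induction i with
    | zero =>
      intro _
      rw [Nat.sub_zero, hs.ofBelowF _ _ _ hk]
      exact h1 k le_rfl
    | succ i ih =>
      intro hi
      obtain ⟨j, hj⟩ : ∃ j, k - i = j + 1 := ⟨k - i - 1, by omega⟩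
      have hj' : k - (i + 1) = j := by omega
      have h4 := ih (by omega)
      rw [hj] at h4
      rw [hj']
      have h5 : (allN j (clF (fun m => v (m + (j + 1))) (j + 1) θ)).inst 0 (Tm.numeral (v j)) =
          allN j (clF (fun m => v (m + j)) j θ) := by
        rw [allN_inst, Nat.zero_add, hs.instF]
        congr 2
        funext m
        cases m with
        | zero => show v j = v (0 + j); rw [Nat.zero_add]
        | succ m => show v (m + (j + 1)) = v (m + 1 + j); congr 1; omega
      have e1 := fs_allN j (clF (fun m => v (m + (j + 1))) (j + 1) θ)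
      have e2 := fs_allN j (clF (fun m => v (m + j)) j θ)
      have e3 := hz (fun m => v (m + (j + 1))) (j + 1) (fun i => hv _)
      have e4 := hz (fun m => v (m + j)) j (fun i => hv _)
      have e5 := hs.numSize (v j)
      have e6 := hv j
      rw [← h5] at e2
      have h6 := hc.inst (t := Tm.numeral (v j)) (show Pr Th _ S (Fm.all _) from h4)
        (hBS _ (by omega))
      rw [h5] at h6
      exact hc.mono h6 (by omega) le_rfl
  have h7 := h3 k le_rfl
  rw [Nat.sub_self] at h7
  exact hc.mono h7 (by omega) le_rfl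

end Pool.Agent.RN
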