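import Pool.Agent.RN.PrDefs

/-!
# Arithmetic of numerals: successor and addition (module NUM1)
-/

namespace Pool.Agent.RN.NUM1

open Pool.Agent.H19 (T Tm scons)
open Pool.Agent.RO
open Pool.Agent.H19.Tm (var succ half len add mul smash two numeral)

/-- All facts have short instances, with one constant. -/
theorem facts (hi : Stmt_INST) (hf : Stmt_FACTS) : ∃ C : ℕ, ∀ θ ∈ factList, ∀ (Th : Set Fm),
    S12 ⊆ Th → ∀ (v : ℕ → ℕ) (L : ℕ), (∀ i, (v i).size ≤ L) →
      ∃ l s, l ≤ C ∧ s ≤ C * (L + 1) ∧ Pr Th l s (clF v 0 θ) := by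
  have key : ∀ l : List Fm, (∀ θ ∈ l, Provable S12 θ) → ∃ C : ℕ, ∀ θ ∈ l, ∀ (Th : Set Fm),
      S12 ⊆ Th → ∀ (v : ℕ → ℕ) (L : ℕ), (∀ i, (v i).size ≤ L) →
        ∃ l s, l ≤ C ∧ s ≤ C * (L + 1) ∧ Pr Th l s (clF v 0 θ) := by
    intro l
    induction l with
    | nil =>
      intro _
      exact ⟨0, fun θ hθ => absurd hθ (List.not_mem_nil)⟩
    | cons θ l ih =>
      intro h
      obtain ⟨C1, h1⟩ := ih fun θ' h' => h θ' (List.mem_cons_of_mem _ h')
      obtain ⟨C2, h2⟩ := hi θ (h θ List.mem_cons_self)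
      refine ⟨C1 + C2, ?_⟩
      intro θ' hθ' Th hTh v L hv
      rcases List.mem_cons.1 hθ' with h3 | h3
      · subst h3
        exact ⟨C2, C2 * (L + 1), by omega, Nat.mul_le_mul_right _ (by omega), h2 Th hTh v L hv⟩
      · obtain ⟨l', s', hl, hs, hP⟩ := h1 θ' h3 Th hTh v L hv
        exact ⟨l', s', by omega, hs.trans (Nat.mul_le_mul_right _ (by omega)), hP⟩
  exact key factList hf

/-- The templates of the terms which occur. -/
def tpl : List Tm :=
  [var 0, var 1, two, succ (var 0), mul two (var 0), succ (mul two (var 0)),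
    succ (succ (mul two (var 0))), mul two (succ (var 0)), Tm.zero, succ Tm.zero,
    add (var 0) (var 1), mul two (var 1), succ (mul two (var 1)),
    add (mul two (var 0)) (mul two (var 1)), add (succ (mul two (var 0))) (mul two (var 1)),
    add (mul two (var 0)) (succ (mul two (var 1))),
    add (succ (mul two (var 0))) (succ (mul two (var 1))),
    mul two (add (var 0) (var 1)), succ (mul two (add (var 0) (var 1))),
    succ (add (var 0) (var 1)), mul two (succ (add (var 0) (var 1))),
    add Tm.zero (var 0), add (var 0) Tm.zero]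

/-- A bound for the sizes of the templates. -/
def tb : ℕ := (tpl.map ts).sum + 1

theorem le_tb {t : Tm} (ht : t ∈ tpl) : ts t ≤ tb := by
  have := List.single_le_sum (l := tpl.map ts) (fun _ _ => Nat.zero_le _) (ts t)
    (List.mem_map_of_mem ht)
  unfold tb
  omega

/-- The assignment `p, q, 0, 0, …`. -/
def as (p q : ℕ) : ℕ → ℕ := fun i => if i = 0 then p else if i = 1 then q else 0

theorem as_size {p q M : ℕ} (hp : p.size ≤ M) (hq : q.size ≤ M) (i : ℕ) : (as p q i).size ≤ M := by
  unfold as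
  split_ifs
  · exact hp
  · exact hq
  · simp

theorem cl_size (hs : Sub) {p q M : ℕ} (hp : p.size ≤ M) (hq : q.size ≤ M) {t : Tm}
    (ht : t ∈ tpl) : ts (clT (as p q) 0 t) ≤ 60 * (M + 1) * tb :=
  (hs.sizeT _ M 0 t (as_size hp hq)).trans (Nat.mul_le_mul_left _ (le_tb ht))

/-- The context of the induction. -/
structure Ctx (Th : Set Fm) (C0 L S : ℕ) : Prop where
  hs : Sub
  hc : Calc
  hS : 1000 * (6 * (60 * (L + 2) * tb) + 1) ≤ S
  fact : ∀ θ ∈ factList, ∀ p q : ℕ, p.size ≤ L + 1 → q.size ≤ L + 1 →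
    Pr Th C0 S (clF (as p q) 0 θ)

variable {Th : Set Fm} {C0 L S : ℕ}

theorem Ctx.sz (h : Ctx Th C0 L S) (p q : ℕ) (hp : p.size ≤ L + 1) (hq : q.size ≤ L + 1) {t : Tm}
    (ht : t ∈ tpl) : ts (clT (as p q) 0 t) ≤ 60 * (L + 2) * tb :=
  cl_size h.hs hp hq ht

theorem aux {z B : ℕ} (h1 : z ≤ B) (h : 1000 * (6 * B + 1) ≤ S) : 1000 * (z + 1) ≤ S := by omega

theorem Ctx.two (h : Ctx Th C0 L S) : Pr Th 1000 S (Fm.eq Tm.two Tm.two) := by
  apply h.hc.refl
  have h1 : ts Tm.two ≤ 60 * (L + 2) * tb :=
    h.sz 0 0 (by simp) (by simp) (t := Tm.two) (by simp [tpl])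
  exact aux h1 h.hS

theorem succ_aux (h : Ctx Th C0 L S) : ∀ n a : ℕ, n ≤ L → a.size ≤ n →
    Pr Th ((C0 + 5000) * (n + 1)) S (Fm.eq (succ (numeral a)) (numeral (a + 1))) := by
  intro n
  have hS := h.hS
  have hmono : ∀ {l : ℕ} {φ : Fm} (m : ℕ), Pr Th l S φ → l ≤ (C0 + 5000) * (m + 1) →
      Pr Th ((C0 + 5000) * (m + 1)) S φ := fun m hP hl => h.hc.mono hP hl le_rfl
  induction n with
  | zero =>
    intro a _ ha
    have ha0 : a = 0 := by
      rw [Nat.size_le] at ha
      omega
    subst ha0
    have e0 := h.fact (Fm.eq (succ Tm.zero) one) (by simp [factList]) 0 0 (by simp) (by simp)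
    have e1 : numeral (0 + 1) = one := by
      have := h.hs.numOdd 0
      rw [h.hs.num0] at this
      exact this
    rw [e1, h.hs.num0]
    exact hmono 0 e0 (by omega)
  | succ n ih =>
    intro a hn ha
    rw [Nat.size_le] at ha
    obtain ⟨m, hm | hm⟩ := Nat.even_or_odd' a
    · by_cases hm0 : m = 0
      · have ha0 : a = 0 := by omega
        subst ha0
        have e0 := h.fact (Fm.eq (succ Tm.zero) one) (by simp [factList]) 0 0 (by simp) (by simp)
        have e1 : numeral (0 + 1) = one := by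
          have := h.hs.numOdd 0
          rw [h.hs.num0] at this
          exact this
        rw [e1, h.hs.num0]
        refine hmono (n + 1) e0 ?_
        nlinarith
      · subst hm
        have hmL : m.size ≤ L + 1 := by
          rw [Nat.size_le]
          have h1 : 2 ^ (n + 1) ≤ 2 ^ (L + 1) := Nat.pow_le_pow_right (by norm_num) (by omega)
          omega
        rw [h.hs.numOdd m, h.hs.numEven m hm0]
        have e1 : ts (succ (mul Tm.two (numeral m))) ≤ 60 * (L + 2) * tb :=
          h.sz m 0 hmL (by simp) (t := succ (mul Tm.two (var 0))) (by simp [tpl])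
        refine hmono (n + 1) (h.hc.refl (x := succ (mul Tm.two (numeral m))) (by omega)) ?_
        nlinarith
    · subst hm
      have hmn : m.size ≤ n := by
        rw [Nat.size_le]
        rw [pow_succ] at ha
        omega
      have hmL : m.size ≤ L + 1 := by omega
      have hmL1 : (m + 1).size ≤ L + 1 := by
        rw [Nat.size_le] at hmn ⊢
        have h1 : 2 ^ n ≤ 2 ^ L := Nat.pow_le_pow_right (by norm_num) (by omega)
        rw [pow_succ]
        omega
      have e0 := h.fact (Fm.eq (succ (succ (mul Tm.two (var 0)))) (mul Tm.two (succ (var 0))))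
        (by simp [factList]) m 0 hmL (by simp)
      have e0' : Pr Th C0 S (Fm.eq (succ (succ (mul Tm.two (numeral m))))
        (mul Tm.two (succ (numeral m)))) := e0
      have e1 := ih m (by omega) hmn
      have s1 : ts (succ (succ (mul Tm.two (numeral m)))) ≤ 60 * (L + 2) * tb :=
        h.sz m 0 hmL (by simp) (t := succ (succ (mul Tm.two (var 0)))) (by simp [tpl])
      have s2 : ts (mul Tm.two (succ (numeral m))) ≤ 60 * (L + 2) * tb :=
        h.sz m 0 hmL (by simp) (t := mul Tm.two (succ (var 0))) (by simp [tpl])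
      have s3 : ts (mul Tm.two (numeral (m + 1))) ≤ 60 * (L + 2) * tb :=
        h.sz (m + 1) 0 hmL1 (by simp) (t := mul Tm.two (var 0)) (by simp [tpl])
      have s4 : ts (succ (numeral m)) ≤ 60 * (L + 2) * tb :=
        h.sz m 0 hmL (by simp) (t := succ (var 0)) (by simp [tpl])
      have s5 : ts (numeral (m + 1)) ≤ 60 * (L + 2) * tb :=
        h.sz (m + 1) 0 hmL1 (by simp) (t := var 0) (by simp [tpl])
      have s6 : ts Tm.two ≤ 60 * (L + 2) * tb :=
        h.sz 0 0 (by simp) (by simp) (t := Tm.two) (by simp [tpl])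
      have e2 := h.hc.mul h.two e1 (by omega)
      have e3 := h.hc.etrans e0' e2 (by omega)
      have e4 : numeral (2 * m + 1 + 1) = mul Tm.two (numeral (m + 1)) := by
        rw [← h.hs.numEven (m + 1) (by omega)]
        congr 1
      rw [e4, h.hs.numOdd m]
      refine hmono (n + 1) e3 ?_
      nlinarith

theorem add_aux (h : Ctx Th C0 L S) : ∀ n a b : ℕ, n ≤ L → a.size ≤ n → b.size ≤ n →
    Pr Th ((C0 + 9000 + (C0 + 5000) * (L + 1)) * (n + 1)) S
      (Fm.eq (add (numeral a) (numeral b)) (numeral (a + b))) := by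
  intro n
  have hS := h.hS
  obtain ⟨K, hK⟩ : ∃ K, K = C0 + 9000 + (C0 + 5000) * (L + 1) := ⟨_, rfl⟩
  rw [← hK]
  have hKC : C0 ≤ K := by omega
  have hmono : ∀ {l : ℕ} {φ : Fm} (m : ℕ), Pr Th l S φ → l ≤ K * (m + 1) →
      Pr Th (K * (m + 1)) S φ := fun m hP hl => h.hc.mono hP hl le_rfl
  have hzero : ∀ n b : ℕ, n ≤ L → b.size ≤ n →
      Pr Th (K * (n + 1)) S (Fm.eq (add (numeral 0) (numeral b)) (numeral (0 + b))) := by
    intro n b hn hb
    have e0 := h.fact (Fm.eq (add Tm.zero (var 0)) (var 0)) (by simp [factList]) b 0 (by omega)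
      (by simp)
    rw [h.hs.num0, zero_add]
    refine hmono n e0 ?_
    nlinarith
  have hzero' : ∀ n b : ℕ, n ≤ L → b.size ≤ n →
      Pr Th (K * (n + 1)) S (Fm.eq (add (numeral b) (numeral 0)) (numeral (b + 0))) := by
    intro n b hn hb
    have e0 := h.fact (Fm.eq (add (var 0) Tm.zero) (var 0)) (by simp [factList]) b 0 (by omega)
      (by simp)
    rw [h.hs.num0, add_zero]
    refine hmono n e0 ?_
    nlinarith
  induction n with
  | zero =>
    intro a b hn ha hb
    have ha0 : a = 0 := by
      rw [Nat.size_le] at ha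
      omega
    subst ha0
    exact hzero 0 b hn hb
  | succ n ih =>
    intro a b hn ha hb
    by_cases ha0 : a = 0
    · subst ha0
      exact hzero _ b hn hb
    by_cases hb0 : b = 0
    · subst hb0
      exact hzero' _ a hn ha
    rw [Nat.size_le, pow_succ] at ha hb
    obtain ⟨x, hx⟩ := Nat.even_or_odd' a
    obtain ⟨y, hy⟩ := Nat.even_or_odd' b
    have hpow : 2 ^ n ≤ 2 ^ L := Nat.pow_le_pow_right (by norm_num) (by omega)
    have hpow1 : 2 * 2 ^ n ≤ 2 ^ L := by
      rw [mul_comm, ← pow_succ]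
      exact Nat.pow_le_pow_right (by norm_num) hn
    have hxn : x.size ≤ n := by
      rw [Nat.size_le]
      omega
    have hyn : y.size ≤ n := by
      rw [Nat.size_le]
      omega
    have hxL : x.size ≤ L + 1 := by omega
    have hyL : y.size ≤ L + 1 := by omega
    have hzL : (x + y).size ≤ L := by
      rw [Nat.size_le] at hxn hyn ⊢
      omega
    have hzL1 : (x + y).size ≤ L + 1 := by omega
    have hwL1 : (x + y + 1).size ≤ L + 1 := by
      rw [Nat.size_le] at hzL ⊢
      rw [pow_succ]
      have := Nat.one_le_two_pow (n := L)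
      omega
    have e1 := ih x y (by omega) hxn hyn
    have sz := fun (t : Tm) (ht : t ∈ tpl) => h.sz x y hxL hyL ht
    have sz2 := fun (t : Tm) (ht : t ∈ tpl) => h.sz (x + y) (x + y + 1) hzL1 hwL1 ht
    have t1 : ts (add (numeral x) (numeral y)) ≤ 60 * (L + 2) * tb :=
      sz (add (var 0) (var 1)) (by simp [tpl])
    have t2 : ts (mul Tm.two (add (numeral x) (numeral y))) ≤ 60 * (L + 2) * tb :=
      sz (mul Tm.two (add (var 0) (var 1))) (by simp [tpl])
    have t3 : ts (succ (mul Tm.two (add (numeral x) (numeral y)))) ≤ 60 * (L + 2) * tb :=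
      sz (succ (mul Tm.two (add (var 0) (var 1)))) (by simp [tpl])
    have t4 : ts (mul Tm.two (succ (add (numeral x) (numeral y)))) ≤ 60 * (L + 2) * tb :=
      sz (mul Tm.two (succ (add (var 0) (var 1)))) (by simp [tpl])
    have t5 : ts (succ (add (numeral x) (numeral y))) ≤ 60 * (L + 2) * tb :=
      sz (succ (add (var 0) (var 1))) (by simp [tpl])
    have t6 : ts (add (mul Tm.two (numeral x)) (mul Tm.two (numeral y))) ≤ 60 * (L + 2) * tb :=
      sz (add (mul Tm.two (var 0)) (mul Tm.two (var 1))) (by simp [tpl])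
    have t7 : ts (add (succ (mul Tm.two (numeral x))) (mul Tm.two (numeral y))) ≤
      60 * (L + 2) * tb := sz (add (succ (mul Tm.two (var 0))) (mul Tm.two (var 1)))
        (by simp [tpl])
    have t8 : ts (add (mul Tm.two (numeral x)) (succ (mul Tm.two (numeral y)))) ≤
      60 * (L + 2) * tb := sz (add (mul Tm.two (var 0)) (succ (mul Tm.two (var 1))))
        (by simp [tpl])
    have t9 : ts (add (succ (mul Tm.two (numeral x))) (succ (mul Tm.two (numeral y)))) ≤
      60 * (L + 2) * tb := sz (add (succ (mul Tm.two (var 0))) (succ (mul Tm.two (var 1))))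
        (by simp [tpl])
    have u1 : ts (numeral (x + y)) ≤ 60 * (L + 2) * tb := sz2 (var 0) (by simp [tpl])
    have u2 : ts (mul Tm.two (numeral (x + y))) ≤ 60 * (L + 2) * tb :=
      sz2 (mul Tm.two (var 0)) (by simp [tpl])
    have u3 : ts (succ (mul Tm.two (numeral (x + y)))) ≤ 60 * (L + 2) * tb :=
      sz2 (succ (mul Tm.two (var 0))) (by simp [tpl])
    have u4 : ts (succ (numeral (x + y))) ≤ 60 * (L + 2) * tb :=
      sz2 (succ (var 0)) (by simp [tpl])
    have u5 : ts (numeral (x + y + 1)) ≤ 60 * (L + 2) * tb := sz2 (var 1) (by simp [tpl])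
    have u6 : ts (mul Tm.two (numeral (x + y + 1))) ≤ 60 * (L + 2) * tb :=
      sz2 (mul Tm.two (var 1)) (by simp [tpl])
    have s6 : ts Tm.two ≤ 60 * (L + 2) * tb := sz Tm.two (by simp [tpl])
    have e2 := h.hc.mul h.two e1 (by omega)
    rcases hx with hx | hx <;> rcases hy with hy | hy
    · -- even, even
      have e0 : Pr Th C0 S (Fm.eq (add (mul Tm.two (numeral x)) (mul Tm.two (numeral y)))
          (mul Tm.two (add (numeral x) (numeral y)))) :=
        h.fact (Fm.eq (add (mul Tm.two (var 0)) (mul Tm.two (var 1)))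
          (mul Tm.two (add (var 0) (var 1)))) (by simp [factList]) x y hxL hyL
      have e3 := h.hc.etrans e0 e2 (by omega)
      subst hx
      subst hy
      rw [h.hs.numEven x (by omega), h.hs.numEven y (by omega), ← mul_add,
        h.hs.numEven (x + y) (by omega)]
      refine hmono (n + 1) e3 ?_
      nlinarith
    · -- even, odd
      have e0 : Pr Th C0 S (Fm.eq (add (mul Tm.two (numeral x)) (succ (mul Tm.two (numeral y))))
          (succ (mul Tm.two (add (numeral x) (numeral y))))) :=
        h.fact (Fm.eq (add (mul Tm.two (var 0)) (succ (mul Tm.two (var 1))))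
          (succ (mul Tm.two (add (var 0) (var 1))))) (by simp [factList]) x y hxL hyL
      have e4 := h.hc.succ e2 (by omega)
      have e3 := h.hc.etrans e0 e4 (by omega)
      subst hx
      subst hy
      rw [h.hs.numEven x (by omega), h.hs.numOdd y, ← add_assoc, ← mul_add, h.hs.numOdd (x + y)]
      refine hmono (n + 1) e3 ?_
      nlinarith
    · -- odd, even
      have e0 : Pr Th C0 S (Fm.eq (add (succ (mul Tm.two (numeral x))) (mul Tm.two (numeral y)))
          (succ (mul Tm.two (add (numeral x) (numeral y))))) :=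
        h.fact (Fm.eq (add (succ (mul Tm.two (var 0))) (mul Tm.two (var 1)))
          (succ (mul Tm.two (add (var 0) (var 1))))) (by simp [factList]) x y hxL hyL
      have e4 := h.hc.succ e2 (by omega)
      have e3 := h.hc.etrans e0 e4 (by omega)
      subst hx
      subst hy
      have e5 : 2 * x + 1 + 2 * y = 2 * (x + y) + 1 := by ring
      rw [e5, h.hs.numEven y (by omega), h.hs.numOdd x, h.hs.numOdd (x + y)]
      refine hmono (n + 1) e3 ?_
      nlinarith
    · -- odd, odd
      have e0 : Pr Th C0 S (Fm.eq (add (succ (mul Tm.two (numeral x)))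
          (succ (mul Tm.two (numeral y)))) (mul Tm.two (succ (add (numeral x) (numeral y))))) :=
        h.fact (Fm.eq (add (succ (mul Tm.two (var 0))) (succ (mul Tm.two (var 1))))
          (mul Tm.two (succ (add (var 0) (var 1))))) (by simp [factList]) x y hxL hyL
      have e4 := h.hc.succ e1 (by omega)
      have e5 := succ_aux h L (x + y) le_rfl hzL
      have e6 := h.hc.etrans e4 e5 (by omega)
      have e7 := h.hc.mul h.two e6 (by omega)
      have e3 := h.hc.etrans e0 e7 (by omega)
      subst hx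
      subst hy
      have e8 : 2 * x + 1 + (2 * y + 1) = 2 * (x + y + 1) := by ring
      rw [e8, h.hs.numOdd y, h.hs.numOdd x, h.hs.numEven (x + y + 1) (by omega)]
      refine hmono (n + 1) e3 ?_
      nlinarith

end Pool.Agent.RN.NUM1

namespace Pool.Agent.RN

open Pool.Agent.RO

theorem NUM1_thm (hs : Sub) (hc : Calc) (hi : Stmt_INST) (hf : Stmt_FACTS) : Stmt_NUM1 := by
  obtain ⟨C0, hC0⟩ := NUM1.facts hi hf
  obtain ⟨z, hz⟩ : ∃ z, z = NUM1.tb := ⟨_, rfl⟩
  obtain ⟨C, hC⟩ : ∃ C, C = 2 * C0 + 1000000 * z + 20000 + 1000000 := ⟨_, rfl⟩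
  refine ⟨C, ?_⟩
  intro Th hTh L a b ha hb
  have hctx : NUM1.Ctx Th C0 L (C * (L + 1)) :=
    { hs := hs
      hc := hc
      hS := by
        rw [← hz]
        have : 1000 * (6 * (60 * (L + 2) * z) + 1) ≤
            (1000000 * z + 1000000) * (L + 1) := by nlinarith
        refine this.trans (Nat.mul_le_mul_right _ ?_)
        omega
      fact := by
        intro θ hθ p q hp hq
        obtain ⟨l, s, hl, hs', hP⟩ := hC0 θ hθ Th hTh (NUM1.as p q) (L + 1)
          (NUM1.as_size hp hq)
        refine hc.mono hP hl (hs'.trans ?_)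
        have : C0 * (L + 1 + 1) ≤ 2 * C0 * (L + 1) := by nlinarith
        refine this.trans (Nat.mul_le_mul_right _ ?_)
        omega }
  refine ⟨?_, ?_⟩
  · refine hc.mono (NUM1.succ_aux hctx L a le_rfl ha) (Nat.mul_le_mul_right _ (by omega)) le_rfl
  · refine hc.mono (NUM1.add_aux hctx L a b le_rfl ha hb) ?_ le_rfl
    rw [pow_two, ← mul_assoc]
    apply Nat.mul_le_mul_right
    nlinarith

end Pool.Agent.RN
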