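import Pool.Agent.RN.PrDefs

/-!
# Multiplication and smash of numerals (module RN_NUM2)
-/

namespace Pool.Agent.RN.NUM2

open Pool.Agent.H19 (T Tm scons)
open Pool.Agent.RO

/-! ### Sizes -/

theorem ts_zero : ts Tm.zero = 7 := rfl

theorem ts_two : ts Tm.two = 23 := rfl

theorem clT_two (v : ℕ → ℕ) (d : ℕ) : clT v d Tm.two = Tm.two := rfl

theorem ts_succ (t : Tm) : ts (Tm.succ t) = ts t + 8 := by
  simp only [ts, Tm.enc, T.size, T.size_unary]; omega

theorem ts_mul (s t : Tm) : ts (Tm.mul s t) = ts s + ts t + 15 := by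
  simp only [ts, Tm.enc, T.size, T.size_unary]; omega

theorem ts_add (s t : Tm) : ts (Tm.add s t) = ts s + ts t + 13 := by
  simp only [ts, Tm.enc, T.size, T.size_unary]; omega

theorem ts_smash (s t : Tm) : ts (Tm.smash s t) = ts s + ts t + 17 := by
  simp only [ts, Tm.enc, T.size, T.size_unary]; omega

theorem fs_eq (s t : Tm) : fs (Fm.eq s t) = ts s + ts t + 21 := by
  simp only [fs, ts, Fm.enc, T.size, T.size_unary]; omega

theorem fs_neg (φ : Fm) : fs (Fm.neg φ) = fs φ + 46 := by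
  simp only [Fm.neg, fs, Fm.enc, T.size, T.size_unary]; omega

/-! ### Facts -/

/-- a fact, instantiated by two numerals -/
theorem fact (hi : Stmt_INST) (hf : Stmt_FACTS) (θ : Fm) (hθ : θ ∈ factList) :
    ∃ C : ℕ, ∀ (Th : Set Fm), S12 ⊆ Th → ∀ L x y : ℕ, x.size ≤ L → y.size ≤ L →
      Pr Th C (C * (L + 1)) (clF (scons x (scons y fun _ => 0)) 0 θ) := by
  obtain ⟨C, hC⟩ := hi θ (hf θ hθ)
  refine ⟨C, fun Th hTh L x y hx hy => hC Th hTh _ L ?_⟩
  intro i
  match i with
  | 0 => exact hx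
  | 1 => exact hy
  | i + 2 => simp [scons]

theorem size_two_mul {m : ℕ} (hm : m ≠ 0) : (2 * m).size = m.size + 1 := by
  have h := Nat.size_bit (b := false) (n := m) (by simpa [Nat.bit] using hm)
  simpa [Nat.bit] using h

theorem size_two_mul_add_one (m : ℕ) : (2 * m + 1).size = m.size + 1 := by
  have h := Nat.size_bit (b := true) (n := m) (by simp [Nat.bit])
  simpa [Nat.bit] using h

/-- doubling -/
theorem dbl (hs : Sub) (hc : Calc) (hi : Stmt_INST) (hf : Stmt_FACTS) :
    ∃ C : ℕ, ∀ (Th : Set Fm), S12 ⊆ Th → ∀ (s c l : ℕ) (t : Tm),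
      C * (c.size + 1) ≤ s → 2000 * ts t ≤ s → Pr Th l s (Fm.eq t (Tm.numeral c)) →
      Pr Th (l + C) s (Fm.eq (Tm.mul Tm.two t) (Tm.numeral (2 * c))) := by
  obtain ⟨C1, h11⟩ := fact hi hf (Fm.eq (Tm.mul Tm.two Tm.zero) Tm.zero) (by simp [factList])
  refine ⟨1000000 + C1, fun Th hTh s c l t h1 h2 h => ?_⟩
  have hn := hs.numSize c
  have h3 : 1000000 * (c.size + 1) ≤ s := by nlinarith
  have h4 : C1 * (c.size + 1) ≤ s := by nlinarith
  have hm : Pr Th (1000 + l + 1000) s (Fm.eq (Tm.mul Tm.two t) (Tm.mul Tm.two (Tm.numeral c))) := by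
    refine hc.mul (hc.refl ?_) h ?_
    · rw [ts_two]; omega
    · rw [ts_two]; omega
  by_cases h0 : c = 0
  · subst h0
    have h5 := h11 Th hTh 0 0 0 (by simp) (by simp)
    simp only [clF, clT, clT_two] at h5
    rw [mul_zero, hs.num0]
    rw [hs.num0] at hm
    have h6 : Pr Th C1 s (Fm.eq (Tm.mul Tm.two Tm.zero) Tm.zero) :=
      hc.mono h5 le_rfl (by simpa using h4)
    refine hc.mono (hc.etrans hm h6 ?_) (by omega) le_rfl
    rw [ts_mul, ts_mul, ts_two, ts_zero]; omega
  · rw [hs.numEven c h0]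
    exact hc.mono hm (by omega) le_rfl

theorem lines {Z m x l : ℕ} (hl : l ≤ Z * (m + 1) + x) (h : x ≤ Z) : l ≤ Z * (m + 1 + 1) := by
  have e : Z * (m + 1 + 1) = Z * (m + 1) + Z := by ring
  rw [e]
  exact le_trans hl (Nat.add_le_add_left h _)

/-! ### Multiplication -/

theorem mulC (hs : Sub) (hc : Calc) (hi : Stmt_INST) (hf : Stmt_FACTS) (h1 : Stmt_NUM1) :
    ∃ C : ℕ, ∀ (Th : Set Fm), S12 ⊆ Th → ∀ L b : ℕ, b.size ≤ L → ∀ a : ℕ, a.size ≤ L →
      Pr Th (C * (L + 1) ^ 2 * (a.size + 1)) (C * (L + 1))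
        (Fm.eq (Tm.mul (Tm.numeral a) (Tm.numeral b)) (Tm.numeral (a * b))) := by
  obtain ⟨C1, h8⟩ := fact hi hf (Fm.eq (Tm.mul (Tm.mul Tm.two (Tm.var 0)) (Tm.var 1))
    (Tm.mul Tm.two (Tm.mul (Tm.var 0) (Tm.var 1)))) (by simp [factList])
  obtain ⟨C2, h9⟩ := fact hi hf (Fm.eq (Tm.mul (Tm.succ (Tm.mul Tm.two (Tm.var 0))) (Tm.var 1))
    (Tm.add (Tm.mul Tm.two (Tm.mul (Tm.var 0) (Tm.var 1))) (Tm.var 1))) (by simp [factList])
  obtain ⟨C3, h10⟩ := fact hi hf (Fm.eq (Tm.mul Tm.zero (Tm.var 0)) Tm.zero) (by simp [factList])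
  obtain ⟨C4, hd⟩ := dbl hs hc hi hf
  obtain ⟨C5, hn1⟩ := h1
  obtain ⟨K, hK⟩ : ∃ K, K = 1000000 + C1 + C2 + C3 + 2 * C4 + 4 * C5 := ⟨_, rfl⟩
  refine ⟨K, fun Th hTh L b hb a => ?_⟩
  have hKs : ∀ c, c ≤ K → c * (L + 1) ≤ K * (L + 1) := fun c hc' => Nat.mul_le_mul_right _ hc'
  have hs0 : 1000000 * (L + 1) ≤ K * (L + 1) := hKs _ (by omega)
  have hs1 : C1 * (L + 1) ≤ K * (L + 1) := hKs _ (by omega)
  have hs2 : C2 * (L + 1) ≤ K * (L + 1) := hKs _ (by omega)
  have hs3 : C3 * (L + 1) ≤ K * (L + 1) := hKs _ (by omega)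
  have hs4 : C4 * (2 * L + 1) ≤ K * (L + 1) := by
    calc C4 * (2 * L + 1) ≤ (2 * C4) * (L + 1) := by nlinarith
      _ ≤ K * (L + 1) := hKs _ (by omega)
  have hs5 : C5 * (2 * L + 1) ≤ K * (L + 1) := by
    calc C5 * (2 * L + 1) ≤ (4 * C5) * (L + 1) := by nlinarith
      _ ≤ K * (L + 1) := hKs _ (by omega)
  have hL2 : 1 ≤ (L + 1) ^ 2 := Nat.one_le_pow _ _ (by omega)
  have hl5 : C5 * (2 * L + 1) ^ 2 ≤ (4 * C5) * (L + 1) ^ 2 := by
    have : (2 * L + 1) ^ 2 ≤ 4 * (L + 1) ^ 2 := by nlinarith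
    nlinarith
  have hKl : (1000000 + C1 + C2 + C3 + 2 * C4) + (4 * C5) * (L + 1) ^ 2 ≤ K * (L + 1) ^ 2 := by
    have : (1000000 + C1 + C2 + C3 + 2 * C4) ≤ (1000000 + C1 + C2 + C3 + 2 * C4) * (L + 1) ^ 2 :=
      Nat.le_mul_of_pos_right _ hL2
    calc _ ≤ (1000000 + C1 + C2 + C3 + 2 * C4) * (L + 1) ^ 2 + (4 * C5) * (L + 1) ^ 2 := by omega
      _ = K * (L + 1) ^ 2 := by rw [hK]; ring
  induction a using Nat.strong_induction_on with
  | _ a ih =>
  intro ha
  have hnb := hs.numSize b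
  rcases Nat.eq_zero_or_pos a with h0 | hpos
  · subst h0
    have h := h10 Th hTh L b 0 hb (by simp)
    simp only [clF, clT, scons, Nat.not_lt_zero, if_false, Nat.sub_zero] at h
    rw [zero_mul, hs.num0]
    refine hc.mono h ?_ hs3
    simp only [Nat.size_zero, zero_add, mul_one]
    omega
  · obtain ⟨m, hm | hm⟩ : ∃ m, a = 2 * m ∨ a = 2 * m + 1 := ⟨a / 2, by omega⟩
    · have hm0 : m ≠ 0 := by omega
      have hsz : a.size = m.size + 1 := by rw [hm, size_two_mul hm0]
      have hmL : m.size ≤ L := by omega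
      have IH := ih m (by omega) hmL
      have hnm := hs.numSize m
      have hmb : (m * b).size ≤ 2 * L := by
        have h : (m * b).size ≤ m.size + b.size := by
          rw [Nat.size_le, pow_add]
          exact Nat.mul_lt_mul'' (Nat.lt_size_self m) (Nat.lt_size_self b)
        omega
      have hnmb := hs.numSize (m * b)
      have h8' := h8 Th hTh L m b hmL hb
      simp only [clF, clT, clT_two, scons, Nat.not_lt_zero, if_false, Nat.sub_zero] at h8'
      have h8'' := hc.mono h8' le_rfl hs1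
      have hd' := hd Th hTh (K * (L + 1)) (m * b) _ _ (le_trans (Nat.mul_le_mul_left _
        (by omega)) hs4) (by rw [ts_mul]; omega) IH
      have hn2 := hs.numSize (2 * (m * b))
      have hsz2 : (2 * (m * b)).size ≤ (m * b).size + 1 := by
        rcases Nat.eq_zero_or_pos (m * b) with h | h
        · rw [h]; simp
        · rw [size_two_mul (by omega)]
      have e1 : Tm.numeral a = Tm.mul Tm.two (Tm.numeral m) := by
        rw [hm, hs.numEven m hm0]
      have e2 : a * b = 2 * (m * b) := by rw [hm]; ring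
      rw [e1, e2]
      refine hc.mono (hc.etrans h8'' hd' ?_) ?_ le_rfl
      · refine le_trans ?_ hs0
        simp only [ts_mul, ts_two]
        omega
      · rw [hsz]
        refine lines (x := C1 + C4 + 1000) (le_of_eq (by ring)) (le_trans ?_ hKl)
        omega
    · have hsz : a.size = m.size + 1 := by rw [hm, size_two_mul_add_one]
      have hmL : m.size ≤ L := by omega
      have IH := ih m (by omega) hmL
      have hnm := hs.numSize m
      have hmb : (m * b).size ≤ m.size + b.size := by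
        rw [Nat.size_le, pow_add]
        exact Nat.mul_lt_mul'' (Nat.lt_size_self m) (Nat.lt_size_self b)
      have hnmb := hs.numSize (m * b)
      have h9' := h9 Th hTh L m b hmL hb
      simp only [clF, clT, clT_two, scons, Nat.not_lt_zero, if_false, Nat.sub_zero] at h9'
      have h9'' := hc.mono h9' le_rfl hs2
      have hd' := hd Th hTh (K * (L + 1)) (m * b) _ _ (le_trans (Nat.mul_le_mul_left _
        (by omega)) hs4) (by rw [ts_mul]; omega) IH
      have hsz2 : (2 * (m * b)).size ≤ (m * b).size + 1 := by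
        rcases Nat.eq_zero_or_pos (m * b) with h | h
        · rw [h]; simp
        · rw [size_two_mul (by omega)]
      have hn2 := hs.numSize (2 * (m * b))
      have hab : (2 * (m * b) + b).size ≤ 2 * L := by
        have h : (a * b).size ≤ a.size + b.size := by
          rw [Nat.size_le, pow_add]
          exact Nat.mul_lt_mul'' (Nat.lt_size_self a) (Nat.lt_size_self b)
        have e : 2 * (m * b) + b = a * b := by rw [hm]; ring
        rw [e]; omega
      have hn3 := hs.numSize (2 * (m * b) + b)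
      have hadd := (hn1 Th hTh (2 * L) (2 * (m * b)) b (by omega) (by omega)).2
      have hadd' := hc.mono hadd le_rfl hs5
      have hcon := hc.add hd' (hc.refl (x := Tm.numeral b) (s := K * (L + 1)) (Th := Th)
        (by omega)) (le_trans (by simp only [ts_mul, ts_two]; omega) hs0)
      have e1 : Tm.numeral a = Tm.succ (Tm.mul Tm.two (Tm.numeral m)) := by
        rw [hm, hs.numOdd]
      have e2 : a * b = 2 * (m * b) + b := by rw [hm]; ring
      rw [e1, e2]
      refine hc.mono (hc.etrans h9'' (hc.etrans hcon hadd' ?_) ?_) ?_ le_rfl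
      · refine le_trans ?_ hs0
        simp only [ts_mul, ts_add, ts_two]
        omega
      · refine le_trans ?_ hs0
        simp only [ts_mul, ts_add, ts_succ, ts_two]
        omega
      · rw [hsz]
        refine lines (x := C2 + C4 + 4000 + (4 * C5) * (L + 1) ^ 2) ?_
          (le_trans (Nat.add_le_add_right (by omega) _) hKl)
        calc _ = K * (L + 1) ^ 2 * (m.size + 1) + (C2 + C4 + 4000 + C5 * (2 * L + 1) ^ 2) := by
              ring
          _ ≤ _ := Nat.add_le_add_left (Nat.add_le_add_left hl5 _) _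

/-! ### Smash -/

theorem clT_one (v : ℕ → ℕ) (d : ℕ) : clT v d one = one := rfl

theorem clF_neg (v : ℕ → ℕ) (d : ℕ) (φ : Fm) : clF v d (Fm.neg φ) = Fm.neg (clF v d φ) := rfl

theorem ts_one : ts one = 53 := rfl

theorem num_one (hs : Sub) : Tm.numeral 1 = one := by
  have h := hs.numOdd 0
  rw [hs.num0] at h
  exact h

theorem size_one : (1 : ℕ).size = 1 := by
  simp

/-- numerals of nonzero numbers are not zero -/
theorem nz (hs : Sub) (hc : Calc) (hi : Stmt_INST) (hf : Stmt_FACTS) :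
    ∃ C : ℕ, ∀ (Th : Set Fm), S12 ⊆ Th → ∀ L m : ℕ, m.size ≤ L → m ≠ 0 →
      Pr Th (C * m.size) (C * (L + 1)) (Fm.neg (Fm.eq (Tm.numeral m) Tm.zero)) := by
  obtain ⟨C1, h0⟩ := fact hi hf (Fm.eq (Tm.succ Tm.zero) one) (by simp [factList])
  obtain ⟨C2, h18⟩ := fact hi hf (Fm.neg (Fm.eq (Tm.succ (Tm.var 0)) Tm.zero)) (by simp [factList])
  obtain ⟨C3, h19⟩ := fact hi hf (Fm.imp (Fm.neg (Fm.eq (Tm.var 0) Tm.zero))
    (Fm.neg (Fm.eq (Tm.mul Tm.two (Tm.var 0)) Tm.zero))) (by simp [factList])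
  obtain ⟨K, hK⟩ : ∃ K, K = 1000000 + C1 + C2 + C3 := ⟨_, rfl⟩
  refine ⟨K, fun Th hTh L m => ?_⟩
  have hKs : ∀ c, c ≤ K → c * (L + 1) ≤ K * (L + 1) := fun c hc' => Nat.mul_le_mul_right _ hc'
  have hs0 : 1000000 * (L + 1) ≤ K * (L + 1) := hKs _ (by omega)
  have hs1 : C1 * (L + 1) ≤ K * (L + 1) := hKs _ (by omega)
  have hs2 : C2 * (L + 1) ≤ K * (L + 1) := hKs _ (by omega)
  have hs3 : C3 * (L + 1) ≤ K * (L + 1) := hKs _ (by omega)
  induction m using Nat.strong_induction_on with
  | _ m ih =>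
  intro hmL hm0
  obtain ⟨k, hk | hk⟩ : ∃ k, m = 2 * k ∨ m = 2 * k + 1 := ⟨m / 2, by omega⟩
  · have hk0 : k ≠ 0 := by omega
    have hsz : m.size = k.size + 1 := by rw [hk, size_two_mul hk0]
    have IH := ih k (by omega) (by omega) hk0
    have hnk := hs.numSize k
    have h := h19 Th hTh L k 0 (by omega) (by simp)
    simp only [clF, clF_neg, clT, clT_two, scons, Nat.not_lt_zero, if_false, Nat.sub_zero] at h
    have e1 : Tm.numeral m = Tm.mul Tm.two (Tm.numeral k) := by rw [hk, hs.numEven k hk0]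
    rw [e1]
    refine hc.mono (hc.mp (hc.mono h le_rfl hs3) IH ?_) ?_ le_rfl
    · refine le_trans ?_ hs0
      simp only [fs_neg, fs_eq, ts_mul, ts_two, ts_zero]
      omega
    · rw [hsz]
      have e : K * (k.size + 1) = K * k.size + K := by ring
      rw [e]
      omega
  · by_cases hk0 : k = 0
    · subst hk0
      have h2 := h18 Th hTh L 0 0 (by simp) (by simp)
      simp only [clF, clF_neg, clT, scons, Nat.not_lt_zero, if_false, Nat.sub_zero] at h2
      rw [hs.num0] at h2
      have h1 := h0 Th hTh L 0 0 (by simp) (by simp)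
      simp only [clF, clT, clT_one] at h1
      have e1 : Tm.numeral m = one := by rw [hk]; exact num_one hs
      rw [e1]
      have h3 := hc.symm (hc.mono h1 le_rfl hs1) (le_trans (by
        simp only [ts_succ, ts_zero, ts_one]; omega) hs0)
      have h4 := hc.refl (Th := Th) (s := K * (L + 1)) (x := Tm.zero) (le_trans (by
        simp only [ts_zero]; omega) hs0)
      refine hc.mono (hc.neqC h3 h4 (hc.mono h2 le_rfl hs2) ?_) ?_ le_rfl
      · refine le_trans ?_ hs0
        simp only [ts_succ, ts_zero, ts_one]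
        omega
      · have hsz : m.size = 1 := by rw [hk]; exact size_one
        rw [hsz, mul_one]
        omega
    · have h2k : 2 * k ≠ 0 := by omega
      have hsz : m.size = k.size + 1 := by rw [hk, size_two_mul_add_one]
      have hsz2 : (2 * k).size = k.size + 1 := size_two_mul hk0
      have h := h18 Th hTh L (2 * k) 0 (by omega) (by simp)
      simp only [clF, clF_neg, clT, scons, Nat.not_lt_zero, if_false, Nat.sub_zero] at h
      have e1 : Tm.numeral m = Tm.succ (Tm.numeral (2 * k)) := by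
        rw [hk, hs.numOdd, hs.numEven k hk0]
      rw [e1]
      refine hc.mono h ?_ hs2
      rw [hsz]
      have e : K * (k.size + 1) = K * k.size + K := by ring
      rw [e]
      omega

/-- the case `a = 1` -/
theorem smash1 (hs : Sub) (hc : Calc) (hi : Stmt_INST) (hf : Stmt_FACTS) :
    ∃ C : ℕ, ∀ (Th : Set Fm), S12 ⊆ Th → ∀ L b : ℕ, b.size ≤ L →
      Pr Th (C * (L + 1) * (b.size + 1)) (C * (L + 1))
        (Fm.eq (Tm.smash one (Tm.numeral b)) (Tm.numeral (2 ^ b.size))) := by
  obtain ⟨C1, h21⟩ := fact hi hf (Fm.eq (Tm.smash (Tm.var 0) Tm.zero) one) (by simp [factList])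
  obtain ⟨C2, h22⟩ := fact hi hf (Fm.eq (Tm.smash one one) (Tm.mul Tm.two one))
    (by simp [factList])
  obtain ⟨C3, h23⟩ := fact hi hf (Fm.imp (Fm.neg (Fm.eq (Tm.var 0) Tm.zero))
    (Fm.eq (Tm.smash one (Tm.mul Tm.two (Tm.var 0))) (Tm.mul Tm.two (Tm.smash one (Tm.var 0)))))
    (by simp [factList])
  obtain ⟨C4, h24⟩ := fact hi hf (Fm.imp (Fm.neg (Fm.eq (Tm.var 0) Tm.zero))
    (Fm.eq (Tm.smash one (Tm.succ (Tm.mul Tm.two (Tm.var 0))))
      (Tm.mul Tm.two (Tm.smash one (Tm.var 0))))) (by simp [factList])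
  obtain ⟨C5, hd⟩ := dbl hs hc hi hf
  obtain ⟨C6, hnz⟩ := nz hs hc hi hf
  obtain ⟨K, hK⟩ : ∃ K, K = 1000000 + 2 * C1 + C2 + C3 + C4 + 2 * C5 + C6 := ⟨_, rfl⟩
  refine ⟨K, fun Th hTh L b => ?_⟩
  have hKs : ∀ c, c ≤ K → c * (L + 1) ≤ K * (L + 1) := fun c hc' => Nat.mul_le_mul_right _ hc'
  have hs0 : 1000000 * (L + 1) ≤ K * (L + 1) := hKs _ (by omega)
  have hs1 : C1 * (L + 1 + 1) ≤ K * (L + 1) := by
    calc C1 * (L + 1 + 1) ≤ (2 * C1) * (L + 1) := by nlinarith
      _ ≤ K * (L + 1) := hKs _ (by omega)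
  have hs2 : C2 * (L + 1) ≤ K * (L + 1) := hKs _ (by omega)
  have hs3 : C3 * (L + 1) ≤ K * (L + 1) := hKs _ (by omega)
  have hs4 : C4 * (L + 1) ≤ K * (L + 1) := hKs _ (by omega)
  have hs5 : C5 * (L + 2) ≤ K * (L + 1) := by
    calc C5 * (L + 2) ≤ (2 * C5) * (L + 1) := by nlinarith
      _ ≤ K * (L + 1) := hKs _ (by omega)
  have hs6 : C6 * (L + 1) ≤ K * (L + 1) := hKs _ (by omega)
  have hKl : (1000000 + 2 * C1 + C2 + C3 + C4 + 2 * C5) + C6 * (L + 1) ≤ K * (L + 1) := by
    have : (1000000 + 2 * C1 + C2 + C3 + C4 + 2 * C5) ≤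
        (1000000 + 2 * C1 + C2 + C3 + C4 + 2 * C5) * (L + 1) :=
      Nat.le_mul_of_pos_right _ (by omega)
    calc _ ≤ (1000000 + 2 * C1 + C2 + C3 + C4 + 2 * C5) * (L + 1) + C6 * (L + 1) := by omega
      _ = K * (L + 1) := by rw [hK]; ring
  induction b using Nat.strong_induction_on with
  | _ b ih =>
  intro hbL
  have e1 := num_one hs
  rcases Nat.eq_zero_or_pos b with h0 | hpos
  · subst h0
    have h := h21 Th hTh (L + 1) 1 0 (by rw [size_one]; omega) (by simp)
    simp only [clF, clT, scons, Nat.not_lt_zero, if_false, Nat.sub_zero, clT_one] at h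
    rw [e1] at h
    rw [hs.num0, Nat.size_zero, pow_zero, e1]
    refine hc.mono h ?_ hs1
    omega
  · obtain ⟨m, hm | hm⟩ : ∃ m, b = 2 * m ∨ b = 2 * m + 1 := ⟨b / 2, by omega⟩
    · have hm0 : m ≠ 0 := by omega
      have hsz : b.size = m.size + 1 := by rw [hm, size_two_mul hm0]
      have IH := ih m (by omega) (by omega)
      have hnm := hs.numSize m
      have hn2 := hs.numSize (2 * 2 ^ m.size)
      have hp2 : (2 * 2 ^ m.size : ℕ).size = m.size + 2 := by
        rw [← pow_succ', Nat.size_pow]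
      have h := h23 Th hTh L m 0 (by omega) (by simp)
      simp only [clF, clF_neg, clT, clT_two, clT_one, scons, Nat.not_lt_zero, if_false,
        Nat.sub_zero] at h
      have hz := hc.mono (hnz Th hTh L m (by omega) hm0) le_rfl hs6
      have h' := hc.mp (hc.mono h le_rfl hs3) hz (le_trans (by
        simp only [fs_neg, fs_eq, ts_mul, ts_two, ts_zero, ts_smash, ts_one]
        omega) hs0)
      have hd' := hd Th hTh (K * (L + 1)) (2 ^ m.size) _ _ (le_trans (Nat.mul_le_mul_left _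
        (by rw [Nat.size_pow]; omega)) hs5) (le_trans (by
          rw [ts_smash, ts_one]; omega) hs0) IH
      have e2 : Tm.numeral b = Tm.mul Tm.two (Tm.numeral m) := by rw [hm, hs.numEven m hm0]
      have e3 : 2 ^ b.size = 2 * 2 ^ m.size := by rw [hsz, pow_succ']
      rw [e2, e3]
      refine hc.mono (hc.etrans h' hd' ?_) ?_ le_rfl
      · refine le_trans ?_ hs0
        simp only [ts_mul, ts_two, ts_smash, ts_one]
        omega
      · rw [hsz]
        refine lines (x := C3 + C5 + 2000 + C6 * (L + 1)) ?_ (le_trans (Nat.add_le_add_right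
          (by omega) _) hKl)
        calc _ = K * (L + 1) * (m.size + 1) + (C3 + C5 + 2000 + C6 * m.size) := by ring
          _ ≤ _ := Nat.add_le_add_left (Nat.add_le_add_left (Nat.mul_le_mul_left _ (by omega)) _) _
    · have hsz : b.size = m.size + 1 := by rw [hm, size_two_mul_add_one]
      by_cases hm0 : m = 0
      · subst hm0
        have h := h22 Th hTh L 0 0 (by simp) (by simp)
        simp only [clF, clT, clT_two, clT_one] at h
        have e2 : Tm.numeral b = one := by rw [hm]; exact e1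
        have e4 : Tm.numeral (2 ^ b.size) = Tm.mul Tm.two one := by
          rw [hsz, Nat.size_zero, zero_add, pow_one, ← e1]
          exact hs.numEven 1 one_ne_zero
        rw [e2, e4]
        refine hc.mono h ?_ hs2
        rw [hsz, Nat.size_zero]
        omega
      · have IH := ih m (by omega) (by omega)
        have hnm := hs.numSize m
        have hn2 := hs.numSize (2 * 2 ^ m.size)
        have hp2 : (2 * 2 ^ m.size : ℕ).size = m.size + 2 := by
          rw [← pow_succ', Nat.size_pow]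
        have h := h24 Th hTh L m 0 (by omega) (by simp)
        simp only [clF, clF_neg, clT, clT_two, clT_one, scons, Nat.not_lt_zero, if_false,
          Nat.sub_zero] at h
        have hz := hc.mono (hnz Th hTh L m (by omega) hm0) le_rfl hs6
        have h' := hc.mp (hc.mono h le_rfl hs4) hz (le_trans (by
          simp only [fs_neg, fs_eq, ts_mul, ts_two, ts_zero, ts_smash, ts_one, ts_succ]
          omega) hs0)
        have hd' := hd Th hTh (K * (L + 1)) (2 ^ m.size) _ _ (le_trans (Nat.mul_le_mul_left _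
          (by rw [Nat.size_pow]; omega)) hs5) (le_trans (by
            rw [ts_smash, ts_one]; omega) hs0) IH
        have e2 : Tm.numeral b = Tm.succ (Tm.mul Tm.two (Tm.numeral m)) := by
          rw [hm, hs.numOdd]
        have e3 : 2 ^ b.size = 2 * 2 ^ m.size := by rw [hsz, pow_succ']
        rw [e2, e3]
        refine hc.mono (hc.etrans h' hd' ?_) ?_ le_rfl
        · refine le_trans ?_ hs0
          simp only [ts_mul, ts_two, ts_smash, ts_one, ts_succ]
          omega
        · rw [hsz]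
          refine lines (x := C4 + C5 + 2000 + C6 * (L + 1)) ?_ (le_trans (Nat.add_le_add_right
            (by omega) _) hKl)
          calc _ = K * (L + 1) * (m.size + 1) + (C4 + C5 + 2000 + C6 * m.size) := by ring
            _ ≤ _ := Nat.add_le_add_left (Nat.add_le_add_left (Nat.mul_le_mul_left _
              (by omega)) _) _

/-- the general case -/
theorem smashC (hs : Sub) (hc : Calc) (hi : Stmt_INST) (hf : Stmt_FACTS) (h1 : Stmt_NUM1) :
    ∃ C : ℕ, ∀ (Th : Set Fm), S12 ⊆ Th → ∀ L b : ℕ, b.size ≤ L → ∀ a : ℕ, a.size ≤ L →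
      Pr Th (C * (L + 1) ^ 6 * (a.size + 1)) (C * (L + 1) ^ 2)
        (Fm.eq (Tm.smash (Tm.numeral a) (Tm.numeral b)) (Tm.numeral (2 ^ (a.size * b.size)))) := by
  obtain ⟨C1, h20⟩ := fact hi hf (Fm.eq (Tm.smash Tm.zero (Tm.var 0)) one) (by simp [factList])
  obtain ⟨C2, h25⟩ := fact hi hf (Fm.imp (Fm.neg (Fm.eq (Tm.var 0) Tm.zero))
    (Fm.eq (Tm.smash (Tm.mul Tm.two (Tm.var 0)) (Tm.var 1))
      (Tm.mul (Tm.smash (Tm.var 0) (Tm.var 1)) (Tm.smash one (Tm.var 1))))) (by simp [factList])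
  obtain ⟨C3, h26⟩ := fact hi hf (Fm.imp (Fm.neg (Fm.eq (Tm.var 0) Tm.zero))
    (Fm.eq (Tm.smash (Tm.succ (Tm.mul Tm.two (Tm.var 0))) (Tm.var 1))
      (Tm.mul (Tm.smash (Tm.var 0) (Tm.var 1)) (Tm.smash one (Tm.var 1))))) (by simp [factList])
  obtain ⟨C4, hnz⟩ := nz hs hc hi hf
  obtain ⟨C5, hsm⟩ := smash1 hs hc hi hf
  obtain ⟨C6, hmu⟩ := mulC hs hc hi hf h1
  obtain ⟨K, hK⟩ : ∃ K, K = 1000000 + C1 + C2 + C3 + C4 + C5 + 8 * C6 := ⟨_, rfl⟩
  refine ⟨K, fun Th hTh L b hb a => ?_⟩
  have hXe : (L + 1) ^ 2 = L * L + 2 * L + 1 := by ring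
  have hX1 : L + 1 ≤ (L + 1) ^ 2 := by nlinarith
  have hKs : ∀ c, c ≤ K → c * (L + 1) ≤ K * (L + 1) ^ 2 := fun c hc' =>
    Nat.mul_le_mul hc' hX1
  have hs0 : 1000000 * (L * L + 2 * L + 1) ≤ K * (L + 1) ^ 2 := by
    rw [← hXe]; exact Nat.mul_le_mul_right _ (by omega)
  have hs1 : C1 * (L + 1) ≤ K * (L + 1) ^ 2 := hKs _ (by omega)
  have hs2 : C2 * (L + 1) ≤ K * (L + 1) ^ 2 := hKs _ (by omega)
  have hs3 : C3 * (L + 1) ≤ K * (L + 1) ^ 2 := hKs _ (by omega)
  have hs4 : C4 * (L + 1) ≤ K * (L + 1) ^ 2 := hKs _ (by omega)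
  have hs5 : C5 * (L + 1) ≤ K * (L + 1) ^ 2 := hKs _ (by omega)
  have hL' : (L * L + L + 1) + 1 ≤ 2 * (L + 1) ^ 2 := by nlinarith
  have hs6 : C6 * ((L * L + L + 1) + 1) ≤ K * (L + 1) ^ 2 := by
    calc C6 * ((L * L + L + 1) + 1) ≤ C6 * (2 * (L + 1) ^ 2) := Nat.mul_le_mul_left _ hL'
      _ = (2 * C6) * (L + 1) ^ 2 := by ring
      _ ≤ K * (L + 1) ^ 2 := Nat.mul_le_mul_right _ (by omega)
  have h61 : 1 ≤ (L + 1) ^ 6 := Nat.one_le_pow _ _ (by omega)
  have h62 : (L + 1) ^ 2 ≤ (L + 1) ^ 6 := Nat.pow_le_pow_right (by omega) (by omega)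
  have h63 : L + 1 ≤ (L + 1) ^ 6 := le_trans hX1 h62
  have hl6 : C6 * ((L * L + L + 1) + 1) ^ 2 * ((L * L + L + 1) + 1) ≤ (8 * C6) * (L + 1) ^ 6 := by
    calc C6 * ((L * L + L + 1) + 1) ^ 2 * ((L * L + L + 1) + 1)
        ≤ C6 * (2 * (L + 1) ^ 2) ^ 2 * (2 * (L + 1) ^ 2) := by gcongr
      _ = (8 * C6) * (L + 1) ^ 6 := by ring
  have hKl : (1000000 + C1 + C2 + C3) + C4 * (L + 1) + C5 * (L + 1) * (L + 1) +
      C6 * ((L * L + L + 1) + 1) ^ 2 * ((L * L + L + 1) + 1) ≤ K * (L + 1) ^ 6 := by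
    have e1 : (1000000 + C1 + C2 + C3) ≤ (1000000 + C1 + C2 + C3) * (L + 1) ^ 6 :=
      Nat.le_mul_of_pos_right _ h61
    have e2 : C4 * (L + 1) ≤ C4 * (L + 1) ^ 6 := Nat.mul_le_mul_left _ h63
    have e3 : C5 * (L + 1) * (L + 1) ≤ C5 * (L + 1) ^ 6 := by
      calc C5 * (L + 1) * (L + 1) = C5 * (L + 1) ^ 2 := by ring
        _ ≤ _ := Nat.mul_le_mul_left _ h62
    calc _ ≤ (1000000 + C1 + C2 + C3) * (L + 1) ^ 6 + C4 * (L + 1) ^ 6 + C5 * (L + 1) ^ 6 +
          (8 * C6) * (L + 1) ^ 6 := by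
            exact Nat.add_le_add (Nat.add_le_add (Nat.add_le_add e1 e2) e3) hl6
      _ = K * (L + 1) ^ 6 := by rw [hK]; ring
  induction a using Nat.strong_induction_on with
  | _ a ih =>
  intro ha
  have e1 := num_one hs
  have hnb := hs.numSize b
  have hq : L ≤ L * L := by
    rcases Nat.eq_zero_or_pos L with h | h
    · rw [h]
    · exact Nat.le_mul_of_pos_right _ h
  rcases Nat.eq_zero_or_pos a with h0 | hpos
  · subst h0
    have h := h20 Th hTh L b 0 hb (by simp)
    simp only [clF, clT, scons, Nat.not_lt_zero, if_false, Nat.sub_zero, clT_one] at h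
    rw [hs.num0, Nat.size_zero, zero_mul, pow_zero, e1]
    refine hc.mono h ?_ hs1
    rw [zero_add, mul_one]
    exact le_trans (le_trans (by omega) (Nat.le_mul_of_pos_right K h61)) le_rfl
  · obtain ⟨m, hm | hm⟩ : ∃ m, a = 2 * m ∨ a = 2 * m + 1 := ⟨a / 2, by omega⟩
    · have hm0 : m ≠ 0 := by omega
      have hsz : a.size = m.size + 1 := by rw [hm, size_two_mul hm0]
      have hmL : m.size ≤ L := by omega
      have IH := ih m (by omega) hmL
      have hnm := hs.numSize m
      have hp : m.size * b.size ≤ L * L := Nat.mul_le_mul hmL hb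
      have hnP := hs.numSize (2 ^ (m.size * b.size))
      rw [Nat.size_pow] at hnP
      have hnQ := hs.numSize (2 ^ b.size)
      rw [Nat.size_pow] at hnQ
      have hnR := hs.numSize (2 ^ (m.size * b.size + b.size))
      rw [Nat.size_pow] at hnR
      have h := h25 Th hTh L m b hmL hb
      simp only [clF, clF_neg, clT, clT_two, clT_one, scons, Nat.not_lt_zero, if_false,
        Nat.sub_zero] at h
      have hz := hc.mono (hnz Th hTh L m hmL hm0) le_rfl hs4
      have h' := hc.mp (hc.mono h le_rfl hs2) hz (le_trans (by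
        simp only [fs_neg, fs_eq, ts_mul, ts_two, ts_zero, ts_smash, ts_one]
        omega) hs0)
      have hS := hc.mono (hsm Th hTh L b hb) le_rfl hs5
      have hcon := hc.mul IH hS (le_trans (by
        simp only [ts_smash, ts_one]
        omega) hs0)
      have hmul := hc.mono (hmu Th hTh (L * L + L + 1) (2 ^ b.size) (by rw [Nat.size_pow]; omega)
        (2 ^ (m.size * b.size)) (by rw [Nat.size_pow]; omega)) le_rfl hs6
      rw [← pow_add] at hmul
      have e2 : Tm.numeral a = Tm.mul Tm.two (Tm.numeral m) := by rw [hm, hs.numEven m hm0]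
      have e3 : a.size * b.size = m.size * b.size + b.size := by rw [hsz]; ring
      rw [e2, e3]
      refine hc.mono (hc.etrans h' (hc.etrans hcon hmul ?_) ?_) ?_ le_rfl
      · refine le_trans ?_ hs0
        simp only [ts_mul, ts_smash, ts_one]
        omega
      · refine le_trans ?_ hs0
        simp only [ts_mul, ts_two, ts_smash, ts_one]
        omega
      · rw [hsz, Nat.size_pow]
        refine lines (x := C2 + 4000 + C4 * (L + 1) + C5 * (L + 1) * (L + 1) +
          C6 * ((L * L + L + 1) + 1) ^ 2 * ((L * L + L + 1) + 1)) ?_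
          (le_trans (Nat.add_le_add_right (Nat.add_le_add_right (Nat.add_le_add_right
            (by omega) _) _) _) hKl)
        have g1 : C4 * m.size ≤ C4 * (L + 1) := Nat.mul_le_mul_left _ (by omega)
        have g2 : C5 * (L + 1) * (b.size + 1) ≤ C5 * (L + 1) * (L + 1) :=
          Nat.mul_le_mul_left _ (by omega)
        have g3 : C6 * ((L * L + L + 1) + 1) ^ 2 * (m.size * b.size + 1 + 1) ≤
            C6 * ((L * L + L + 1) + 1) ^ 2 * ((L * L + L + 1) + 1) :=
          Nat.mul_le_mul_left _ (by omega)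
        calc _ = K * (L + 1) ^ 6 * (m.size + 1) + (C2 + 4000 + C4 * m.size +
              C5 * (L + 1) * (b.size + 1) +
              C6 * ((L * L + L + 1) + 1) ^ 2 * (m.size * b.size + 1 + 1)) := by ring
          _ ≤ _ := Nat.add_le_add_left (Nat.add_le_add (Nat.add_le_add
              (Nat.add_le_add_left g1 _) g2) g3) _
    · have hsz : a.size = m.size + 1 := by rw [hm, size_two_mul_add_one]
      have hmL : m.size ≤ L := by omega
      by_cases hm0 : m = 0
      · subst hm0
        have hS := hc.mono (hsm Th hTh L b hb) le_rfl hs5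
        have e2 : Tm.numeral a = one := by rw [hm]; exact e1
        have e3 : a.size * b.size = b.size := by rw [hsz, Nat.size_zero]; ring
        rw [e2, e3]
        refine hc.mono hS ?_ le_rfl
        rw [hsz, Nat.size_zero]
        calc C5 * (L + 1) * (b.size + 1) ≤ C5 * (L + 1) * (L + 1) :=
              Nat.mul_le_mul_left _ (by omega)
          _ = C5 * (L + 1) ^ 2 := by ring
          _ ≤ K * (L + 1) ^ 6 := Nat.mul_le_mul (by omega) h62
          _ ≤ K * (L + 1) ^ 6 * (0 + 1 + 1) := Nat.le_mul_of_pos_right _ (by omega)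
      · have IH := ih m (by omega) hmL
        have hnm := hs.numSize m
        have hp : m.size * b.size ≤ L * L := Nat.mul_le_mul hmL hb
        have hnP := hs.numSize (2 ^ (m.size * b.size))
        rw [Nat.size_pow] at hnP
        have hnQ := hs.numSize (2 ^ b.size)
        rw [Nat.size_pow] at hnQ
        have hnR := hs.numSize (2 ^ (m.size * b.size + b.size))
        rw [Nat.size_pow] at hnR
        have h := h26 Th hTh L m b hmL hb
        simp only [clF, clF_neg, clT, clT_two, clT_one, scons, Nat.not_lt_zero, if_false,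
          Nat.sub_zero] at h
        have hz := hc.mono (hnz Th hTh L m hmL hm0) le_rfl hs4
        have h' := hc.mp (hc.mono h le_rfl hs3) hz (le_trans (by
          simp only [fs_neg, fs_eq, ts_mul, ts_two, ts_zero, ts_smash, ts_one, ts_succ]
          omega) hs0)
        have hS := hc.mono (hsm Th hTh L b hb) le_rfl hs5
        have hcon := hc.mul IH hS (le_trans (by
          simp only [ts_smash, ts_one]
          omega) hs0)
        have hmul := hc.mono (hmu Th hTh (L * L + L + 1) (2 ^ b.size)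
          (by rw [Nat.size_pow]; omega)
          (2 ^ (m.size * b.size)) (by rw [Nat.size_pow]; omega)) le_rfl hs6
        rw [← pow_add] at hmul
        have e2 : Tm.numeral a = Tm.succ (Tm.mul Tm.two (Tm.numeral m)) := by
          rw [hm, hs.numOdd]
        have e3 : a.size * b.size = m.size * b.size + b.size := by rw [hsz]; ring
        rw [e2, e3]
        refine hc.mono (hc.etrans h' (hc.etrans hcon hmul ?_) ?_) ?_ le_rfl
        · refine le_trans ?_ hs0
          simp only [ts_mul, ts_smash, ts_one]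
          omega
        · refine le_trans ?_ hs0
          simp only [ts_mul, ts_two, ts_smash, ts_one, ts_succ]
          omega
        · rw [hsz, Nat.size_pow]
          refine lines (x := C3 + 4000 + C4 * (L + 1) + C5 * (L + 1) * (L + 1) +
            C6 * ((L * L + L + 1) + 1) ^ 2 * ((L * L + L + 1) + 1)) ?_
            (le_trans (Nat.add_le_add_right (Nat.add_le_add_right (Nat.add_le_add_right
              (by omega) _) _) _) hKl)
          have g1 : C4 * m.size ≤ C4 * (L + 1) := Nat.mul_le_mul_left _ (by omega)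
          have g2 : C5 * (L + 1) * (b.size + 1) ≤ C5 * (L + 1) * (L + 1) :=
            Nat.mul_le_mul_left _ (by omega)
          have g3 : C6 * ((L * L + L + 1) + 1) ^ 2 * (m.size * b.size + 1 + 1) ≤
              C6 * ((L * L + L + 1) + 1) ^ 2 * ((L * L + L + 1) + 1) :=
            Nat.mul_le_mul_left _ (by omega)
          calc _ = K * (L + 1) ^ 6 * (m.size + 1) + (C3 + 4000 + C4 * m.size +
                C5 * (L + 1) * (b.size + 1) +
                C6 * ((L * L + L + 1) + 1) ^ 2 * (m.size * b.size + 1 + 1)) := by ring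
            _ ≤ _ := Nat.add_le_add_left (Nat.add_le_add (Nat.add_le_add
                (Nat.add_le_add_left g1 _) g2) g3) _

end Pool.Agent.RN.NUM2

namespace Pool.Agent.RN

open Pool.Agent.RO
open NUM2 in
theorem NUM2_thm (hs : Sub) (hc : Calc) (hi : Stmt_INST) (hf : Stmt_FACTS) (h1 : Stmt_NUM1) :
    Stmt_NUM2 := by
  obtain ⟨C1, hm⟩ := mulC hs hc hi hf h1
  obtain ⟨C2, hsm⟩ := smashC hs hc hi hf h1
  refine ⟨C1 + C2, fun Th hTh L a b ha hb => ⟨?_, ?_⟩⟩
  · refine hc.mono (hm Th hTh L b hb a ha) ?_ ?_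
    · calc C1 * (L + 1) ^ 2 * (a.size + 1) ≤ C1 * (L + 1) ^ 2 * (L + 1) :=
            Nat.mul_le_mul_left _ (by omega)
        _ = C1 * (L + 1) ^ 3 := by ring
        _ ≤ (C1 + C2) * (L + 1) ^ 8 :=
            Nat.mul_le_mul (by omega) (Nat.pow_le_pow_right (by omega) (by omega))
    · calc C1 * (L + 1) = C1 * (L + 1) ^ 1 := by ring
        _ ≤ (C1 + C2) * (L + 1) ^ 2 :=
            Nat.mul_le_mul (by omega) (Nat.pow_le_pow_right (by omega) (by omega))
  · refine hc.mono (hsm Th hTh L b hb a ha) ?_ ?_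
    · calc C2 * (L + 1) ^ 6 * (a.size + 1) ≤ C2 * (L + 1) ^ 6 * (L + 1) :=
            Nat.mul_le_mul_left _ (by omega)
        _ = C2 * (L + 1) ^ 7 := by ring
        _ ≤ (C1 + C2) * (L + 1) ^ 8 :=
            Nat.mul_le_mul (by omega) (Nat.pow_le_pow_right (by omega) (by omega))
    · exact Nat.mul_le_mul_right _ (by omega)

end Pool.Agent.RN
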