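import Pool.Agent.RN.PrDefs

/-!
# Module NUM3: half and length of numerals
-/

namespace Pool.Agent.RN.NUM3

open Pool.Agent.H19 (T Tm scons)
open Pool.Agent.RO

/-! ### Sizes -/

theorem ts_zero : ts Tm.zero = 7 := by
  simp [ts, Tm.enc, T.size, T.size_unary]

theorem ts_var (i : ℕ) : ts (Tm.var i) = 2 * i + 5 := by
  simp only [ts, Tm.enc, T.size, T.size_unary]; omega

theorem ts_succ (t : Tm) : ts (Tm.succ t) = ts t + 8 := by
  simp only [ts, Tm.enc, T.size, T.size_unary]; omega

theorem ts_half (t : Tm) : ts (Tm.half t) = ts t + 10 := by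
  simp only [ts, Tm.enc, T.size, T.size_unary]; omega

theorem ts_len (t : Tm) : ts (Tm.len t) = ts t + 12 := by
  simp only [ts, Tm.enc, T.size, T.size_unary]; omega

theorem ts_mul (s t : Tm) : ts (Tm.mul s t) = ts s + ts t + 15 := by
  simp only [ts, Tm.enc, T.size, T.size_unary]; omega

theorem ts_two : ts Tm.two = 23 := by
  simp only [Tm.two, ts_succ, ts_zero]

theorem fs_bot : fs Fm.bot = 21 := by
  simp [fs, Fm.enc, T.size, T.size_unary]

theorem fs_eq (s t : Tm) : fs (Fm.eq s t) = ts s + ts t + 21 := by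
  simp only [fs, ts, Fm.enc, T.size, T.size_unary]; omega

theorem fs_imp (a b : Fm) : fs (Fm.imp a b) = fs a + fs b + 25 := by
  simp only [fs, Fm.enc, T.size, T.size_unary]; omega

theorem fs_neg (a : Fm) : fs (Fm.neg a) = fs a + 46 := by
  simp only [Fm.neg, fs_imp, fs_bot]

/-! ### Facts -/

/-- uniform constant for the instances of the facts -/
theorem facts_inst (hc : Calc) (hi : Stmt_INST) : ∀ l : List Fm, (∀ θ ∈ l, Provable S12 θ) →
    ∃ C : ℕ, ∀ θ ∈ l, ∀ (Th : Set Fm), S12 ⊆ Th → ∀ (v : ℕ → ℕ) (L : ℕ),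
      (∀ i, (v i).size ≤ L) → Pr Th C (C * (L + 1)) (clF v 0 θ) := by
  intro l
  induction l with
  | nil => intro _; exact ⟨0, fun θ hθ => by simp at hθ⟩
  | cons θ l ih =>
    intro h
    obtain ⟨C1, hC1⟩ := hi θ (h θ (by simp))
    obtain ⟨C2, hC2⟩ := ih fun ψ hψ => h ψ (by simp [hψ])
    refine ⟨C1 + C2, fun ψ hψ Th hTh v L hv => ?_⟩
    rcases List.mem_cons.1 hψ with rfl | hψ
    · exact hc.mono (hC1 Th hTh v L hv) (by omega) (Nat.mul_le_mul_right _ (by omega))
    · exact hc.mono (hC2 ψ hψ Th hTh v L hv) (by omega) (Nat.mul_le_mul_right _ (by omega))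

/-- instance of a formula with the free variable `0` by a closed term -/
theorem inst_term (hc : Calc) {Th : Set Fm} {C s : ℕ} {θ : Fm} (t : Tm)
    (h : Pr Th C s θ) (h1 : 1000 * (fs θ + 1) ≤ s)
    (h2 : 1000 * (fs θ + ts t + fs (θ.inst 0 t) + 1) ≤ s) :
    Pr Th (C + 2000) s (θ.inst 0 t) :=
  hc.mono (hc.inst (hc.gen h h1) h2) (by omega) le_rfl

section
variable (hs : Sub) (hc : Calc) {Cf : ℕ}
  (hF : ∀ θ ∈ factList, ∀ (Th : Set Fm), S12 ⊆ Th → ∀ (v : ℕ → ℕ) (L : ℕ),
      (∀ i, (v i).size ≤ L) → Pr Th Cf (Cf * (L + 1)) (clF v 0 θ))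
  {Ch : ℕ} (hH : Pr S12 Ch Ch (Fm.neg (Fm.eq (Tm.succ (Tm.var 0)) Tm.zero)))
  {Th : Set Fm} (hTh : S12 ⊆ Th)

include hs hc hF hH hTh

/-- nonzero numerals are provably nonzero -/
theorem nz (L : ℕ) (m : ℕ) (hm : m ≠ 0) (hL : m.size ≤ L) :
    Pr Th ((Cf + Ch + 4000) * m.size) ((Cf + Ch + 1000000) * (L + 1))
      (Fm.neg (Fm.eq (Tm.numeral m) Tm.zero)) := by
  induction m using Nat.strong_induction_on with
  | _ m ih =>
    rcases Nat.even_or_odd' m with ⟨k, rfl | rfl⟩
    · -- even
      have hk : k ≠ 0 := by omega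
      have hsz : (2 * k).size = k.size + 1 := by
        have := Nat.size_bit (b := false) (n := k) (by simp [Nat.bit]; omega)
        simpa [Nat.bit] using this
      have h1 := ih k (by omega) hk (by omega)
      have h2 := hF _ (show Fm.imp (Fm.neg (Fm.eq (Tm.var 0) Tm.zero))
        (Fm.neg (Fm.eq (Tm.mul Tm.two (Tm.var 0)) Tm.zero)) ∈ factList by
          simp [factList]) Th hTh (fun _ => k) L (fun _ => by omega)
      have h3 : clF (fun _ => k) 0 (Fm.imp (Fm.neg (Fm.eq (Tm.var 0) Tm.zero))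
        (Fm.neg (Fm.eq (Tm.mul Tm.two (Tm.var 0)) Tm.zero))) =
        Fm.imp (Fm.neg (Fm.eq (Tm.numeral k) Tm.zero))
        (Fm.neg (Fm.eq (Tm.mul Tm.two (Tm.numeral k)) Tm.zero)) := by
        simp [clF, clT, Fm.neg, Tm.two]
      rw [h3] at h2
      rw [hs.numEven k hk]
      have hk1 := hs.numSize k
      have h4 := hc.mp (hc.mono h2 le_rfl (Nat.mul_le_mul_right (L + 1)
        (show Cf ≤ Cf + Ch + 1000000 by omega))) h1 (by
          simp only [fs_neg, fs_eq, ts_zero, ts_mul, ts_two]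
          nlinarith)
      refine hc.mono h4 ?_ le_rfl
      rw [hsz]
      nlinarith
    · -- odd
      have hsz : (2 * k + 1).size = k.size + 1 := by
        have := Nat.size_bit (b := true) (n := k) (by simp [Nat.bit])
        simpa [Nat.bit] using this
      have hk1 := hs.numSize k
      have hbelow : (Tm.mul Tm.two (Tm.numeral k)).fvBelow 0 :=
        ⟨trivial, hs.numBelow k 0⟩
      have hshift : (Tm.mul Tm.two (Tm.numeral k)).shift 0 0 = Tm.mul Tm.two (Tm.numeral k) :=
        hs.shiftIdT _ 0 0 hbelow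
      have h3 : (Fm.neg (Fm.eq (Tm.succ (Tm.var 0)) Tm.zero)).inst 0
          (Tm.mul Tm.two (Tm.numeral k)) =
          Fm.neg (Fm.eq (Tm.succ (Tm.mul Tm.two (Tm.numeral k))) Tm.zero) := by
        simp only [Fm.neg, Fm.inst, Tm.inst, lt_irrefl, if_false, if_true, hshift]
      have h2 : Pr Th (Ch + 2000) ((Cf + Ch + 1000000) * (L + 1))
          ((Fm.neg (Fm.eq (Tm.succ (Tm.var 0)) Tm.zero)).inst 0
            (Tm.mul Tm.two (Tm.numeral k))) := by
        refine inst_term hc _ (hc.mono (hc.monoTh hH hTh) le_rfl ?_) ?_ ?_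
        · nlinarith
        · simp only [fs_neg, fs_eq, ts_zero, ts_succ, ts_var]
          nlinarith
        · rw [h3]
          simp only [fs_neg, fs_eq, ts_zero, ts_succ, ts_var, ts_mul, ts_two]
          nlinarith
      rw [h3] at h2
      rw [hs.numOdd k]
      refine hc.mono h2 ?_ le_rfl
      rw [hsz]
      nlinarith

/-- length of numerals -/
theorem len_num {C1 : ℕ} (h1 : ∀ L a : ℕ, a.size ≤ L → Pr Th (C1 * (L + 1)) (C1 * (L + 1))
      (Fm.eq (Tm.succ (Tm.numeral a)) (Tm.numeral (a + 1)))) (L : ℕ) (a : ℕ)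
    (hL : a.size ≤ L) :
    Pr Th (((2 * Cf + Ch + C1 + 20000) * (L + 1)) * (a.size + 1))
      ((Cf + Ch + C1 + 1000000) * (L + 1))
      (Fm.eq (Tm.len (Tm.numeral a)) (Tm.numeral a.size)) := by
  induction a using Nat.strong_induction_on with
  | _ a ih =>
    obtain ⟨B, hB⟩ : ∃ B, B = (Cf + Ch + C1 + 1000000) * (L + 1) := ⟨_, rfl⟩
    have hB0 : 1000000 * (L + 1) ≤ B := by
      rw [hB]; exact Nat.mul_le_mul_right _ (by omega)
    have hBf : Cf * (L + 1) ≤ B := by
      rw [hB]; exact Nat.mul_le_mul_right _ (by omega)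
    have hB1 : C1 * (L + 1) ≤ B := by
      rw [hB]; exact Nat.mul_le_mul_right _ (by omega)
    have hBn : (Cf + Ch + 1000000) * (L + 1) ≤ B := by
      rw [hB]; exact Nat.mul_le_mul_right _ (by omega)
    rw [← hB]
    -- the common step
    have step : ∀ m : ℕ, ∀ l : ℕ, m < a → a.size = m.size + 1 →
        Pr Th l B (Fm.eq (Tm.len (Tm.numeral a)) (Tm.succ (Tm.len (Tm.numeral m)))) →
        l ≤ Cf + (Cf + Ch + 4000) * L + 1000 →
        Pr Th (((2 * Cf + Ch + C1 + 20000) * (L + 1)) * (a.size + 1)) B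
          (Fm.eq (Tm.len (Tm.numeral a)) (Tm.numeral a.size)) := by
      intro m l hma hsz h2 hl
      have hIH := ih m hma (by omega)
      rw [← hB] at hIH
      have hm1 := hs.numSize m
      have ha1 := hs.numSize a
      have hms := hs.numSize m.size
      have hms' := hs.numSize (m.size + 1)
      have hss : m.size.size ≤ m.size := by
        rw [Nat.size_le]
        exact Nat.lt_two_pow_self
      have hss' : (m.size + 1).size ≤ m.size + 1 := by
        rw [Nat.size_le]
        exact Nat.lt_two_pow_self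
      have h3 := hc.succ hIH (by
        simp only [ts_len]
        linarith)
      have h4 := hc.mono (h1 L m.size (by omega)) le_rfl hB1
      have h5 := hc.etrans h2 h3 (by
        simp only [ts_len, ts_succ]
        linarith)
      have h6 := hc.etrans h5 h4 (by
        simp only [ts_len, ts_succ]
        linarith)
      rw [hsz]
      refine hc.mono h6 ?_ le_rfl
      nlinarith
    rcases Nat.even_or_odd' a with ⟨m, rfl | rfl⟩
    · rcases Nat.eq_zero_or_pos m with rfl | hm
      · -- zero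
        have h2 := hF _ (show Fm.eq (Tm.len Tm.zero) Tm.zero ∈ factList by
          simp [factList]) Th hTh (fun _ => 0) L (fun _ => by simp)
        have h3 : clF (fun _ => 0) 0 (Fm.eq (Tm.len Tm.zero) Tm.zero) =
          Fm.eq (Tm.len Tm.zero) Tm.zero := by simp [clF, clT]
        rw [h3] at h2
        have h4 : (2 * 0 : ℕ).size = 0 := by simp
        rw [h4]
        simp only [Nat.mul_zero, hs.num0]
        refine hc.mono h2 ?_ hBf
        nlinarith
      · have hm0 : m ≠ 0 := by omega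
        have hsz : (2 * m).size = m.size + 1 := by
          have := Nat.size_bit (b := false) (n := m) (by simp [Nat.bit]; omega)
          simpa [Nat.bit] using this
        have h2 := hF _ (show Fm.imp (Fm.neg (Fm.eq (Tm.var 0) Tm.zero))
          (Fm.eq (Tm.len (Tm.mul Tm.two (Tm.var 0))) (Tm.succ (Tm.len (Tm.var 0)))) ∈ factList by
            simp [factList]) Th hTh (fun _ => m) L (fun _ => by omega)
        have h3 : clF (fun _ => m) 0 (Fm.imp (Fm.neg (Fm.eq (Tm.var 0) Tm.zero))
          (Fm.eq (Tm.len (Tm.mul Tm.two (Tm.var 0))) (Tm.succ (Tm.len (Tm.var 0))))) =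
          Fm.imp (Fm.neg (Fm.eq (Tm.numeral m) Tm.zero))
          (Fm.eq (Tm.len (Tm.mul Tm.two (Tm.numeral m))) (Tm.succ (Tm.len (Tm.numeral m)))) := by
          simp [clF, clT, Fm.neg, Tm.two]
        rw [h3] at h2
        have hn := hc.mono (nz hs hc hF hH hTh L m hm0 (by omega)) le_rfl hBn
        have hm1 := hs.numSize m
        have h4 := hc.mp (hc.mono h2 le_rfl hBf) hn (by
          simp only [fs_neg, fs_eq, ts_zero, ts_mul, ts_two, ts_len, ts_succ]
          linarith)
        rw [← hs.numEven m hm0] at h4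
        refine step m _ (by omega) hsz h4 ?_
        have : (Cf + Ch + 4000) * m.size ≤ (Cf + Ch + 4000) * L :=
          Nat.mul_le_mul_left _ (by omega)
        linarith
    · have hsz : (2 * m + 1).size = m.size + 1 := by
        have := Nat.size_bit (b := true) (n := m) (by simp [Nat.bit])
        simpa [Nat.bit] using this
      have h2 := hF _ (show Fm.eq (Tm.len (Tm.succ (Tm.mul Tm.two (Tm.var 0))))
        (Tm.succ (Tm.len (Tm.var 0))) ∈ factList by
          simp [factList]) Th hTh (fun _ => m) L (fun _ => by omega)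
      have h3 : clF (fun _ => m) 0 (Fm.eq (Tm.len (Tm.succ (Tm.mul Tm.two (Tm.var 0))))
        (Tm.succ (Tm.len (Tm.var 0)))) =
        Fm.eq (Tm.len (Tm.succ (Tm.mul Tm.two (Tm.numeral m))))
          (Tm.succ (Tm.len (Tm.numeral m))) := by
        simp [clF, clT, Tm.two]
      rw [h3, ← hs.numOdd m] at h2
      exact step m _ (by omega) hsz (hc.mono h2 le_rfl hBf) (by omega)

/-- half of numerals -/
theorem half_num (L : ℕ) (a : ℕ) (hL : a.size ≤ L) :
    Pr Th Cf (Cf * (L + 1)) (Fm.eq (Tm.half (Tm.numeral a)) (Tm.numeral (a / 2))) := by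
  rcases Nat.even_or_odd' a with ⟨m, rfl | rfl⟩
  · rcases Nat.eq_zero_or_pos m with rfl | hm
    · have h2 := hF _ (show Fm.eq (Tm.half Tm.zero) Tm.zero ∈ factList by
        simp [factList]) Th hTh (fun _ => 0) L (fun _ => by simp)
      have h3 : clF (fun _ => 0) 0 (Fm.eq (Tm.half Tm.zero) Tm.zero) =
        Fm.eq (Tm.half Tm.zero) Tm.zero := by simp [clF, clT]
      rw [h3] at h2
      simpa [hs.num0] using h2
    · have hm0 : m ≠ 0 := by omega
      have hsz : (2 * m).size = m.size + 1 := by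
        have := Nat.size_bit (b := false) (n := m) (by simp [Nat.bit]; omega)
        simpa [Nat.bit] using this
      have h2 := hF _ (show Fm.eq (Tm.half (Tm.mul Tm.two (Tm.var 0))) (Tm.var 0) ∈ factList by
        simp [factList]) Th hTh (fun _ => m) L (fun _ => by omega)
      have h3 : clF (fun _ => m) 0 (Fm.eq (Tm.half (Tm.mul Tm.two (Tm.var 0))) (Tm.var 0)) =
        Fm.eq (Tm.half (Tm.mul Tm.two (Tm.numeral m))) (Tm.numeral m) := by
        simp [clF, clT, Tm.two]
      rw [h3, ← hs.numEven m hm0] at h2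
      have h4 : 2 * m / 2 = m := by omega
      rw [h4]
      exact h2
  · have hsz : (2 * m + 1).size = m.size + 1 := by
      have := Nat.size_bit (b := true) (n := m) (by simp [Nat.bit])
      simpa [Nat.bit] using this
    have h2 := hF _ (show Fm.eq (Tm.half (Tm.succ (Tm.mul Tm.two (Tm.var 0)))) (Tm.var 0) ∈
      factList by simp [factList]) Th hTh (fun _ => m) L (fun _ => by omega)
    have h3 : clF (fun _ => m) 0 (Fm.eq (Tm.half (Tm.succ (Tm.mul Tm.two (Tm.var 0)))) (Tm.var 0)) =
      Fm.eq (Tm.half (Tm.succ (Tm.mul Tm.two (Tm.numeral m)))) (Tm.numeral m) := by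
      simp [clF, clT, Tm.two]
    rw [h3, ← hs.numOdd m] at h2
    have h4 : (2 * m + 1) / 2 = m := by omega
    rw [h4]
    exact h2

end

end Pool.Agent.RN.NUM3

namespace Pool.Agent.RN

open Pool.Agent.H19 (T Tm scons)
open Pool.Agent.RO

/-- NUM3: half and length. -/
theorem NUM3_thm (hs : Sub) (hc : Calc) (hi : Stmt_INST) (hf : Stmt_FACTS) (h1 : Stmt_NUM1) :
    Stmt_NUM3 := by
  obtain ⟨Cf, hF⟩ := NUM3.facts_inst hc hi factList hf
  obtain ⟨C1, hN⟩ := h1
  obtain ⟨Ch, hH⟩ := hc.ofProvable (hf (Fm.neg (Fm.eq (Tm.succ (Tm.var 0)) Tm.zero)) (by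
    simp [factList]))
  refine ⟨2 * Cf + Ch + C1 + 1000000, fun Th hTh L a hL => ⟨?_, ?_⟩⟩
  · refine hc.mono (NUM3.half_num hs hc hF hH hTh L a hL) ?_ ?_
    · refine le_trans (show Cf ≤ 2 * Cf + Ch + C1 + 1000000 by linarith) ?_
      exact Nat.le_mul_of_pos_right _ (by positivity)
    · exact Nat.mul_le_mul_right _ (by linarith)
  · refine hc.mono (NUM3.len_num hs hc hF hH hTh (C1 := C1)
      (fun L a ha => (hN Th hTh L a 0 ha (by simp)).1) L a hL) ?_ ?_
    · have h2 : ((2 * Cf + Ch + C1 + 20000) * (L + 1)) * (a.size + 1) ≤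
          ((2 * Cf + Ch + C1 + 20000) * (L + 1)) * (L + 1) :=
        Nat.mul_le_mul_left _ (by omega)
      refine h2.trans ?_
      rw [Nat.mul_assoc, ← pow_two]
      exact Nat.mul_le_mul_right _ (by linarith)
    · exact Nat.mul_le_mul_right _ (by linarith)

end Pool.Agent.RN
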