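import Pool.Agent.RN.PrDefs

/-!
# ORD: order and inequality of numerals
-/

namespace Pool.Agent.RN.ORD

open Pool.Agent.H19 (T Tm scons)
open Pool.Agent.RO

theorem ts_add (s t : Tm) : ts (Tm.add s t) = ts s + ts t + 13 := by
  simp only [ts, Tm.enc, T.size, H19.T.size_unary]
  omega

theorem ts_succ (s : Tm) : ts (Tm.succ s) = ts s + 8 := by
  simp only [ts, Tm.enc, T.size, H19.T.size_unary]
  omega

theorem fs_eq (s t : Tm) : fs (Fm.eq s t) = ts s + ts t + 21 := by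
  simp only [fs, ts, Fm.enc, T.size, H19.T.size_unary]
  omega

theorem fs_le (s t : Tm) : fs (Fm.le s t) = ts s + ts t + 23 := by
  simp only [fs, ts, Fm.enc, T.size, H19.T.size_unary]
  omega

theorem fs_neg (φ : Fm) : fs (Fm.neg φ) = fs φ + 46 := by
  simp only [fs, Fm.neg, Fm.enc, T.size, H19.T.size_unary]
  omega

/-- the assignment `a, b, 0, 0, ...` -/
def asg (a b : ℕ) : ℕ → ℕ := fun i => if i = 0 then a else if i = 1 then b else 0

theorem asg_size {a b L : ℕ} (ha : a.size ≤ L) (hb : b.size ≤ L) (i : ℕ) :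
    (asg a b i).size ≤ L := by
  unfold asg
  split_ifs
  · exact ha
  · exact hb
  · simp

/-- the four facts, for numerals -/
theorem facts (hi : Stmt_INST) (hf : Stmt_FACTS) : ∃ C : ℕ, ∀ (Th : Set Fm), S12 ⊆ Th →
    ∀ L a b : ℕ, a.size ≤ L → b.size ≤ L →
    Pr Th C (C * (L + 1)) (Fm.le (Tm.numeral a) (Tm.add (Tm.numeral a) (Tm.numeral b))) ∧
    Pr Th C (C * (L + 1)) (Fm.imp (Fm.le (Tm.succ (Tm.numeral a)) (Tm.numeral b))
      (Fm.neg (Fm.eq (Tm.numeral a) (Tm.numeral b)))) ∧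
    Pr Th C (C * (L + 1)) (Fm.imp (Fm.le (Tm.succ (Tm.numeral a)) (Tm.numeral b))
      (Fm.neg (Fm.eq (Tm.numeral b) (Tm.numeral a)))) ∧
    Pr Th C (C * (L + 1)) (Fm.imp (Fm.le (Tm.succ (Tm.numeral a)) (Tm.numeral b))
      (Fm.neg (Fm.le (Tm.numeral b) (Tm.numeral a)))) := by
  have h1 := hf (Fm.le (Tm.var 0) (Tm.add (Tm.var 0) (Tm.var 1))) (by simp [factList])
  have h2 := hf (Fm.imp (Fm.le (Tm.succ (Tm.var 0)) (Tm.var 1))
    (Fm.neg (Fm.eq (Tm.var 0) (Tm.var 1)))) (by simp [factList])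
  have h3 := hf (Fm.imp (Fm.le (Tm.succ (Tm.var 0)) (Tm.var 1))
    (Fm.neg (Fm.eq (Tm.var 1) (Tm.var 0)))) (by simp [factList])
  have h4 := hf (Fm.imp (Fm.le (Tm.succ (Tm.var 0)) (Tm.var 1))
    (Fm.neg (Fm.le (Tm.var 1) (Tm.var 0)))) (by simp [factList])
  obtain ⟨C1, h1⟩ := hi _ h1
  obtain ⟨C2, h2⟩ := hi _ h2
  obtain ⟨C3, h3⟩ := hi _ h3
  obtain ⟨C4, h4⟩ := hi _ h4
  have mono : ∀ {Th : Set Fm} {C L : ℕ} {φ : Fm}, C ≤ C1 + C2 + C3 + C4 →
      Pr Th C (C * (L + 1)) φ →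
      Pr Th (C1 + C2 + C3 + C4) ((C1 + C2 + C3 + C4) * (L + 1)) φ := by
    rintro Th C L φ hC ⟨π, e1, e2, e3⟩
    exact ⟨π, e1, e2.trans hC, fun x hx => (e3 x hx).trans (Nat.mul_le_mul_right _ hC)⟩
  refine ⟨C1 + C2 + C3 + C4, fun Th hTh L a b ha hb => ⟨?_, ?_, ?_, ?_⟩⟩
  · exact mono (by omega) (h1 Th hTh (asg a b) L (asg_size ha hb))
  · exact mono (by omega) (h2 Th hTh (asg a b) L (asg_size ha hb))
  · exact mono (by omega) (h3 Th hTh (asg a b) L (asg_size ha hb))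
  · exact mono (by omega) (h4 Th hTh (asg a b) L (asg_size ha hb))

end Pool.Agent.RN.ORD

namespace Pool.Agent.RN

open Pool.Agent.H19 (T Tm scons)
open Pool.Agent.RO
open ORD

/-- MODULE ORD -/
theorem ORD_thm (hs : Sub) (hc : Calc) (hi : Stmt_INST) (hf : Stmt_FACTS) (h1 : Stmt_NUM1) :
    Stmt_ORD := by
  obtain ⟨CF, hF⟩ := facts hi hf
  obtain ⟨CN, hN⟩ := h1
  -- sizes of numerals
  have hnum : ∀ {a L : ℕ}, a.size ≤ L → ts (Tm.numeral a) ≤ 60 * (L + 1) := fun {a L} h =>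
    (hs.numSize a).trans (by omega)
  -- first part
  have part1 : ∀ (Th : Set Fm), S12 ⊆ Th → ∀ L a b : ℕ, a.size ≤ L → b.size ≤ L → a ≤ b →
      Pr Th ((CF + CN + 1000000) * (L + 1) ^ 2) ((CF + CN + 1000000) * (L + 1))
        (Fm.le (Tm.numeral a) (Tm.numeral b)) := by
    intro Th hTh L a b ha hb hab
    obtain ⟨d, rfl⟩ := Nat.exists_eq_add_of_le hab
    have hd : d.size ≤ L := (Nat.size_le_size (Nat.le_add_left d a)).trans hb
    have e1 := (hF Th hTh L a d ha hd).1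
    have e2 := (hN Th hTh L a d ha hd).2
    have na := hnum ha
    have nd := hnum hd
    have nb := hnum hb
    obtain ⟨S, hS⟩ : ∃ S, S = (CF + CN + 1000000) * (L + 1) := ⟨_, rfl⟩
    have hS1 : CF * (L + 1) ≤ S := by rw [hS]; exact Nat.mul_le_mul_right _ (by omega)
    have hS2 : CN * (L + 1) ≤ S := by rw [hS]; exact Nat.mul_le_mul_right _ (by omega)
    have hS3 : 1000000 * (L + 1) ≤ S := by rw [hS]; exact Nat.mul_le_mul_right _ (by omega)
    have k1 := hc.mono e1 (le_refl CF) hS1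
    have k2 := hc.mono e2 (le_refl (CN * (L + 1) ^ 2)) hS2
    have k3 := hc.symm k2 (by rw [ts_add]; omega)
    have k4 : Pr Th 1000 S (Fm.eq (Tm.numeral a) (Tm.numeral a)) := hc.refl (by omega)
    have k5 := hc.leC k4 k3 k1 (by rw [ts_add]; omega)
    rw [← hS]
    refine hc.mono k5 ?_ (le_refl S)
    have g1 : 1 ≤ (L + 1) ^ 2 := Nat.one_le_pow _ _ (by omega)
    nlinarith
  have hsucc : ∀ {L a b : ℕ}, b < a → a.size ≤ L → (b + 1).size ≤ L := fun {L a b} h1 h2 =>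
    (Nat.size_le_size h1).trans h2
  refine ⟨3 * (CF + CN + 1000000), fun Th hTh L a b ha hb => ?_⟩
  -- common part: `S b ≤ a` for `b < a`
  have part2 : ∀ a b : ℕ, a.size ≤ L → b.size ≤ L → b < a →
      Pr Th (2 * (CF + CN + 1000000) * (L + 1) ^ 2) (3 * (CF + CN + 1000000) * (L + 1))
        (Fm.le (Tm.succ (Tm.numeral b)) (Tm.numeral a)) := by
    intro a b ha hb hab
    have hb1 := hsucc hab ha
    have e1 := part1 Th hTh L (b + 1) a hb1 ha hab
    have e2 := (hN Th hTh L b b hb hb).1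
    obtain ⟨A, hA⟩ : ∃ A, A = ts (Tm.numeral a) := ⟨_, rfl⟩
    obtain ⟨B, hB⟩ : ∃ B, B = ts (Tm.numeral b) := ⟨_, rfl⟩
    obtain ⟨B1, hB1⟩ : ∃ B1, B1 = ts (Tm.numeral (b + 1)) := ⟨_, rfl⟩
    have na : A ≤ 60 * (L + 1) := hA ▸ hnum ha
    have nb : B ≤ 60 * (L + 1) := hB ▸ hnum hb
    have nb1 : B1 ≤ 60 * (L + 1) := hB1 ▸ hnum hb1
    obtain ⟨S, hS⟩ : ∃ S, S = 3 * (CF + CN + 1000000) * (L + 1) := ⟨_, rfl⟩
    have hS1 : (CF + CN + 1000000) * (L + 1) ≤ S := by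
      rw [hS]; exact Nat.mul_le_mul_right _ (by clear * -; omega)
    have hS2 : CN * (L + 1) ≤ S := by
      rw [hS]; exact Nat.mul_le_mul_right _ (by clear * -; omega)
    have hS3 : 1000000 * (L + 1) ≤ S := by
      rw [hS]; exact Nat.mul_le_mul_right _ (by clear * -; omega)
    have k1 := hc.mono e1 (le_refl _) hS1
    have k2 := hc.mono e2 (le_refl (CN * (L + 1))) hS2
    have k4 : Pr Th 1000 S (Fm.eq (Tm.numeral a) (Tm.numeral a)) := hc.refl (by
      rw [← hA]; clear * - na hS3; omega)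
    have k5 := hc.leC k2 k4 k1 (by
      rw [ts_succ, ← hA, ← hB, ← hB1]; clear * - na nb nb1 hS3; omega)
    rw [← hS]
    refine hc.mono k5 ?_ (le_refl S)
    have g1 : 1 ≤ (L + 1) ^ 2 := Nat.one_le_pow _ _ (by omega)
    have g2 : L + 1 ≤ (L + 1) ^ 2 := by nlinarith
    nlinarith
  -- conclusion from an implication
  have part3 : ∀ (a b : ℕ) (φ : Fm), a.size ≤ L → b.size ≤ L → b < a →
      fs φ ≤ 1000 * (L + 1) →
      Pr Th CF (CF * (L + 1)) (Fm.imp (Fm.le (Tm.succ (Tm.numeral b)) (Tm.numeral a)) φ) →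
      Pr Th (3 * (CF + CN + 1000000) * (L + 1) ^ 2) (3 * (CF + CN + 1000000) * (L + 1)) φ := by
    intro a b φ ha hb hab hφ h
    have e1 := part2 a b ha hb hab
    have na := hnum ha
    have nb := hnum hb
    have hS1 : CF * (L + 1) ≤ 3 * (CF + CN + 1000000) * (L + 1) :=
      Nat.mul_le_mul_right _ (by omega)
    have hS3 : 3 * 1000000 * (L + 1) ≤ 3 * (CF + CN + 1000000) * (L + 1) :=
      Nat.mul_le_mul_right _ (by omega)
    have k1 := hc.mono h (le_refl CF) hS1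
    have k2 := hc.mp k1 e1 (by rw [fs_le, ts_succ]; omega)
    refine hc.mono k2 ?_ (le_refl _)
    have g1 : 1 ≤ (L + 1) ^ 2 := Nat.one_le_pow _ _ (by omega)
    nlinarith
  have na := hnum ha
  have nb := hnum hb
  refine ⟨fun hab => ?_, fun hab => ?_, fun hab => ?_⟩
  · exact hc.mono (part1 Th hTh L a b ha hb hab) (Nat.mul_le_mul_right _ (by omega))
      (Nat.mul_le_mul_right _ (by omega))
  · refine part3 a b _ ha hb hab ?_ (hF Th hTh L b a hb ha).2.2.2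
    rw [fs_neg, fs_le]
    omega
  · rcases lt_or_gt_of_ne hab with h | h
    · refine part3 b a _ hb ha h ?_ (hF Th hTh L a b ha hb).2.1
      rw [fs_neg, fs_eq]
      omega
    · refine part3 a b _ ha hb h ?_ (hF Th hTh L b a hb ha).2.2.1
      rw [fs_neg, fs_eq]
      omega

end Pool.Agent.RN
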