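import Pool.Agent.RN.PrDefs

/-!
PC: true closed instances of `Σ^b_1(O)` formulas have short proofs.
-/

namespace Pool.Agent.RN

open Pool.Agent.H19 (T Tm scons)
open Pool.Agent.RO

namespace PC

/-! ### Numbers -/

lemma const_le {X : ℕ} (hX : 2 ≤ X) (K : ℕ) : K ≤ X ^ K :=
  (Nat.lt_two_pow_self).le.trans (Nat.pow_le_pow_left hX K)

lemma mul_le_pow {X a b e f : ℕ} (ha : a ≤ X ^ e) (hb : b ≤ X ^ f) : a * b ≤ X ^ (e + f) := by
  rw [pow_add]
  exact Nat.mul_le_mul ha hb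

lemma pow_mono {X : ℕ} (hX : 2 ≤ X) {e f : ℕ} (h : e ≤ f) : X ^ e ≤ X ^ f :=
  Nat.pow_le_pow_right (by omega) h

lemma two_pow_le {X : ℕ} (hX : 2 ≤ X) (k : ℕ) : 2 ^ k ≤ X ^ k := Nat.pow_le_pow_left hX k

lemma one_le_pow {X : ℕ} (hX : 2 ≤ X) (k : ℕ) : 1 ≤ X ^ k := Nat.one_le_pow _ _ (by omega)

/-- `2 ^ 20 Y ≤ X ^ E` if `Y = X ^ e` and `e + 20 ≤ E` -/
lemma big {X e E : ℕ} (hX : 2 ≤ X) (h : e + 20 ≤ E) : 1048576 * X ^ e ≤ X ^ E := by
  calc 1048576 * X ^ e = 2 ^ 20 * X ^ e := by norm_num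
    _ ≤ X ^ 20 * X ^ e := Nat.mul_le_mul_right _ (two_pow_le hX 20)
    _ = X ^ (e + 20) := by rw [← pow_add, add_comm]
    _ ≤ X ^ E := pow_mono hX h

lemma size_mono {a b : ℕ} (h : a ≤ b) : a.size ≤ b.size := Nat.size_le_size h

lemma size_le_self (a : ℕ) : a.size ≤ a := by
  rw [Nat.size_le]
  exact Nat.lt_two_pow_self

/-! ### Sizes -/

lemma one_le_size (x : T) : 1 ≤ x.size := by cases x <;> simp [T.size]

lemma one_le_ts (t : Tm) : 1 ≤ ts t := one_le_size _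

lemma one_le_fs (φ : Fm) : 1 ≤ fs φ := one_le_size _

lemma fs_bot : fs Fm.bot = 21 := rfl

lemma fs_eq (s t : Tm) : fs (Fm.eq s t) = ts s + ts t + 21 := by
  simp only [fs, ts, Fm.enc, T.size, T.unary]; omega

lemma fs_le (s t : Tm) : fs (Fm.le s t) = ts s + ts t + 23 := by
  simp only [fs, ts, Fm.enc, T.size, T.unary]; omega

lemma fs_imp (φ ψ : Fm) : fs (Fm.imp φ ψ) = fs φ + fs ψ + 25 := by
  simp only [fs, Fm.enc, T.size, T.unary]; omega

lemma fs_all (φ : Fm) : fs (Fm.all φ) = fs φ + 28 := by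
  simp only [fs, Fm.enc, T.size, T.unary]; omega

lemma fs_rel (t : Tm) : fs (Fm.rel t) = ts t + 30 := by
  simp only [fs, ts, Fm.enc, T.size, T.unary]; omega

lemma ts_cl (hs : Sub) {v : ℕ → ℕ} {L : ℕ} (hv : ∀ i, (v i).size ≤ L) (d : ℕ) (t : Tm) :
    ts (clT v d t) ≤ (L + 2) ^ (7 + ts t) := by
  refine (hs.sizeT v L d t hv).trans ?_
  have hX : 2 ≤ L + 2 := by omega
  have h1 : 60 * (L + 1) ≤ (L + 2) ^ 7 := by
    calc 60 * (L + 1) ≤ 2 ^ 6 * (L + 2) := by omega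
      _ ≤ (L + 2) ^ 6 * (L + 2) := Nat.mul_le_mul_right _ (two_pow_le hX 6)
      _ = (L + 2) ^ 7 := by ring
  exact mul_le_pow h1 (const_le hX _)

lemma fs_cl (hs : Sub) {v : ℕ → ℕ} {L : ℕ} (hv : ∀ i, (v i).size ≤ L) (d : ℕ) (φ : Fm) :
    fs (clF v d φ) ≤ (L + 2) ^ (7 + fs φ) := by
  refine (hs.sizeF v L d φ hv).trans ?_
  have hX : 2 ≤ L + 2 := by omega
  have h1 : 60 * (L + 1) ≤ (L + 2) ^ 7 := by
    calc 60 * (L + 1) ≤ 2 ^ 6 * (L + 2) := by omega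
      _ ≤ (L + 2) ^ 6 * (L + 2) := Nat.mul_le_mul_right _ (two_pow_le hX 6)
      _ = (L + 2) ^ 7 := by ring
  exact mul_le_pow h1 (const_le hX _)

lemma ts_num (hs : Sub) {X e m : ℕ} (hX : 2 ≤ X) (hm : m.size ≤ X ^ e) :
    ts (Tm.numeral m) ≤ X ^ (7 + e) := by
  refine (hs.numSize m).trans ?_
  have h1 := one_le_pow hX e
  calc 60 * (m.size + 1) ≤ 2 ^ 7 * X ^ e := by omega
    _ ≤ X ^ 7 * X ^ e := Nat.mul_le_mul_right _ (two_pow_le hX 7)
    _ = X ^ (7 + e) := by rw [pow_add]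

lemma ord_bound {X K e : ℕ} (hX : 2 ≤ X) :
    K * (X ^ e + 1) ^ 2 ≤ X ^ (K + 2 * (e + 1)) ∧ K * (X ^ e + 1) ≤ X ^ (K + 2 * (e + 1)) := by
  have h1 : X ^ e + 1 ≤ X ^ (e + 1) := by
    have := one_le_pow hX e
    rw [pow_succ]
    calc X ^ e + 1 ≤ X ^ e * 2 := by omega
      _ ≤ X ^ e * X := Nat.mul_le_mul_left _ hX
  have h2 : (X ^ e + 1) ^ 2 ≤ X ^ (2 * (e + 1)) := by
    rw [mul_comm 2, pow_mul]
    exact Nat.pow_le_pow_left h1 2
  refine ⟨mul_le_pow (const_le hX K) h2, ?_⟩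
  refine mul_le_pow (const_le hX K) (h1.trans (pow_mono hX (by omega)))

/-! ### Atomic formulas -/

/-- atomic formulas -/
def Atomic : Fm → Prop
  | Fm.eq _ _ => True
  | Fm.le _ _ => True
  | Fm.rel _ => True
  | _ => False

lemma atomic_pc (hs : Sub) (hc : Calc) (hO : Stmt_ORD) (hT : Stmt_TERM) : ∃ K : ℕ, 1 ≤ K ∧
    ∀ (O : Om) (α : Fm) (v : ℕ → ℕ) (L : ℕ), Atomic α → (∀ i, (v i).size ≤ L) →
      (α.sat (stdN O) v → Pr (S12 ∪ diag O) ((L + 2) ^ (K * fs α)) ((L + 2) ^ (K * fs α))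
        (clF v 0 α)) ∧
      (¬ α.sat (stdN O) v → Pr (S12 ∪ diag O) ((L + 2) ^ (K * fs α)) ((L + 2) ^ (K * fs α))
        (Fm.neg (clF v 0 α))) := by
  obtain ⟨CO, hO⟩ := hO
  obtain ⟨CT, hT⟩ := hT
  refine ⟨CT + CO + 30, by omega, ?_⟩
  intro O α v L hα hv
  obtain ⟨X, hXd⟩ : ∃ X, X = L + 2 := ⟨_, rfl⟩
  obtain ⟨Th, hTh⟩ : ∃ Th, Th = S12 ∪ diag O := ⟨_, rfl⟩
  obtain ⟨a, ha⟩ : ∃ a, a = fs α := ⟨_, rfl⟩
  have hX : 2 ≤ X := by omega
  have hsub : S12 ⊆ Th := hTh ▸ Set.subset_union_left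
  have hfs : 1 ≤ a := ha ▸ one_le_fs α
  rw [← ha, ← hXd, ← hTh]
  -- the bounds
  obtain ⟨e, he⟩ : ∃ e, e = (CT + CO + 10) * a := ⟨_, rfl⟩
  obtain ⟨M, hMd⟩ : ∃ M, M = X ^ ((CT + CO + 30) * a) := ⟨_, rfl⟩
  obtain ⟨Y, hY⟩ : ∃ Y, Y = X ^ e := ⟨_, rfl⟩
  have hM : 1048576 * Y ≤ M := by
    rw [hY, hMd]
    refine big hX ?_
    rw [he, show (CT + CO + 30) * a = (CT + CO + 10) * a + 20 * a by ring]
    omega
  have hY1 : 1 ≤ Y := hY ▸ one_le_pow hX e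
  have hCTY : ∀ t : Tm, ts t + 20 ≤ a → X ^ (CT * ts t) ≤ Y := fun t ht => by
    rw [hY]
    refine pow_mono hX ?_
    calc CT * ts t ≤ (CT + CO + 10) * ts t := Nat.mul_le_mul_right _ (by omega)
      _ ≤ e := he ▸ Nat.mul_le_mul_left _ (by omega)
  have h7 : 7 + a ≤ e := by
    rw [he, show (CT + CO + 10) * a = (CT + CO) * a + 10 * a by ring]
    omega
  have hclY : ∀ t : Tm, ts t + 20 ≤ a → ts (clT v 0 t) ≤ Y := fun t ht => by
    rw [hY]
    exact (ts_cl hs hv 0 t).trans (hXd ▸ pow_mono hX (by omega))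
  have hval : ∀ t : Tm, (t.val H19.stdN v).size ≤ X ^ ts t := fun t =>
    hXd ▸ (hT Th hsub t v L hv).1
  have hnumY : ∀ t : Tm, ts t + 20 ≤ a → ts (Tm.numeral (t.val H19.stdN v)) ≤ Y :=
    fun t ht => by
      rw [hY]
      exact (ts_num hs hX (hval t)).trans (pow_mono hX (by omega))
  have hpr : ∀ t : Tm, ts t + 20 ≤ a →
      Pr Th Y M (Fm.eq (clT v 0 t) (Tm.numeral (t.val H19.stdN v))) := fun t ht => by
    have h1 := (hT Th hsub t v L hv).2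
    rw [← hXd] at h1
    exact hc.mono h1 (hCTY t ht) ((hCTY t ht).trans (by omega))
  have hordY : ∀ k : ℕ, k + 20 ≤ a →
      CO * (X ^ k + 1) ^ 2 ≤ Y ∧ CO * (X ^ k + 1) ≤ Y := fun k hk => by
    have h1 : CO + 2 * (k + 1) ≤ e := by
      have h2 : CO ≤ CO * a := Nat.le_mul_of_pos_right _ hfs
      rw [he, show (CT + CO + 10) * a = CT * a + CO * a + 10 * a by ring]
      omega
    rw [hY]
    exact ⟨(ord_bound hX).1.trans (pow_mono hX h1), (ord_bound hX).2.trans (pow_mono hX h1)⟩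
  have hvk : ∀ (t : Tm) (k : ℕ), ts t ≤ k → (t.val H19.stdN v).size ≤ X ^ k := fun t k hk =>
    (hval t).trans (pow_mono hX hk)
  rw [← hMd]
  clear hMd hY he hXd
  cases α with
  | bot => exact absurd hα id
  | imp φ ψ => exact absurd hα id
  | all φ => exact absurd hα id
  | eq s t =>
    have hst : a = ts s + ts t + 21 := ha.trans (fs_eq s t)
    have e1 := hpr s (by omega)
    have e2 := hpr t (by omega)
    have s1 := hclY s (by omega)
    have s2 := hclY t (by omega)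
    have s3 := hnumY s (by omega)
    have s4 := hnumY t (by omega)
    have hb := hordY (ts s + ts t) (by omega)
    have ho := hO Th hsub (X ^ (ts s + ts t)) (s.val H19.stdN v) (t.val H19.stdN v)
        (hvk s _ (by omega)) (hvk t _ (by omega))
    constructor
    · intro h
      have h' : s.val H19.stdN v = t.val H19.stdN v := h
      rw [← h'] at e2
      rw [← h'] at s4
      have e3 := hc.symm e2 (by omega)
      have e4 := hc.etrans e1 e3 (by omega)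
      exact hc.mono e4 (by omega) le_rfl
    · intro h
      have h' : s.val H19.stdN v ≠ t.val H19.stdN v := h
      have ho' := hc.mono (ho.2.2 h') hb.1 (hb.2.trans (show Y ≤ M by omega))
      have e3 := hc.neqC e1 e2 ho' (by omega)
      exact hc.mono e3 (by omega) le_rfl
  | le s t =>
    have hst : a = ts s + ts t + 23 := ha.trans (fs_le s t)
    have e1 := hpr s (by omega)
    have e2 := hpr t (by omega)
    have s1 := hclY s (by omega)
    have s2 := hclY t (by omega)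
    have s3 := hnumY s (by omega)
    have s4 := hnumY t (by omega)
    have hb := hordY (ts s + ts t) (by omega)
    have ho := hO Th hsub (X ^ (ts s + ts t)) (s.val H19.stdN v) (t.val H19.stdN v)
        (hvk s _ (by omega)) (hvk t _ (by omega))
    constructor
    · intro h
      have h' : s.val H19.stdN v ≤ t.val H19.stdN v := h
      have ho' := hc.mono (ho.1 h') hb.1 (hb.2.trans (show Y ≤ M by omega))
      have e3 := hc.leC e1 e2 ho' (by omega)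
      exact hc.mono e3 (by omega) le_rfl
    · intro h
      have h' : t.val H19.stdN v < s.val H19.stdN v := not_le.mp h
      have ho' := hc.mono (ho.2.1 h') hb.1 (hb.2.trans (show Y ≤ M by omega))
      have e3 := hc.nleC e1 e2 ho' (by omega)
      exact hc.mono e3 (by omega) le_rfl
  | rel t =>
    have hst : a = ts t + 30 := ha.trans (fs_rel t)
    have e1 := hpr t (by omega)
    have s1 := hclY t (by omega)
    have s2 := hnumY t (by omega)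
    have f1 := fs_rel (Tm.numeral (t.val H19.stdN v))
    have f2 := fs_imp (Fm.rel (Tm.numeral (t.val H19.stdN v))) Fm.bot
    have f3 := fs_bot
    constructor
    · intro h
      have h' : O (t.val H19.stdN v) = true := h
      have ho : Fm.rel (Tm.numeral (t.val H19.stdN v)) ∈ Th :=
        hTh ▸ Or.inr ⟨_, Or.inl ⟨h', rfl⟩⟩
      have ho' := hc.hyp (s := M) ho (by omega)
      have e3 := hc.relC e1 ho' (by omega)
      exact hc.mono e3 (by omega) le_rfl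
    · intro h
      have h' : O (t.val H19.stdN v) = false := by
        cases hb : O (t.val H19.stdN v) with
        | true => exact absurd hb h
        | false => rfl
      have ho : Fm.neg (Fm.rel (Tm.numeral (t.val H19.stdN v))) ∈ Th :=
        hTh ▸ Or.inr ⟨_, Or.inr ⟨h', rfl⟩⟩
      have ho' := hc.hyp (s := M) ho (by rw [Fm.neg]; omega)
      have e3 := hc.nrelC e1 ho' (by omega)
      exact hc.mono e3 (by omega) le_rfl

/-! ### Quantifiers -/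

lemma sharp_inv {φ : Fm} (h : φ.sharp = true) : ∃ t ψ,
    φ = Fm.imp (Fm.le (Tm.var 0) (Tm.len t)) ψ ∧ t.occurs 0 = false := by
  unfold Fm.sharp at h
  split at h
  · exact ⟨_, _, rfl, by simpa using h⟩
  · exact absurd h (by simp)

lemma guarded_inv {φ : Fm} (h : φ.guarded = true) : ∃ t ψ,
    φ = Fm.imp (Fm.le (Tm.var 0) t) ψ ∧ t.occurs 0 = false := by
  unfold Fm.guarded at h
  split at h
  · exact ⟨_, _, rfl, by simpa using h⟩
  · exact absurd h (by simp)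

lemma val_indep {M : Type} (A : H19.Str M) (v : ℕ → M) (a b : M) (t : Tm)
    (h : t.occurs 0 = false) : t.val A (scons a v) = t.val A (scons b v) := by
  induction t with
  | var i =>
    cases i with
    | zero => simp [Tm.occurs] at h
    | succ i => rfl
  | zero => rfl
  | succ t ih => simp only [Tm.val, ih h]
  | half t ih => simp only [Tm.val, ih h]
  | len t ih => simp only [Tm.val, ih h]
  | add s t ih1 ih2 =>
    simp only [Tm.occurs, Bool.or_eq_false_iff] at h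
    simp only [Tm.val, ih1 h.1, ih2 h.2]
  | mul s t ih1 ih2 =>
    simp only [Tm.occurs, Bool.or_eq_false_iff] at h
    simp only [Tm.val, ih1 h.1, ih2 h.2]
  | smash s t ih1 ih2 =>
    simp only [Tm.occurs, Bool.or_eq_false_iff] at h
    simp only [Tm.val, ih1 h.1, ih2 h.2]

lemma ts_var0 : ts (Tm.var 0) = 5 := rfl

lemma ts_var1 : ts (Tm.var 1) = 7 := rfl

lemma ts_len (t : Tm) : ts (Tm.len t) = ts t + 12 := by
  simp only [ts, Tm.enc, T.size, T.unary]; omega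

/-- the exponents -/
lemma expo {K C a f τ : ℕ} (hC : C = K + 23) (h : f + τ + 1 ≤ a) :
    (τ + 1) * 2 ^ (C * f) + K * (a * a) + 20 ≤ 2 ^ (C * a) := by
  have h0 : C * a = C * (a - 1) + C := by
    obtain ⟨b, rfl⟩ : ∃ b, a = b + 1 := ⟨a - 1, by omega⟩
    simp [Nat.mul_succ]
  have h1 : (τ + 1) * 2 ^ (C * f) ≤ 2 ^ (C * a - 1) := by
    calc (τ + 1) * 2 ^ (C * f) ≤ 2 ^ τ * 2 ^ (C * f) :=
          Nat.mul_le_mul_right _ Nat.lt_two_pow_self
      _ = 2 ^ (τ + C * f) := by rw [pow_add]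
      _ ≤ 2 ^ (C * a - 1) := by
          refine Nat.pow_le_pow_right (by norm_num) ?_
          have h2 : C * (f + τ) ≤ C * (a - 1) := Nat.mul_le_mul_left _ (by omega)
          have h3 : τ ≤ C * τ := Nat.le_mul_of_pos_left _ (by omega)
          rw [mul_add] at h2
          omega
  have h2 : K * (a * a) + 20 ≤ 2 ^ (C * a - 1) := by
    have ha : 1 ≤ a * a := Nat.mul_pos (by omega) (by omega)
    calc K * (a * a) + 20 ≤ (K + 20) * (a * a) := by rw [add_mul]; omega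
      _ ≤ 2 ^ (K + 20) * (2 ^ a * 2 ^ a) :=
          Nat.mul_le_mul (Nat.lt_two_pow_self).le
            (Nat.mul_le_mul (Nat.lt_two_pow_self).le (Nat.lt_two_pow_self).le)
      _ = 2 ^ (K + 20 + 2 * a) := by rw [← pow_add, ← pow_add]; congr 1; ring
      _ ≤ 2 ^ (C * a - 1) := by
          refine Nat.pow_le_pow_right (by norm_num) ?_
          have h3 : C * a = K * a + 23 * a := by rw [hC, add_mul]
          have h4 : K ≤ K * a := Nat.le_mul_of_pos_right _ (by omega)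
          omega
  have h3 : 2 ^ (C * a) = 2 ^ (C * a - 1) + 2 ^ (C * a - 1) := by
    have : C * a = (C * a - 1) + 1 := by omega
    conv_lhs => rw [this, pow_succ]
    ring
  omega

lemma pow_add_two {X τ : ℕ} (hX : 2 ≤ X) (hτ : 1 ≤ τ) : X ^ τ + 2 ≤ X ^ (τ + 1) := by
  have h1 : 2 ≤ X ^ τ := hX.trans (Nat.le_self_pow (by omega) X)
  rw [pow_succ]
  calc X ^ τ + 2 ≤ X ^ τ * 2 := by omega
    _ ≤ X ^ τ * X := Nat.mul_le_mul_left _ hX

lemma pow_add_two_pow {X τ m : ℕ} (hX : 2 ≤ X) (hτ : 1 ≤ τ) :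
    (X ^ τ + 2) ^ m ≤ X ^ ((τ + 1) * m) := by
  rw [pow_mul]
  exact Nat.pow_le_pow_left (pow_add_two hX hτ) m

lemma size_scons {v : ℕ → ℕ} {L L' a : ℕ} (hv : ∀ i, (v i).size ≤ L) (hL : L ≤ L')
    (ha : a.size ≤ L') : ∀ i, (scons a v i).size ≤ L'
  | 0 => ha
  | i + 1 => (hv i).trans hL

lemma le_pow_self {X τ : ℕ} (hτ : 1 ≤ τ) : X ≤ X ^ τ := Nat.le_self_pow (by omega) X

/-- replacing the bound of a bounded quantifier -/
lemma inst_bound (hs : Sub) (χ : Fm) (x : Tm) (hx : x.fvBelow 0) :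
    (Fm.all (Fm.imp (Fm.le (Tm.var 0) (Tm.var 1)) (χ.shift 1 1))).inst 0 x =
      Fm.all (Fm.imp (Fm.le (Tm.var 0) x) χ) := by
  change Fm.all (Fm.imp (Fm.le (Tm.var 0) (x.shift 0 1)) ((χ.shift 1 1).inst 1 x)) = _
  rw [hs.instShiftF, hs.shiftIdT x 0 1 hx]

/-- what is proved by induction -/
def Good (O : Om) (C : ℕ) (α : Fm) : Prop := ∀ (v : ℕ → ℕ) (L : ℕ), (∀ i, (v i).size ≤ L) →
  (α.isSigma = true → α.sat (stdN O) v →
    Pr (S12 ∪ diag O) (Bd C (fs α) L) (Bd C (fs α) L) (clF v 0 α)) ∧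
  (α.isPi = true → ¬ α.sat (stdN O) v →
    Pr (S12 ∪ diag O) (Bd C (fs α) L) (Bd C (fs α) L) (Fm.neg (clF v 0 α)))

/-- the universal quantifier, `Σ` -/
lemma all_sigma (hs : Sub) (hc : Calc) {CT CB K C : ℕ} (hC : C = K + 23)
    (hK : CT + CB + 20 ≤ K)
    (hT : ∀ (Th : Set Fm), S12 ⊆ Th → ∀ (t : Tm) (v : ℕ → ℕ) (L : ℕ),
      (∀ i, (v i).size ≤ L) → (t.val H19.stdN v).size ≤ (L + 2) ^ ts t ∧
      Pr Th ((L + 2) ^ (CT * ts t)) ((L + 2) ^ (CT * ts t))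
        (Fm.eq (clT v 0 t) (Tm.numeral (t.val H19.stdN v))))
    (hB : ∀ (Th : Set Fm), S12 ⊆ Th → ∀ (χ : Fm) (b l s : ℕ),
      χ.fvBelow 1 → (∀ a ≤ b, Pr Th l s (χ.inst 0 (Tm.numeral a))) →
      Pr Th ((b + 1) * (l + CB * (b.size + 1) ^ 2)) (s + CB * (fs χ + 1) * (b.size + 1))
        (Fm.all (Fm.imp (Fm.le (Tm.var 0) (Tm.numeral b)) χ)))
    (O : Om) (t : Tm) (ψ : Fm) (ht : t.occurs 0 = false) (ih : Good O C ψ)
    (hψ : ψ.isSigma = true) (v : ℕ → ℕ) (L : ℕ) (hv : ∀ i, (v i).size ≤ L)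
    (hsat : (Fm.all (Fm.imp (Fm.le (Tm.var 0) (Tm.len t)) ψ)).sat (stdN O) v) :
    Pr (S12 ∪ diag O) (Bd C (fs (Fm.all (Fm.imp (Fm.le (Tm.var 0) (Tm.len t)) ψ))) L)
      (Bd C (fs (Fm.all (Fm.imp (Fm.le (Tm.var 0) (Tm.len t)) ψ))) L)
      (clF v 0 (Fm.all (Fm.imp (Fm.le (Tm.var 0) (Tm.len t)) ψ))) := by
  obtain ⟨Th, hTh⟩ : ∃ Th, Th = S12 ∪ diag O := ⟨_, rfl⟩
  have hsub : S12 ⊆ Th := hTh ▸ Set.subset_union_left
  obtain ⟨a, ha⟩ : ∃ a, a = fs (Fm.all (Fm.imp (Fm.le (Tm.var 0) (Tm.len t)) ψ)) := ⟨_, rfl⟩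
  obtain ⟨τ, hτ⟩ : ∃ τ, τ = ts (Tm.len t) := ⟨_, rfl⟩
  obtain ⟨f, hf⟩ : ∃ f, f = fs ψ := ⟨_, rfl⟩
  have ha' : a = τ + f + 81 := by
    rw [ha, fs_all, fs_imp, fs_le, ts_var0, ← hτ, ← hf]; omega
  have hτ1 : 12 ≤ τ := by rw [hτ, ts_len]; omega
  have hf1 : 1 ≤ f := hf ▸ one_le_fs ψ
  rw [← ha, ← hTh]
  -- the value of the bound
  have hv0 : ∀ i, (scons 0 v i).size ≤ L := size_scons hv le_rfl (by simp)
  obtain ⟨b, hb⟩ : ∃ b, b = (Tm.len t).val H19.stdN (scons 0 v) := ⟨_, rfl⟩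
  have hbs : b = (t.val H19.stdN (scons 0 v)).size := hb
  obtain ⟨X, hXd⟩ : ∃ X, X = L + 2 := ⟨_, rfl⟩
  have hX : 2 ≤ X := by omega
  have hb1 : b ≤ X ^ τ := by
    have h1 := (hT Th hsub t (scons 0 v) L hv0).1
    rw [← hbs, ← hXd] at h1
    refine h1.trans (pow_mono hX ?_)
    rw [hτ, ts_len]; omega
  have hbsz : b.size ≤ X ^ τ := (size_le_self b).trans hb1
  have hbv : ∀ a0, (Tm.len t).val H19.stdN (scons a0 v) = b := fun a0 => by
    rw [hb]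
    exact val_indep _ v a0 0 (Tm.len t) ht
  have hLτ : L ≤ X ^ τ := by
    have := le_pow_self (X := X) (τ := τ) (by omega)
    omega
  -- the formula
  obtain ⟨χ, hχ⟩ : ∃ χ, χ = clF v 1 ψ := ⟨_, rfl⟩
  have hχb : χ.fvBelow 1 := hχ ▸ hs.belowF v 1 ψ
  have hχs : fs χ ≤ X ^ (7 + f) := by
    rw [hχ, hf, hXd]
    exact fs_cl hs hv 1 ψ
  -- the exponents
  obtain ⟨N, hN⟩ : ∃ N, N = Bd C f (X ^ τ) := ⟨_, rfl⟩
  have hNle : N ≤ X ^ ((τ + 1) * 2 ^ (C * f)) := by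
    rw [hN, Bd]
    exact pow_add_two_pow hX (by omega)
  have hinst : ∀ a0 ≤ b, Pr Th N N (χ.inst 0 (Tm.numeral a0)) := by
    intro a0 ha0
    have h1 : ψ.sat (stdN O) (scons a0 v) := hsat a0 (show a0 ≤ _ from (hbv a0).symm ▸ ha0)
    have h2 := (ih (scons a0 v) (X ^ τ) (size_scons hv hLτ
      ((size_mono ha0).trans hbsz))).1 hψ h1
    rw [← hf, ← hTh, ← hN, ← hs.instF] at h2
    rw [hχ]
    exact h2
  have hball := hB Th hsub χ b N N hχb hinst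
  -- numbers
  have haa : a ≤ a * a := Nat.le_mul_of_pos_left _ (by omega)
  obtain ⟨e, he⟩ : ∃ e, e = (τ + 1) * 2 ^ (C * f) + K * (a * a) := ⟨_, rfl⟩
  have hKa : CT * a + CB * a + 20 * a ≤ K * (a * a) := by
    calc CT * a + CB * a + 20 * a = (CT + CB + 20) * a := by ring
      _ ≤ K * (a * a) := Nat.mul_le_mul hK haa
  have hCT : CT * τ ≤ CT * a := Nat.mul_le_mul_left _ (by omega)
  have hCB : CB ≤ CB * a := Nat.le_mul_of_pos_right _ (by omega)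
  obtain ⟨M, hM⟩ : ∃ M, M = Bd C a L := ⟨_, rfl⟩
  obtain ⟨Y, hY⟩ : ∃ Y, Y = X ^ e := ⟨_, rfl⟩
  have hMY : 1048576 * Y ≤ M := by
    rw [hY, hM, Bd, ← hXd]
    exact big hX (he ▸ expo hC (by omega))
  have hY1 : 1 ≤ Y := hY ▸ one_le_pow hX e
  have hle : ∀ k, k ≤ e → X ^ k ≤ Y := fun k hk => hY ▸ pow_mono hX hk
  have b1 : fs χ ≤ Y := hχs.trans (hle _ (by omega))
  have hbsz1 : b.size + 1 ≤ X ^ (τ + 1) := by
    have := pow_add_two hX (τ := τ) (by omega)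
    omega
  have hb11 : b + 1 ≤ X ^ (τ + 1) := by
    have := pow_add_two hX (τ := τ) (by omega)
    omega
  have b2 : (b + 1) * (N + CB * (b.size + 1) ^ 2) ≤ Y := by
    have h1 : CB * (b.size + 1) ^ 2 ≤ X ^ (CB + 2 * (τ + 1)) := by
      refine mul_le_pow (const_le hX CB) ?_
      rw [mul_comm 2, pow_mul]
      exact Nat.pow_le_pow_left hbsz1 2
    have h2 : CB * (b.size + 1) ^ 2 ≤ X ^ ((τ + 1) * 2 ^ (C * f) + CB + 2 * (τ + 1)) :=
      h1.trans (pow_mono hX (by omega))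
    have h3 : N ≤ X ^ ((τ + 1) * 2 ^ (C * f) + CB + 2 * (τ + 1)) :=
      hNle.trans (pow_mono hX (by omega))
    have h4 : N + CB * (b.size + 1) ^ 2 ≤ X ^ (1 + ((τ + 1) * 2 ^ (C * f) + CB + 2 * (τ + 1))) := by
      rw [pow_add X 1, pow_one]
      have h5 := Nat.mul_le_mul_right (X ^ ((τ + 1) * 2 ^ (C * f) + CB + 2 * (τ + 1))) hX
      omega
    refine (mul_le_pow hb11 h4).trans (hle _ ?_)
    omega
  have b3 : CB * (fs χ + 1) * (b.size + 1) ≤ Y := by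
    have h1 : fs χ + 1 ≤ X ^ (7 + f + 1) := by
      have := pow_add_two hX (τ := 7 + f) (by omega)
      omega
    refine (mul_le_pow (mul_le_pow (const_le hX CB) h1) hbsz1).trans (hle _ ?_)
    omega
  have b4 : N ≤ Y := hNle.trans (hle _ (by omega))
  have hball' := hc.mono hball b2 (show _ ≤ M by omega)
  -- the bound as a term
  obtain ⟨x, hx⟩ : ∃ x, x = Tm.numeral b := ⟨_, rfl⟩
  obtain ⟨y, hy⟩ : ∃ y, y = Tm.len (clT v 1 t) := ⟨_, rfl⟩
  have hy' : clT (scons 0 v) 0 (Tm.len t) = y := by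
    rw [hy, hs.occT v 0 t ht]
    rfl
  have hxb : x.fvBelow 0 := hx ▸ hs.numBelow b 0
  have hyb : y.fvBelow 0 := hy' ▸ hs.belowT _ 0 _
  have c1 : ts x ≤ Y := by
    rw [hx]
    exact (ts_num hs hX hbsz).trans (hle _ (by omega))
  have c2 : ts y ≤ Y := by
    rw [← hy']
    refine (ts_cl hs hv0 0 _).trans ?_
    rw [← hXd, ← hτ]
    exact hle _ (by omega)
  have hterm := (hT Th hsub (Tm.len t) (scons 0 v) L hv0).2
  rw [hy', ← hb, ← hXd, ← hτ, ← hx] at hterm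
  have c3 : X ^ (CT * τ) ≤ Y := hle _ (by omega)
  have hterm' := hc.mono hterm c3 (c3.trans (show Y ≤ M by omega))
  have hsymm := hc.symm hterm' (by omega)
  rw [← hx] at hball'
  -- substitution
  obtain ⟨Φ, hΦ⟩ : ∃ Φ, Φ = Fm.all (Fm.imp (Fm.le (Tm.var 0) (Tm.var 1)) (χ.shift 1 1)) :=
    ⟨_, rfl⟩
  have i1 : Φ.inst 0 x = Fm.all (Fm.imp (Fm.le (Tm.var 0) x) χ) := hΦ ▸ inst_bound hs χ x hxb
  have i2 : Φ.inst 0 y = Fm.all (Fm.imp (Fm.le (Tm.var 0) y) χ) := hΦ ▸ inst_bound hs χ y hyb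
  have d1 : fs Φ ≤ 3 * fs χ + 88 := by
    have := hs.shiftSizeF χ 1 1
    rw [hΦ, fs_all, fs_imp, fs_le, ts_var0, ts_var1]
    omega
  have d2 : fs (Φ.inst 0 x) = ts x + fs χ + 81 := by
    rw [i1, fs_all, fs_imp, fs_le, ts_var0]; omega
  have d3 : fs (Φ.inst 0 y) = ts y + fs χ + 81 := by
    rw [i2, fs_all, fs_imp, fs_le, ts_var0]; omega
  rw [← i1] at hball'
  have hfin := hc.subst (φ := Φ) hsymm hball' (by omega)
  rw [i2] at hfin
  have hgoal : clF v 0 (Fm.all (Fm.imp (Fm.le (Tm.var 0) (Tm.len t)) ψ)) =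
      Fm.all (Fm.imp (Fm.le (Tm.var 0) y) χ) := by
    rw [hy, hχ]
    rfl
  rw [hgoal, ← hM]
  exact hc.mono hfin (by omega) le_rfl

/-- the universal quantifier, `Π` -/
lemma all_pi (hs : Sub) (hc : Calc) {CT K0 K C : ℕ} (hC : C = K + 23)
    (hK : CT + K0 + 20 ≤ K)
    (hT : ∀ (Th : Set Fm), S12 ⊆ Th → ∀ (t : Tm) (v : ℕ → ℕ) (L : ℕ),
      (∀ i, (v i).size ≤ L) → (t.val H19.stdN v).size ≤ (L + 2) ^ ts t ∧
      Pr Th ((L + 2) ^ (CT * ts t)) ((L + 2) ^ (CT * ts t))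
        (Fm.eq (clT v 0 t) (Tm.numeral (t.val H19.stdN v))))
    (hA : ∀ (O : Om) (α : Fm) (v : ℕ → ℕ) (L : ℕ), Atomic α → (∀ i, (v i).size ≤ L) →
      (α.sat (stdN O) v → Pr (S12 ∪ diag O) ((L + 2) ^ (K0 * fs α)) ((L + 2) ^ (K0 * fs α))
        (clF v 0 α)) ∧
      (¬ α.sat (stdN O) v → Pr (S12 ∪ diag O) ((L + 2) ^ (K0 * fs α)) ((L + 2) ^ (K0 * fs α))
        (Fm.neg (clF v 0 α))))
    (O : Om) (t : Tm) (ψ : Fm) (ht : t.occurs 0 = false) (ih : Good O C ψ)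
    (hψ : ψ.isPi = true) (v : ℕ → ℕ) (L : ℕ) (hv : ∀ i, (v i).size ≤ L)
    (hsat : ¬ (Fm.all (Fm.imp (Fm.le (Tm.var 0) t) ψ)).sat (stdN O) v) :
    Pr (S12 ∪ diag O) (Bd C (fs (Fm.all (Fm.imp (Fm.le (Tm.var 0) t) ψ))) L)
      (Bd C (fs (Fm.all (Fm.imp (Fm.le (Tm.var 0) t) ψ))) L)
      (Fm.neg (clF v 0 (Fm.all (Fm.imp (Fm.le (Tm.var 0) t) ψ)))) := by
  obtain ⟨Th, hTh⟩ : ∃ Th, Th = S12 ∪ diag O := ⟨_, rfl⟩
  have hsub : S12 ⊆ Th := hTh ▸ Set.subset_union_left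
  obtain ⟨φ, hφ⟩ : ∃ φ, φ = Fm.imp (Fm.le (Tm.var 0) t) ψ := ⟨_, rfl⟩
  obtain ⟨a, ha⟩ : ∃ a, a = fs (Fm.all (Fm.imp (Fm.le (Tm.var 0) t) ψ)) := ⟨_, rfl⟩
  obtain ⟨τ, hτ⟩ : ∃ τ, τ = ts t := ⟨_, rfl⟩
  obtain ⟨f, hf⟩ : ∃ f, f = fs ψ := ⟨_, rfl⟩
  have ha' : a = τ + f + 81 := by
    rw [ha, fs_all, fs_imp, fs_le, ts_var0, ← hτ, ← hf]; omega
  have hφs : fs φ + 28 = a := by rw [ha, hφ, fs_all]
  have hles : fs (Fm.le (Tm.var 0) t) = τ + 28 := by rw [fs_le, ts_var0, ← hτ]; omega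
  have hτ1 : 1 ≤ τ := hτ ▸ one_le_ts t
  have hf1 : 1 ≤ f := hf ▸ one_le_fs ψ
  rw [← ha, ← hTh]
  -- the counterexample
  obtain ⟨a0, ha0⟩ : ∃ a0, ¬ φ.sat (stdN O) (scons a0 v) := by
    by_contra hcon
    push Not at hcon
    exact hsat (hφ ▸ hcon)
  rw [hφ] at ha0
  have ha1 : a0 ≤ t.val H19.stdN (scons a0 v) ∧ ¬ ψ.sat (stdN O) (scons a0 v) := by
    by_contra hcon
    rw [not_and_not_right] at hcon
    exact ha0 hcon
  have hv0 : ∀ i, (scons 0 v i).size ≤ L := size_scons hv le_rfl (by simp)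
  obtain ⟨X, hXd⟩ : ∃ X, X = L + 2 := ⟨_, rfl⟩
  have hX : 2 ≤ X := by omega
  have hsz : a0.size ≤ X ^ τ := by
    have h1 := (hT Th hsub t (scons 0 v) L hv0).1
    rw [← hXd, ← hτ, ← val_indep H19.stdN v a0 0 t ht] at h1
    exact (size_mono ha1.1).trans h1
  have hLτ : L ≤ X ^ τ := by
    have := le_pow_self (X := X) (τ := τ) (by omega)
    omega
  have hv' := size_scons hv hLτ hsz
  -- the two parts
  obtain ⟨N, hN⟩ : ∃ N, N = Bd C f (X ^ τ) := ⟨_, rfl⟩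
  have hNle : N ≤ X ^ ((τ + 1) * 2 ^ (C * f)) := by
    rw [hN, Bd]
    exact pow_add_two_pow hX (by omega)
  have p1 := (hA O (Fm.le (Tm.var 0) t) (scons a0 v) (X ^ τ) trivial hv').1 ha1.1
  have p2 := (ih (scons a0 v) (X ^ τ) hv').2 hψ ha1.2
  rw [← hTh, hles] at p1
  rw [← hTh, ← hf, ← hN] at p2
  -- numbers
  have haa : a ≤ a * a := Nat.le_mul_of_pos_left _ (by omega)
  obtain ⟨e, he⟩ : ∃ e, e = (τ + 1) * 2 ^ (C * f) + K * (a * a) := ⟨_, rfl⟩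
  have hKa : CT * (a * a) + K0 * (a * a) + 20 * (a * a) ≤ K * (a * a) := by
    calc CT * (a * a) + K0 * (a * a) + 20 * (a * a) = (CT + K0 + 20) * (a * a) := by ring
      _ ≤ K * (a * a) := Nat.mul_le_mul_right _ hK
  obtain ⟨M, hM⟩ : ∃ M, M = Bd C a L := ⟨_, rfl⟩
  obtain ⟨Y, hY⟩ : ∃ Y, Y = X ^ e := ⟨_, rfl⟩
  have hMY : 1048576 * Y ≤ M := by
    rw [hY, hM, Bd, ← hXd]
    exact big hX (he ▸ expo hC (by omega))
  have hY1 : 1 ≤ Y := hY ▸ one_le_pow hX e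
  have hle : ∀ k, k ≤ e → X ^ k ≤ Y := fun k hk => hY ▸ pow_mono hX hk
  have b1 : (X ^ τ + 2) ^ (K0 * (τ + 28)) ≤ Y := by
    refine (pow_add_two_pow hX (by omega)).trans (hle _ ?_)
    have h1 : (τ + 1) * (K0 * (τ + 28)) ≤ K0 * (a * a) := by
      calc (τ + 1) * (K0 * (τ + 28)) = K0 * ((τ + 1) * (τ + 28)) := by ring
        _ ≤ K0 * (a * a) :=
          Nat.mul_le_mul_left _ (Nat.mul_le_mul (by omega) (by omega))
    omega
  have b2 : N ≤ Y := hNle.trans (hle _ (by omega))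
  have b3 : fs (clF v 1 φ) ≤ Y := by
    refine (fs_cl hs hv 1 φ).trans ?_
    rw [← hXd]
    exact hle _ (by omega)
  have b4 : fs (clF (scons a0 v) 0 φ) ≤ Y := by
    refine (fs_cl hs hv' 0 φ).trans ((pow_add_two_pow hX (by omega)).trans (hle _ ?_))
    have h1 : (τ + 1) * (7 + fs φ) ≤ a * a := Nat.mul_le_mul (by omega) (by omega)
    omega
  have b5 : ts (Tm.numeral a0) ≤ Y := (ts_num hs hX hsz).trans (hle _ (by omega))
  have b6 : fs (clF (scons a0 v) 0 φ) = fs (clF (scons a0 v) 0 (Fm.le (Tm.var 0) t)) +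
      fs (clF (scons a0 v) 0 ψ) + 25 := by
    rw [hφ]
    exact fs_imp _ _
  have p1' := hc.mono p1 b1 (b1.trans (show Y ≤ M by omega))
  have p2' := hc.mono p2 b2 (b2.trans (show Y ≤ M by omega))
  have p3 := hc.nimp p1' p2' (by omega)
  have p4 : Pr Th (Y + Y + 1000) M (Fm.neg ((clF v 1 φ).inst 0 (Tm.numeral a0))) := by
    rw [hs.instF, hφ]
    exact p3
  have b7 : fs ((clF v 1 φ).inst 0 (Tm.numeral a0)) ≤ Y := by
    rw [hs.instF]
    exact b4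
  have p5 := hc.nall p4 (by omega)
  rw [← hM, ← hφ]
  exact hc.mono p5 (by omega) le_rfl

lemma bd_ge {C a L : ℕ} (hC : 23 ≤ C) (ha : 1 ≤ a) : 1048576 ≤ Bd C a L := by
  have h1 : 20 ≤ C * a := by
    calc 20 ≤ C * 1 := by omega
      _ ≤ C * a := Nat.mul_le_mul_left _ ha
  have h2 : 20 ≤ 2 ^ (C * a) := h1.trans (Nat.lt_two_pow_self).le
  calc 1048576 = 2 ^ 20 := by norm_num
    _ ≤ (L + 2) ^ 20 := two_pow_le (by omega) 20
    _ ≤ Bd C a L := pow_mono (by omega) h2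

/-- implication -/
lemma imp_case (hs : Sub) (hc : Calc) {K C : ℕ} (hC : C = K + 23) (hK : 20 ≤ K)
    (O : Om) (φ ψ : Fm) (ih1 : Good O C φ) (ih2 : Good O C ψ) : Good O C (Fm.imp φ ψ) := by
  intro v L hv
  obtain ⟨Th, hTh⟩ : ∃ Th, Th = S12 ∪ diag O := ⟨_, rfl⟩
  obtain ⟨X, hXd⟩ : ∃ X, X = L + 2 := ⟨_, rfl⟩
  have hX : 2 ≤ X := by omega
  obtain ⟨a, ha⟩ : ∃ a, a = fs (Fm.imp φ ψ) := ⟨_, rfl⟩
  have ha' : a = fs φ + fs ψ + 25 := ha.trans (fs_imp φ ψ)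
  have h1 := one_le_fs φ
  have h2 := one_le_fs ψ
  rw [← ha, ← hTh]
  obtain ⟨e, he⟩ : ∃ e, e = (0 + 1) * 2 ^ (C * (a - 1)) + K * (a * a) := ⟨_, rfl⟩
  obtain ⟨M, hM⟩ : ∃ M, M = Bd C a L := ⟨_, rfl⟩
  obtain ⟨Y, hY⟩ : ∃ Y, Y = X ^ e := ⟨_, rfl⟩
  have haa : a ≤ a * a := Nat.le_mul_of_pos_left _ (by omega)
  have hKa : 20 * a ≤ K * (a * a) := Nat.mul_le_mul hK haa
  have hMY : 1048576 * Y ≤ M := by
    rw [hY, hM, Bd, ← hXd]
    exact big hX (he ▸ expo hC (by omega))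
  have hY1 : 1 ≤ Y := hY ▸ one_le_pow hX e
  have hle : ∀ k, k ≤ e → X ^ k ≤ Y := fun k hk => hY ▸ pow_mono hX hk
  have s1 : fs (clF v 0 φ) ≤ Y := by
    refine (fs_cl hs hv 0 φ).trans ?_
    rw [← hXd]
    exact hle _ (by omega)
  have s2 : fs (clF v 0 ψ) ≤ Y := by
    refine (fs_cl hs hv 0 ψ).trans ?_
    rw [← hXd]
    exact hle _ (by omega)
  have hb : ∀ g, g + 1 ≤ a → Bd C g L ≤ Y := by
    intro g hg
    rw [Bd, ← hXd]
    refine hle _ ?_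
    have : 2 ^ (C * g) ≤ 2 ^ (C * (a - 1)) :=
      Nat.pow_le_pow_right (by norm_num) (Nat.mul_le_mul_left _ (by omega))
    omega
  have n1 := hb (fs φ) (by omega)
  have n2 := hb (fs ψ) (by omega)
  have I1 := ih1 v L hv
  have I2 := ih2 v L hv
  rw [← hTh] at I1 I2
  have hcl : clF v 0 (Fm.imp φ ψ) = Fm.imp (clF v 0 φ) (clF v 0 ψ) := rfl
  rw [hcl, ← hM]
  constructor
  · intro hsig hsat
    rw [Fm.isSigma, Bool.and_eq_true] at hsig
    by_cases hφ : φ.sat (stdN O) v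
    · have q := hc.mono (I2.1 hsig.2 (hsat hφ)) n2 (n2.trans (show Y ≤ M by omega))
      exact hc.mono (hc.weak (a := clF v 0 φ) q (by omega)) (by omega) le_rfl
    · have q := hc.mono (I1.2 hsig.1 hφ) n1 (n1.trans (show Y ≤ M by omega))
      exact hc.mono (hc.exf (b := clF v 0 ψ) q (by omega)) (by omega) le_rfl
  · intro hpi hsat
    rw [Fm.isPi, Bool.and_eq_true] at hpi
    have hsat' : φ.sat (stdN O) v ∧ ¬ ψ.sat (stdN O) v := by
      by_contra hcon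
      rw [not_and_not_right] at hcon
      exact hsat hcon
    have q1 := hc.mono (I1.1 hpi.1 hsat'.1) n1 (n1.trans (show Y ≤ M by omega))
    have q2 := hc.mono (I2.2 hpi.2 hsat'.2) n2 (n2.trans (show Y ≤ M by omega))
    exact hc.mono (hc.nimp q1 q2 (by omega)) (by omega) le_rfl

lemma atomic_case (hc : Calc) {K0 K C : ℕ} (hC : C = K + 23) (hK : K0 ≤ K)
    (hA : ∀ (O : Om) (α : Fm) (v : ℕ → ℕ) (L : ℕ), Atomic α → (∀ i, (v i).size ≤ L) →
      (α.sat (stdN O) v → Pr (S12 ∪ diag O) ((L + 2) ^ (K0 * fs α)) ((L + 2) ^ (K0 * fs α))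
        (clF v 0 α)) ∧
      (¬ α.sat (stdN O) v → Pr (S12 ∪ diag O) ((L + 2) ^ (K0 * fs α)) ((L + 2) ^ (K0 * fs α))
        (Fm.neg (clF v 0 α))))
    (O : Om) (α : Fm) (hα : Atomic α) : Good O C α := by
  intro v L hv
  have h1 : (L + 2) ^ (K0 * fs α) ≤ Bd C (fs α) L := by
    refine pow_mono (by omega) ?_
    calc K0 * fs α ≤ C * fs α := Nat.mul_le_mul_right _ (by omega)
      _ ≤ 2 ^ (C * fs α) := (Nat.lt_two_pow_self).le
  have h2 := hA O α v L hα hv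
  exact ⟨fun _ h => hc.mono (h2.1 h) h1 h1, fun _ h => hc.mono (h2.2 h) h1 h1⟩

end PC

theorem PC_thm (hs : Sub) (hc : Calc) (hO : Stmt_ORD) (hT : Stmt_TERM) (hB : Stmt_BALL) :
    Stmt_PC := by
  obtain ⟨K0, hK0, hA⟩ := PC.atomic_pc hs hc hO hT
  obtain ⟨CT, hT⟩ := hT
  obtain ⟨CB, hB⟩ := hB
  obtain ⟨K, hK⟩ : ∃ K, K = CT + CB + K0 + 20 := ⟨_, rfl⟩
  obtain ⟨C, hC⟩ : ∃ C, C = K + 23 := ⟨_, rfl⟩
  refine ⟨C, fun O α v L hv => ?_⟩
  suffices h : ∀ (n : ℕ) (α : Fm), fs α ≤ n → PC.Good O C α from h _ α le_rfl v L hv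
  intro n
  induction n with
  | zero =>
    intro α hα
    have := PC.one_le_fs α
    omega
  | succ n ih =>
    intro α hα
    cases α with
    | bot =>
      intro v L hv
      refine ⟨fun _ h => absurd h id, fun _ _ => ?_⟩
      have h1 := PC.bd_ge (C := C) (a := fs Fm.bot) (L := L) (by omega) (PC.one_le_fs _)
      exact hc.mono (hc.nbot (s := Bd C (fs Fm.bot) L) (by omega)) (by omega) le_rfl
    | eq s t => exact PC.atomic_case hc hC (by omega) hA O _ trivial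
    | le s t => exact PC.atomic_case hc hC (by omega) hA O _ trivial
    | rel t => exact PC.atomic_case hc hC (by omega) hA O _ trivial
    | imp φ ψ =>
      rw [PC.fs_imp] at hα
      exact PC.imp_case hs hc hC (by omega) O φ ψ (ih φ (by omega)) (ih ψ (by omega))
    | all φ =>
      rw [PC.fs_all] at hα
      intro v L hv
      constructor
      · intro hsig hsat
        rw [Fm.isSigma, Bool.and_eq_true] at hsig
        obtain ⟨t, ψ, rfl, ht⟩ := PC.sharp_inv hsig.1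
        have hψ : ψ.isSigma = true := by
          have := hsig.2
          rw [Fm.isSigma, Bool.and_eq_true] at this
          exact this.2
        rw [PC.fs_imp] at hα
        exact PC.all_sigma hs hc hC (by omega) hT hB O t ψ ht (ih ψ (by omega)) hψ v L hv hsat
      · intro hpi hsat
        rw [Fm.isPi, Bool.and_eq_true] at hpi
        obtain ⟨t, ψ, rfl, ht⟩ := PC.guarded_inv hpi.1
        have hψ : ψ.isPi = true := by
          have := hpi.2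
          rw [Fm.isPi, Bool.and_eq_true] at this
          exact this.2
        rw [PC.fs_imp] at hα
        exact PC.all_pi hs hc hC (by omega) hT hA O t ψ ht (ih ψ (by omega)) hψ v L hv hsat


end Pool.Agent.RN
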