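import Pool.Agent.RN.PrDefs

/-!
# Completeness for quantifier-free formulas

A quantifier-free formula that holds in all models of BASIC is provable: a maximal consistent set
and its term model.
-/

namespace Pool.Agent.RN

open Pool.Agent.H19 (T Tm scons)
open Pool.Agent.RO

namespace QFC

/-! ### Concatenation of proofs -/

/-- All lines are correct. -/
def OKs (Th : Set Fm) : List Fm → List Step → Prop
  | _, [] => True
  | prev, s :: π => s.ok Th prev ∧ OKs Th (s.concl :: prev) π

/-- The list of formulas proved at the end. -/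
def fin : List Fm → List Step → List Fm
  | prev, [] => prev
  | prev, s :: π => fin (s.concl :: prev) π

theorem derives_iff (Th : Set Fm) (φ : Fm) : ∀ (π : List Step) (prev : List Fm),
    Derives Th prev π φ ↔ OKs Th prev π ∧ (fin prev π).head? = some φ
  | [], prev => by simp [Derives, OKs, fin]
  | s :: π, prev => by
      simp only [Derives, OKs, fin, derives_iff Th φ π, and_assoc]

theorem ok_mono {Th : Set Fm} {s : Step} {prev prev' : List Fm} (h : prev ⊆ prev')
    (hs : s.ok Th prev) : s.ok Th prev' := by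
  cases s with
  | mp φ ψ => exact ⟨h hs.1, h hs.2⟩
  | gen φ => exact h hs
  | hyp φ => exact hs
  | _ => trivial

theorem oks_mono {Th : Set Fm} : ∀ (π : List Step) {prev prev' : List Fm}, prev ⊆ prev' →
    OKs Th prev π → OKs Th prev' π
  | [], _, _, _, _ => trivial
  | s :: π, _, _, h, hp =>
      ⟨ok_mono h hp.1, oks_mono π (List.cons_subset_cons _ h) hp.2⟩

theorem fin_mono : ∀ (π : List Step) {prev prev' : List Fm}, prev ⊆ prev' →
    fin prev π ⊆ fin prev' π
  | [], _, _, h => h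
  | _ :: π, _, _, h => fin_mono π (List.cons_subset_cons _ h)

theorem sub_fin : ∀ (π : List Step) (prev : List Fm), prev ⊆ fin prev π
  | [], _ => fun _ h => h
  | s :: π, prev => fun _ h => sub_fin π (s.concl :: prev) (List.mem_cons_of_mem _ h)

theorem oks_append {Th : Set Fm} : ∀ (π π' : List Step) {prev : List Fm},
    OKs Th prev π → OKs Th (fin prev π) π' → OKs Th prev (π ++ π')
  | [], _, _, _, h => h
  | _ :: π, π', _, h, h' => ⟨h.1, oks_append π π' h.2 h'⟩

theorem fin_append : ∀ (π π' : List Step) (prev : List Fm),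
    fin prev (π ++ π') = fin (fin prev π) π'
  | [], _, _ => rfl
  | s :: π, π', prev => fin_append π π' (s.concl :: prev)

theorem mem_of_head? {l : List Fm} {φ : Fm} (h : l.head? = some φ) : φ ∈ l :=
  List.mem_of_mem_head? (by rw [h]; rfl)

theorem prov_one {Th : Set Fm} {s : Step} (h : s.ok Th []) : Provable Th s.concl :=
  ⟨[s], h, rfl⟩

theorem prov_mp {Th : Set Fm} {a b : Fm} (h1 : Provable Th (Fm.imp a b)) (h2 : Provable Th a) :
    Provable Th b := by
  obtain ⟨π1, h1⟩ := h1
  obtain ⟨π2, h2⟩ := h2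
  rw [IsProof, derives_iff] at h1 h2
  refine ⟨π1 ++ (π2 ++ [Step.mp a b]), ?_⟩
  rw [IsProof, derives_iff]
  have hs : ([] : List Fm) ⊆ fin [] π1 := List.nil_subset _
  constructor
  · refine oks_append _ _ h1.1 (oks_append _ _ (oks_mono _ hs h2.1) ⟨⟨?_, ?_⟩, trivial⟩)
    · exact sub_fin _ _ (mem_of_head? h1.2)
    · exact fin_mono _ hs (mem_of_head? h2.2)
  · rw [fin_append, fin_append]
    rfl

theorem prov_gen {Th : Set Fm} {a : Fm} (h1 : Provable Th a) : Provable Th (Fm.all a) := by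
  obtain ⟨π1, h1⟩ := h1
  rw [IsProof, derives_iff] at h1
  refine ⟨π1 ++ [Step.gen a], ?_⟩
  rw [IsProof, derives_iff]
  constructor
  · exact oks_append _ _ h1.1 ⟨mem_of_head? h1.2, trivial⟩
  · rw [fin_append]
    rfl

/-! ### Derivability from a set of formulas, without generalisation -/

/-- Derivability from `G` and the provable formulas by modus ponens. -/
inductive D (G : Set Fm) : Fm → Prop
  | thm {φ : Fm} : Provable S12 φ → D G φ
  | mem {φ : Fm} : φ ∈ G → D G φ
  | mp {φ ψ : Fm} : D G (Fm.imp φ ψ) → D G φ → D G ψ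

theorem D.mono {G G' : Set Fm} (h : G ⊆ G') {φ : Fm} (hd : D G φ) : D G' φ := by
  induction hd with
  | thm h => exact D.thm h
  | mem hm => exact D.mem (h hm)
  | mp _ _ ih1 ih2 => exact D.mp ih1 ih2

theorem D.ax {G : Set Fm} (s : Step) (h : s.ok S12 []) : D G s.concl := D.thm (prov_one h)

theorem D.k {G : Set Fm} {a b : Fm} (h : D G a) : D G (Fm.imp b a) :=
  D.mp (D.ax (Step.axK a b) trivial) h

theorem D.i {G : Set Fm} (a : Fm) : D G (Fm.imp a a) :=
  D.mp (D.mp (D.ax (Step.axS a (Fm.imp a a) a) trivial) (D.ax (Step.axK a (Fm.imp a a)) trivial))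
    (D.ax (Step.axK a a) trivial)

theorem D.s {G : Set Fm} {a b c : Fm} (h : D G (Fm.imp a (Fm.imp b c)))
    (h' : D G (Fm.imp a b)) : D G (Fm.imp a c) :=
  D.mp (D.mp (D.ax (Step.axS a b c) trivial) h) h'

/-- Deduction theorem. -/
theorem D.ded {G : Set Fm} {a b : Fm} (h : D (insert a G) b) : D G (Fm.imp a b) := by
  induction h with
  | thm h => exact D.k (D.thm h)
  | mem hm =>
    rcases hm with rfl | hm
    · exact D.i _
    · exact D.k (D.mem hm)
  | mp _ _ ih1 ih2 => exact D.s ih1 ih2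

theorem D.empty {φ : Fm} (h : D ∅ φ) : Provable S12 φ := by
  induction h with
  | thm h => exact h
  | mem hm => exact absurd hm (Set.notMem_empty _)
  | mp _ _ ih1 ih2 => exact prov_mp ih1 ih2

theorem D.dne {G : Set Fm} {a : Fm} (h : D G (Fm.neg (Fm.neg a))) : D G a :=
  D.mp (D.ax (Step.dne a) trivial) h

/-- Derivability from a union of a chain. -/
theorem D.chain {c : Set (Set Fm)} (hc : IsChain (· ⊆ ·) c) (hne : c.Nonempty) {φ : Fm}
    (h : D (⋃₀ c) φ) : ∃ G ∈ c, D G φ := by
  induction h with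
  | thm h =>
    obtain ⟨G, hG⟩ := hne
    exact ⟨G, hG, D.thm h⟩
  | mem hm =>
    obtain ⟨G, hG, hm⟩ := hm
    exact ⟨G, hG, D.mem hm⟩
  | mp _ _ ih1 ih2 =>
    obtain ⟨G, hG, h1⟩ := ih1
    obtain ⟨G', hG', h2⟩ := ih2
    rcases hc.total hG hG' with h | h
    · exact ⟨G', hG', D.mp (h1.mono h) h2⟩
    · exact ⟨G, hG, D.mp h1 (h2.mono h)⟩

/-- A maximal consistent set. -/
structure Max (G : Set Fm) : Prop where
  cons : ¬ D G Fm.bot
  max : ∀ φ, ¬ D (insert φ G) Fm.bot → φ ∈ G

theorem exists_max {G : Set Fm} (h : ¬ D G Fm.bot) : ∃ G', G ⊆ G' ∧ Max G' := by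
  obtain ⟨M, hGM, hM⟩ := zorn_subset_nonempty {G : Set Fm | ¬ D G Fm.bot}
    (fun c hc hchain hne => ⟨⋃₀ c, fun hd => by
      obtain ⟨G, hG, hd⟩ := D.chain hchain hne hd
      exact hc hG hd, fun s hs => Set.subset_sUnion_of_mem hs⟩) G h
  refine ⟨M, hGM, hM.prop, fun φ hφ => ?_⟩
  have := hM.le_of_ge (y := insert φ M) hφ (Set.subset_insert _ _)
  exact this (Set.mem_insert _ _)

variable {G : Set Fm}

theorem Max.closed (m : Max G) {φ : Fm} (h : D G φ) : φ ∈ G :=
  m.max φ fun hd => m.cons (D.mp hd.ded h)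

theorem Max.neg (m : Max G) {φ : Fm} (h : φ ∉ G) : Fm.neg φ ∈ G := by
  by_contra hn
  refine h (m.max φ fun hd => hn (m.closed hd.ded))

theorem Max.imp (m : Max G) {φ ψ : Fm} : Fm.imp φ ψ ∈ G ↔ (φ ∈ G → ψ ∈ G) := by
  constructor
  · intro h h'
    exact m.closed (D.mp (D.mem h) (D.mem h'))
  · intro h
    by_cases hφ : φ ∈ G
    · exact m.closed (D.k (D.mem (h hφ)))
    · have h1 := m.neg hφ
      refine m.closed (D.ded ?_)
      have h2 : D (insert φ G) Fm.bot :=
        D.mp (D.mem (Set.mem_insert_of_mem _ h1)) (D.mem (Set.mem_insert _ _))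
      exact D.dne (D.k h2)

theorem Max.bot (m : Max G) : Fm.bot ∉ G := fun h => m.cons (D.mem h)

/-! ### Substitution lemmas for terms -/

theorem shift_zero (t : Tm) : ∀ k, t.shift k 0 = t := by
  induction t with
  | var i => intro k; simp [Tm.shift]
  | zero => intro k; rfl
  | succ t ih => intro k; simp only [Tm.shift, ih]
  | half t ih => intro k; simp only [Tm.shift, ih]
  | len t ih => intro k; simp only [Tm.shift, ih]
  | add s t ih1 ih2 => intro k; simp only [Tm.shift, ih1, ih2]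
  | mul s t ih1 ih2 => intro k; simp only [Tm.shift, ih1, ih2]
  | smash s t ih1 ih2 => intro k; simp only [Tm.shift, ih1, ih2]

theorem shift_inst (s : Tm) (t : Tm) (k : ℕ) : (s.shift 0 (k + 1)).inst k t = s.shift 0 k := by
  induction s with
  | var i =>
    simp only [Tm.shift, Nat.not_lt_zero, if_false, Tm.inst]
    rw [if_neg (by omega), if_neg (by omega)]
    congr 1
  | zero => rfl
  | succ t ih => simp only [Tm.shift, Tm.inst, ih]
  | half t ih => simp only [Tm.shift, Tm.inst, ih]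
  | len t ih => simp only [Tm.shift, Tm.inst, ih]
  | add s t ih1 ih2 => simp only [Tm.shift, Tm.inst, ih1, ih2]
  | mul s t ih1 ih2 => simp only [Tm.shift, Tm.inst, ih1, ih2]
  | smash s t ih1 ih2 => simp only [Tm.shift, Tm.inst, ih1, ih2]

theorem shift_inst0 (s t : Tm) : (s.shift 0 1).inst 0 t = s := by
  rw [shift_inst, shift_zero]

theorem var_inst0 (t : Tm) : (Tm.var 0).inst 0 t = t := by
  simp only [Tm.inst, lt_irrefl, if_false, if_true, shift_zero]

/-- Replace the variables `i ≥ k` by `σ i`. -/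
def mx (σ : ℕ → Tm) (k : ℕ) : Tm → Tm
  | Tm.var i => if i < k then Tm.var i else (σ i).shift 0 k
  | Tm.zero => Tm.zero
  | Tm.succ t => Tm.succ (mx σ k t)
  | Tm.half t => Tm.half (mx σ k t)
  | Tm.len t => Tm.len (mx σ k t)
  | Tm.add s t => Tm.add (mx σ k s) (mx σ k t)
  | Tm.mul s t => Tm.mul (mx σ k s) (mx σ k t)
  | Tm.smash s t => Tm.smash (mx σ k s) (mx σ k t)

/-- The same for quantifier-free formulas. -/
def mxF (σ : ℕ → Tm) (k : ℕ) : Fm → Fm
  | Fm.bot => Fm.bot
  | Fm.eq s t => Fm.eq (mx σ k s) (mx σ k t)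
  | Fm.le s t => Fm.le (mx σ k s) (mx σ k t)
  | Fm.rel t => Fm.rel (mx σ k t)
  | Fm.imp φ ψ => Fm.imp (mxF σ k φ) (mxF σ k ψ)
  | Fm.all φ => Fm.all φ

theorem mx_inst (σ : ℕ → Tm) (k : ℕ) (t : Tm) : (mx σ (k + 1) t).inst k (σ k) = mx σ k t := by
  induction t with
  | var i =>
    simp only [mx]
    by_cases h : i < k + 1
    · rw [if_pos h]
      simp only [Tm.inst]
      by_cases h' : i < k
      · rw [if_pos h', if_pos h']
      · have : i = k := by omega
        subst this
        simp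
    · rw [if_neg h, if_neg (by omega), shift_inst]
  | zero => rfl
  | succ t ih => simp only [mx, Tm.inst, ih]
  | half t ih => simp only [mx, Tm.inst, ih]
  | len t ih => simp only [mx, Tm.inst, ih]
  | add s t ih1 ih2 => simp only [mx, Tm.inst, ih1, ih2]
  | mul s t ih1 ih2 => simp only [mx, Tm.inst, ih1, ih2]
  | smash s t ih1 ih2 => simp only [mx, Tm.inst, ih1, ih2]

theorem mx_below (σ : ℕ → Tm) (k : ℕ) (t : Tm) (h : t.fvBelow k) : mx σ k t = t := by
  induction t with
  | var i => simp only [mx]; exact if_pos h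
  | zero => rfl
  | succ t ih => simp only [mx, ih h]
  | half t ih => simp only [mx, ih h]
  | len t ih => simp only [mx, ih h]
  | add s t ih1 ih2 => simp only [mx, ih1 h.1, ih2 h.2]
  | mul s t ih1 ih2 => simp only [mx, ih1 h.1, ih2 h.2]
  | smash s t ih1 ih2 => simp only [mx, ih1 h.1, ih2 h.2]

theorem mxF_inst (σ : ℕ → Tm) (k : ℕ) (φ : Fm) (h : qf φ = true) :
    (mxF σ (k + 1) φ).inst k (σ k) = mxF σ k φ := by
  induction φ with
  | bot => rfl
  | eq s t => simp only [mxF, Fm.inst, mx_inst]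
  | le s t => simp only [mxF, Fm.inst, mx_inst]
  | rel t => simp only [mxF, Fm.inst, mx_inst]
  | imp φ ψ ih1 ih2 =>
    simp only [qf, Bool.and_eq_true] at h
    simp only [mxF, Fm.inst, ih1 h.1, ih2 h.2]
  | all φ ih => simp [qf] at h

theorem mxF_below (σ : ℕ → Tm) (k : ℕ) (φ : Fm) (hq : qf φ = true) (h : φ.fvBelow k) :
    mxF σ k φ = φ := by
  induction φ with
  | bot => rfl
  | eq s t => simp only [mxF, mx_below σ k _ h.1, mx_below σ k _ h.2]
  | le s t => simp only [mxF, mx_below σ k _ h.1, mx_below σ k _ h.2]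
  | rel t => simp only [mxF, mx_below σ k _ h]
  | imp φ ψ ih1 ih2 =>
    simp only [qf, Bool.and_eq_true] at hq
    simp only [mxF, ih1 hq.1 h.1, ih2 hq.2 h.2]
  | all φ ih => simp [qf] at hq

/-- `k` quantifiers. -/
def alls : ℕ → Fm → Fm
  | 0, φ => φ
  | k + 1, φ => Fm.all (alls k φ)

theorem alls_inst (t : Tm) (φ : Fm) : ∀ k j : ℕ,
    (alls k φ).inst j t = alls k (φ.inst (j + k) t)
  | 0, _ => rfl
  | k + 1, j => by
      simp only [alls, Fm.inst, alls_inst t φ k (j + 1)]
      congr 3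
      omega

theorem prov_alls {φ : Fm} (h : Provable S12 φ) : ∀ k, Provable S12 (alls k φ)
  | 0 => h
  | k + 1 => prov_gen (prov_alls h k)

/-- Instances of provable quantifier-free formulas are provable. -/
theorem prov_mx (σ : ℕ → Tm) {φ : Fm} (hq : qf φ = true) {n : ℕ} (hb : φ.fvBelow n)
    (h : Provable S12 φ) : Provable S12 (mxF σ 0 φ) := by
  have key : ∀ k j, j + k = n → Provable S12 (alls j (mxF σ j φ)) := by
    intro k
    induction k with
    | zero =>
      intro j hj
      obtain rfl : j = n := by omega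
      rw [mxF_below σ j φ hq hb]
      exact prov_alls h j
    | succ k ih =>
      intro j hj
      have h1 := ih (j + 1) (by omega)
      have h2 : Provable S12 (Fm.imp (Fm.all (alls j (mxF σ (j + 1) φ)))
          ((alls j (mxF σ (j + 1) φ)).inst 0 (σ j))) :=
        prov_one (s := Step.allE (alls j (mxF σ (j + 1) φ)) (σ j)) trivial
      rw [alls_inst, zero_add, mxF_inst σ j φ hq] at h2
      exact prov_mp h2 h1
  exact key n 0 (by omega)

/-! ### The term model -/

theorem Max.refl (m : Max G) (t : Tm) : Fm.eq t t ∈ G :=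
  m.closed (D.ax (Step.refl t) trivial)

theorem Max.subst (m : Max G) {s t : Tm} (φ : Fm) (h : Fm.eq s t ∈ G) (h' : φ.inst 0 s ∈ G) :
    φ.inst 0 t ∈ G :=
  m.closed (D.mp (D.mp (D.ax (Step.subst φ s t) trivial) (D.mem h)) (D.mem h'))

theorem Max.symm (m : Max G) {s t : Tm} (h : Fm.eq s t ∈ G) : Fm.eq t s ∈ G := by
  have := m.subst (Fm.eq (Tm.var 0) (s.shift 0 1)) h
    (by simp only [Fm.inst, var_inst0, shift_inst0]; exact m.refl s)
  simpa only [Fm.inst, var_inst0, shift_inst0] using this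

theorem Max.trans (m : Max G) {s t u : Tm} (h : Fm.eq s t ∈ G) (h' : Fm.eq t u ∈ G) :
    Fm.eq s u ∈ G := by
  have := m.subst (Fm.eq (s.shift 0 1) (Tm.var 0)) h'
    (by simp only [Fm.inst, var_inst0, shift_inst0]; exact h)
  simpa only [Fm.inst, var_inst0, shift_inst0] using this

/-- Equality of terms in `G`. -/
def std (m : Max G) : Setoid Tm where
  r s t := Fm.eq s t ∈ G
  iseqv := ⟨m.refl, m.symm, m.trans⟩

theorem Max.c1 (m : Max G) (f : Tm → Tm) (hf : ∀ a t, (f a).inst 0 t = f (a.inst 0 t))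
    {s t : Tm} (h : Fm.eq s t ∈ G) : Fm.eq (f s) (f t) ∈ G := by
  have := m.subst (Fm.eq ((f s).shift 0 1) (f (Tm.var 0))) h
    (by simp only [Fm.inst, hf, var_inst0, shift_inst0]; exact m.refl _)
  simpa only [Fm.inst, hf, var_inst0, shift_inst0] using this

theorem Max.c2 (m : Max G) (f : Tm → Tm → Tm)
    (hf : ∀ a b t, (f a b).inst 0 t = f (a.inst 0 t) (b.inst 0 t))
    {s t s' t' : Tm} (h : Fm.eq s t ∈ G) (h' : Fm.eq s' t' ∈ G) :
    Fm.eq (f s s') (f t t') ∈ G := by
  have h1 := m.subst (Fm.eq ((f s s').shift 0 1) (f (Tm.var 0) (s'.shift 0 1))) h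
    (by simp only [Fm.inst, hf, var_inst0, shift_inst0]; exact m.refl _)
  simp only [Fm.inst, hf, var_inst0, shift_inst0] at h1
  have h2 := m.subst (Fm.eq ((f s s').shift 0 1) (f (t.shift 0 1) (Tm.var 0))) h'
    (by simp only [Fm.inst, hf, var_inst0, shift_inst0]; exact h1)
  simpa only [Fm.inst, hf, var_inst0, shift_inst0] using h2

theorem Max.le (m : Max G) {s t s' t' : Tm} (h : Fm.eq s t ∈ G) (h' : Fm.eq s' t' ∈ G)
    (hl : Fm.le s s' ∈ G) : Fm.le t t' ∈ G := by
  have h1 := m.subst (Fm.le (Tm.var 0) (s'.shift 0 1)) h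
    (by simp only [Fm.inst, var_inst0, shift_inst0]; exact hl)
  simp only [Fm.inst, var_inst0, shift_inst0] at h1
  have h2 := m.subst (Fm.le (t.shift 0 1) (Tm.var 0)) h'
    (by simp only [Fm.inst, var_inst0, shift_inst0]; exact h1)
  simpa only [Fm.inst, var_inst0, shift_inst0] using h2

theorem Max.rel (m : Max G) {s t : Tm} (h : Fm.eq s t ∈ G) (hl : Fm.rel s ∈ G) :
    Fm.rel t ∈ G := by
  have h1 := m.subst (Fm.rel (Tm.var 0)) h
    (by simp only [Fm.inst, var_inst0]; exact hl)
  simpa only [Fm.inst, var_inst0] using h1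

/-- The term model. -/
def tmod (m : Max G) : Str (Quotient (std m)) where
  zero := Quotient.mk (std m) Tm.zero
  succ := Quotient.map Tm.succ fun _ _ h => m.c1 Tm.succ (fun _ _ => rfl) h
  half := Quotient.map Tm.half fun _ _ h => m.c1 Tm.half (fun _ _ => rfl) h
  len := Quotient.map Tm.len fun _ _ h => m.c1 Tm.len (fun _ _ => rfl) h
  add := Quotient.map₂ Tm.add fun _ _ h _ _ h' => m.c2 Tm.add (fun _ _ _ => rfl) h h'
  mul := Quotient.map₂ Tm.mul fun _ _ h _ _ h' => m.c2 Tm.mul (fun _ _ _ => rfl) h h'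
  smash := Quotient.map₂ Tm.smash fun _ _ h _ _ h' => m.c2 Tm.smash (fun _ _ _ => rfl) h h'
  le := Quotient.lift₂ (fun s t => Fm.le s t ∈ G) fun _ _ _ _ h h' =>
    propext ⟨m.le h h', m.le (m.symm h) (m.symm h')⟩
  rel := Quotient.lift (fun t => Fm.rel t ∈ G) fun _ _ h =>
    propext ⟨m.rel h, m.rel (m.symm h)⟩

theorem val_tmod (m : Max G) (σ : ℕ → Tm) (t : Tm) :
    t.val (tmod m).toStr (fun i => Quotient.mk (std m) (σ i)) =
      Quotient.mk (std m) (mx σ 0 t) := by
  induction t with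
  | var i => simp only [Tm.val, mx, Nat.not_lt_zero, if_false, shift_zero]
  | zero => rfl
  | succ t ih => simp only [Tm.val, mx, ih]; rfl
  | half t ih => simp only [Tm.val, mx, ih]; rfl
  | len t ih => simp only [Tm.val, mx, ih]; rfl
  | add s t ih1 ih2 => simp only [Tm.val, mx, ih1, ih2]; rfl
  | mul s t ih1 ih2 => simp only [Tm.val, mx, ih1, ih2]; rfl
  | smash s t ih1 ih2 => simp only [Tm.val, mx, ih1, ih2]; rfl

theorem sat_tmod (m : Max G) (σ : ℕ → Tm) (φ : Fm) (h : qf φ = true) :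
    φ.sat (tmod m) (fun i => Quotient.mk (std m) (σ i)) ↔ mxF σ 0 φ ∈ G := by
  induction φ with
  | bot => exact ⟨fun h => h.elim, fun h => m.bot h⟩
  | eq s t =>
    simp only [Fm.sat, mxF, val_tmod]
    exact Quotient.eq
  | le s t =>
    simp only [Fm.sat, mxF, val_tmod]
    rfl
  | rel t =>
    simp only [Fm.sat, mxF, val_tmod]
    rfl
  | imp φ ψ ih1 ih2 =>
    simp only [qf, Bool.and_eq_true] at h
    simp only [Fm.sat, mxF, ih1 h.1, ih2 h.2, m.imp]
  | all φ ih => simp [qf] at h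

theorem mx_var (t : Tm) : mx Tm.var 0 t = t := by
  induction t with
  | var i => simp only [mx, Nat.not_lt_zero, if_false, shift_zero]
  | zero => rfl
  | succ t ih => simp only [mx, ih]
  | half t ih => simp only [mx, ih]
  | len t ih => simp only [mx, ih]
  | add s t ih1 ih2 => simp only [mx, ih1, ih2]
  | mul s t ih1 ih2 => simp only [mx, ih1, ih2]
  | smash s t ih1 ih2 => simp only [mx, ih1, ih2]

theorem mxF_var (φ : Fm) (h : qf φ = true) : mxF Tm.var 0 φ = φ := by
  induction φ with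
  | bot => rfl
  | eq s t => simp only [mxF, mx_var]
  | le s t => simp only [mxF, mx_var]
  | rel t => simp only [mxF, mx_var]
  | imp φ ψ ih1 ih2 =>
    simp only [qf, Bool.and_eq_true] at h
    simp only [mxF, ih1 h.1, ih2 h.2]
  | all φ ih => simp [qf] at h

theorem basic_qf : ∀ φ ∈ basicList, qf φ = true ∧ φ.fvBelow 4 := by
  intro φ hφ
  simp only [basicList, H19.basicList, List.map_cons, List.map_nil, List.mem_cons,
    List.not_mem_nil, or_false] at hφ
  rcases hφ with rfl | rfl | rfl | rfl | rfl | rfl | rfl | rfl | rfl | rfl | rfl | rfl | rfl |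
    rfl | rfl | rfl | rfl | rfl | rfl | rfl | rfl | rfl | rfl | rfl | rfl | rfl | rfl | rfl |
    rfl | rfl | rfl | rfl <;>
  simp [Fm.emb, H19.Fm.neg, H19.Fm.and, H19.Fm.or, H19.Fm.iff, qf, Fm.fvBelow, Tm.fvBelow, Tm.two]

end QFC

open QFC in
theorem QFC_thm : Stmt_QFC := by
  intro θ hq hθ
  by_contra hn
  have h0 : ¬ D {Fm.neg θ} Fm.bot := by
    intro h
    refine hn (D.empty (D.dne (D.ded ?_)))
    simpa using h
  obtain ⟨G, hG, m⟩ := exists_max h0
  have hneg : Fm.neg θ ∈ G := hG rfl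
  have hb : ∀ φ ∈ basicList, ∀ v : ℕ → Quotient (std m), φ.sat (tmod m) v := by
    intro φ hφ v
    obtain ⟨h1, h2⟩ := basic_qf φ hφ
    have hv : v = fun i => Quotient.mk (std m) ((v i).out) := by
      funext i
      exact (Quotient.out_eq (v i)).symm
    rw [hv, sat_tmod m _ φ h1]
    exact m.closed (D.thm (prov_mx _ h1 h2 (prov_one (s := Step.hyp φ) (Or.inl hφ))))
  have h1 := hθ _ (tmod m) hb (fun i => Quotient.mk (std m) (Tm.var i))
  rw [sat_tmod m _ θ hq, mxF_var θ hq] at h1
  exact m.cons (D.mp (D.mem hneg) (D.mem h1))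

end Pool.Agent.RN
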