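import Pool.Agent.RN.PrDefs

/-! # SUB: facts about closing, substitution and sizes -/

namespace Pool.Agent.RN

open Pool.Agent.H19 (T Tm scons)
open Pool.Agent.RO

namespace SUB

theorem num_cases (P : Tm → Prop) (h0 : P Tm.zero) (h1 : ∀ t, P t → P (Tm.mul Tm.two t))
    (h2 : ∀ t, P t → P (Tm.succ (Tm.mul Tm.two t))) (n : ℕ) : P (Tm.numeral n) := by
  induction n using Nat.strong_induction_on with
  | _ n ih =>
    by_cases h : n = 0
    · subst h; rw [H19.Tm.numeral_zero]; exact h0
    · rw [H19.Tm.numeral_pos h]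
      have := ih (n / 2) (by omega)
      split_ifs
      · exact h1 _ this
      · exact h2 _ this

theorem numBelow (n k : ℕ) : (Tm.numeral n).fvBelow k := by
  refine num_cases (fun t => t.fvBelow k) trivial ?_ ?_ n
  · intro t ht; exact ⟨trivial, ht⟩
  · intro t ht; exact ⟨trivial, ht⟩

theorem monoT (t : Tm) (k k' : ℕ) (h : t.fvBelow k) (hk : k ≤ k') : t.fvBelow k' := by
  induction t with
  | var i => exact lt_of_lt_of_le h hk
  | zero => trivial
  | succ t ih => exact ih h
  | half t ih => exact ih h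
  | len t ih => exact ih h
  | add s t ih1 ih2 => exact ⟨ih1 h.1, ih2 h.2⟩
  | mul s t ih1 ih2 => exact ⟨ih1 h.1, ih2 h.2⟩
  | smash s t ih1 ih2 => exact ⟨ih1 h.1, ih2 h.2⟩

theorem monoF (φ : Fm) : ∀ k k' : ℕ, φ.fvBelow k → k ≤ k' → φ.fvBelow k' := by
  induction φ with
  | bot => intro k k' h hk; trivial
  | eq s t => intro k k' h hk; exact ⟨monoT s k k' h.1 hk, monoT t k k' h.2 hk⟩
  | le s t => intro k k' h hk; exact ⟨monoT s k k' h.1 hk, monoT t k k' h.2 hk⟩
  | rel t => intro k k' h hk; exact monoT t k k' h hk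
  | imp φ ψ ih1 ih2 => intro k k' h hk; exact ⟨ih1 k k' h.1 hk, ih2 k k' h.2 hk⟩
  | all φ ih => intro k k' h hk; exact ih (k + 1) (k' + 1) h (by omega)

theorem exBelowT (t : Tm) : ∃ k, t.fvBelow k := by
  induction t with
  | var i => exact ⟨i + 1, Nat.lt_succ_self i⟩
  | zero => exact ⟨0, trivial⟩
  | succ t ih => exact ih
  | half t ih => exact ih
  | len t ih => exact ih
  | add s t ih1 ih2 =>
    obtain ⟨a, ha⟩ := ih1; obtain ⟨b, hb⟩ := ih2
    exact ⟨max a b, monoT s a _ ha (le_max_left _ _), monoT t b _ hb (le_max_right _ _)⟩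
  | mul s t ih1 ih2 =>
    obtain ⟨a, ha⟩ := ih1; obtain ⟨b, hb⟩ := ih2
    exact ⟨max a b, monoT s a _ ha (le_max_left _ _), monoT t b _ hb (le_max_right _ _)⟩
  | smash s t ih1 ih2 =>
    obtain ⟨a, ha⟩ := ih1; obtain ⟨b, hb⟩ := ih2
    exact ⟨max a b, monoT s a _ ha (le_max_left _ _), monoT t b _ hb (le_max_right _ _)⟩

theorem exBelowF (φ : Fm) : ∃ k, φ.fvBelow k := by
  induction φ with
  | bot => exact ⟨0, trivial⟩
  | eq s t =>
    obtain ⟨a, ha⟩ := exBelowT s; obtain ⟨b, hb⟩ := exBelowT t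
    exact ⟨max a b, monoT s a _ ha (le_max_left _ _), monoT t b _ hb (le_max_right _ _)⟩
  | le s t =>
    obtain ⟨a, ha⟩ := exBelowT s; obtain ⟨b, hb⟩ := exBelowT t
    exact ⟨max a b, monoT s a _ ha (le_max_left _ _), monoT t b _ hb (le_max_right _ _)⟩
  | rel t => exact exBelowT t
  | imp φ ψ ih1 ih2 =>
    obtain ⟨a, ha⟩ := ih1; obtain ⟨b, hb⟩ := ih2
    exact ⟨max a b, monoF φ a _ ha (le_max_left _ _), monoF ψ b _ hb (le_max_right _ _)⟩
  | all φ ih =>
    obtain ⟨a, ha⟩ := ih
    exact ⟨a, monoF φ a _ ha (by omega)⟩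

theorem instIdT (s : Tm) (k : ℕ) (t : Tm) (h : s.fvBelow k) : s.inst k t = s := by
  induction s with
  | var i => exact if_pos h
  | zero => rfl
  | succ s ih => simp only [H19.Tm.inst]; rw [ih h]
  | half s ih => simp only [H19.Tm.inst]; rw [ih h]
  | len s ih => simp only [H19.Tm.inst]; rw [ih h]
  | add r s ih1 ih2 => simp only [H19.Tm.inst]; rw [ih1 h.1, ih2 h.2]
  | mul r s ih1 ih2 => simp only [H19.Tm.inst]; rw [ih1 h.1, ih2 h.2]
  | smash r s ih1 ih2 => simp only [H19.Tm.inst]; rw [ih1 h.1, ih2 h.2]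

theorem instIdF (φ : Fm) : ∀ (k : ℕ) (t : Tm), φ.fvBelow k → φ.inst k t = φ := by
  induction φ with
  | bot => intro k t h; rfl
  | eq r s => intro k t h; simp only [Fm.inst]; rw [instIdT r k t h.1, instIdT s k t h.2]
  | le r s => intro k t h; simp only [Fm.inst]; rw [instIdT r k t h.1, instIdT s k t h.2]
  | rel s => intro k t h; simp only [Fm.inst]; rw [instIdT s k t h]
  | imp φ ψ ih1 ih2 => intro k t h; simp only [Fm.inst]; rw [ih1 k t h.1, ih2 k t h.2]
  | all φ ih => intro k t h; simp only [Fm.inst]; rw [ih (k + 1) t h]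

theorem shiftIdT (s : Tm) (k d : ℕ) (h : s.fvBelow k) : s.shift k d = s := by
  induction s with
  | var i => exact if_pos h
  | zero => rfl
  | succ s ih => simp only [H19.Tm.shift]; rw [ih h]
  | half s ih => simp only [H19.Tm.shift]; rw [ih h]
  | len s ih => simp only [H19.Tm.shift]; rw [ih h]
  | add r s ih1 ih2 => simp only [H19.Tm.shift]; rw [ih1 h.1, ih2 h.2]
  | mul r s ih1 ih2 => simp only [H19.Tm.shift]; rw [ih1 h.1, ih2 h.2]
  | smash r s ih1 ih2 => simp only [H19.Tm.shift]; rw [ih1 h.1, ih2 h.2]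

theorem shiftIdF (φ : Fm) : ∀ k d : ℕ, φ.fvBelow k → φ.shift k d = φ := by
  induction φ with
  | bot => intro k d h; rfl
  | eq r s => intro k d h; simp only [Fm.shift]; rw [shiftIdT r k d h.1, shiftIdT s k d h.2]
  | le r s => intro k d h; simp only [Fm.shift]; rw [shiftIdT r k d h.1, shiftIdT s k d h.2]
  | rel s => intro k d h; simp only [Fm.shift]; rw [shiftIdT s k d h]
  | imp φ ψ ih1 ih2 => intro k d h; simp only [Fm.shift]; rw [ih1 k d h.1, ih2 k d h.2]
  | all φ ih => intro k d h; simp only [Fm.shift]; rw [ih (k + 1) d h]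

theorem instShiftT (s : Tm) (k : ℕ) (t : Tm) : (s.shift k 1).inst k t = s := by
  induction s with
  | var i =>
    by_cases h : i < k
    · simp [H19.Tm.shift, H19.Tm.inst, h]
    · have h1 : ¬ (i + 1 < k) := by omega
      have h2 : ¬ (i + 1 = k) := by omega
      simp [H19.Tm.shift, H19.Tm.inst, h, h1, h2]
  | zero => rfl
  | succ s ih => simp only [H19.Tm.shift, H19.Tm.inst]; rw [ih]
  | half s ih => simp only [H19.Tm.shift, H19.Tm.inst]; rw [ih]
  | len s ih => simp only [H19.Tm.shift, H19.Tm.inst]; rw [ih]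
  | add r s ih1 ih2 => simp only [H19.Tm.shift, H19.Tm.inst]; rw [ih1, ih2]
  | mul r s ih1 ih2 => simp only [H19.Tm.shift, H19.Tm.inst]; rw [ih1, ih2]
  | smash r s ih1 ih2 => simp only [H19.Tm.shift, H19.Tm.inst]; rw [ih1, ih2]

theorem instShiftF (φ : Fm) : ∀ (k : ℕ) (t : Tm), (φ.shift k 1).inst k t = φ := by
  induction φ with
  | bot => intro k t; rfl
  | eq r s => intro k t; simp only [Fm.shift, Fm.inst]; rw [instShiftT r k t, instShiftT s k t]
  | le r s => intro k t; simp only [Fm.shift, Fm.inst]; rw [instShiftT r k t, instShiftT s k t]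
  | rel s => intro k t; simp only [Fm.shift, Fm.inst]; rw [instShiftT s k t]
  | imp φ ψ ih1 ih2 => intro k t; simp only [Fm.shift, Fm.inst]; rw [ih1 k t, ih2 k t]
  | all φ ih => intro k t; simp only [Fm.shift, Fm.inst]; rw [ih (k + 1) t]

theorem numInst (n k : ℕ) (t : Tm) : (Tm.numeral n).inst k t = Tm.numeral n :=
  instIdT _ k t (numBelow n k)

theorem numShift (n k d : ℕ) : (Tm.numeral n).shift k d = Tm.numeral n :=
  shiftIdT _ k d (numBelow n k)

theorem instT (v : ℕ → ℕ) (a d : ℕ) (t : Tm) :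
    (clT v (d + 1) t).inst d (Tm.numeral a) = clT (scons a v) d t := by
  induction t with
  | var i =>
    rcases lt_trichotomy i d with h | h | h
    · have h1 : i < d + 1 := by omega
      simp [clT, H19.Tm.inst, h, h1]
    · subst h
      simp [clT, H19.Tm.inst, numShift, scons]
    · have h1 : ¬ i < d + 1 := by omega
      have h2 : ¬ i < d := by omega
      obtain ⟨j, rfl⟩ : ∃ j, i = d + 1 + j := ⟨i - (d + 1), by omega⟩
      have h3 : d + 1 + j - d = j + 1 := by omega
      simp only [clT, h1, h2, if_false, numInst, h3, scons]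
      rw [show d + 1 + j - (d + 1) = j by omega]
  | zero => rfl
  | succ s ih => simp only [clT, H19.Tm.inst]; rw [ih]
  | half s ih => simp only [clT, H19.Tm.inst]; rw [ih]
  | len s ih => simp only [clT, H19.Tm.inst]; rw [ih]
  | add r s ih1 ih2 => simp only [clT, H19.Tm.inst]; rw [ih1, ih2]
  | mul r s ih1 ih2 => simp only [clT, H19.Tm.inst]; rw [ih1, ih2]
  | smash r s ih1 ih2 => simp only [clT, H19.Tm.inst]; rw [ih1, ih2]

theorem instF (v : ℕ → ℕ) (a : ℕ) (φ : Fm) : ∀ d : ℕ,
    (clF v (d + 1) φ).inst d (Tm.numeral a) = clF (scons a v) d φ := by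
  induction φ with
  | bot => intro d; rfl
  | eq s t => intro d; simp only [clF, Fm.inst]; rw [instT, instT]
  | le s t => intro d; simp only [clF, Fm.inst]; rw [instT, instT]
  | rel t => intro d; simp only [clF, Fm.inst]; rw [instT]
  | imp φ ψ ih1 ih2 => intro d; simp only [clF, Fm.inst]; rw [ih1, ih2]
  | all φ ih => intro d; simp only [clF, Fm.inst]; rw [ih]

theorem ofBelowT (v : ℕ → ℕ) (d : ℕ) (t : Tm) (h : t.fvBelow d) : clT v d t = t := by
  induction t with
  | var i => exact if_pos h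
  | zero => rfl
  | succ s ih => simp only [clT]; rw [ih h]
  | half s ih => simp only [clT]; rw [ih h]
  | len s ih => simp only [clT]; rw [ih h]
  | add r s ih1 ih2 => simp only [clT]; rw [ih1 h.1, ih2 h.2]
  | mul r s ih1 ih2 => simp only [clT]; rw [ih1 h.1, ih2 h.2]
  | smash r s ih1 ih2 => simp only [clT]; rw [ih1 h.1, ih2 h.2]

theorem ofBelowF (v : ℕ → ℕ) (φ : Fm) : ∀ d : ℕ, φ.fvBelow d → clF v d φ = φ := by
  induction φ with
  | bot => intro d h; rfl
  | eq s t => intro d h; simp only [clF]; rw [ofBelowT v d s h.1, ofBelowT v d t h.2]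
  | le s t => intro d h; simp only [clF]; rw [ofBelowT v d s h.1, ofBelowT v d t h.2]
  | rel t => intro d h; simp only [clF]; rw [ofBelowT v d t h]
  | imp φ ψ ih1 ih2 => intro d h; simp only [clF]; rw [ih1 d h.1, ih2 d h.2]
  | all φ ih => intro d h; simp only [clF]; rw [ih (d + 1) h]

theorem belowT (v : ℕ → ℕ) (d : ℕ) (t : Tm) : (clT v d t).fvBelow d := by
  induction t with
  | var i =>
    by_cases h : i < d
    · simp only [clT, h, if_true]; exact h
    · simp only [clT, h, if_false]; exact numBelow _ _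
  | zero => trivial
  | succ s ih => exact ih
  | half s ih => exact ih
  | len s ih => exact ih
  | add r s ih1 ih2 => exact ⟨ih1, ih2⟩
  | mul r s ih1 ih2 => exact ⟨ih1, ih2⟩
  | smash r s ih1 ih2 => exact ⟨ih1, ih2⟩

theorem belowF (v : ℕ → ℕ) (φ : Fm) : ∀ d : ℕ, (clF v d φ).fvBelow d := by
  induction φ with
  | bot => intro d; trivial
  | eq s t => intro d; exact ⟨belowT v d s, belowT v d t⟩
  | le s t => intro d; exact ⟨belowT v d s, belowT v d t⟩
  | rel t => intro d; exact belowT v d t
  | imp φ ψ ih1 ih2 => intro d; exact ⟨ih1 d, ih2 d⟩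
  | all φ ih => intro d; exact ih (d + 1)

theorem occT (v : ℕ → ℕ) (a : ℕ) (t : Tm) (h : t.occurs 0 = false) :
    clT v 1 t = clT (scons a v) 0 t := by
  induction t with
  | var i =>
    cases i with
    | zero => simp [H19.Tm.occurs] at h
    | succ i => simp [clT, scons]
  | zero => rfl
  | succ s ih => simp only [clT]; rw [ih h]
  | half s ih => simp only [clT]; rw [ih h]
  | len s ih => simp only [clT]; rw [ih h]
  | add r s ih1 ih2 =>
    simp only [H19.Tm.occurs, Bool.or_eq_false_iff] at h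
    simp only [clT]; rw [ih1 h.1, ih2 h.2]
  | mul r s ih1 ih2 =>
    simp only [H19.Tm.occurs, Bool.or_eq_false_iff] at h
    simp only [clT]; rw [ih1 h.1, ih2 h.2]
  | smash r s ih1 ih2 =>
    simp only [H19.Tm.occurs, Bool.or_eq_false_iff] at h
    simp only [clT]; rw [ih1 h.1, ih2 h.2]

theorem valT (v w : ℕ → ℕ) (d : ℕ) (t : Tm) : (clT v d t).val H19.stdN w =
    t.val H19.stdN (fun i => if i < d then w i else v (i - d)) := by
  induction t with
  | var i =>
    by_cases h : i < d
    · simp [clT, H19.Tm.val, h]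
    · simp only [clT, h, if_false, H19.Tm.numeral_val, H19.Tm.val]
  | zero => rfl
  | succ s ih => simp only [clT, H19.Tm.val]; rw [ih]
  | half s ih => simp only [clT, H19.Tm.val]; rw [ih]
  | len s ih => simp only [clT, H19.Tm.val]; rw [ih]
  | add r s ih1 ih2 => simp only [clT, H19.Tm.val]; rw [ih1, ih2]
  | mul r s ih1 ih2 => simp only [clT, H19.Tm.val]; rw [ih1, ih2]
  | smash r s ih1 ih2 => simp only [clT, H19.Tm.val]; rw [ih1, ih2]

theorem satF (v : ℕ → ℕ) (O : Om) (φ : Fm) : ∀ (d : ℕ) (w : ℕ → ℕ),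
    (clF v d φ).sat (stdN O) w ↔
      φ.sat (stdN O) (fun i => if i < d then w i else v (i - d)) := by
  induction φ with
  | bot => intro d w; rfl
  | eq s t =>
    intro d w
    simp only [clF, Fm.sat]
    change (clT v d s).val H19.stdN w = (clT v d t).val H19.stdN w ↔ _
    rw [valT, valT]
    rfl
  | le s t =>
    intro d w
    simp only [clF, Fm.sat]
    change (stdN O).le ((clT v d s).val H19.stdN w) ((clT v d t).val H19.stdN w) ↔ _
    rw [valT, valT]
    rfl
  | rel t =>
    intro d w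
    simp only [clF, Fm.sat]
    change (stdN O).rel ((clT v d t).val H19.stdN w) ↔ _
    rw [valT]
    rfl
  | imp φ ψ ih1 ih2 => intro d w; simp only [clF, Fm.sat, ih1, ih2]
  | all φ ih =>
    intro d w
    simp only [clF, Fm.sat, ih]
    refine forall_congr' fun a => ?_
    have : (fun i => if i < d + 1 then scons a w i else v (i - (d + 1))) =
        scons a (fun i => if i < d then w i else v (i - d)) := by
      funext i
      cases i with
      | zero => simp [scons]
      | succ i => simp [scons]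
    rw [this]

theorem occInst (t : Tm) (k a : ℕ) :
    (t.inst (k + 1) (Tm.numeral a)).occurs 0 = t.occurs 0 := by
  have hnum : (Tm.numeral a).occurs 0 = false := by
    refine num_cases (fun t => t.occurs 0 = false) rfl ?_ ?_ a
    · intro t ht; simp [H19.Tm.occurs, Tm.two, ht]
    · intro t ht; simp [H19.Tm.occurs, Tm.two, ht]
  induction t with
  | var i =>
    rcases lt_trichotomy i (k + 1) with h | h | h
    · simp [H19.Tm.inst, h]
    · subst h
      simp [H19.Tm.inst, numShift, hnum, H19.Tm.occurs]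
    · have h1 : ¬ i < k + 1 := by omega
      have h2 : ¬ i = k + 1 := by omega
      have h3 : i - 1 ≠ 0 := by omega
      have h4 : i ≠ 0 := by omega
      simp [H19.Tm.inst, h1, h2, H19.Tm.occurs, h3, h4]
  | zero => rfl
  | succ s ih => simp only [H19.Tm.inst, H19.Tm.occurs]; rw [ih]
  | half s ih => simp only [H19.Tm.inst, H19.Tm.occurs]; rw [ih]
  | len s ih => simp only [H19.Tm.inst, H19.Tm.occurs]; rw [ih]
  | add r s ih1 ih2 => simp only [H19.Tm.inst, H19.Tm.occurs]; rw [ih1, ih2]
  | mul r s ih1 ih2 => simp only [H19.Tm.inst, H19.Tm.occurs]; rw [ih1, ih2]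
  | smash r s ih1 ih2 => simp only [H19.Tm.inst, H19.Tm.occurs]; rw [ih1, ih2]

/-- The shape of a numeral. -/
theorem numShape (a : ℕ) : Tm.numeral a = Tm.zero ∨ (∃ t, Tm.numeral a = Tm.mul Tm.two t) ∨
    ∃ t, Tm.numeral a = Tm.succ (Tm.mul Tm.two t) := by
  refine num_cases (fun t => t = Tm.zero ∨ (∃ s, t = Tm.mul Tm.two s) ∨
    ∃ s, t = Tm.succ (Tm.mul Tm.two s)) (Or.inl rfl) ?_ ?_ a
  · intro t _; exact Or.inr (Or.inl ⟨t, rfl⟩)
  · intro t _; exact Or.inr (Or.inr ⟨t, rfl⟩)

theorem instVar (i k a : ℕ) : (∃ j, (Tm.var (i + 1)).inst (k + 1) (Tm.numeral a) =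
      Tm.var (j + 1)) ∨
    (Tm.var (i + 1)).inst (k + 1) (Tm.numeral a) = Tm.numeral a := by
  rcases lt_trichotomy (i + 1) (k + 1) with h | h | h
  · left; exact ⟨i, by simp only [H19.Tm.inst]; rw [if_pos h]⟩
  · right
    simp only [H19.Tm.inst]
    rw [if_neg (by omega), if_pos h, numShift]
  · left
    refine ⟨i - 1, ?_⟩
    simp only [H19.Tm.inst]
    rw [if_neg (by omega), if_neg (by omega)]
    congr 1
    omega

theorem guardedInst (φ : Fm) (k a : ℕ) :
    (φ.inst (k + 1) (Tm.numeral a)).guarded = φ.guarded := by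
  cases φ with
  | imp ψ χ =>
    cases ψ with
    | le s t =>
      cases s with
      | var i =>
        cases i with
        | zero =>
          have h1 : (Tm.var 0).inst (k + 1) (Tm.numeral a) = Tm.var 0 := by
            simp [H19.Tm.inst]
          simp only [Fm.inst, h1, Fm.guarded, occInst]
        | succ i =>
          have h1 : (Fm.imp (Fm.le (Tm.var (i + 1)) t) χ).guarded = false := rfl
          rw [h1]
          rcases instVar i k a with ⟨j, hj⟩ | hj
          · simp only [Fm.inst, hj]; rfl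
          · rcases numShape a with h | ⟨r, h⟩ | ⟨r, h⟩
            · simp only [Fm.inst, hj.trans h]; rfl
            · simp only [Fm.inst, hj.trans h]; rfl
            · simp only [Fm.inst, hj.trans h]; rfl
      | _ => rfl
    | _ => rfl
  | _ => rfl

theorem sharpInst (φ : Fm) (k a : ℕ) :
    (φ.inst (k + 1) (Tm.numeral a)).sharp = φ.sharp := by
  cases φ with
  | imp ψ χ =>
    cases ψ with
    | le s t =>
      cases s with
      | var i =>
        cases i with
        | zero =>
          have h1 : (Tm.var 0).inst (k + 1) (Tm.numeral a) = Tm.var 0 := by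
            simp [H19.Tm.inst]
          cases t with
          | len t =>
            have h2 : (Tm.len t).inst (k + 1) (Tm.numeral a) =
                Tm.len (t.inst (k + 1) (Tm.numeral a)) := rfl
            simp only [Fm.inst, h1, h2, Fm.sharp, occInst]
          | var j =>
            have h2 : (Fm.imp (Fm.le (Tm.var 0) (Tm.var j)) χ).sharp = false := rfl
            rw [h2]
            cases j with
            | zero => simp only [Fm.inst, h1]; rfl
            | succ j =>
              rcases instVar j k a with ⟨j', hj⟩ | hj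
              · simp only [Fm.inst, h1, hj]; rfl
              · rcases numShape a with h | ⟨r, h⟩ | ⟨r, h⟩
                · simp only [Fm.inst, h1, hj.trans h]; rfl
                · simp only [Fm.inst, h1, hj.trans h]; rfl
                · simp only [Fm.inst, h1, hj.trans h]; rfl
          | _ => simp only [Fm.inst, h1]; rfl
        | succ i =>
          have h1 : (Fm.imp (Fm.le (Tm.var (i + 1)) t) χ).sharp = false := rfl
          rw [h1]
          rcases instVar i k a with ⟨j, hj⟩ | hj
          · simp only [Fm.inst, hj]; rfl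
          · rcases numShape a with h | ⟨r, h⟩ | ⟨r, h⟩
            · simp only [Fm.inst, hj.trans h]; rfl
            · simp only [Fm.inst, hj.trans h]; rfl
            · simp only [Fm.inst, hj.trans h]; rfl
      | _ => rfl
    | _ => rfl
  | _ => rfl

theorem sigmaPi (a : ℕ) (φ : Fm) : ∀ k : ℕ,
    (φ.inst k (Tm.numeral a)).isSigma = φ.isSigma ∧
      (φ.inst k (Tm.numeral a)).isPi = φ.isPi := by
  induction φ with
  | bot => intro k; exact ⟨rfl, rfl⟩
  | eq s t => intro k; exact ⟨rfl, rfl⟩
  | le s t => intro k; exact ⟨rfl, rfl⟩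
  | rel t => intro k; exact ⟨rfl, rfl⟩
  | imp φ ψ ih1 ih2 =>
    intro k
    simp only [Fm.inst, Fm.isSigma, Fm.isPi]
    rw [(ih1 k).1, (ih1 k).2, (ih2 k).1, (ih2 k).2]
    exact ⟨rfl, rfl⟩
  | all φ ih =>
    intro k
    simp only [Fm.inst, Fm.isSigma, Fm.isPi]
    rw [(ih (k + 1)).1, (ih (k + 1)).2, guardedInst, sharpInst]
    exact ⟨rfl, rfl⟩

theorem instBelowT (t : Tm) (k j a : ℕ) (h : t.fvBelow (k + 1)) (hj : j ≤ k) :
    (t.inst j (Tm.numeral a)).fvBelow k := by
  induction t with
  | var i =>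
    have hi : i < k + 1 := h
    rcases lt_trichotomy i j with h1 | h1 | h1
    · simp only [H19.Tm.inst, h1, if_true]
      exact lt_of_lt_of_le h1 hj
    · subst h1
      simp only [H19.Tm.inst, lt_irrefl, if_false, if_true, numShift]
      exact numBelow _ _
    · simp only [H19.Tm.inst]
      rw [if_neg (by omega), if_neg (by omega)]
      change i - 1 < k
      omega
  | zero => trivial
  | succ s ih => exact ih h
  | half s ih => exact ih h
  | len s ih => exact ih h
  | add r s ih1 ih2 => exact ⟨ih1 h.1, ih2 h.2⟩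
  | mul r s ih1 ih2 => exact ⟨ih1 h.1, ih2 h.2⟩
  | smash r s ih1 ih2 => exact ⟨ih1 h.1, ih2 h.2⟩

theorem instBelowG (a : ℕ) (φ : Fm) : ∀ k j : ℕ, φ.fvBelow (k + 1) → j ≤ k →
    (φ.inst j (Tm.numeral a)).fvBelow k := by
  induction φ with
  | bot => intro k j h hj; trivial
  | eq s t => intro k j h hj; exact ⟨instBelowT s k j a h.1 hj, instBelowT t k j a h.2 hj⟩
  | le s t => intro k j h hj; exact ⟨instBelowT s k j a h.1 hj, instBelowT t k j a h.2 hj⟩
  | rel t => intro k j h hj; exact instBelowT t k j a h hj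
  | imp φ ψ ih1 ih2 => intro k j h hj; exact ⟨ih1 k j h.1 hj, ih2 k j h.2 hj⟩
  | all φ ih => intro k j h hj; exact ih (k + 1) (j + 1) h (by omega)

theorem numSize (n : ℕ) : ts (Tm.numeral n) ≤ 60 * (n.size + 1) := by
  induction n using Nat.strong_induction_on with
  | _ n ih =>
    by_cases h : n = 0
    · subst h; rw [H19.Tm.numeral_zero]; simp [ts, Tm.enc, T.size, T.unary]
    · rw [H19.Tm.numeral_pos h]
      have h1 := ih (n / 2) (by omega)
      have h2 := H19.Nat.size_eq_size_half h
      simp only [ts] at h1 ⊢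
      split_ifs
      · simp only [Tm.enc, Tm.two, T.size, H19.T.size_unary]; omega
      · simp only [Tm.enc, Tm.two, T.size, H19.T.size_unary]; omega

theorem ts_pos (t : Tm) : 1 ≤ ts t := H19.T.size_pos _

theorem sizeT (v : ℕ → ℕ) (L : ℕ) (hv : ∀ i, (v i).size ≤ L) (d : ℕ) (t : Tm) :
    ts (clT v d t) ≤ 60 * (L + 1) * ts t := by
  obtain ⟨c, hc⟩ : ∃ c, c = 60 * (L + 1) := ⟨_, rfl⟩
  have hc1 : 1 ≤ c := by omega
  rw [← hc]
  induction t with
  | var i =>
    by_cases h : i < d
    · simp only [clT, h, if_true]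
      exact Nat.le_mul_of_pos_left _ hc1
    · simp only [clT, h, if_false]
      have h1 := numSize (v (i - d))
      have h2 := hv (i - d)
      have h3 : ts (Tm.numeral (v (i - d))) ≤ c := by omega
      exact h3.trans (Nat.le_mul_of_pos_right _ (ts_pos _))
  | zero => exact Nat.le_mul_of_pos_left _ hc1
  | succ s ih =>
    simp only [ts, clT, Tm.enc, T.size, H19.T.size_unary] at ih ⊢
    nlinarith
  | half s ih =>
    simp only [ts, clT, Tm.enc, T.size, H19.T.size_unary] at ih ⊢
    nlinarith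
  | len s ih =>
    simp only [ts, clT, Tm.enc, T.size, H19.T.size_unary] at ih ⊢
    nlinarith
  | add r s ih1 ih2 =>
    simp only [ts, clT, Tm.enc, T.size, H19.T.size_unary] at ih1 ih2 ⊢
    nlinarith
  | mul r s ih1 ih2 =>
    simp only [ts, clT, Tm.enc, T.size, H19.T.size_unary] at ih1 ih2 ⊢
    nlinarith
  | smash r s ih1 ih2 =>
    simp only [ts, clT, Tm.enc, T.size, H19.T.size_unary] at ih1 ih2 ⊢
    nlinarith

theorem sizeF (v : ℕ → ℕ) (L : ℕ) (hv : ∀ i, (v i).size ≤ L) (φ : Fm) : ∀ d : ℕ,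
    fs (clF v d φ) ≤ 60 * (L + 1) * fs φ := by
  have hT := fun d t => sizeT v L hv d t
  obtain ⟨c, hc⟩ : ∃ c, c = 60 * (L + 1) := ⟨_, rfl⟩
  have hc1 : 1 ≤ c := by omega
  rw [← hc] at hT ⊢
  induction φ with
  | bot => intro d; exact Nat.le_mul_of_pos_left _ hc1
  | eq s t =>
    intro d
    have h1 := hT d s
    have h2 := hT d t
    simp only [ts, fs, clF, Fm.enc, T.size, H19.T.size_unary] at h1 h2 ⊢
    nlinarith
  | le s t =>
    intro d
    have h1 := hT d s
    have h2 := hT d t
    simp only [ts, fs, clF, Fm.enc, T.size, H19.T.size_unary] at h1 h2 ⊢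
    nlinarith
  | rel t =>
    intro d
    have h1 := hT d t
    simp only [ts, fs, clF, Fm.enc, T.size, H19.T.size_unary] at h1 ⊢
    nlinarith
  | imp φ ψ ih1 ih2 =>
    intro d
    have h1 := ih1 d
    have h2 := ih2 d
    simp only [fs, clF, Fm.enc, T.size, H19.T.size_unary] at h1 h2 ⊢
    nlinarith
  | all φ ih =>
    intro d
    have h1 := ih (d + 1)
    simp only [fs, clF, Fm.enc, T.size, H19.T.size_unary] at h1 ⊢
    nlinarith

theorem instSizeT (t : Tm) (k a : ℕ) :
    ts (t.inst k (Tm.numeral a)) ≤ 60 * (a.size + 1) * ts t := by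
  have hn := numSize a
  obtain ⟨c, hc⟩ : ∃ c, c = 60 * (a.size + 1) := ⟨_, rfl⟩
  have hc1 : 1 ≤ c := by omega
  rw [← hc] at hn ⊢
  induction t with
  | var i =>
    rcases lt_trichotomy i k with h | h | h
    · simp only [H19.Tm.inst, h, if_true]
      exact Nat.le_mul_of_pos_left _ hc1
    · subst h
      simp only [H19.Tm.inst, lt_irrefl, if_false, if_true, numShift]
      exact hn.trans (Nat.le_mul_of_pos_right _ (ts_pos _))
    · simp only [H19.Tm.inst]
      rw [if_neg (by omega), if_neg (by omega)]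
      refine le_trans ?_ (Nat.le_mul_of_pos_left _ hc1)
      simp only [ts, Tm.enc, T.size, H19.T.size_unary]
      omega
  | zero => exact Nat.le_mul_of_pos_left _ hc1
  | succ s ih =>
    simp only [ts, H19.Tm.inst, Tm.enc, T.size, H19.T.size_unary] at ih ⊢
    nlinarith
  | half s ih =>
    simp only [ts, H19.Tm.inst, Tm.enc, T.size, H19.T.size_unary] at ih ⊢
    nlinarith
  | len s ih =>
    simp only [ts, H19.Tm.inst, Tm.enc, T.size, H19.T.size_unary] at ih ⊢
    nlinarith
  | add r s ih1 ih2 =>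
    simp only [ts, H19.Tm.inst, Tm.enc, T.size, H19.T.size_unary] at ih1 ih2 ⊢
    nlinarith
  | mul r s ih1 ih2 =>
    simp only [ts, H19.Tm.inst, Tm.enc, T.size, H19.T.size_unary] at ih1 ih2 ⊢
    nlinarith
  | smash r s ih1 ih2 =>
    simp only [ts, H19.Tm.inst, Tm.enc, T.size, H19.T.size_unary] at ih1 ih2 ⊢
    nlinarith

theorem instSizeF (a : ℕ) (φ : Fm) : ∀ k : ℕ,
    fs (φ.inst k (Tm.numeral a)) ≤ 60 * (a.size + 1) * fs φ := by
  have hT := fun k t => instSizeT t k a
  obtain ⟨c, hc⟩ : ∃ c, c = 60 * (a.size + 1) := ⟨_, rfl⟩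
  have hc1 : 1 ≤ c := by omega
  rw [← hc] at hT ⊢
  induction φ with
  | bot => intro d; exact Nat.le_mul_of_pos_left _ hc1
  | eq s t =>
    intro d
    have h1 := hT d s
    have h2 := hT d t
    simp only [ts, fs, Fm.inst, Fm.enc, T.size, H19.T.size_unary] at h1 h2 ⊢
    nlinarith
  | le s t =>
    intro d
    have h1 := hT d s
    have h2 := hT d t
    simp only [ts, fs, Fm.inst, Fm.enc, T.size, H19.T.size_unary] at h1 h2 ⊢
    nlinarith
  | rel t =>
    intro d
    have h1 := hT d t
    simp only [ts, fs, Fm.inst, Fm.enc, T.size, H19.T.size_unary] at h1 ⊢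
    nlinarith
  | imp φ ψ ih1 ih2 =>
    intro d
    have h1 := ih1 d
    have h2 := ih2 d
    simp only [fs, Fm.inst, Fm.enc, T.size, H19.T.size_unary] at h1 h2 ⊢
    nlinarith
  | all φ ih =>
    intro d
    have h1 := ih (d + 1)
    simp only [fs, Fm.inst, Fm.enc, T.size, H19.T.size_unary] at h1 ⊢
    nlinarith

theorem shiftSizeT (t : Tm) (k d : ℕ) : ts (t.shift k d) ≤ (2 * d + 1) * ts t := by
  have hc1 : 1 ≤ 2 * d + 1 := by omega
  induction t with
  | var i =>
    by_cases h : i < k
    · simp only [H19.Tm.shift, h, if_true]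
      exact Nat.le_mul_of_pos_left _ hc1
    · simp only [H19.Tm.shift, h, if_false, ts, Tm.enc, T.size, H19.T.size_unary]
      nlinarith
  | zero => exact Nat.le_mul_of_pos_left _ hc1
  | succ s ih =>
    simp only [ts, H19.Tm.shift, Tm.enc, T.size, H19.T.size_unary] at ih ⊢
    nlinarith
  | half s ih =>
    simp only [ts, H19.Tm.shift, Tm.enc, T.size, H19.T.size_unary] at ih ⊢
    nlinarith
  | len s ih =>
    simp only [ts, H19.Tm.shift, Tm.enc, T.size, H19.T.size_unary] at ih ⊢
    nlinarith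
  | add r s ih1 ih2 =>
    simp only [ts, H19.Tm.shift, Tm.enc, T.size, H19.T.size_unary] at ih1 ih2 ⊢
    nlinarith
  | mul r s ih1 ih2 =>
    simp only [ts, H19.Tm.shift, Tm.enc, T.size, H19.T.size_unary] at ih1 ih2 ⊢
    nlinarith
  | smash r s ih1 ih2 =>
    simp only [ts, H19.Tm.shift, Tm.enc, T.size, H19.T.size_unary] at ih1 ih2 ⊢
    nlinarith

theorem shiftSizeF (d : ℕ) (φ : Fm) : ∀ k : ℕ, fs (φ.shift k d) ≤ (2 * d + 1) * fs φ := by
  have hT := fun k t => shiftSizeT t k d
  have hc1 : 1 ≤ 2 * d + 1 := by omega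
  induction φ with
  | bot => intro k; exact Nat.le_mul_of_pos_left _ hc1
  | eq s t =>
    intro k
    have h1 := hT k s
    have h2 := hT k t
    simp only [ts, fs, Fm.shift, Fm.enc, T.size, H19.T.size_unary] at h1 h2 ⊢
    nlinarith
  | le s t =>
    intro k
    have h1 := hT k s
    have h2 := hT k t
    simp only [ts, fs, Fm.shift, Fm.enc, T.size, H19.T.size_unary] at h1 h2 ⊢
    nlinarith
  | rel t =>
    intro k
    have h1 := hT k t
    simp only [ts, fs, Fm.shift, Fm.enc, T.size, H19.T.size_unary] at h1 ⊢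
    nlinarith
  | imp φ ψ ih1 ih2 =>
    intro k
    have h1 := ih1 k
    have h2 := ih2 k
    simp only [fs, Fm.shift, Fm.enc, T.size, H19.T.size_unary] at h1 h2 ⊢
    nlinarith
  | all φ ih =>
    intro k
    have h1 := ih (k + 1)
    simp only [fs, Fm.shift, Fm.enc, T.size, H19.T.size_unary] at h1 ⊢
    nlinarith

end SUB

open SUB in
theorem SUB_thm : Sub where
  instF := fun v a d φ => instF v a φ d
  instT := instT
  ofBelowF := fun v d φ h => ofBelowF v φ d h
  ofBelowT := ofBelowT
  belowF := fun v d φ => belowF v φ d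
  belowT := belowT
  monoF := monoF
  monoT := monoT
  exBelowF := exBelowF
  numBelow := numBelow
  instIdF := fun φ k t h => instIdF φ k t h
  instIdT := instIdT
  shiftIdF := fun φ k d h => shiftIdF φ k d h
  shiftIdT := shiftIdT
  instShiftF := fun φ k t => instShiftF φ k t
  instShiftT := instShiftT
  occT := occT
  sat := fun v O φ w => by
    rw [satF]
    simp
  sigma := fun φ k a => (sigmaPi a φ k).1
  pi := fun φ k a => (sigmaPi a φ k).2
  instBelowF := fun φ k a h => instBelowG a φ k k h le_rfl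
  instBelowF0 := fun φ k a h => instBelowG a φ k 0 h (Nat.zero_le _)
  numSize := numSize
  sizeF := fun v L d φ h => sizeF v L h φ d
  sizeT := fun v L d t h => sizeT v L h d t
  instSizeF := fun φ k a => instSizeF a φ k
  instSizeT := instSizeT
  shiftSizeF := fun φ k d => shiftSizeF d φ k
  shiftSizeT := shiftSizeT
  num0 := H19.Tm.numeral_zero
  numEven := fun a ha => by
    rw [H19.Tm.numeral_pos (by omega : 2 * a ≠ 0)]
    have h1 : 2 * a % 2 = 0 := by omega
    have h2 : 2 * a / 2 = a := by omega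
    rw [if_pos h1, h2]
  numOdd := fun a => by
    rw [H19.Tm.numeral_pos (by omega : 2 * a + 1 ≠ 0)]
    have h1 : ¬ (2 * a + 1) % 2 = 0 := by omega
    have h2 : (2 * a + 1) / 2 = a := by omega
    rw [if_neg h1, h2]

end Pool.Agent.RN
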