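import Pool.Agent.RN.PrDefs

/-!
# Evaluation of closed terms (module TERM)
-/

namespace Pool.Agent.RN.TERM

open Pool.Agent.H19 (T Tm scons)
open Pool.Agent.RO

/-! ### Powers -/

theorem le_pow_self {A n : ℕ} (hA : 2 ≤ A) : n ≤ A ^ n :=
  (Nat.lt_two_pow_self).le.trans (Nat.pow_le_pow_left hA n)

theorem pow_mono {A a b : ℕ} (hA : 2 ≤ A) (h : a ≤ b) : A ^ a ≤ A ^ b :=
  Nat.pow_le_pow_right (by omega) h

theorem const_le {A c n : ℕ} (hA : 2 ≤ A) (h : c ≤ 2 ^ n) : c ≤ A ^ n :=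
  h.trans (Nat.pow_le_pow_left hA n)

theorem lines_bound {A K D D1 D2 : ℕ} (hA : 2 ≤ A) (h : D1 + D2 + 7 ≤ D) :
    A ^ ((K + 60) * D1) + A ^ ((K + 60) * D2) + 2000 + A ^ (K + 8 * D + 8) ≤
      A ^ ((K + 60) * D) := by
  have hKD : K ≤ K * D := Nat.le_mul_of_pos_right K (by omega)
  have e : (K + 60) * D = K * D + 60 * D := by ring
  have hX : ∀ x, x + 2 ≤ (K + 60) * D → A ^ x ≤ A ^ ((K + 60) * D - 2) := fun x hx =>
    pow_mono hA (by omega)
  have hD1 : (K + 60) * D1 + 2 ≤ (K + 60) * D := by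
    have : (K + 60) * (D1 + 7) ≤ (K + 60) * D := Nat.mul_le_mul_left _ (by omega)
    have e2 : (K + 60) * (D1 + 7) = (K + 60) * D1 + (K + 60) * 7 := by ring
    omega
  have hD2 : (K + 60) * D2 + 2 ≤ (K + 60) * D := by
    have : (K + 60) * (D2 + 7) ≤ (K + 60) * D := Nat.mul_le_mul_left _ (by omega)
    have e2 : (K + 60) * (D2 + 7) = (K + 60) * D2 + (K + 60) * 7 := by ring
    omega
  have h1 := hX _ hD1
  have h2 := hX _ hD2
  have h3 : 2000 ≤ A ^ ((K + 60) * D - 2) :=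
    (const_le (n := 11) hA (by norm_num)).trans (pow_mono hA (by omega))
  have h4 := hX (K + 8 * D + 8) (by omega)
  have h5 : A ^ ((K + 60) * D) = A ^ ((K + 60) * D - 2) * A ^ 2 := by
    rw [← pow_add]
    congr 1
    omega
  have h6 : 2 ^ 2 ≤ A ^ 2 := Nat.pow_le_pow_left hA 2
  rw [h5]
  calc A ^ ((K + 60) * D1) + A ^ ((K + 60) * D2) + 2000 + A ^ (K + 8 * D + 8)
      ≤ A ^ ((K + 60) * D - 2) * 2 ^ 2 := by omega
    _ ≤ _ := Nat.mul_le_mul_left _ h6

theorem num_bound {A K D : ℕ} (hA : 2 ≤ A) (j : ℕ) (hj : j ≤ 8) :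
    K * (A ^ D + 1) ^ j ≤ A ^ (K + 8 * D + 8) := by
  have h1 : A ^ D + 1 ≤ A ^ (D + 1) := by
    have : 1 ≤ A ^ D := Nat.one_le_pow _ _ (by omega)
    calc A ^ D + 1 ≤ A ^ D * 2 := by omega
      _ ≤ A ^ D * A := Nat.mul_le_mul_left _ hA
      _ = A ^ (D + 1) := (pow_succ _ _).symm
  calc K * (A ^ D + 1) ^ j ≤ A ^ K * (A ^ (D + 1)) ^ 8 :=
        Nat.mul_le_mul (le_pow_self hA) ((Nat.pow_le_pow_left h1 j).trans
          (Nat.pow_le_pow_right (Nat.one_le_pow _ _ (by omega)) hj))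
    _ = A ^ (K + 8 * D + 8) := by
        rw [← pow_mul, ← pow_add]
        congr 1
        ring

/-! ### Sizes -/

theorem ts_var (i : ℕ) : ts (Tm.var i) = 2 * i + 5 := by
  simp only [ts, Tm.enc, T.size, H19.T.size_unary]; omega
theorem ts_zero : ts Tm.zero = 7 := by
  simp only [ts, Tm.enc, T.size, H19.T.size_unary]
theorem ts_succ (t : Tm) : ts (Tm.succ t) = ts t + 8 := by
  simp only [ts, Tm.enc, T.size, H19.T.size_unary]; omega
theorem ts_half (t : Tm) : ts (Tm.half t) = ts t + 10 := by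
  simp only [ts, Tm.enc, T.size, H19.T.size_unary]; omega
theorem ts_len (t : Tm) : ts (Tm.len t) = ts t + 12 := by
  simp only [ts, Tm.enc, T.size, H19.T.size_unary]; omega
theorem ts_add (s t : Tm) : ts (Tm.add s t) = ts s + ts t + 13 := by
  simp only [ts, Tm.enc, T.size, H19.T.size_unary]; omega
theorem ts_mul (s t : Tm) : ts (Tm.mul s t) = ts s + ts t + 15 := by
  simp only [ts, Tm.enc, T.size, H19.T.size_unary]; omega
theorem ts_smash (s t : Tm) : ts (Tm.smash s t) = ts s + ts t + 17 := by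
  simp only [ts, Tm.enc, T.size, H19.T.size_unary]; omega

theorem size_succ_le (x : ℕ) : (x + 1).size ≤ x.size + 1 := by
  rw [Nat.size_le, pow_succ]
  have := Nat.lt_size_self x
  omega

theorem size_add_le (x y : ℕ) : (x + y).size ≤ x.size + y.size + 1 := by
  rw [Nat.size_le, pow_succ]
  have h1 := Nat.lt_size_self x
  have h2 := Nat.lt_size_self y
  have h3 : 2 ^ x.size ≤ 2 ^ (x.size + y.size) := Nat.pow_le_pow_right (by norm_num) (by omega)
  have h4 : 2 ^ y.size ≤ 2 ^ (x.size + y.size) := Nat.pow_le_pow_right (by norm_num) (by omega)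
  omega

theorem size_mul_le (x y : ℕ) : (x * y).size ≤ x.size + y.size := by
  rw [Nat.size_le, pow_add]
  exact Nat.mul_lt_mul'' (Nat.lt_size_self x) (Nat.lt_size_self y)

theorem size_half_le (x : ℕ) : (x / 2).size ≤ x.size := Nat.size_le_size (Nat.div_le_self x 2)

theorem size_size_le (x : ℕ) : x.size.size ≤ x.size := by
  rw [Nat.size_le]
  exact Nat.lt_two_pow_self

theorem size_smash (x y : ℕ) : (2 ^ (x.size * y.size)).size ≤ x.size * y.size + 1 := by
  rw [Nat.size_pow]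

theorem succ_pow_le {A a : ℕ} (hA : 2 ≤ A) : A ^ a + 1 ≤ A ^ (a + 1) := by
  have : 1 ≤ A ^ a := Nat.one_le_pow _ _ (by omega)
  calc A ^ a + 1 ≤ A ^ a * 2 := by omega
    _ ≤ A ^ a * A := Nat.mul_le_mul_left _ hA
    _ = A ^ (a + 1) := (pow_succ _ _).symm

theorem add_pow_le {A a b : ℕ} (hA : 2 ≤ A) : A ^ a + A ^ b + 1 ≤ A ^ (a + b + 2) := by
  have h1 : A ^ a ≤ A ^ (a + b) := pow_mono hA (by omega)
  have h2 : A ^ b ≤ A ^ (a + b) := pow_mono hA (by omega)
  have h3 : 1 ≤ A ^ (a + b) := Nat.one_le_pow _ _ (by omega)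
  have h4 : 2 ^ 2 ≤ A ^ 2 := Nat.pow_le_pow_left hA 2
  calc A ^ a + A ^ b + 1 ≤ A ^ (a + b) * 2 ^ 2 := by omega
    _ ≤ A ^ (a + b) * A ^ 2 := Nat.mul_le_mul_left _ h4
    _ = A ^ (a + b + 2) := (pow_add _ _ _).symm

theorem val_size (v : ℕ → ℕ) (L : ℕ) (hv : ∀ i, (v i).size ≤ L) (t : Tm) :
    (t.val H19.stdN v).size ≤ (L + 2) ^ ts t := by
  have hA : 2 ≤ L + 2 := by omega
  induction t with
  | var i =>
    rw [ts_var]
    show (v i).size ≤ _
    calc (v i).size ≤ (L + 2) ^ 1 := by rw [pow_one]; have := hv i; omega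
      _ ≤ _ := pow_mono hA (by omega)
  | zero =>
    show (0 : ℕ).size ≤ _
    rw [Nat.size_zero]
    exact Nat.zero_le _
  | succ t ih =>
    rw [ts_succ]
    show (t.val H19.stdN v + 1).size ≤ _
    calc (t.val H19.stdN v + 1).size ≤ (L + 2) ^ ts t + 1 :=
          (size_succ_le _).trans (Nat.add_le_add_right ih 1)
      _ ≤ (L + 2) ^ (ts t + 1) := succ_pow_le hA
      _ ≤ _ := pow_mono hA (by omega)
  | half t ih =>
    rw [ts_half]
    show (t.val H19.stdN v / 2).size ≤ _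
    exact (size_half_le _).trans (ih.trans (pow_mono hA (by omega)))
  | len t ih =>
    rw [ts_len]
    show (t.val H19.stdN v).size.size ≤ _
    exact (size_size_le _).trans (ih.trans (pow_mono hA (by omega)))
  | add s t ih1 ih2 =>
    rw [ts_add]
    show (s.val H19.stdN v + t.val H19.stdN v).size ≤ _
    calc (s.val H19.stdN v + t.val H19.stdN v).size ≤ (L + 2) ^ ts s + (L + 2) ^ ts t + 1 :=
          (size_add_le _ _).trans (by omega)
      _ ≤ (L + 2) ^ (ts s + ts t + 2) := add_pow_le hA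
      _ ≤ _ := pow_mono hA (by omega)
  | mul s t ih1 ih2 =>
    rw [ts_mul]
    show (s.val H19.stdN v * t.val H19.stdN v).size ≤ _
    calc (s.val H19.stdN v * t.val H19.stdN v).size ≤ (L + 2) ^ ts s + (L + 2) ^ ts t + 1 :=
          (size_mul_le _ _).trans (by omega)
      _ ≤ (L + 2) ^ (ts s + ts t + 2) := add_pow_le hA
      _ ≤ _ := pow_mono hA (by omega)
  | smash s t ih1 ih2 =>
    rw [ts_smash]
    show (2 ^ ((s.val H19.stdN v).size * (t.val H19.stdN v).size)).size ≤ _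
    calc (2 ^ ((s.val H19.stdN v).size * (t.val H19.stdN v).size)).size
        ≤ (L + 2) ^ ts s * (L + 2) ^ ts t + 1 :=
          (size_smash _ _).trans (Nat.add_le_add_right (Nat.mul_le_mul ih1 ih2) 1)
      _ = (L + 2) ^ (ts s + ts t) + 1 := by rw [pow_add]
      _ ≤ (L + 2) ^ (ts s + ts t + 1) := succ_pow_le hA
      _ ≤ _ := pow_mono hA (by omega)

/-! ### The induction step -/

/-- The bound for the sizes of the terms which occur. -/
def Q (L D : ℕ) : ℕ := 120 * (L + 2) ^ (D + 1)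

theorem Q_pos (L D : ℕ) : 120 ≤ Q L D := by
  have : 1 ≤ (L + 2) ^ (D + 1) := Nat.one_le_pow _ _ (by omega)
  unfold Q
  omega

theorem Q_bound (K L D : ℕ) (hD : 5 ≤ D) : 13000 * Q L D ≤ (L + 2) ^ ((K + 60) * D) := by
  have hA : 2 ≤ L + 2 := by omega
  have h0 : 60 * D ≤ (K + 60) * D := Nat.mul_le_mul_right _ (by omega)
  calc 13000 * Q L D = 1560000 * (L + 2) ^ (D + 1) := by unfold Q; ring
    _ ≤ (L + 2) ^ 21 * (L + 2) ^ (D + 1) :=
        Nat.mul_le_mul_right _ (const_le (n := 21) hA (by norm_num))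
    _ = (L + 2) ^ (21 + (D + 1)) := (pow_add _ _ _).symm
    _ ≤ _ := pow_mono hA (by omega)

theorem cl_le (hs : Sub) (v : ℕ → ℕ) (L D : ℕ) (hv : ∀ i, (v i).size ≤ L) (s : Tm)
    (h : ts s ≤ D) : ts (clT v 0 s) ≤ Q L D := by
  have hA : 2 ≤ L + 2 := by omega
  have h1 : ts s ≤ (L + 2) ^ D := h.trans (le_pow_self hA)
  calc ts (clT v 0 s) ≤ 60 * (L + 1) * ts s := hs.sizeT v L 0 s hv
    _ ≤ 60 * (L + 2) * (L + 2) ^ D := Nat.mul_le_mul (Nat.mul_le_mul_left _ (by omega)) h1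
    _ = 60 * (L + 2) ^ (D + 1) := by rw [pow_succ]; ring
    _ ≤ Q L D := Nat.mul_le_mul_right _ (by norm_num)

theorem nm_le (hs : Sub) (L D x : ℕ) (h : x.size ≤ (L + 2) ^ D) :
    ts (Tm.numeral x) ≤ Q L D := by
  have h1 : (L + 2) ^ D + 1 ≤ (L + 2) ^ (D + 1) := succ_pow_le (by omega)
  calc ts (Tm.numeral x) ≤ 60 * (x.size + 1) := hs.numSize x
    _ ≤ 60 * (L + 2) ^ (D + 1) := Nat.mul_le_mul_left _ (by omega)
    _ ≤ Q L D := Nat.mul_le_mul_right _ (by norm_num)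

end Pool.Agent.RN.TERM

namespace Pool.Agent.RN

open Pool.Agent.H19 (T Tm scons)
open Pool.Agent.RO TERM

theorem TERM_thm (hs : Sub) (hc : Calc) (h1 : Stmt_NUM1) (h2 : Stmt_NUM2) (h3 : Stmt_NUM3) :
    Stmt_TERM := by
  obtain ⟨C1, h1⟩ := h1
  obtain ⟨C2, h2⟩ := h2
  obtain ⟨C3, h3⟩ := h3
  set K := C1 + C2 + C3 with hK
  refine ⟨K + 60, ?_⟩
  intro Th hTh t v L hv
  refine ⟨val_size v L hv t, ?_⟩
  have hA : 2 ≤ L + 2 := by omega
  -- numbers of lines and sizes in the number modules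
  have hb : ∀ (C j D : ℕ), C ≤ K → j ≤ 8 →
      C * ((L + 2) ^ D + 1) ^ j ≤ (L + 2) ^ (K + 8 * D + 8) := fun C j D hC hj =>
    (Nat.mul_le_mul_right _ hC).trans (num_bound hA j hj)
  have hS : ∀ D : ℕ, 1 ≤ D → (L + 2) ^ (K + 8 * D + 8) ≤ (L + 2) ^ ((K + 60) * D) := by
    intro D hD
    refine pow_mono hA ?_
    have e : (K + 60) * D = K * D + 60 * D := by ring
    have : K ≤ K * D := Nat.le_mul_of_pos_right K (by omega)
    omega
  have hmon : ∀ D1 D : ℕ, D1 ≤ D →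
      (L + 2) ^ ((K + 60) * D1) ≤ (L + 2) ^ ((K + 60) * D) := fun D1 D h =>
    pow_mono hA (Nat.mul_le_mul_left _ h)
  have hval : ∀ s : Tm, ∀ D, ts s ≤ D → (s.val H19.stdN v).size ≤ (L + 2) ^ D := fun s D h =>
    (val_size v L hv s).trans (pow_mono hA h)
  -- unary functions
  have unary : ∀ (f : Tm → Tm) (g : ℕ → ℕ) (s : Tm) (l : ℕ),
      clT v 0 (f s) = f (clT v 0 s) → (f s).val H19.stdN v = g (s.val H19.stdN v) →
      ts s + 8 ≤ ts (f s) → (∀ x, ts (f x) ≤ ts x + 17) →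
      (∀ {l' s' : ℕ} {x y : Tm}, Pr Th l' s' (Fm.eq x y) → 1000 * (ts x + ts y + 1) ≤ s' →
        Pr Th (l' + 1000) s' (Fm.eq (f x) (f y))) →
      Pr Th l ((L + 2) ^ ((K + 60) * ts (f s)))
        (Fm.eq (f (Tm.numeral (s.val H19.stdN v))) (Tm.numeral (g (s.val H19.stdN v)))) →
      l ≤ (L + 2) ^ (K + 8 * ts (f s) + 8) →
      Pr Th ((L + 2) ^ ((K + 60) * ts s)) ((L + 2) ^ ((K + 60) * ts s))
        (Fm.eq (clT v 0 s) (Tm.numeral (s.val H19.stdN v))) →
      Pr Th ((L + 2) ^ ((K + 60) * ts (f s))) ((L + 2) ^ ((K + 60) * ts (f s)))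
        (Fm.eq (clT v 0 (f s)) (Tm.numeral ((f s).val H19.stdN v))) := by
    intro f g s l e1 e2 hts hf hcong hnum hl ih
    set D := ts (f s) with hD
    have hQ : 13000 * Q L D ≤ (L + 2) ^ ((K + 60) * D) := Q_bound K L D (by omega)
    have hQ0 := Q_pos L D
    have b1 : ts (clT v 0 s) ≤ Q L D := cl_le hs v L D hv s (by omega)
    have b2 : ts (Tm.numeral (s.val H19.stdN v)) ≤ Q L D := nm_le hs L D _ (hval s D (by omega))
    have b3 : ts (clT v 0 (f s)) ≤ Q L D := cl_le hs v L D hv (f s) hD.ge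
    have b4 : ts (Tm.numeral (g (s.val H19.stdN v))) ≤ Q L D :=
      nm_le hs L D _ (e2 ▸ hval (f s) D hD.ge)
    have b5 := hf (Tm.numeral (s.val H19.stdN v))
    have ih' := hc.mono ih le_rfl (hmon (ts s) D (by omega))
    have p1 := hcong ih' (by omega)
    have p2 := hc.etrans p1 hnum (by rw [← e1]; omega)
    rw [← e1, ← e2] at p2
    refine hc.mono p2 ?_ le_rfl
    have := lines_bound (A := L + 2) (K := K) (D := D) (D1 := ts s) (D2 := 0) hA (by omega)
    omega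
  -- binary functions
  have binary : ∀ (f : Tm → Tm → Tm) (g : ℕ → ℕ → ℕ) (s t : Tm) (l : ℕ),
      clT v 0 (f s t) = f (clT v 0 s) (clT v 0 t) →
      (f s t).val H19.stdN v = g (s.val H19.stdN v) (t.val H19.stdN v) →
      ts s + ts t + 8 ≤ ts (f s t) → (∀ x y, ts (f x y) ≤ ts x + ts y + 17) →
      (∀ {l' l'' s' : ℕ} {x y x' y' : Tm}, Pr Th l' s' (Fm.eq x y) → Pr Th l'' s' (Fm.eq x' y') →
        1000 * (ts x + ts y + ts x' + ts y' + 1) ≤ s' →
        Pr Th (l' + l'' + 1000) s' (Fm.eq (f x x') (f y y'))) →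
      Pr Th l ((L + 2) ^ ((K + 60) * ts (f s t)))
        (Fm.eq (f (Tm.numeral (s.val H19.stdN v)) (Tm.numeral (t.val H19.stdN v)))
          (Tm.numeral (g (s.val H19.stdN v) (t.val H19.stdN v)))) →
      l ≤ (L + 2) ^ (K + 8 * ts (f s t) + 8) →
      Pr Th ((L + 2) ^ ((K + 60) * ts s)) ((L + 2) ^ ((K + 60) * ts s))
        (Fm.eq (clT v 0 s) (Tm.numeral (s.val H19.stdN v))) →
      Pr Th ((L + 2) ^ ((K + 60) * ts t)) ((L + 2) ^ ((K + 60) * ts t))
        (Fm.eq (clT v 0 t) (Tm.numeral (t.val H19.stdN v))) →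
      Pr Th ((L + 2) ^ ((K + 60) * ts (f s t))) ((L + 2) ^ ((K + 60) * ts (f s t)))
        (Fm.eq (clT v 0 (f s t)) (Tm.numeral ((f s t).val H19.stdN v))) := by
    intro f g s t l e1 e2 hts hf hcong hnum hl ih1 ih2
    set D := ts (f s t) with hD
    have hD5 : 5 ≤ D := by omega
    have hQ : 13000 * Q L D ≤ (L + 2) ^ ((K + 60) * D) := Q_bound K L D hD5
    have hQ0 := Q_pos L D
    have b1 : ts (clT v 0 s) ≤ Q L D := cl_le hs v L D hv s (by omega)
    have b1' : ts (clT v 0 t) ≤ Q L D := cl_le hs v L D hv t (by omega)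
    have b2 : ts (Tm.numeral (s.val H19.stdN v)) ≤ Q L D := nm_le hs L D _ (hval s D (by omega))
    have b2' : ts (Tm.numeral (t.val H19.stdN v)) ≤ Q L D := nm_le hs L D _ (hval t D (by omega))
    have b3 : ts (clT v 0 (f s t)) ≤ Q L D := cl_le hs v L D hv (f s t) hD.ge
    have b4 : ts (Tm.numeral (g (s.val H19.stdN v) (t.val H19.stdN v))) ≤ Q L D :=
      nm_le hs L D _ (e2 ▸ hval (f s t) D hD.ge)
    have b5 := hf (Tm.numeral (s.val H19.stdN v)) (Tm.numeral (t.val H19.stdN v))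
    have ih1' := hc.mono ih1 le_rfl (hmon (ts s) D (by omega))
    have ih2' := hc.mono ih2 le_rfl (hmon (ts t) D (by omega))
    have p1 := hcong ih1' ih2' (by omega)
    have p2 := hc.etrans p1 hnum (by rw [← e1]; omega)
    rw [← e1, ← e2] at p2
    refine hc.mono p2 ?_ le_rfl
    have := lines_bound (A := L + 2) (K := K) (D := D) (D1 := ts s) (D2 := ts t) hA (by omega)
    omega
  have refl' : ∀ (s : Tm) (x : ℕ), 5 ≤ ts s → clT v 0 s = Tm.numeral x →
      x.size ≤ (L + 2) ^ ts s →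
      Pr Th ((L + 2) ^ ((K + 60) * ts s)) ((L + 2) ^ ((K + 60) * ts s))
        (Fm.eq (clT v 0 s) (Tm.numeral x)) := by
    intro s x h5 e hx
    have hQ : 13000 * Q L (ts s) ≤ (L + 2) ^ ((K + 60) * ts s) := Q_bound K L (ts s) h5
    have hQ0 := Q_pos L (ts s)
    have b2 : ts (Tm.numeral x) ≤ Q L (ts s) := nm_le hs L _ _ hx
    rw [e]
    exact hc.mono (hc.refl (x := Tm.numeral x) (s := (L + 2) ^ ((K + 60) * ts s)) (by omega))
      (by omega) le_rfl
  induction t with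
  | var i =>
    refine refl' (Tm.var i) (v i) (by rw [ts_var]; omega) ?_ (val_size v L hv (Tm.var i))
    show (if i < 0 then Tm.var i else Tm.numeral (v (i - 0))) = Tm.numeral (v i)
    rw [if_neg (Nat.not_lt_zero i), Nat.sub_zero]
  | zero =>
    exact refl' Tm.zero 0 (by rw [ts_zero]; omega) hs.num0.symm (val_size v L hv Tm.zero)
  | succ s ih =>
    have hD : 1 ≤ ts (Tm.succ s) := by rw [ts_succ]; omega
    have hx := hval s (ts (Tm.succ s)) (by rw [ts_succ]; omega)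
    have hn := (h1 Th hTh ((L + 2) ^ ts (Tm.succ s)) (s.val H19.stdN v) (s.val H19.stdN v)
      hx hx).1
    have hb1 : C1 * ((L + 2) ^ ts (Tm.succ s) + 1) ≤ (L + 2) ^ (K + 8 * ts (Tm.succ s) + 8) := by
      have := hb C1 1 (ts (Tm.succ s)) (by omega) (by norm_num)
      rwa [pow_one] at this
    exact unary Tm.succ (fun x => x + 1) s _ rfl rfl (by rw [ts_succ])
      (fun x => by rw [ts_succ]; omega) hc.succ
      (hc.mono hn le_rfl (hb1.trans (hS _ hD))) hb1 ih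
  | half s ih =>
    have hD : 1 ≤ ts (Tm.half s) := by rw [ts_half]; omega
    have hx := hval s (ts (Tm.half s)) (by rw [ts_half]; omega)
    have hn := (h3 Th hTh ((L + 2) ^ ts (Tm.half s)) (s.val H19.stdN v) hx).1
    have hb1 : C3 * ((L + 2) ^ ts (Tm.half s) + 1) ≤ (L + 2) ^ (K + 8 * ts (Tm.half s) + 8) := by
      have := hb C3 1 (ts (Tm.half s)) (by omega) (by norm_num)
      rwa [pow_one] at this
    have hb2 := hb C3 2 (ts (Tm.half s)) (by omega) (by norm_num)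
    exact unary Tm.half (fun x => x / 2) s _ rfl rfl (by rw [ts_half]; omega)
      (fun x => by rw [ts_half]; omega) hc.half
      (hc.mono hn le_rfl (hb1.trans (hS _ hD))) hb2 ih
  | len s ih =>
    have hD : 1 ≤ ts (Tm.len s) := by rw [ts_len]; omega
    have hx := hval s (ts (Tm.len s)) (by rw [ts_len]; omega)
    have hn := (h3 Th hTh ((L + 2) ^ ts (Tm.len s)) (s.val H19.stdN v) hx).2
    have hb1 : C3 * ((L + 2) ^ ts (Tm.len s) + 1) ≤ (L + 2) ^ (K + 8 * ts (Tm.len s) + 8) := by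
      have := hb C3 1 (ts (Tm.len s)) (by omega) (by norm_num)
      rwa [pow_one] at this
    have hb2 := hb C3 2 (ts (Tm.len s)) (by omega) (by norm_num)
    exact unary Tm.len Nat.size s _ rfl rfl (by rw [ts_len]; omega)
      (fun x => by rw [ts_len]; omega) hc.len
      (hc.mono hn le_rfl (hb1.trans (hS _ hD))) hb2 ih
  | add s t ih1 ih2 =>
    have hD : 1 ≤ ts (Tm.add s t) := by rw [ts_add]; omega
    have hx := hval s (ts (Tm.add s t)) (by rw [ts_add]; omega)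
    have hy := hval t (ts (Tm.add s t)) (by rw [ts_add]; omega)
    have hn := (h1 Th hTh ((L + 2) ^ ts (Tm.add s t)) (s.val H19.stdN v) (t.val H19.stdN v)
      hx hy).2
    have hb1 : C1 * ((L + 2) ^ ts (Tm.add s t) + 1) ≤ (L + 2) ^ (K + 8 * ts (Tm.add s t) + 8) := by
      have := hb C1 1 (ts (Tm.add s t)) (by omega) (by norm_num)
      rwa [pow_one] at this
    have hb2 := hb C1 2 (ts (Tm.add s t)) (by omega) (by norm_num)
    exact binary Tm.add (fun x y => x + y) s t _ rfl rfl (by rw [ts_add]; omega)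
      (fun x y => by rw [ts_add]; omega) hc.add
      (hc.mono hn le_rfl (hb1.trans (hS _ hD))) hb2 ih1 ih2
  | mul s t ih1 ih2 =>
    have hD : 1 ≤ ts (Tm.mul s t) := by rw [ts_mul]; omega
    have hx := hval s (ts (Tm.mul s t)) (by rw [ts_mul]; omega)
    have hy := hval t (ts (Tm.mul s t)) (by rw [ts_mul]; omega)
    have hn := (h2 Th hTh ((L + 2) ^ ts (Tm.mul s t)) (s.val H19.stdN v) (t.val H19.stdN v)
      hx hy).1
    have hb1 := hb C2 2 (ts (Tm.mul s t)) (by omega) (by norm_num)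
    have hb2 := hb C2 8 (ts (Tm.mul s t)) (by omega) (by norm_num)
    exact binary Tm.mul (fun x y => x * y) s t _ rfl rfl (by rw [ts_mul]; omega)
      (fun x y => by rw [ts_mul]; omega) hc.mul
      (hc.mono hn le_rfl (hb1.trans (hS _ hD))) hb2 ih1 ih2
  | smash s t ih1 ih2 =>
    have hD : 1 ≤ ts (Tm.smash s t) := by rw [ts_smash]; omega
    have hx := hval s (ts (Tm.smash s t)) (by rw [ts_smash]; omega)
    have hy := hval t (ts (Tm.smash s t)) (by rw [ts_smash]; omega)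
    have hn := (h2 Th hTh ((L + 2) ^ ts (Tm.smash s t)) (s.val H19.stdN v) (t.val H19.stdN v)
      hx hy).2
    have hb1 := hb C2 2 (ts (Tm.smash s t)) (by omega) (by norm_num)
    have hb2 := hb C2 8 (ts (Tm.smash s t)) (by omega) (by norm_num)
    exact binary Tm.smash (fun x y => 2 ^ (x.size * y.size)) s t _ rfl rfl
      (by rw [ts_smash]; omega) (fun x y => by rw [ts_smash]) hc.smash
      (hc.mono hn le_rfl (hb1.trans (hS _ hD))) hb2 ih1 ih2

end Pool.Agent.RN
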