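import Pool.Agent.RN.Win

/-!
# ACCFF: an accepted description shows a failure (module RO_ACCFF, written by helper36)
-/

namespace Pool.Agent.RN

open Pool.Agent.H19 (T PolyTime PolyDec PolyNat Tm scons bn bl ofBool encL tif)
open Pool.Agent.RO

namespace ACCFF

theorem lgN_two_pow (n : ℕ) : lgN (2 ^ n) = n := by
  unfold lgN
  rw [Nat.size_pow]
  omega

theorem st_le (A : ℕ → Set Om) (R : Om) (d : ℕ) : st A R d ≤ d := by
  induction d with
  | zero => exact le_refl _
  | succ d ih =>
    unfold st
    split_ifs
    · omega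
    · exact le_refl _

theorem st_le_of {A : ℕ → Set Om} {R : Om} {a : ℕ} (k : ℕ)
    (h : ∀ d', a ≤ d' → d' < a + k → R ∈ A d') : st A R (a + k) ≤ a := by
  induction k with
  | zero => exact st_le A R a
  | succ k ih =>
    have h1 := h (a + k) (by omega) (by omega)
    show st A R (a + k + 1) ≤ a
    unfold st
    rw [if_pos h1]
    exact ih fun d' h2 h3 => h d' h2 (by omega)

/-- The derivations in a chain show that the windows below are accepted. -/
theorem chain_acc (hH : RO.Stmt_HYPS) (p : Par) (j : ℕ) (q : T) (R : Om)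
    (hm : StrictMono tow) : ∀ (C : T) (s : ℕ), p.s0 + j ≤ s → p.Chain j q C (tow s) →
    (∀ E ∈ C.toL, ∀ ψ ∈ hyps (decProof E), ψ ∈ p.S (join p.A R)) →
    p.s0 + j + C.len ≤ s ∧ lgN^[C.len] (tow s) = tow (s - C.len) ∧
      ∀ u, s - C.len ≤ u → u < s → R ∈ p.Acc j q (u - p.s0 - j) := by
  intro C
  induction C with
  | leaf =>
    intro s hs _ _
    refine ⟨by simpa using hs, rfl, ?_⟩
    intro u h1 h2
    simp only [H19.T.len_leaf] at h1
    omega
  | node E C _ ih =>
    intro s hs hC hE
    obtain ⟨h1, ⟨h2, h3, h4⟩, h5⟩ := hC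
    have hpos : 1 ≤ p.m j := by
      unfold Par.m
      exact Nat.one_le_iff_ne_zero.2 (by
        intro h0
        have := hm.le_apply (x := p.s0 + j)
        have h00 : p.s0 + j = 0 := by omega
        rw [h00] at h0
        exact absurd h0 (by decide))
    cases s with
    | zero =>
      exfalso
      have : lgN (tow 0) = 0 := by decide
      rw [this] at h2
      omega
    | succ s =>
      have hl : lgN (tow (s + 1)) = tow s := lgN_two_pow _
      rw [hl] at h2 h3 h4 h5
      have hs' : p.s0 + j ≤ s := hm.le_iff_le.1 h2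
      obtain ⟨g1, g2, g3⟩ := ih s hs' h5 (fun E' hE' => hE E' (by
        simp only [H19.T.toL, List.mem_cons]
        exact Or.inr hE'))
      have hlen : (T.node E C).len = C.len + 1 := rfl
      refine ⟨by omega, ?_, ?_⟩
      · rw [hlen, Function.iterate_succ, Function.comp_apply, hl, g2]
        congr 1
        omega
      · intro u hu1 hu2
        rcases Nat.lt_or_ge u s with h | h
        · exact g3 u (by omega) h
        · have hus : u = s := by omega
          subst hus
          have e1 : p.m (j + (u - p.s0 - j)) = tow u := by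
            unfold Par.m
            congr 1
            omega
          refine ⟨E, ?_, ?_⟩
          · rw [e1]
            exact h3
          · rw [e1]
            refine (hH _ _ _).2 ⟨h4, ?_⟩
            exact hE E (by simp [H19.T.toL])

end ACCFF

open ACCFF in
/-- ACCFF: an accepted description shows a failure. -/
theorem ACCFF_thm : Stmt_ACCFF := by
  have hH : RO.Stmt_HYPS := RO.HYPS_thm
  intro p j q R v hv
  obtain ⟨⟨⟨s, hs⟩, hmj, hx, hC⟩, hit⟩ := hv
  have hm : StrictMono tow := by
    have h := (windows ⟨p.A, p.cS, p.kS, p.snt, p.e, 0⟩).mono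
    have h1 : (Par.m ⟨p.A, p.cS, p.kS, p.snt, p.e, 0⟩) = tow := by
      funext t
      unfold Par.m
      simp
    rw [h1] at h
    exact h
  have hs' : p.s0 + j ≤ s := by
    apply hm.le_iff_le.1
    rw [← hs]
    exact hmj
  rw [hs] at hC
  have hE : ∀ E ∈ v.right.right.toL, ∀ ψ ∈ hyps (decProof E), ψ ∈ p.S (join p.A R) := by
    intro E hE ψ hψ
    have h1 : T.node (T.node T.leaf T.leaf) ψ.enc ∈ RO.Par.items v := by
      unfold RO.Par.items
      rw [List.mem_append]
      right
      rw [List.mem_flatMap]
      exact ⟨E, hE, List.mem_map.2 ⟨ψ, hψ, rfl⟩⟩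
    have h2 := hit _ h1
    unfold Par.ItemOK at h2
    rw [if_neg (by simp)] at h2
    simpa using h2
  obtain ⟨g1, g2, g3⟩ := chain_acc hH p j q R hm v.right.right s hs' hC hE
  set r := v.right.right.len with hr
  have eM : p.m (j + (s - p.s0 - j)) = tow s := by
    unfold Par.m
    congr 1
    omega
  refine ⟨s - p.s0 - j, ?_⟩
  show R ∈ Fa (fun d => p.m (j + d)) (fun d => p.β (j + d)) _ _
  refine ⟨bn v.right.left, ?_, ?_⟩
  · show bn v.right.left < 2 ^ p.m (j + (s - p.s0 - j))
    rw [eM, ← hs]
    exact lt_of_lt_of_le (H19.bn_lt _) (Nat.pow_le_pow_right (by norm_num) hx)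
  · intro i hi
    show R (pos (p.m (j + (s - p.s0 - j))) (bn v.right.left) i) = true
    have hst : st (p.Acc j q) R (s - p.s0 - j) ≤ s - p.s0 - j - r := by
      have h1 := st_le_of (A := p.Acc j q) (R := R) (a := s - p.s0 - j - r) r (by
        intro d' h2 h3
        have h4 := g3 (d' + p.s0 + j) (by omega) (by omega)
        have h5 : d' + p.s0 + j - p.s0 - j = d' := by omega
        rw [h5] at h4
        exact h4)
      have h6 : s - p.s0 - j - r + r = s - p.s0 - j := by omega
      rw [h6] at h1
      exact h1
    have hmst : p.m (j + st (p.Acc j q) R (s - p.s0 - j)) ≤ lgN^[r] (tow s) := by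
      rw [g2]
      unfold Par.m
      apply hm.monotone
      omega
    have hi' : i < v.left.len + lgN^[r] v.left.len := by
      have h1 : i < p.m (j + (s - p.s0 - j)) + p.m (j + st (p.Acc j q) R (s - p.s0 - j)) := hi
      rw [eM] at h1
      rw [hs]
      omega
    rw [eM, ← hs]
    have h1 : T.node T.leaf (bl (2 * pos v.left.len (bn v.right.left) i + 1)) ∈
        RO.Par.items v := by
      unfold RO.Par.items
      rw [List.mem_append]
      left
      rw [List.mem_map]
      exact ⟨i, List.mem_range.2 hi', rfl⟩
    have h2 := hit _ h1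
    unfold Par.ItemOK at h2
    rw [if_pos (by simp)] at h2
    rw [H19.T.right_node, H19.bn_bl] at h2
    unfold join at h2
    have e1 : (2 * pos v.left.len (bn v.right.left) i + 1) % 2 ≠ 0 := by omega
    have e2 : (2 * pos v.left.len (bn v.right.left) i + 1) / 2 =
        pos v.left.len (bn v.right.left) i := by omega
    rw [if_neg e1, e2] at h2
    exact h2

end Pool.Agent.RN
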