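import Pool.Agent.RN.Cst
import Pool.Agent.RO.D0POLY

/-!
# D0P: the syntactical part of a description is decided in polynomial time, uniformly in the index
-/

namespace Pool.Agent.RN.D0P

open Pool.Agent.H19 (T PolyTime PolyDec PolyNat PolyN PolyB PolyTime₂ tfold Tm)
open Pool.Agent.RO
open Pool.Agent.RO.D0POLY (lgN_le lgN_polyNat isPow_polyDec isTow_polyDec bound_polyDec tow_pos)

/-! ### The tower function with a bound -/

theorem min_polyNat {f g : T → ℕ} (hf : PolyNat f) (hg : PolyNat g) :
    PolyNat (fun x => min (f x) (g x)) := by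
  refine (hf.sub (hf.sub hg)).congr fun x => ?_
  have : f x - (f x - g x) = min (f x) (g x) := by omega
  beta_reduce
  rw [this]

/-- Doubling with a bound. -/
def dbl (z : T) : T := T.node z.left (T.unary (min (2 * z.right.len) (z.left.len + 1)))

theorem dbl_polyTime : PolyTime dbl := by
  have i := PolyTime.id
  exact i.left.node (min_polyNat ((PolyNat.const 2).mul (PolyNat.len i.right))
    ((PolyNat.len i.left).add (PolyNat.const 1)))

theorem dbl_iter (a : T) (x : ℕ) : dbl^[x] (T.node a (T.unary 1)) =
    T.node a (T.unary (min (2 ^ x) (a.len + 1))) := by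
  induction x with
  | zero =>
    have : min (2 ^ 0) (a.len + 1) = 1 := by rw [pow_zero]; omega
    rw [this]; rfl
  | succ x ih =>
    rw [Function.iterate_succ_apply', ih]
    unfold dbl
    rw [T.left_node, T.right_node, T.len_unary]
    congr 2
    rw [pow_succ]
    omega

/-- The power of two with a bound. -/
def pw (z : T) : T := dbl^[z.right.len] (T.node z.left (T.unary 1))

theorem pw_node (a : T) (n : ℕ) : pw (T.node a (T.unary n)) =
    T.node a (T.unary (min (2 ^ n) (a.len + 1))) := by
  unfold pw
  rw [T.left_node, T.right_node, T.len_unary, dbl_iter]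

theorem pw_polyTime : PolyTime pw := by
  have i := PolyTime.id
  refine PolyTime.iterate (n := fun z => z.right) (s := fun z => T.node z.left (T.unary 1))
    dbl_polyTime i.right (i.left.node (PolyTime.const _)) ?_
  refine ⟨3, fun x j _ => ?_⟩
  rw [dbl_iter]
  have h1 := T.len_lt_size x.left
  have h2 : x.left.size ≤ x.size := by cases x <;> simp [T.size, T.left]; omega
  simp only [T.size, T.size_unary]
  have h3 : min (2 ^ j) (x.left.len + 1) ≤ x.left.len + 1 := Nat.min_le_right _ _
  have h4 : 3 * (x.size + 2) ≤ (x.size + 2) ^ 3 := by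
    have : (x.size + 2) ^ 3 = (x.size + 2) * (x.size + 2) ^ 2 := by ring
    rw [this, mul_comm 3]
    apply Nat.mul_le_mul_left
    nlinarith
  omega

/-- The tower function with a bound. -/
def towT (J M : ℕ) : ℕ := min (tow J) (M + 1)

theorem towT_eq {J M : ℕ} (h : towT J M ≤ M) : towT J M = tow J := by
  unfold towT at h ⊢; omega

theorem towT_le_iff (J M : ℕ) : towT J M ≤ M ↔ tow J ≤ M := by
  unfold towT; omega

theorem pw_iter (a : T) (J : ℕ) : pw^[J] (T.node a (T.unary 1)) =
    T.node a (T.unary (towT J a.len)) := by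
  induction J with
  | zero =>
    have : towT 0 a.len = 1 := by unfold towT; simp only [tow]; omega
    rw [this]; rfl
  | succ J ih =>
    rw [Function.iterate_succ_apply', ih, pw_node]
    congr 2
    unfold towT
    show _ = min (2 ^ tow J) (a.len + 1)
    rcases le_total (tow J) (a.len + 1) with h | h
    · rw [min_eq_left h]
    · rw [min_eq_right h]
      have h1 : a.len + 1 < 2 ^ (a.len + 1) := Nat.lt_two_pow_self
      have h2 : 2 ^ (a.len + 1) ≤ 2 ^ tow J := Nat.pow_le_pow_right (by omega) h
      omega

theorem towT_polyNat {J M : T → ℕ} (hJ : PolyNat J) (hM : PolyNat M) :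
    PolyNat (fun x => towT (J x) (M x)) := by
  have h1 : PolyTime (fun x => pw^[J x] (T.node (T.unary (M x)) (T.unary 1))) := by
    refine (PolyTime.iterate (f := pw) (n := fun x => T.unary (J x))
      (s := fun x => T.node (T.unary (M x)) (T.unary 1)) pw_polyTime hJ
      (hM.node (PolyTime.const _)) ?_).congr fun x => ?_
    · obtain ⟨k, hk⟩ := PolyTime.size_bound hM
      refine ⟨k + 3, fun x i _ => ?_⟩
      rw [pw_iter, T.len_unary]
      have h1 := hk x
      have h3 : towT i (M x) ≤ M x + 1 := Nat.min_le_right _ _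
      simp only [T.size, T.size_unary] at h1 ⊢
      have h4 : 1 ≤ (x.size + 2) ^ k := Nat.one_le_pow _ _ (by omega)
      have h5 : 6 * (x.size + 2) ^ k ≤ (x.size + 2) ^ (k + 3) := by
        rw [pow_add, mul_comm 6]
        apply Nat.mul_le_mul_left
        have h6 : 2 ^ 3 ≤ (x.size + 2) ^ 3 := Nat.pow_le_pow_left (by omega) 3
        omega
      omega
    · rw [T.len_unary]
  refine h1.right.congr fun x => ?_
  rw [pw_iter, T.len_unary, T.right_node]

/-! ### Reflection sentences for binary numbers -/

theorem rfnN_polyTime (μ : Fm) {g : T → T} {f : T → ℕ} (hg : PolyTime g) (hf : PolyN f) :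
    PolyTime (fun x => (rfn (decFm (g x)) μ (f x)).enc) := by
  have L := PolyTime.leaf
  have c : ∀ a : T, PolyTime (fun _ => a) := fun a => PolyTime.const a
  have I : ∀ {f g : T → T}, PolyTime f → PolyTime g → PolyTime (fun x =>
    T.node (T.unary 11) (T.node (f x) (g x))) := fun hf hg => (c _).node (hf.node hg)
  have A : ∀ {f : T → T}, PolyTime f → PolyTime (fun x =>
    T.node (T.unary 12) (T.node (f x) T.leaf)) := fun hf => (c _).node (hf.node L)
  have LE : ∀ i : ℕ, PolyTime (fun x => T.node (T.unary 10) (T.node (Tm.len (Tm.var i)).enc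
    (Tm.numeral (f x)).enc)) := fun i => (c _).node ((c _).node hf.numeral)
  exact A (A (A (A (I (LE 0) (I (LE 1) (I (LE 2) (I (LE 3)
    (I (normFm_polyTime.comp hg) (c μ.enc)))))))))

/-! ### One link of the chain -/

/-- The sentence, with the value `t` of the tower function. -/
def snt' (F : T → T) (μ : Fm) (t : ℕ) (q : T) (M : ℕ) : Fm :=
  rfn (decFm (F q)) μ (2 ^ ((lgN M + 5) * lgN (lgN t)))

/-- One link, with the value `t` of the tower function. -/
def Ok' (F : T → T) (μ : Fm) (e t : ℕ) (q : T) (M : ℕ) (E : T) : Prop :=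
  t ≤ M ∧ E.size ≤ 2 ^ (M / e) ∧ IsProof Set.univ (decProof E) (snt' F μ t q M)

/-- The chain, with the value `t` of the tower function. -/
def Chain' (F : T → T) (μ : Fm) (e t : ℕ) (q : T) : T → ℕ → Prop
  | T.leaf, _ => True
  | T.node E C, M => M = 2 ^ lgN M ∧ Ok' F μ e t q (lgN M) E ∧ Chain' F μ e t q C (lgN M)

theorem chain_eq (A : Om) (cS : OCode) (kS : ℕ) (F : T → T) (μ : Fm) (J : ℕ) (q C : T) :
    ∀ M : ℕ, (par A cS kS F μ J).Chain 0 q C M ↔ Chain' F μ (4 * (kS + 1)) (tow J) q C M := by
  induction C with
  | leaf => intro M; rfl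
  | node E C _ ih =>
    intro M
    rw [Par.Chain, Chain', ih]
    rfl

variable (F : T → T) (μ : Fm)

theorem proof_polyDec (hF : PolyTime F) {E q : T → T} {t M : T → ℕ}
    (hE : PolyTime E) (hq : PolyTime q) (ht : PolyNat t) (hM : PolyNat M) :
    PolyDec (fun z => IsProof Set.univ (decProof (E z)) (snt' F μ (t z) (q z) (M z))) := by
  have h2 : PolyDec (fun z : T =>
      IsProof (Set.univ : Set Fm) (decProof z.right.left) (decFm z.right.right)) :=
    isProofP_polyDec (Th := fun _ => (Set.univ : Set Fm))
      ((PolyDec.const True).congr fun z => by simp)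
  have h3 : PolyTime (fun z => (snt' F μ (t z) (q z) (M z)).enc) :=
    rfnN_polyTime μ (hF.comp hq) (PolyN.pow2 (((lgN_polyNat hM).add (PolyNat.const 5)).mul
      (lgN_polyNat (lgN_polyNat ht))))
  refine (h2.comp (PolyTime.leaf.node (hE.node h3))).congr fun z => ?_
  simp only [T.left_node, T.right_node, decFm_enc]

theorem ok_polyDec (e : ℕ) (hF : PolyTime F) {E q : T → T} {t M : T → ℕ}
    (hE : PolyTime E) (hq : PolyTime q) (ht : PolyNat t) (hM : PolyNat M) :
    PolyDec (fun z => Ok' F μ e (t z) (q z) (M z) (E z)) :=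
  (PolyDec.le ht hM).and ((bound_polyDec e hE hM).and (proof_polyDec F μ hF hE hq ht hM))

/-! ### The chain -/

open Classical in
/-- One round of the check of a chain. -/
noncomputable def step (e : ℕ) (h a : T) : T :=
  if a ≠ T.leaf ∧ a.left.len = 2 ^ lgN a.left.len ∧
      Ok' F μ e a.right.right.len a.right.left (lgN a.left.len) h then
    T.node (T.unary (lgN a.left.len)) a.right
  else T.leaf

theorem step_polyTime (e : ℕ) (hF : PolyTime F) : PolyTime₂ (step F μ e) := by
  have i := PolyTime.id
  have hM : PolyNat (fun z : T => z.right.left.len) := PolyNat.len i.right.left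
  refine (PolyTime.ifP (P := fun z : T => z.right ≠ T.leaf ∧
    z.right.left.len = 2 ^ lgN z.right.left.len ∧
      Ok' F μ e z.right.right.right.len z.right.right.left (lgN z.right.left.len) z.left)
    ((PolyDec.ne_leaf i.right).and ((isPow_polyDec hM).and
      (ok_polyDec F μ e hF i.left i.right.right.left (PolyNat.len i.right.right.right)
        (lgN_polyNat hM))))
    ((lgN_polyNat hM).node i.right.right) PolyTime.leaf).congr fun z => ?_
  unfold step
  split_ifs <;> rfl

theorem fold_leaf (e : ℕ) (C : T) : tfold (step F μ e) C T.leaf = T.leaf := by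
  induction C with
  | leaf => rfl
  | node h t _ ih =>
    have : step F μ e h T.leaf = T.leaf := by
      unfold step; rw [if_neg (fun h => h.1 rfl)]
    rw [tfold, this]; exact ih

theorem fold_iff (e t : ℕ) (q : T) (C : T) : ∀ M : ℕ,
    (tfold (step F μ e) C (T.node (T.unary M) (T.node q (T.unary t))) ≠ T.leaf ↔
      Chain' F μ e t q C M) := by
  induction C with
  | leaf => intro M; simp [tfold, Chain']
  | node E C _ ih =>
    intro M
    rw [tfold, Chain']
    by_cases hc : M = 2 ^ lgN M ∧ Ok' F μ e t q (lgN M) E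
    · have : step F μ e E (T.node (T.unary M) (T.node q (T.unary t))) =
          T.node (T.unary (lgN M)) (T.node q (T.unary t)) := by
        unfold step
        rw [T.left_node, T.right_node, T.left_node, T.right_node, T.len_unary, T.len_unary,
          if_pos ⟨by simp, hc⟩]
      rw [this, ih (lgN M)]
      tauto
    · have : step F μ e E (T.node (T.unary M) (T.node q (T.unary t))) = T.leaf := by
        unfold step
        rw [T.left_node, T.right_node, T.left_node, T.right_node, T.len_unary, T.len_unary,
          if_neg (fun h => hc h.2)]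
      rw [this, fold_leaf]
      tauto

/-- The weight of a state. -/
def w (a : T) : ℕ := 2 * a.left.len + a.right.size + 2

theorem step_size (e : ℕ) (h a : T) : (step F μ e h a).size ≤ w a := by
  have h1 := T.size_pos a.right
  have h2 := lgN_le a.left.len
  unfold step w
  split_ifs
  · simp only [T.size, T.size_unary]; omega
  · simp only [T.size]; omega

theorem step_w (e : ℕ) (h a : T) : w (step F μ e h a) ≤ w a := by
  have h1 := T.size_pos a.right
  have h2 := lgN_le a.left.len
  unfold step
  split_ifs
  · simp only [w, T.left_node, T.right_node, T.len_unary]; omega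
  · simp only [w, T.left_leaf, T.right_leaf, T.len_leaf, T.size]; omega

theorem fold_size (e : ℕ) (l : T) : ∀ (a : T) (B : ℕ), a.size ≤ B → w a ≤ B →
    (tfold (step F μ e) l a).size ≤ B := by
  induction l with
  | leaf => intro a B h1 _; exact h1
  | node h t _ ih =>
    intro a B _ h2
    exact ih _ B ((step_size F μ e h a).trans h2) ((step_w F μ e h a).trans h2)

theorem w_le (a : T) : w a ≤ 2 * a.size + 4 := by
  have h1 := T.len_lt_size a.left
  have h2 : a.left.size + a.right.size ≤ a.size + 1 := by
    cases a <;> simp [T.size, T.left, T.right]; omega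
  unfold w; omega

theorem chain_polyDec (e : ℕ) (hF : PolyTime F) {C q : T → T} {t M : T → ℕ}
    (hC : PolyTime C) (hq : PolyTime q) (ht : PolyNat t) (hM : PolyNat M) :
    PolyDec (fun z => Chain' F μ e (t z) (q z) (C z) (M z)) := by
  have h1 : PolyTime₂ (tfold (step F μ e)) := by
    refine PolyTime₂.tfold (step_polyTime F μ e hF) (G := fun n => 2 * n + 4)
      (((PolyB.const 2).mul PolyB.id).add (PolyB.const 4)) (fun a b h => by dsimp only; omega)
      fun l a => ?_
    have h2 := w_le a
    exact fold_size F μ e l a _ (by omega) (by omega)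
  refine (PolyDec.ne_leaf (h1.comp hC (PolyTime.node hM (hq.node ht)))).congr fun z => ?_
  exact fold_iff F μ e (t z) (q z) (C z) (M z)

end Pool.Agent.RN.D0P

open Pool.Agent.H19 (T PolyTime PolyDec PolyNat) in
open Pool.Agent.RO in
theorem Pool.Agent.RN.D0P_thm : Pool.Agent.RN.Stmt_D0P := by
  intro A cS kS F μ hF
  have i := PolyTime.id
  have hM : PolyNat (fun z : T => z.left.left.len) := PolyNat.len i.left.left
  have ht : PolyNat (fun z : T => D0P.towT z.right.right.len z.left.left.len) :=
    D0P.towT_polyNat (PolyNat.len i.right.right) hM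
  refine ((D0POLY.isTow_polyDec hM).and ((PolyDec.le ht hM).and
    ((PolyDec.le (PolyNat.len i.left.right.left) hM).and
      (D0P.chain_polyDec F μ (4 * (kS + 1)) hF i.left.right.right i.right.left ht hM)))).congr
    fun z => ?_
  rw [Par.D0, D0P.chain_eq, D0P.towT_le_iff]
  show _ ↔ (∃ s, z.left.left.len = tow s) ∧ tow (z.right.right.len + 0) ≤ z.left.left.len ∧ _
  rw [add_zero]
  constructor
  · rintro ⟨h1, h2, h3, h4⟩
    rw [D0P.towT_eq ((D0P.towT_le_iff _ _).2 h2)] at h4
    exact ⟨h1, h2, h3, h4⟩
  · rintro ⟨h1, h2, h3, h4⟩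
    rw [D0P.towT_eq ((D0P.towT_le_iff _ _).2 h2)]
    exact ⟨h1, h2, h3, h4⟩
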