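import Pool.Agent.RN.Cst

/-!
# The recursion theorem with a parameter
-/

namespace Pool.Agent.RN

open Pool.Agent.H19 (T PolyTime PolyDec PolyNat Tm scons bn bl ofBool encL tif)
open Pool.Agent.RO

namespace RECP

theorem qt_size (x : T) : (H19.qt x).size ≤ 11 * x.size := by
  induction x with
  | leaf => simp [H19.qt, H19.Code.enc, T.size, T.unary]
  | node a b iha ihb =>
    simp only [H19.qt, T.size, H19.T.size_unary]
    omega

theorem pow_lemma (n Y : ℕ) (hn : 1 ≤ n) (s : ℕ) : n + Y * (s + 1) ≤ (n + Y) ^ (s + 1) := by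
  induction s with
  | zero => simp
  | succ s ih =>
    rw [pow_succ]
    have h1 : (n + Y * (s + 1)) * (n + Y) ≤ (n + Y) ^ (s + 1) * (n + Y) :=
      Nat.mul_le_mul_right _ ih
    refine le_trans ?_ h1
    obtain ⟨k, rfl⟩ : ∃ k, n = 1 + k := ⟨n - 1, by omega⟩
    nlinarith [Nat.zero_le (k * k), Nat.zero_le (k * Y), Nat.zero_le (Y * s * k),
      Nat.zero_le (Y * (s + 1) * Y), Nat.zero_le (Y * (s + 1) * k)]

end RECP

/-- RECP: the recursion theorem with a parameter and with bounds for the code and the clock. -/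
theorem RECP_thm : Stmt_RECP := by
  intro H D hD
  have i := PolyTime.id
  have hS : PolyTime (fun w : T => T.node (T.unary 5) (T.node w.left
      (T.node (T.unary 4) (T.node OCode.id.enc (H19.qt w))))) :=
    (PolyTime.const _).node (i.left.node ((PolyTime.const _).node
      ((PolyTime.const _).node H19.qt_polyTime)))
  have hE0 : PolyTime (fun z : T => (T.node (T.node z.left z.right.right.left)
      (T.node (T.node (T.unary 5)
        (T.node z.right.left (T.node (T.unary 4) (T.node OCode.id.enc (H19.qt z.right)))))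
        z.right.right.right))) :=
    ((i.left.node i.right.right.left).node ((hS.comp i.right).node i.right.right.right))
  have hE : PolyOn H (fun O z => D O (T.node (T.node z.left z.right.right.left)
      (T.node (T.node (T.unary 5)
        (T.node z.right.left (T.node (T.unary 4) (T.node OCode.id.enc (H19.qt z.right)))))
        z.right.right.right))) :=
    hD.comp (PolyOn.of_poly hE0)
  obtain ⟨e, d, he⟩ := hE
  obtain ⟨K, hK⟩ := H19.exists_clock (e.enc.size + 21) (d + 1)
  let κ : T → ℕ := fun a => K * (a.size + 1)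
  let w : T → T := fun a => T.node e.enc (T.node a (T.unary (κ a)))
  have henc : ∀ a, (OCode.comp e (OCode.pair OCode.id (OCode.const (w a)))).enc =
      T.node (T.unary 5) (T.node e.enc (T.node (T.unary 4)
        (T.node OCode.id.enc (H19.qt (w a))))) := by
    intro a
    simp only [OCode.enc, qt_eqO]
  have hw : ∀ a, (w a).size = e.enc.size + a.size + 2 * κ a + 3 := by
    intro a
    simp only [w, T.size, H19.T.size_unary]
    omega
  refine ⟨12 * e.enc.size + 24 * K + 100,
    fun a => OCode.comp e (OCode.pair OCode.id (OCode.const (w a))), κ, ?_, ?_⟩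
  · intro a
    rw [henc]
    have h1 := RECP.qt_size (w a)
    rw [hw a] at h1
    have hκ : κ a = K * (a.size + 1) := rfl
    have h2 : OCode.id.enc.size = 3 := by
      simp [OCode.enc, T.size, T.unary]
    simp only [T.size, H19.T.size_unary, h2]
    have h3 : (12 * e.enc.size + 24 * K + 100) * (a.size + 1) =
        12 * (e.enc.size * (a.size + 1)) + 24 * (K * (a.size + 1)) + 100 * (a.size + 1) := by ring
    rw [h3, ← hκ]
    have h4 : e.enc.size ≤ e.enc.size * (a.size + 1) := Nat.le_mul_of_pos_right _ (by omega)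
    omega
  · intro a O hO x
    obtain ⟨t, ht, hb⟩ := he O hO (T.node x (w a))
    simp only [henc]
    refine ⟨_, EvalO.comp (EvalO.pair (EvalO.id x) (EvalO.const O x (w a))) ht, ?_⟩
    have hx := H19.T.size_pos x
    have ha := H19.T.size_pos a
    have hκ : κ a = K * (a.size + 1) := rfl
    have h1 := hK (x.size + 2) (by omega)
    obtain ⟨Y, hY⟩ : ∃ Y, Y = e.enc.size + 21 + 2 * K := ⟨_, rfl⟩
    obtain ⟨q, hq⟩ : ∃ q, x.size + 2 + (e.enc.size + 20 + a.size + 2 * κ a) = q + 1 :=
      ⟨x.size + 2 + (e.enc.size + 20 + a.size + 2 * κ a) - 1, by omega⟩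
    have h5 : q + 1 ≤ (x.size + 2 + Y) ^ (a.size + 1) := by
      refine le_trans ?_ (RECP.pow_lemma (x.size + 2) Y (by omega) a.size)
      rw [← hq, hY, hκ]
      have e1 : (e.enc.size + 21 + 2 * K) * (a.size + 1) =
        e.enc.size * (a.size + 1) + 21 * (a.size + 1) + 2 * (K * (a.size + 1)) := by ring
      rw [e1]
      have h4 : e.enc.size ≤ e.enc.size * (a.size + 1) := Nat.le_mul_of_pos_right _ (by omega)
      omega
    have h6 : (q + 1) ^ (d + 1) ≤ (x.size + 2) ^ κ a := by
      calc (q + 1) ^ (d + 1) ≤ ((x.size + 2 + Y) ^ (a.size + 1)) ^ (d + 1) :=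
            Nat.pow_le_pow_left h5 _
        _ = ((x.size + 2 + Y) ^ (d + 1)) ^ (a.size + 1) := by
            rw [← pow_mul, ← pow_mul, mul_comm]
        _ ≤ ((x.size + 2) ^ K) ^ (a.size + 1) := by
            refine Nat.pow_le_pow_left ?_ _
            rw [hY]
            exact h1
        _ = (x.size + 2) ^ κ a := by rw [← pow_mul]
    refine le_trans ?_ h6
    have hwa := hw a
    simp only [T.size] at hb
    have h2 : (x.size + (w a).size + 1 + 2) ^ d ≤ (q + 1) ^ d :=
      Nat.pow_le_pow_left (by omega) _
    have h3 : 1 ≤ (q + 1) ^ d := Nat.one_le_pow _ _ (by omega)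
    rw [pow_succ]
    have h4 : x.size + (w a).size + 1 + 1 ≤ q := by omega
    nlinarith

end Pool.Agent.RN
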