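import Pool.Agent.RN.Cst

/-!
# Modules CONP and TRUE

The additional axiom is computable in polynomial time from the proof formula, and it is true if
the weird program accepts nothing.
-/

namespace Pool.Agent.RN

open Pool.Agent.H19 (T PolyTime PolyDec PolyNat Tm scons bn bl ofBool encL tif vec3 vec4)
open Pool.Agent.RO

namespace CONP

/-- One instantiation by a numeral in polynomial time. -/
theorem inst_num (a : ℕ) :
    PolyTime (fun x => ((decFm x).inst 0 (Tm.numeral a)).enc) := by
  refine (inst_polyTime.comp PolyTime.id (PolyTime.const (Tm.numeral a).enc)).congr fun x => ?_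
  simp

/-- Three instantiations by numerals in polynomial time. -/
theorem inst3_num (e x z : ℕ) : PolyTime (fun y => (inst3 (decFm y) e x z).enc) := by
  refine ((inst_num z).comp ((inst_num x).comp (inst_num e))).congr fun y => ?_
  simp [inst3]

end CONP

theorem CONP_thm : Stmt_CONP := by
  intro e0 z0
  refine ⟨fun y => T.node (T.unary 12) (T.node (T.node (T.unary 11)
    (T.node (inst3 (decFm y) e0 0 z0).enc (Fm.bot).enc)) T.leaf), ?_, ?_⟩
  · exact (PolyTime.const _).node ((((PolyTime.const _).node
      ((CONP.inst3_num e0 0 z0).node (PolyTime.const _)))).node PolyTime.leaf)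
  · intro α
    simp [con, mat, Fm.neg, Fm.enc]

theorem TRUE_thm (hs : Sub) : Stmt_TRUE := by
  intro μ hμ e0 z0 hfalse P hP c κ
  have hS : (P c κ).isSigma = true := (hP.delta c κ).1
  have hB : (P c κ).fvBelow 4 := hP.below c κ
  refine ⟨?_, ?_, ?_⟩
  · have h1 : (inst3 (P c κ) e0 0 z0).isSigma = true := by
      simp only [inst3, hs.sigma, hS]
    simp [mat, Fm.neg, Fm.isPi, h1]
  · have h1 : (inst3 (P c κ) e0 0 z0).fvBelow 1 :=
      hs.instBelowF0 _ 1 z0 (hs.instBelowF0 _ 2 0 (hs.instBelowF0 _ 3 e0 hB))
    exact ⟨h1, trivial⟩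
  · intro O hno x hx
    have h1 : (inst3 (P c κ) e0 0 z0).sat (stdN O) (fun _ => x) := hx
    rw [inst3_sat] at h1
    have h2 : (P c κ).sat (stdN O)
        (scons e0 (scons 0 (scons z0 (scons x fun _ => 0)))) := by
      refine (Fm.sat_congr_below (stdN O) (P c κ) hB (fun i hi => ?_)).1 h1
      rcases i with _ | _ | _ | _ | i
      · rfl
      · rfl
      · rfl
      · rfl
      · omega
    obtain ⟨π, -, hπ⟩ := (hP.correct O c κ e0 0 z0 x).1 h2
    have hM : (stdN O).Models (theory O c κ) := by
      rintro φ (h | h | h)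
      · exact stdN_models O φ h
      · exact stdN_diag O φ h
      · exact absurd h (hno _)
    have h3 := hπ.sound hM (fun _ => 0)
    rw [inst3_sat] at h3
    refine hfalse O ((Fm.sat_congr_below (stdN O) μ hμ.2.1 (fun i hi => ?_)).1 h3)
    rcases i with _ | _ | _ | i
    · rfl
    · rfl
    · rfl
    · omega

end Pool.Agent.RN
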