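import Pool.Agent.RN.Cst

/-!
# ERR: an accepted failure makes the reflection sentence unprovable
-/

namespace Pool.Agent.RN

open Pool.Agent.H19 (T PolyTime PolyDec PolyNat Tm scons bn bl ofBool encL tif vec3 vec4)
open Pool.Agent.RO

namespace ERR

/-- Closing a term after an instantiation by a numeral. -/
theorem clT_inst (hs : Sub) (v : ℕ → ℕ) (a : ℕ) (t : Tm) : ∀ d : ℕ,
    clT v d (t.inst d (Tm.numeral a)) = clT (scons a v) d t := by
  induction t with
  | var i =>
    intro d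
    simp only [H19.Tm.inst]
    by_cases h1 : i < d
    · simp [clT, h1]
    · by_cases h2 : i = d
      · subst h2
        rw [if_neg h1, if_pos rfl, hs.shiftIdT _ 0 _ (hs.numBelow a 0),
          hs.ofBelowT v i _ (hs.numBelow a i)]
        simp [clT, scons]
      · rw [if_neg h1, if_neg h2]
        have h3 : ¬ i - 1 < d := by omega
        obtain ⟨m, hm⟩ : ∃ m, i - d = m + 1 := ⟨i - d - 1, by omega⟩
        simp only [clT, if_neg h1, if_neg h3]
        have h4 : i - 1 - d = m := by omega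
        rw [h4, hm]
        rfl
  | zero => intro d; rfl
  | succ t ih => intro d; simp only [H19.Tm.inst, clT, ih]
  | half t ih => intro d; simp only [H19.Tm.inst, clT, ih]
  | len t ih => intro d; simp only [H19.Tm.inst, clT, ih]
  | add s t ih1 ih2 => intro d; simp only [H19.Tm.inst, clT, ih1, ih2]
  | mul s t ih1 ih2 => intro d; simp only [H19.Tm.inst, clT, ih1, ih2]
  | smash s t ih1 ih2 => intro d; simp only [H19.Tm.inst, clT, ih1, ih2]

/-- Closing a formula after an instantiation by a numeral. -/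
theorem clF_inst (hs : Sub) (v : ℕ → ℕ) (a : ℕ) (φ : Fm) : ∀ d : ℕ,
    clF v d (φ.inst d (Tm.numeral a)) = clF (scons a v) d φ := by
  induction φ with
  | bot => intro d; rfl
  | eq s t => intro d; simp only [Fm.inst, clF, clT_inst hs]
  | le s t => intro d; simp only [Fm.inst, clF, clT_inst hs]
  | rel t => intro d; simp only [Fm.inst, clF, clT_inst hs]
  | imp φ ψ ih1 ih2 => intro d; simp only [Fm.inst, clF, ih1, ih2]
  | all φ ih => intro d; simp only [Fm.inst, clF, ih]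

/-- The instance of the additional axiom. -/
theorem mat_inst (hs : Sub) (e0 z0 u : ℕ) (α : Fm) (hα : α.fvBelow 4) :
    (mat e0 z0 α).inst 0 (Tm.numeral u) = Fm.neg (clF (vec4 e0 0 z0 u) 0 α) := by
  have h1 : (((α.inst 0 (Tm.numeral e0)).inst 0 (Tm.numeral 0)).inst 0
      (Tm.numeral z0)).inst 0 (Tm.numeral u) = clF (vec4 e0 0 z0 u) 0 α := by
    have hb := hs.instBelowF0 _ 0 u (hs.instBelowF0 _ 1 z0 (hs.instBelowF0 _ 2 0
      (hs.instBelowF0 α 3 e0 hα)))
    rw [← hs.ofBelowF (fun _ => 0) 0 _ hb, clF_inst hs, clF_inst hs, clF_inst hs, clF_inst hs]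
    rfl
  show Fm.neg ((inst3 α e0 0 z0).inst 0 (Tm.numeral u)) = _
  rw [← h1]
  rfl

theorem pow_bound {C1 f : ℕ} : 2 * 2 ^ (C1 * f) + (f + 4) ≤ 2 ^ ((C1 + 3) * (f + 1)) := by
  have h1 : f + 4 ≤ 2 ^ (f + 2) := by
    induction f with
    | zero => norm_num
    | succ f ih =>
      have : 2 ^ (f + 1 + 2) = 2 * 2 ^ (f + 2) := by ring
      have h3 : 1 ≤ 2 ^ (f + 2) := Nat.one_le_two_pow
      omega
  have h2 : 2 * 2 ^ (C1 * f) = 2 ^ (C1 * f + 1) := by ring
  rw [h2]
  have h3 : 2 ^ (C1 * f + 1) + 2 ^ (f + 2) ≤ 2 ^ (C1 * f + 1) * 2 ^ (f + 2) := by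
    have h4 : 2 ≤ 2 ^ (C1 * f + 1) := by
      calc 2 = 2 ^ 1 := rfl
        _ ≤ 2 ^ (C1 * f + 1) := Nat.pow_le_pow_right (by norm_num) (by omega)
    have h5 : 2 ≤ 2 ^ (f + 2) := by
      calc 2 = 2 ^ 1 := rfl
        _ ≤ 2 ^ (f + 2) := Nat.pow_le_pow_right (by norm_num) (by omega)
    nlinarith
  rw [← pow_add] at h3
  refine (Nat.add_le_add_left h1 _).trans (h3.trans ?_)
  refine Nat.pow_le_pow_right (by norm_num) ?_
  nlinarith [Nat.zero_le (C1 * f), Nat.zero_le C1, Nat.zero_le f]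

set_option maxRecDepth 20000 in
/-- The numerical estimate. -/
theorem arith {C1 D F0 L X f A s : ℕ} (hf : 1 ≤ f) (hA : A = (L + 2) ^ 2 ^ (C1 * f))
    (hs : s = A + 1000 * (D * f + 60 * (L + 1) * f + 60 * (L + 1) + F0 + 200))
    (hX : L + 2 ≤ X) (hX2 : 120000 + 1000 * (D + F0 + 201) + 4001 ≤ X) :
    (A + 4000) * (s + 1) + 2 ≤ X ^ 2 ^ ((C1 + 3) * (f + 1)) := by
  have hA1 : 1 ≤ A := by
    rw [hA]
    exact Nat.one_le_pow _ _ (by omega)
  have hX1 : 2 ≤ X := by omega
  have hAX : A ≤ X ^ 2 ^ (C1 * f) := by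
    rw [hA]
    exact Nat.pow_le_pow_left hX _
  have hfX : f ≤ X ^ f := (Nat.lt_pow_self hX1).le
  have h1 : A + 4000 ≤ A * X := by nlinarith
  have hLf : (L + 1) ≤ X := by omega
  have h2 : s + 1 ≤ A * f * X ^ 2 := by
    have h3 : s + 1 ≤ A * f * (120000 * X + (1000 * (D + F0 + 201) + 2)) := by
      have hAf : 1 ≤ A * f := Nat.one_le_iff_ne_zero.2 (by positivity)
      have e1 : A ≤ A * f := Nat.le_mul_of_pos_right _ hf
      have e2 : f ≤ A * f := Nat.le_mul_of_pos_left _ hA1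
      have e3 : D * f ≤ A * f * D := by nlinarith
      have e4 : 60 * (L + 1) * f ≤ A * f * (60 * X) := by
        calc 60 * (L + 1) * f ≤ 60 * X * (A * f) :=
              Nat.mul_le_mul (Nat.mul_le_mul_left _ hLf) e2
          _ = _ := by ring
      have e5 : 60 * (L + 1) ≤ A * f * (60 * X) := by
        calc 60 * (L + 1) ≤ 1 * (60 * X) := by omega
          _ ≤ _ := Nat.mul_le_mul_right _ hAf
      have e6 : F0 ≤ A * f * F0 := Nat.le_mul_of_pos_left _ hAf
      have e7 : 200 ≤ A * f * 200 := by omega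
      rw [hs]
      have e8 : A * f * (120000 * X + (1000 * (D + F0 + 201) + 2)) =
          1000 * (A * f * D + A * f * (60 * X) + A * f * (60 * X) + A * f * F0 +
            A * f * 200) + 1002 * (A * f) := by ring
      rw [e8]
      linarith
    refine h3.trans (Nat.mul_le_mul_left _ ?_)
    nlinarith
  have h4 : (A + 4000) * (s + 1) + 2 ≤ A ^ 2 * f * X ^ 4 := by
    have h5 : (A + 4000) * (s + 1) ≤ (A * X) * (A * f * X ^ 2) := Nat.mul_le_mul h1 h2
    have h6 : (A * X) * (A * f * X ^ 2) = A ^ 2 * f * X ^ 3 := by ring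
    have h7 : 1 ≤ A ^ 2 * f * X ^ 3 := Nat.one_le_iff_ne_zero.2 (by positivity)
    have h8 : A ^ 2 * f * X ^ 4 = (A ^ 2 * f * X ^ 3) * X := by ring
    rw [h6] at h5
    rw [h8]
    nlinarith
  refine h4.trans ?_
  calc A ^ 2 * f * X ^ 4 ≤ (X ^ 2 ^ (C1 * f)) ^ 2 * X ^ f * X ^ 4 :=
        Nat.mul_le_mul_right _ (Nat.mul_le_mul (Nat.pow_le_pow_left hAX 2) hfX)
    _ = X ^ (2 * 2 ^ (C1 * f) + (f + 4)) := by
        rw [← pow_mul, ← pow_add, ← pow_add]
        congr 1
        ring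
    _ ≤ X ^ 2 ^ ((C1 + 3) * (f + 1)) := Nat.pow_le_pow_right (by omega) pow_bound

end ERR

set_option maxRecDepth 20000 in
theorem ERR_thm (hs : Sub) (hc : Calc) (hP : Stmt_PC) : Stmt_ERR := by
  intro μ hμ e0 z0 hfalse
  obtain ⟨C1, hC1⟩ := hP
  let φ₀ : Fm := inst3 μ e0 0 z0
  let D : ℕ := 216000 * (e0.size + 1) * (z0.size + 1)
  let C : ℕ := C1 + 3 + (120000 + 1000 * (D + fs φ₀ + 201) + 4001) +
    (e0.size + z0.size + 7 * fs φ₀ + 3000)
  refine ⟨C, ?_⟩
  intro P hPf O c κ cN κN v M n S hM hv hacc haccN hSS hDD hcons hn hprov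
  -- the proof in the weird theory
  have hmem : falsum v ∈ theory O c κ := Or.inr (Or.inr hacc)
  set u : ℕ := (encProof (refute v φ₀)).num with hu
  have husize : u.size ≤ 1300 * M + 7 * fs φ₀ + 1001 := by
    have h1 := H19.T.num_size (encProof (refute v φ₀))
    have h2 := refute_size v φ₀
    rw [hu, h1]
    show _ ≤ 1300 * M + 7 * φ₀.enc.size + 1001
    omega
  set α : Fm := P c κ with hα
  have hαb : α.fvBelow 4 := hPf.below c κ
  have hsat : α.sat (stdN O) (vec4 e0 0 z0 u) :=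
    (hPf.correct O c κ e0 0 z0 _).2 ⟨_, rfl, refute_isProof hmem φ₀⟩
  set L : ℕ := e0.size + z0.size + (1300 * M + 7 * fs φ₀ + 1001) with hL
  have hvL : ∀ i, (vec4 e0 0 z0 u i).size ≤ L := by
    intro i
    rcases i with _ | _ | _ | _ | i
    · show e0.size ≤ L
      omega
    · show (0 : ℕ).size ≤ L
      simp
    · show z0.size ≤ L
      omega
    · show u.size ≤ L
      omega
    · show (0 : ℕ).size ≤ L
      simp
  have hpc := (hC1 O α (vec4 e0 0 z0 u) L hvL).1 (hPf.delta c κ).1 hsat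
  -- the theory with the additional axiom
  set Th : Set Fm := theory O cN κN with hTh
  have hsub : S12 ∪ diag O ⊆ Th := by
    rintro φ (h | h)
    · exact Or.inl h
    · exact Or.inr (Or.inl h)
  have hcon : con e0 z0 α ∈ Th := Or.inr (Or.inr haccN)
  set A : ℕ := Bd C1 (fs α) L with hA
  set s : ℕ := A + 1000 * (D * fs α + 60 * (L + 1) * fs α + 60 * (L + 1) + fs φ₀ + 200) with hsdef
  have hf1 : 1 ≤ fs α := T.size_pos _
  have hi3 : fs (inst3 α e0 0 z0) ≤ D * fs α := by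
    have h1 := hs.instSizeF ((α.inst 0 (Tm.numeral e0)).inst 0 (Tm.numeral 0)) 0 z0
    have h2 := hs.instSizeF (α.inst 0 (Tm.numeral e0)) 0 0
    have h3 := hs.instSizeF α 0 e0
    have h0 : (0 : ℕ).size = 0 := by simp
    rw [h0] at h2
    have h4 : fs (inst3 α e0 0 z0) ≤ 60 * (z0.size + 1) * (60 * (0 + 1) *
        (60 * (e0.size + 1) * fs α)) :=
      h1.trans (Nat.mul_le_mul_left _ (h2.trans (Nat.mul_le_mul_left _ h3)))
    refine h4.trans (le_of_eq ?_)
    show _ = 216000 * (e0.size + 1) * (z0.size + 1) * fs α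
    ring
  have hmat : fs (mat e0 z0 α) ≤ D * fs α + 50 := by
    show (T.node (T.unary 11) (T.node (inst3 α e0 0 z0).enc
      (T.node (T.unary 8) (T.node T.leaf T.leaf)))).size ≤ _
    have h1 : (inst3 α e0 0 z0).enc.size ≤ D * fs α := hi3
    simp only [T.size, T.size_unary]
    omega
  have hconsz : fs (con e0 z0 α) ≤ D * fs α + 100 := by
    show (T.node (T.unary 12) (T.node (mat e0 z0 α).enc T.leaf)).size ≤ _
    have h1 : (mat e0 z0 α).enc.size ≤ D * fs α + 50 := hmat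
    simp only [T.size, T.size_unary]
    omega
  have hcl : fs (clF (vec4 e0 0 z0 u) 0 α) ≤ 60 * (L + 1) * fs α :=
    hs.sizeF _ L 0 α hvL
  have hncl : fs (Fm.neg (clF (vec4 e0 0 z0 u) 0 α)) ≤ 60 * (L + 1) * fs α + 50 := by
    show (T.node (T.unary 11) (T.node (clF (vec4 e0 0 z0 u) 0 α).enc
      (T.node (T.unary 8) (T.node T.leaf T.leaf)))).size ≤ _
    have h1 : (clF (vec4 e0 0 z0 u) 0 α).enc.size ≤ 60 * (L + 1) * fs α := hcl
    simp only [T.size, T.size_unary]
    omega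
  have hbot : fs Fm.bot ≤ 50 := by
    show (T.node (T.unary 8) (T.node T.leaf T.leaf)).size ≤ _
    simp only [T.size, T.size_unary]
    omega
  have hnum : ts (Tm.numeral u) ≤ 60 * (L + 1) := by
    refine (hs.numSize u).trans (Nat.mul_le_mul_left _ ?_)
    omega
  have p1 : Pr Th 1000 s (con e0 z0 α) := hc.hyp hcon (by omega)
  have p2 : Pr Th (1000 + 1000) s ((mat e0 z0 α).inst 0 (Tm.numeral u)) := by
    refine hc.inst (φ := mat e0 z0 α) p1 ?_
    rw [ERR.mat_inst hs e0 z0 u α hαb]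
    omega
  rw [ERR.mat_inst hs e0 z0 u α hαb] at p2
  have p3 : Pr Th A s (clF (vec4 e0 0 z0 u) 0 α) :=
    hc.mono (hc.monoTh hpc hsub) le_rfl (by omega)
  have p4 : Pr Th (1000 + 1000 + A + 1000) s Fm.bot :=
    hc.mp (a := clF (vec4 e0 0 z0 u) 0 α) (b := Fm.bot) p2 p3 (by omega)
  have p5 : Pr Th (1000 + 1000 + A + 1000 + 1000) s φ₀ := hc.botE p4 (by omega)
  obtain ⟨π, hπ, hπs⟩ := hc.size p5
  have hXn : (C * M + 2) ^ 2 ^ (C * (fs α + 1)) ≤ n := hn
  have hbig : (A + 4000) * (s + 1) + 2 ≤ n := by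
    have hLX : L + 2 ≤ C * M + 2 := by
      have h1 : (e0.size + z0.size + 7 * fs φ₀ + 3000) * M ≤ C * M :=
        Nat.mul_le_mul_right _ (Nat.le_add_left _ _)
      have h2 : L ≤ (e0.size + z0.size + 7 * fs φ₀ + 3000) * M := by
        obtain ⟨M', rfl⟩ : ∃ M', M = M' + 1 := ⟨M - 1, by omega⟩
        rw [hL]
        nlinarith [Nat.zero_le ((e0.size + z0.size + 7 * fs φ₀) * M')]
      omega
    have hCX : 120000 + 1000 * (D + fs φ₀ + 201) + 4001 ≤ C * M + 2 := by
      have h1 : C ≤ C * M := Nat.le_mul_of_pos_right _ hM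
      have h2 : 120000 + 1000 * (D + fs φ₀ + 201) + 4001 ≤ C := by
        show _ ≤ C1 + 3 + (120000 + 1000 * (D + fs φ₀ + 201) + 4001) +
          (e0.size + z0.size + 7 * fs φ₀ + 3000)
        exact (Nat.le_add_left _ _).trans (Nat.le_add_right _ _)
      exact (h2.trans h1).trans (Nat.le_add_right _ _)
    refine (ERR.arith hf1 rfl rfl hLX hCX).trans (le_trans ?_ hXn)
    refine Nat.pow_le_pow_right (by omega) (Nat.pow_le_pow_right (by norm_num) ?_)
    refine Nat.mul_le_mul_right _ ?_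
    show C1 + 3 ≤ C1 + 3 + (120000 + 1000 * (D + fs φ₀ + 201) + 4001) +
      (e0.size + z0.size + 7 * fs φ₀ + 3000)
    omega
  have hnumπ := H19.T.num_size (encProof π)
  have hπn : (encProof π).num.size ≤ n := by
    have e1 : 1000 + 1000 + A + 1000 + 1000 = A + 4000 := by ring
    rw [e1] at hπs
    omega
  have hcorrect : (P cN κN).sat (stdN O) (vec4 e0 0 z0 (encProof π).num) :=
    (hPf.correct O cN κN e0 0 z0 _).2 ⟨π, rfl, hπ⟩
  have hPb : (P cN κN).bdd = true := (Fm.bdd_of _).1 (hPf.delta cN κN).1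
  have hμb : μ.bdd = true := (Fm.bdd_of _).1 hμ.1
  have hLn : L ≤ n := by
    have h1 : L + 2 ≤ A := by
      show L + 2 ≤ (L + 2) ^ 2 ^ (C1 * fs α)
      calc L + 2 = (L + 2) ^ 1 := (pow_one _).symm
        _ ≤ _ := Nat.pow_le_pow_right (by omega) Nat.one_le_two_pow
    have h2 : A ≤ (A + 4000) * (s + 1) := by nlinarith
    omega
  have h1 := rfn_sound hSS hDD hcons hPb hμb hprov (e := e0) (x := 0) (z := z0)
    (u := (encProof π).num) (by omega) (by simp) (by omega) hπn hcorrect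
  refine hfalse O ((Fm.sat_congr_below (stdN O) μ hμ.2.1 (fun i hi => ?_)).1 h1)
  rcases i with _ | _ | _ | i
  · rfl
  · rfl
  · rfl
  · omega

end Pool.Agent.RN
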