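import Pool.Agent.RN.Cst

/-!
# GROW and FINB: the numbers `nn J M`
-/

set_option autoImplicit false

namespace Pool.Agent.RN.GROW

open Pool.Agent.RO Filter Topology

theorem lgN_pow (k : ℕ) : lgN (2 ^ k) = k := by
  simp [lgN, Nat.size_pow]

theorem tow_pos (s : ℕ) : 1 ≤ tow s := by
  cases s with
  | zero => exact le_rfl
  | succ s => exact Nat.one_le_two_pow

theorem tow_lt (s : ℕ) : tow s < tow (s + 1) := Nat.lt_two_pow_self

theorem tow_mono : StrictMono tow := strictMono_nat_of_lt_succ tow_lt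

theorem le_tow (s : ℕ) : s ≤ tow s := tow_mono.id_le s

theorem lg_lg (J : ℕ) : lgN (lgN (tow (J + 2))) = tow J := by
  have h : tow (J + 2) = 2 ^ (2 ^ tow J) := rfl
  rw [h, lgN_pow, lgN_pow]

theorem lt_two_pow (M : ℕ) (hM : 1 ≤ M) : M < 2 ^ (lgN M + 1) := by
  have h : M < 2 ^ M.size := Nat.lt_size_self M
  have h1 : 1 ≤ M.size := Nat.size_pos.2 hM
  unfold lgN
  rwa [Nat.sub_add_cancel h1]

/-- a polynomial is bounded by a power of two -/
theorem poly_le (K D : ℕ) : ∃ n0 : ℕ, ∀ n ≥ n0, K * n ^ D ≤ 2 ^ n := by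
  have h := tendsto_pow_const_div_const_pow_of_one_lt D (show (1 : ℝ) < 2 by norm_num)
  have h1 := (h.const_mul (K : ℝ))
  rw [mul_zero] at h1
  have h2 := h1.eventually_le_const (show (0 : ℝ) < 1 by norm_num)
  rw [eventually_atTop] at h2
  obtain ⟨n0, hn⟩ := h2
  refine ⟨n0, fun n hn0 => ?_⟩
  have h3 := hn n hn0
  have h4 : (0 : ℝ) < 2 ^ n := by positivity
  rw [← mul_div_assoc, div_le_one h4] at h3
  exact_mod_cast h3

end Pool.Agent.RN.GROW

namespace Pool.Agent.RN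

open Pool.Agent.RO GROW

theorem GROW_thm : Stmt_GROW := by
  intro B C D
  set K : ℕ := C * (B + 2) ^ D + 2 * C + 3 with hK
  obtain ⟨n0, hn0⟩ := poly_le (32 * K) D
  refine ⟨n0 + 4, fun J hJ M hM => ?_⟩
  obtain ⟨j, rfl⟩ : ∃ j, J = j + 4 := ⟨J - 4, by omega⟩
  have hM1 : 1 ≤ M := (tow_pos _).trans hM
  -- the exponent
  set Q : ℕ := C * ((B * (j + 4 + 1) + 2) ^ D + 1) with hQ
  have hQ1 : C + 3 + Q ≤ 2 ^ j := by
    have h1 : B * (j + 4 + 1) + 2 ≤ (B + 2) * (j + 5) := by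
      have : (B + 2) * (j + 5) = B * (j + 4 + 1) + 2 * (j + 5) := by ring
      omega
    have h2 : (B * (j + 4 + 1) + 2) ^ D ≤ (B + 2) ^ D * (j + 5) ^ D := by
      rw [← mul_pow]
      exact Nat.pow_le_pow_left h1 D
    have h3 : 1 ≤ (j + 5) ^ D := Nat.one_le_pow _ _ (by omega)
    have h4 : C + 3 + Q ≤ K * (j + 5) ^ D := by
      calc C + 3 + Q = C * (B * (j + 4 + 1) + 2) ^ D + (2 * C + 3) := by rw [hQ]; ring
        _ ≤ C * ((B + 2) ^ D * (j + 5) ^ D) + (2 * C + 3) * (j + 5) ^ D := by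
            refine add_le_add (Nat.mul_le_mul_left _ h2) ?_
            exact Nat.le_mul_of_pos_right _ h3
        _ = K * (j + 5) ^ D := by rw [hK]; ring
    have h5 := hn0 (j + 5) (by omega)
    have h6 : 32 * (C + 3 + Q) ≤ 32 * 2 ^ j := by
      calc 32 * (C + 3 + Q) ≤ 32 * (K * (j + 5) ^ D) := Nat.mul_le_mul_left _ h4
        _ = 32 * K * (j + 5) ^ D := by ring
        _ ≤ 2 ^ (j + 5) := h5
        _ = 32 * 2 ^ j := by rw [pow_add]; ring
    omega
  have htow : C + 3 + Q ≤ tow (j + 1) := by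
    have h1 : tow (j + 1) = 2 ^ tow j := rfl
    rw [h1]
    exact hQ1.trans (Nat.pow_le_pow_right (by norm_num) (le_tow j))
  have hτ : (C + 3) * 2 ^ Q ≤ tow (j + 2) := by
    have h1 : tow (j + 2) = 2 ^ tow (j + 1) := rfl
    rw [h1]
    calc (C + 3) * 2 ^ Q ≤ 2 ^ (C + 3) * 2 ^ Q :=
          Nat.mul_le_mul_right _ (Nat.lt_two_pow_self).le
      _ = 2 ^ (C + 3 + Q) := by rw [← pow_add]
      _ ≤ 2 ^ tow (j + 1) := Nat.pow_le_pow_right (by norm_num) htow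
  have hbase : C * M + 2 ≤ 2 ^ (lgN M + (C + 3)) := by
    have h1 := lt_two_pow M hM1
    have h2 : C + 2 ≤ 2 ^ (C + 2) := (Nat.lt_two_pow_self).le
    calc C * M + 2 ≤ (C + 2) * M := by
          have : (C + 2) * M = C * M + 2 * M := by ring
          omega
      _ ≤ 2 ^ (C + 2) * 2 ^ (lgN M + 1) := Nat.mul_le_mul h2 h1.le
      _ = 2 ^ (lgN M + (C + 3)) := by rw [← pow_add]; congr 1; ring
  have hJ4 : lgN (lgN (tow (j + 4))) = tow (j + 2) := lg_lg (j + 2)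
  unfold nn
  rw [hJ4]
  calc (C * M + 2) ^ 2 ^ Q ≤ (2 ^ (lgN M + (C + 3))) ^ 2 ^ Q := Nat.pow_le_pow_left hbase _
    _ = 2 ^ ((lgN M + (C + 3)) * 2 ^ Q) := by rw [← pow_mul]
    _ ≤ 2 ^ ((lgN M + 5) * tow (j + 2)) := by
        refine Nat.pow_le_pow_right (by norm_num) ?_
        calc (lgN M + (C + 3)) * 2 ^ Q ≤ ((lgN M + 5) * (C + 3)) * 2 ^ Q := by
              refine Nat.mul_le_mul_right _ ?_
              have : (lgN M + 5) * (C + 3) = lgN M * (C + 2) + lgN M + 4 * (C + 3) + (C + 3) := by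
                ring
              rw [this]
              have h0 : 0 ≤ lgN M * (C + 2) := Nat.zero_le _
              omega
          _ = (lgN M + 5) * ((C + 3) * 2 ^ Q) := by ring
          _ ≤ (lgN M + 5) * tow (j + 2) := Nat.mul_le_mul_left _ hτ

theorem FINB_thm : Stmt_FINB := by
  intro e J he hJ
  obtain ⟨j, rfl⟩ : ∃ j, J = j + 2 := ⟨J - 2, by omega⟩
  set τ : ℕ := tow j with hτ
  have hτ1 : 1 ≤ τ := tow_pos j
  refine ⟨2 * τ, 2 * e + 6, fun d hd w hw => ?_⟩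
  obtain ⟨d', rfl⟩ : ∃ d', d = d' + 1 := ⟨d - 1, by omega⟩
  set l : ℕ := tow (j + 2 + d') with hl
  have hM : tow (j + 2 + (d' + 1)) = 2 ^ l := rfl
  have hl1 : 2 * e + 5 ≤ l := by
    have := le_tow (j + 2 + d')
    omega
  rw [hM] at hw ⊢
  unfold nn at hw
  rw [lgN_pow, lg_lg j, ← hτ] at hw
  by_contra hcon
  have hcon' : 2 ^ l / e < w := not_le.1 hcon
  have h1 : 2 ^ l < w * e := by
    rw [Nat.div_lt_iff_lt_mul he] at hcon'
    exact hcon'
  have h2 : (2 ^ l) ^ (2 * τ) < (w * e) ^ (2 * τ) := Nat.pow_lt_pow_left h1 (by omega)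
  have h3 : (w * e) ^ (2 * τ) ≤ 2 ^ ((l + 5) * τ) * 2 ^ (e * (2 * τ)) := by
    rw [mul_pow]
    refine Nat.mul_le_mul hw ?_
    rw [pow_mul 2 e (2 * τ)]
    exact Nat.pow_le_pow_left (Nat.lt_two_pow_self).le _
  have h4 : 2 ^ (l * (2 * τ)) < 2 ^ ((l + 5) * τ + e * (2 * τ)) := by
    rw [pow_mul, pow_add]
    exact h2.trans_le h3
  have h5 : l * (2 * τ) < (l + 5) * τ + e * (2 * τ) := (Nat.pow_lt_pow_iff_right (by norm_num)).1 h4
  have h6 : (l + 5) * τ + e * (2 * τ) = (l + 5 + 2 * e) * τ := by ring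
  have h7 : l * (2 * τ) = (2 * l) * τ := by ring
  rw [h6, h7] at h5
  have h8 : 2 * l < l + 5 + 2 * e := Nat.lt_of_mul_lt_mul_right h5
  omega

end Pool.Agent.RN
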