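import Pool.Agent.RN.Cst
import Pool.Agent.RO.MAIN
import Pool.Agent.RO.HYPS
import Pool.Agent.RO.PROGRAM

/-!
# The main theorem (theories with one more true axiom) from the theorem for presented theories
-/

open MeasureTheory

namespace Pool.Agent.RN

open Pool.Agent.H19 (T Tm scons)
open Pool.Agent.RO

namespace MAIN

/-- The theory with the additional axiom is in the class. -/
theorem inClassT {O : Om} {c0 : OCode} {k0 : ℕ} {c : OCode} {κ : ℕ} {ψ : Fm}
    (hM : (stdN O).Models (theory O c0 k0)) (hb : ψ.fvBelow 1)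
    (hs : ∀ x : ℕ, ψ.sat (stdN O) fun _ => x) (hh : HaltsWithin O c κ)
    (ha : ∀ x : T, Accepts O c κ x ↔ x = (Fm.all ψ).enc ∨ Accepts O c0 k0 x) :
    InClassT O (theory O c κ) := by
  constructor
  · refine ⟨ℕ, stdN O, ?_⟩
    rintro φ (h | h | h) v
    · exact hM φ (Or.inl h) v
    · exact hM φ (Or.inr (Or.inl h)) v
    · rcases (ha φ.enc).1 h with h | h
      · have h2 : φ = Fm.all ψ := Fm.enc_inj.1 h
        subst h2
        intro a
        refine (Fm.sat_congr_below (stdN O) ψ hb (fun i hi => ?_)).2 (hs a)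
        have h3 : i = 0 := by omega
        subst h3
        rfl
      · exact hM φ (Or.inr (Or.inr h)) v
  · refine ⟨out c O, ⟨c, κ, fun x => ?_⟩, fun φ => ?_⟩
    · obtain ⟨y, t, h, ht⟩ := hh x
      rw [out_eq h]
      exact ⟨t, h, ht⟩
    · show (φ ∈ S12 ∨ φ ∈ diag O ∨ Accepts O c κ φ.enc) ↔ _
      rw [accepts_iff_out hh]

end MAIN

theorem MAIN_thm (hP : Pool.Agent.RN.Stmt_PRES) : Pool.Agent.RN.Stmt_MAIN := by
  intro μ hμ P hPf A
  have : Countable OCode := CNT_thm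
  have h1 : ∀ᵐ R ∂coin, ∀ (cS : OCode) (kS : ℕ) (c0 : OCode) (k0 : ℕ),
      HaltsWithin (join A R) cS kS → HaltsWithin (join A R) c0 k0 →
      Consistent (theory (join A R) cS kS) →
      ∃ (ψ : Fm) (c : OCode) (κ : ℕ), ψ.isPi = true ∧ ψ.fvBelow 1 ∧
        (∀ x : ℕ, ψ.sat (stdN (join A R)) fun _ => x) ∧
        (∀ O : Om, HaltsWithin O c0 k0 → HaltsWithin O c κ ∧
          ∀ x : T, Accepts O c κ x ↔ x = (Fm.all ψ).enc ∨ Accepts O c0 k0 x) ∧
        ∃ k : ℕ, ∀ N : ℕ, ∃ n ≥ N, ∀ π : List Step,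
          IsProof (theory (join A R) cS kS) π (rfn (P c κ) μ n) →
            ∀ w : ℕ, w ^ k ≤ n → 2 ^ w < (encProof π).size := by
    rw [ae_all_iff]; intro cS
    rw [ae_all_iff]; intro kS
    rw [ae_all_iff]; intro c0
    rw [ae_all_iff]; intro k0
    exact hP μ hμ P hPf A cS kS c0 k0
  filter_upwards [h1] with R hR
  intro S hS c0 k0 h0 hM
  obtain ⟨cS, kS, h3, h4⟩ := RO.MAIN.exists_code DET_thm hS
  obtain ⟨ψ, c, κ, h5, h6, h7, h8, h9⟩ := hR cS kS c0 k0 h3 h0 (by rw [h4]; exact hS.1)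
  rw [h4] at h9
  exact ⟨ψ, c, κ, h5, h6, h7, h8, MAIN.inClassT hM h6 h7 (h8 _ h0).1 (h8 _ h0).2, h9⟩

end Pool.Agent.RN
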