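import Pool.Agent.RN.Cst

/-!
# The presentation of a theory with one more axiom
-/

namespace Pool.Agent.RN

open Pool.Agent.H19 (T PolyTime PolyDec PolyNat)
open Pool.Agent.RO

namespace NAT

/-- the program that accepts `a` and what `c0` accepts; `ce` decides equality -/
def prog (ce c0 : OCode) (a : T) : OCode :=
  OCode.ite (OCode.comp ce (OCode.pair OCode.id (OCode.const a))) c0
    (OCode.pair OCode.leaf OCode.leaf)

/-- the clock -/
def clock (k k0 : ℕ) (a : T) : ℕ := (a.size + 2) * (k + k0 + 3)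

theorem clock_bound (k k0 n s : ℕ) (hn : 3 ≤ n) :
    n + s + 4 + (n + s + 1) ^ k + n ^ k0 ≤ n ^ ((s + 2) * (k + k0 + 3)) := by
  rw [pow_mul]
  have h1 : n + s + 1 ≤ n ^ (s + 2) := by
    have h2 : ∀ s : ℕ, n + s + 1 ≤ n ^ (s + 2) := by
      intro s
      induction s with
      | zero =>
        have h4 : n * 3 ≤ n * n := Nat.mul_le_mul_left _ hn
        have h5 : n ^ (0 + 2) = n * n := by ring
        omega
      | succ s ih =>
        rw [pow_succ]
        have h3 : n ^ (s + 2) * 3 ≤ n ^ (s + 2) * n := Nat.mul_le_mul_left _ hn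
        omega
    exact h2 s
  have h2 : n ≤ n ^ (s + 2) := by omega
  generalize n ^ (s + 2) = M at h1 h2 ⊢
  have hM : 4 ≤ M := by omega
  have h3 : (n + s + 1) ^ k ≤ M ^ (k + k0 + 1) :=
    (Nat.pow_le_pow_left h1 k).trans (Nat.pow_le_pow_right (by omega) (by omega))
  have h4 : n ^ k0 ≤ M ^ (k + k0 + 1) :=
    (Nat.pow_le_pow_left h2 k0).trans (Nat.pow_le_pow_right (by omega) (by omega))
  have h5 : M ≤ M ^ (k + k0 + 1) := by
    calc M = M ^ 1 := (pow_one M).symm
      _ ≤ M ^ (k + k0 + 1) := Nat.pow_le_pow_right (by omega) (by omega)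
  have h6 : M ^ (k + k0 + 3) = M ^ (k + k0 + 1) * (M * M) := by ring
  rw [h6]
  have h7 : M ^ (k + k0 + 1) * 16 ≤ M ^ (k + k0 + 1) * (M * M) :=
    Nat.mul_le_mul_left _ (by nlinarith)
  omega

theorem prog_enc (ce c0 : OCode) (a : T) : (prog ce c0 a).enc =
    T.node (T.unary 6) (T.node (T.node (T.unary 5) (T.node ce.enc
      (T.node (T.unary 4) (T.node OCode.id.enc (H19.qt a)))))
      (T.node c0.enc (OCode.pair OCode.leaf OCode.leaf).enc)) := by
  unfold prog
  simp only [OCode.enc, qt_eqO]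

end NAT

theorem NAT_thm : Stmt_NAT := by
  intro c0 k0
  have i := PolyTime.id
  obtain ⟨f, hf, hfe⟩ := PolyDec.eq (f := fun x => x.left) (g := fun x => x.right) i.left i.right
  obtain ⟨ce0, k, hce⟩ := hf
  let ce : OCode := toO ce0
  refine ⟨fun φ => NAT.prog ce c0 φ.enc, fun φ => NAT.clock k k0 φ.enc,
    fun a => T.node (T.node (T.unary 6) (T.node (T.node (T.unary 5) (T.node ce.enc
      (T.node (T.unary 4) (T.node OCode.id.enc (H19.qt a)))))
      (T.node c0.enc (OCode.pair OCode.leaf OCode.leaf).enc)))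
      (T.unary ((a.size + 2) * (k + k0 + 3))), ?_, ?_, ?_⟩
  · refine PolyTime.node ?_ ?_
    · exact (PolyTime.const _).node (((PolyTime.const _).node ((PolyTime.const _).node
        ((PolyTime.const _).node ((PolyTime.const _).node H19.qt_polyTime)))).node
        (PolyTime.const _))
    · exact (((PolyNat.size i).add (PolyNat.const 2)).mul (PolyNat.const _)).unary
  · intro φ
    simp only [NAT.prog_enc, NAT.clock]
  · intro φ O hO
    have key : ∀ x : T, ∃ (y y0 : T) (t t0 : ℕ), EvalO O (NAT.prog ce c0 φ.enc) x y t ∧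
        t ≤ (x.size + 2) ^ NAT.clock k k0 φ.enc ∧ EvalO O c0 x y0 t0 ∧
        t0 ≤ (x.size + 2) ^ k0 ∧ (y ≠ T.leaf ↔ x = φ.enc ∨ y0 ≠ T.leaf) := by
      intro x
      obtain ⟨y0, t0, h0, hb0⟩ := hO x
      obtain ⟨t1, h1, hb1⟩ := hce (T.node x φ.enc)
      have h2 : EvalO O (OCode.comp ce (OCode.pair OCode.id (OCode.const φ.enc))) x
          (f (T.node x φ.enc)) (x.size + φ.enc.size + 1 + t1 + 1) :=
        EvalO.comp (EvalO.pair (EvalO.id x) (EvalO.const O x φ.enc)) (Eval_toO h1 O)
      have h3 := hfe (T.node x φ.enc)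
      have hx := H19.T.size_pos x
      have h4 := NAT.clock_bound k k0 (x.size + 2) φ.enc.size (by omega)
      have h5 : x.size + φ.enc.size + 1 + 2 = x.size + 2 + φ.enc.size + 1 := by omega
      simp only [T.size] at hb1
      rw [h5] at hb1
      have h6 : NAT.clock k k0 φ.enc = (φ.enc.size + 2) * (k + k0 + 3) := rfl
      rw [h6]
      rcases hv : f (T.node x φ.enc) with _ | ⟨l, r⟩
      · rw [hv] at h2
        refine ⟨y0, y0, _, t0, EvalO.ite_leaf h2 h0, ?_, h0, hb0, ?_⟩
        · omega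
        · have h7 : ¬ x = φ.enc := by
            intro h8
            exact (h3.1 h8) hv
          simp [h7]
      · rw [hv] at h2
        refine ⟨T.node T.leaf T.leaf, y0, _, t0, EvalO.ite_node h2
          (EvalO.pair (EvalO.leaf x) (EvalO.leaf x)), ?_, h0, hb0, ?_⟩
        · omega
        · have h7 : x = φ.enc := h3.2 (by rw [hv]; simp)
          simp [h7]
    refine ⟨fun x => ?_, fun x => ?_⟩
    · obtain ⟨y, y0, t, t0, h1, h2, -, -, -⟩ := key x
      exact ⟨y, t, h1, h2⟩
    · obtain ⟨y, y0, t, t0, h1, h2, h3, h4, h5⟩ := key x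
      rw [accepts_iff h1 h2, accepts_iff h3 h4]
      exact h5

end Pool.Agent.RN
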