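import Pool.Agent.RN.Cst
import Pool.Agent.RO.PROGRAM
import Pool.Agent.RO.ITEMS
import Pool.Agent.RO.DIAGDEC

/-!
# The weird programs
-/

namespace Pool.Agent.RN

open Pool.Agent.H19 (T PolyTime PolyDec PolyNat PolyN Tm scons bn bl ofBool encL)
open Pool.Agent.RO

namespace PROG

/-- The test of an item does not depend on the index. -/
theorem item_decOn (A : Om) (cS : OCode) (kS : ℕ) (F : T → T) (μ : Fm) :
    DecOn {O : Om | HaltsWithin O cS kS} (fun O a => (par A cS kS F μ 0).ItemOK O a) := by
  have i := PolyTime.id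
  have h1 : DecOn {O : Om | HaltsWithin O cS kS} (fun _ a => a.left = T.leaf) :=
    DecOn.of_dec (PolyDec.eq_leaf i.left)
  have h2 : DecOn {O : Om | HaltsWithin O cS kS} (fun O a => O (bn a.right) = true) :=
    DecOn.bit (H19.canon_polyTime.comp i.right)
  have h3 : DecOn {O : Om | HaltsWithin O cS kS}
      (fun O a => decFm a.right ∈ theory O cS kS) :=
    (RO.PROGRAM.theory_decOn RO.DIAGDEC_thm cS kS fun O hO => hO).comp i.right
  refine ((h1.and h2).or (h1.not.and h3)).congr fun O _ a => ?_
  unfold Par.ItemOK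
  by_cases h : a.left = T.leaf
  · simp [h]
  · simp [h, Par.S, par]

end PROG

open PROG in
theorem PROG_thm (hR : Stmt_RECP) (hD : Stmt_D0P) : Stmt_PROG := by
  intro A cS kS F μ hF
  have i := PolyTime.id
  have hu : PolyTime (fun z : T => unfalsum z.left.left) :=
    H19.uu_polyTime.comp i.left.left.right.left.right.left
  have h1 : DecOn {O : Om | HaltsWithin O cS kS}
      (fun _ z => (falsum (unfalsum z.left.left)).enc = z.left.left ∧
        (par A cS kS F μ z.left.right.len).D0 0 (unfalsum z.left.left) z.right) := by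
    refine DecOn.of_dec ((PolyDec.eq (falsum_polyTime.comp hu) i.left.left).and ?_)
    exact ((hD A cS kS F μ hF).comp (hu.node (i.right.node i.left.right))).congr
      fun z => Iff.rfl
  have h2 : DecOn {O : Om | HaltsWithin O cS kS}
      (fun O z => ∀ a ∈ RO.Par.items (unfalsum z.left.left),
        (par A cS kS F μ 0).ItemOK O a) :=
    (item_decOn A cS kS F μ).all (RO.ITEMS_thm.comp hu)
  have h4 : DecOn {O : Om | HaltsWithin O cS kS}
      (fun O z => Want (par A cS kS F μ z.left.right.len) z.right O z.left.left) :=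
    (h1.and h2).congr fun O _ z => by
      unfold Want
      rw [and_assoc]
      exact Iff.rfl
  obtain ⟨D, hDp, hDw⟩ := h4
  obtain ⟨B, c, κ, hB, hc⟩ := hR _ D hDp
  refine ⟨2 * B, fun J => c (T.unary J), fun J => κ (T.unary J), fun J => ?_,
    fun J O hO => ⟨fun x => ?_, fun x => ?_⟩⟩
  · refine (hB (T.unary J)).trans (le_of_eq ?_)
    rw [H19.T.size_unary]
    ring
  · obtain ⟨t, ht, hb⟩ := hc (T.unary J) O hO x
    exact ⟨_, t, ht, hb⟩
  · obtain ⟨t, ht, hb⟩ := hc (T.unary J) O hO x
    rw [accepts_iff ht hb, ← hDw O hO]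
    simp only [H19.T.left_node, H19.T.right_node, H19.T.len_unary]

end Pool.Agent.RN
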