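import Pool.Agent.RN.SUB
import Pool.Agent.RN.CALC
import Pool.Agent.RN.QFC
import Pool.Agent.RN.FACTS
import Pool.Agent.RN.INST
import Pool.Agent.RN.NUM1
import Pool.Agent.RN.ORD
import Pool.Agent.RN.NUM2
import Pool.Agent.RN.NUM3
import Pool.Agent.RN.TERM
import Pool.Agent.RN.BALL
import Pool.Agent.RN.PC
import Pool.Agent.RN.RECP
import Pool.Agent.RN.D0P
import Pool.Agent.RN.PROG
import Pool.Agent.RN.CONP
import Pool.Agent.RN.NAT
import Pool.Agent.RN.ERR
import Pool.Agent.RN.GROW
import Pool.Agent.RN.PRES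
import Pool.Agent.RN.MAIN

/-! # The theorem on theories with one more true axiom, assembled -/

namespace Pool.Agent.RN

theorem sub : Sub := SUB_thm
theorem calc' : Calc := CALC_thm sub
theorem facts : Stmt_FACTS := FACTS_thm QFC_thm
theorem inst : Stmt_INST := INST_thm sub calc'
theorem num1 : Stmt_NUM1 := NUM1_thm sub calc' inst facts
theorem ord : Stmt_ORD := ORD_thm sub calc' inst facts num1
theorem num2 : Stmt_NUM2 := NUM2_thm sub calc' inst facts num1
theorem num3 : Stmt_NUM3 := NUM3_thm sub calc' inst facts num1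
theorem term : Stmt_TERM := TERM_thm sub calc' num1 num2 num3
theorem ball : Stmt_BALL := BALL_thm sub calc' inst facts num1
theorem pc : Stmt_PC := PC_thm sub calc' ord term ball

theorem main : Stmt_MAIN :=
  MAIN_thm (PRES_thm (PROG_thm RECP_thm D0P_thm) CONP_thm NAT_thm (ERR_thm sub calc' pc)
    (TRUE_thm sub) GROW_thm FINB_thm)

end Pool.Agent.RN
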