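import Pool.Agent.RN.PrDefs
import Pool.Agent.RO.Cst
import Pool.Agent.RO.Prog

/-!
# Theories with one more true axiom: definitions and statements of the modules

The weird program `(c, κ)` of index `J` accepts the sentence `falsum v` iff `v` describes a
failure of a window of size at least `tow J`. The theory `T` is `T₀` with one more axiom, which
says that the theory presented by `(c, κ)` does not prove a certain false `Σ^b_1(O)` sentence.
-/

namespace Pool.Agent.RN

open Pool.Agent.H19 (T PolyTime PolyDec PolyNat Tm scons bn bl ofBool encL tif)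
open Pool.Agent.RO

/-- The parameters of the construction: the base oracle `A`, the program of `S`, the function
`snt` that gives the sentence for the window size `M`, and the constants `e`, `s0`. -/
structure Par where
  A : Om
  cS : OCode
  kS : ℕ
  snt : T → ℕ → Fm
  e : ℕ
  s0 : ℕ

namespace Par

variable (p : Par)

/-- The size of window `s`. -/
def m (s : ℕ) : ℕ := tow (p.s0 + s)

/-- The positions of the bits of window `s`. -/
def β (s x i : ℕ) : ℕ := pos (p.m s) x i

/-- The theory `S` relative to `O`. -/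
def S (O : Om) : Set Fm := theory O p.cS p.kS

/-- `E` is a short derivation of the sentence for window size `M` (from any axioms), and `M` is at
least the size of window `j`. -/
def Ok (j : ℕ) (q : T) (M : ℕ) (E : T) : Prop :=
  p.m j ≤ M ∧ E.size ≤ 2 ^ (M / p.e) ∧ IsProof Set.univ (decProof E) (p.snt q M)

/-- The list `C` of derivations belongs to the consecutive windows below window size `M`. -/
def Chain (j : ℕ) (q : T) : T → ℕ → Prop
  | T.leaf, _ => True
  | T.node E C, M => M = 2 ^ lgN M ∧ p.Ok j q (lgN M) E ∧ Chain j q C (lgN M)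

/-- The purely syntactical part of the description `v = node (unary M) (node x C)` of a
failure. -/
def D0 (j : ℕ) (v q : T) : Prop :=
  (∃ s, v.left.len = tow s) ∧ p.m j ≤ v.left.len ∧ v.right.left.len ≤ v.left.len ∧
    p.Chain j q v.right.right v.left.len

/-- The test of an item relative to `O`. -/
def ItemOK (O : Om) (a : T) : Prop :=
  if a.left = T.leaf then O (bn a.right) = true else decFm a.right ∈ p.S O

/-- The description `v` is accepted relative to `O`, by the presentation coded by `q`. -/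
def AccV (j : ℕ) (q : T) (O : Om) (v : T) : Prop :=
  p.D0 j v q ∧ ∀ a ∈ RO.Par.items v, p.ItemOK O a

/-- Window `j + d` is accepted: `S` has a short proof of its sentence. -/
def Acc (j : ℕ) (q : T) (d : ℕ) : Set Om :=
  {R | ∃ E : T, E.size ≤ 2 ^ (p.m (j + d) / p.e) ∧
    IsProof (p.S (join p.A R)) (decProof E) (p.snt q (p.m (j + d)))}

/-- The constants are large enough. -/
structure Good (p : Par) : Prop where
  e_eq : p.e = 4 * (p.kS + 1)
  s0_big : 40 * (p.kS + 1) ≤ tow p.s0

end Par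

/-! ### The combinatorial modules (as in `RO`) -/

/-- LOCAL: few oracle bits decide that a window is accepted. -/
def Stmt_LOCAL : Prop := ∀ (p : Par), p.Good → ∀ (j : ℕ) (q : T),
  Loc (fun d => p.m (j + d)) (fun d => p.β (j + d)) (p.Acc j q)

/-- ACCFF: an accepted description shows a failure. -/
def Stmt_ACCFF : Prop := ∀ (p : Par) (j : ℕ) (q : T) (R : Om) (v : T),
  p.AccV j q (join p.A R) v →
    ∃ d, R ∈ FF (fun d => p.m (j + d)) (fun d => p.β (j + d)) (p.Acc j q) d

/-- FFACC: a failure gives a short accepted description. -/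
def Stmt_FFACC : Prop := ∀ (p : Par), p.Good → ∀ (j : ℕ) (q : T) (R : Om) (d : ℕ),
  R ∈ FF (fun d => p.m (j + d)) (fun d => p.β (j + d)) (p.Acc j q) d →
    ∃ v : T, p.AccV j q (join p.A R) v ∧ v.size ≤ 20 * p.m (j + d)

/-! ### The sentences and the weird programs -/

/-- The number `n` of the reflection sentence attached to window size `M` and index `J`. -/
def nn (J M : ℕ) : ℕ := 2 ^ ((lgN M + 5) * lgN (lgN (tow J)))

/-- The reflection sentence attached to window size `M` and index `J`; `F q` is the code of the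
proof formula. -/
def sent (F : T → T) (μ : Fm) (J : ℕ) (q : T) (M : ℕ) : Fm := rfn (decFm (F q)) μ (nn J M)

/-- The parameters of index `J`. -/
def par (A : Om) (cS : OCode) (kS : ℕ) (F : T → T) (μ : Fm) (J : ℕ) : Par :=
  ⟨A, cS, kS, sent F μ J, 4 * (kS + 1), J⟩

/-- What the weird program of index `J` accepts. -/
def Want (p : Par) (q : T) (O : Om) (x : T) : Prop :=
  (falsum (unfalsum x)).enc = x ∧ p.AccV 0 q O (unfalsum x)

/-- RECP: the recursion theorem with a parameter and with bounds for the code and the clock. -/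
def Stmt_RECP : Prop := ∀ (H : Set Om) (D : Om → T → T), PolyOn H D →
  ∃ (B : ℕ) (c : T → OCode) (κ : T → ℕ),
    (∀ a, (T.node (c a).enc (T.unary (κ a))).size ≤ B * (a.size + 1)) ∧
    ∀ a, ∀ O ∈ H, ∀ x : T, ∃ t : ℕ,
      EvalO O (c a) x (D O (T.node (T.node x a) (T.node (c a).enc (T.unary (κ a))))) t ∧
        t ≤ (x.size + 2) ^ κ a

/-- D0P: the syntactical part is decidable in polynomial time, uniformly in the index (given in
unary). The input is `node v (node q J)`. -/
def Stmt_D0P : Prop := ∀ (A : Om) (cS : OCode) (kS : ℕ) (F : T → T) (μ : Fm), PolyTime F →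
  PolyDec (fun z => (par A cS kS F μ z.right.right.len).D0 0 z.left z.right.left)

/-- PROG: the weird programs. -/
def Stmt_PROG : Prop := ∀ (A : Om) (cS : OCode) (kS : ℕ) (F : T → T) (μ : Fm), PolyTime F →
  ∃ (B : ℕ) (c : ℕ → OCode) (κ : ℕ → ℕ),
    (∀ J, (T.node (c J).enc (T.unary (κ J))).size ≤ B * (J + 1)) ∧
    ∀ (J : ℕ) (O : Om), HaltsWithin O cS kS → HaltsWithin O (c J) (κ J) ∧
      ∀ x : T, Accepts O (c J) (κ J) x ↔
        Want (par A cS kS F μ J) (T.node (c J).enc (T.unary (κ J))) O x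

/-! ### The additional axiom and its presentation -/

/-- The matrix of the additional axiom: `u` is not a proof of `μ₁(e₀, 0, z₀)`, where the proof
formula is `α`. -/
def mat (e0 z0 : ℕ) (α : Fm) : Fm := Fm.neg (inst3 α e0 0 z0)

/-- The additional axiom: there is no proof of `μ₁(e₀, 0, z₀)`. -/
def con (e0 z0 : ℕ) (α : Fm) : Fm := Fm.all (mat e0 z0 α)

/-- CONP: the additional axiom is computable in polynomial time from the proof formula. -/
def Stmt_CONP : Prop := ∀ e0 z0 : ℕ, ∃ h : T → T, PolyTime h ∧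
  ∀ α : Fm, h α.enc = (con e0 z0 α).enc

/-- NAT: the presentation of a theory with one more axiom. -/
def Stmt_NAT : Prop := ∀ (c0 : OCode) (k0 : ℕ), ∃ (c : Fm → OCode) (κ : Fm → ℕ) (g : T → T),
  PolyTime g ∧ (∀ φ, g φ.enc = T.node (c φ).enc (T.unary (κ φ))) ∧
  ∀ (φ : Fm) (O : Om), HaltsWithin O c0 k0 → HaltsWithin O (c φ) (κ φ) ∧
    ∀ x : T, Accepts O (c φ) (κ φ) x ↔ x = φ.enc ∨ Accepts O c0 k0 x

/-- ERR: if the weird program accepts a short sentence `falsum v` then a consistent `S` does not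
prove the reflection sentence of the theory with the additional axiom. -/
def Stmt_ERR : Prop := ∀ (μ : Fm), IsUniversal μ → ∀ e0 z0 : ℕ,
  (∀ O : Om, ¬ μ.sat (stdN O) (H19.vec3 e0 0 z0)) → ∃ C : ℕ,
  ∀ (P : OCode → ℕ → Fm), IsFormalisation μ P → ∀ (O : Om) (c : OCode) (κ : ℕ)
    (cN : OCode) (κN : ℕ) (v : T) (M n : ℕ) (S : Set Fm),
    1 ≤ M → v.size ≤ 20 * M → Accepts O c κ (falsum v).enc →
    Accepts O cN κN (con e0 z0 (P c κ)).enc → S12 ⊆ S → diag O ⊆ S → Consistent S →
    (C * M + 2) ^ 2 ^ (C * (fs (P c κ) + 1)) ≤ n → ¬ Provable S (rfn (P cN κN) μ n)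

/-- TRUE: if the weird program accepts nothing then the additional axiom is true. -/
def Stmt_TRUE : Prop := ∀ (μ : Fm), IsUniversal μ → ∀ e0 z0 : ℕ,
  (∀ O : Om, ¬ μ.sat (stdN O) (H19.vec3 e0 0 z0)) → ∀ (P : OCode → ℕ → Fm),
  IsFormalisation μ P → ∀ (c : OCode) (κ : ℕ),
  (mat e0 z0 (P c κ)).isPi = true ∧ (mat e0 z0 (P c κ)).fvBelow 1 ∧
  ∀ O : Om, (∀ x : T, ¬ Accepts O c κ x) →
    ∀ x : ℕ, (mat e0 z0 (P c κ)).sat (stdN O) (fun _ => x)

/-- GROW: the numbers `nn J M` are large enough. -/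
def Stmt_GROW : Prop := ∀ B C D : ℕ, ∃ J0 : ℕ, ∀ J ≥ J0, ∀ M ≥ tow J,
  (C * M + 2) ^ 2 ^ (C * ((B * (J + 1) + 2) ^ D + 1)) ≤ nn J M

/-- FINB: the final bound, in terms of `nn J M`. -/
def Stmt_FINB : Prop := ∀ e J : ℕ, 0 < e → 3 ≤ J → ∃ k D0 : ℕ, ∀ d ≥ D0, ∀ w : ℕ,
  w ^ k ≤ nn J (tow (J + d)) → w ≤ tow (J + d) / e

/-- The theorem for presented theories. -/
def Stmt_PRES : Prop := ∀ (μ : Fm), IsUniversal μ → ∀ (P : OCode → ℕ → Fm),
  IsFormalisation μ P → ∀ (A : Om) (cS : OCode) (kS : ℕ) (c0 : OCode) (k0 : ℕ),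
  ∀ᵐ R ∂coin, HaltsWithin (join A R) cS kS → HaltsWithin (join A R) c0 k0 →
    Consistent (theory (join A R) cS kS) →
    ∃ (ψ : Fm) (c : OCode) (κ : ℕ), ψ.isPi = true ∧ ψ.fvBelow 1 ∧
      (∀ x : ℕ, ψ.sat (stdN (join A R)) fun _ => x) ∧
      (∀ O : Om, HaltsWithin O c0 k0 → HaltsWithin O c κ ∧
        ∀ x : T, Accepts O c κ x ↔ x = (Fm.all ψ).enc ∨ Accepts O c0 k0 x) ∧
      ∃ k : ℕ, ∀ N : ℕ, ∃ n ≥ N, ∀ π : List Step,
        IsProof (theory (join A R) cS kS) π (rfn (P c κ) μ n) →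
          ∀ w : ℕ, w ^ k ≤ n → 2 ^ w < (encProof π).size

/-- The main theorem. -/
def Stmt_MAIN : Prop := ∀ (μ : Fm), IsUniversal μ → ∀ (P : OCode → ℕ → Fm),
  IsFormalisation μ P → ∀ (A : Om), ∀ᵐ R ∂coin,
    ∀ S : Set Fm, InClassT (join A R) S → ∀ (c0 : OCode) (k0 : ℕ),
      HaltsWithin (join A R) c0 k0 →
      (stdN (join A R)).Models (theory (join A R) c0 k0) →
      ∃ (ψ : Fm) (c : OCode) (κ : ℕ), ψ.isPi = true ∧ ψ.fvBelow 1 ∧
        (∀ x : ℕ, ψ.sat (stdN (join A R)) fun _ => x) ∧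
        (∀ O : Om, HaltsWithin O c0 k0 → HaltsWithin O c κ ∧
          ∀ x : T, Accepts O c κ x ↔ x = (Fm.all ψ).enc ∨ Accepts O c0 k0 x) ∧
        InClassT (join A R) (theory (join A R) c κ) ∧
        ∃ k : ℕ, ∀ N : ℕ, ∃ n ≥ N, ∀ π : List Step,
          IsProof S π (rfn (P c κ) μ n) → ∀ w : ℕ, w ^ k ≤ n → 2 ^ w < (encProof π).size

end Pool.Agent.RN
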