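import Pool.Agent.RN.Win

/-!
# A failure gives a short accepted description
-/

namespace Pool.Agent.RN.FFACC

open Pool.Agent.H19 (T PolyTime PolyDec PolyNat Tm scons bn bl ofBool encL tif)
open Pool.Agent.RO
open Pool.Agent.RO

theorem st_spec (A : ℕ → Set Om) (R : Om) :
    ∀ d, st A R d ≤ d ∧ ∀ d', st A R d ≤ d' → d' < d → R ∈ A d' := by
  intro d
  induction d with
  | zero => exact ⟨le_rfl, fun d' _ h => absurd h (Nat.not_lt_zero _)⟩
  | succ d ih =>
    by_cases h : R ∈ A d
    · have h1 : st A R (d + 1) = st A R d := by simp [st, h]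
      rw [h1]
      refine ⟨ih.1.trans (Nat.le_succ d), fun d' h2 h3 => ?_⟩
      rcases Nat.lt_succ_iff_lt_or_eq.1 h3 with h4 | h4
      · exact ih.2 d' h2 h4
      · rw [h4]; exact h
    · have h1 : st A R (d + 1) = d + 1 := by simp [st, h]
      rw [h1]
      exact ⟨le_rfl, fun d' h2 h3 => absurd h3 (by omega)⟩

theorem lgN_pow (k : ℕ) : lgN (2 ^ k) = k := by
  rw [lgN, Nat.size_pow]; rfl

theorem m_succ (p : Par) (s : ℕ) : p.m (s + 1) = 2 ^ p.m s := rfl

/-- The list of derivations `E (a + k - 1), …, E a`. -/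
def mk (E : ℕ → T) (a : ℕ) : ℕ → T
  | 0 => T.leaf
  | k + 1 => T.node (E (a + k)) (mk E a k)

theorem mk_len (E : ℕ → T) (a k : ℕ) : (mk E a k).len = k := by
  induction k with
  | zero => rfl
  | succ k ih => simp [mk, ih]

theorem mk_mem (E : ℕ → T) (a k : ℕ) {x : T} (h : x ∈ (mk E a k).toL) :
    ∃ i < k, x = E (a + i) := by
  induction k with
  | zero => simp [mk, Pool.Agent.H19.T.toL] at h
  | succ k ih =>
    simp only [mk, Pool.Agent.H19.T.toL, List.mem_cons] at h
    rcases h with h | h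
    · exact ⟨k, Nat.lt_succ_self k, h⟩
    · obtain ⟨i, hi, h'⟩ := ih h
      exact ⟨i, hi.trans (Nat.lt_succ_self k), h'⟩

theorem lg_iter (p : Par) (s k : ℕ) : lgN^[k] (p.m (s + k)) = p.m s := by
  induction k with
  | zero => rfl
  | succ k ih =>
    rw [Function.iterate_succ_apply, ← Nat.add_assoc, m_succ, lgN_pow, ih]

theorem chain (p : Par) (j : ℕ) (q : T) (E : ℕ → T) (a k : ℕ)
    (h : ∀ i < k, p.Ok j q (p.m (j + (a + i))) (E (a + i))) :
    p.Chain j q (mk E a k) (p.m (j + (a + k))) := by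
  induction k with
  | zero => exact trivial
  | succ k ih =>
    have h1 : p.m (j + (a + (k + 1))) = 2 ^ p.m (j + (a + k)) := rfl
    simp only [mk, Par.Chain]
    rw [h1, lgN_pow]
    exact ⟨rfl, h k (Nat.lt_succ_self k), ih fun i hi => h i (hi.trans (Nat.lt_succ_self k))⟩

theorem three_le (m : ℕ) (h : 1 ≤ m) : 3 * m + 1 ≤ 2 * 2 ^ m := by
  induction m, h using Nat.le_induction with
  | base => norm_num
  | succ m hm ih => rw [pow_succ]; have : 2 ≤ 2 ^ m := by
                      calc 2 = 2 ^ 1 := rfl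
                        _ ≤ 2 ^ m := Nat.pow_le_pow_right (by norm_num) hm
                    omega

theorem mk_size (p : Par) (j : ℕ) (E : ℕ → T) (a k : ℕ) (hpos : ∀ s, 1 ≤ p.m s)
    (h : ∀ i < k, (E (a + i)).size ≤ 2 ^ (p.m (j + (a + i)))) :
    (mk E a k).size ≤ 3 * p.m (j + (a + k)) + 1 := by
  induction k with
  | zero => simp [mk, T.size]
  | succ k ih =>
    have h1 : p.m (j + (a + (k + 1))) = 2 ^ p.m (j + (a + k)) := rfl
    have h2 := ih fun i hi => h i (hi.trans (Nat.lt_succ_self k))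
    have h3 := h k (Nat.lt_succ_self k)
    have h4 := three_le (p.m (j + (a + k))) (hpos _)
    simp only [mk, T.size]
    rw [h1]
    omega

end Pool.Agent.RN.FFACC

namespace Pool.Agent.RN

open Pool.Agent.H19 (T PolyTime PolyDec PolyNat Tm scons bn bl ofBool encL tif)
open Pool.Agent.RO
open FFACC

theorem FFACC_thm : Stmt_FFACC := by
  have hH : RO.Stmt_HYPS := RO.HYPS_thm
  intro p _ j q R d hR
  have hmono : Monotone p.m := (windows p).mono.monotone
  have hpos : ∀ s, 1 ≤ p.m s := (windows p).pos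
  obtain ⟨hst, hacc⟩ := st_spec (p.Acc j q) R d
  obtain ⟨x, hx, hbits⟩ := hR
  simp only at hx hbits
  set a := st (p.Acc j q) R d with ha
  obtain ⟨k, hk⟩ := Nat.exists_eq_add_of_le hst
  -- choose the derivations
  have hE : ∀ d', ∃ E : T, a ≤ d' → d' < d → (E.size ≤ 2 ^ (p.m (j + d') / p.e) ∧
      IsProof (p.S (join p.A R)) (decProof E) (p.snt q (p.m (j + d')))) := by
    intro d'
    by_cases h : a ≤ d' ∧ d' < d
    · obtain ⟨E, hE⟩ := hacc d' h.1 h.2
      exact ⟨E, fun _ _ => hE⟩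
    · exact ⟨T.leaf, fun h1 h2 => absurd ⟨h1, h2⟩ h⟩
  choose E hE using hE
  have hE' : ∀ i < k, (E (a + i)).size ≤ 2 ^ (p.m (j + (a + i)) / p.e) ∧
      IsProof (p.S (join p.A R)) (decProof (E (a + i))) (p.snt q (p.m (j + (a + i)))) :=
    fun i hi => hE (a + i) (Nat.le_add_right _ _) (by omega)
  have hlen : (mk E a k).len = k := mk_len E a k
  have hM : p.m (j + d) = p.m (j + (a + k)) := by rw [hk]
  have hlg : lgN^[k] (p.m (j + d)) = p.m (j + a) := by
    rw [hM, ← Nat.add_assoc, lg_iter]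
  refine ⟨T.node (T.unary (p.m (j + d))) (T.node (bl x) (mk E a k)), ⟨?_, ?_⟩, ?_⟩
  · refine ⟨⟨p.s0 + (j + d), ?_⟩, ?_, ?_, ?_⟩
    · simp only [T.left, Pool.Agent.H19.T.len_unary]; rfl
    · simp only [T.left, Pool.Agent.H19.T.len_unary]
      exact hmono (Nat.le_add_right _ _)
    · simp only [T.left, T.right, Pool.Agent.H19.T.len_unary, Pool.Agent.H19.bl_len]
      exact Nat.size_le.2 hx
    · simp only [T.left, T.right, Pool.Agent.H19.T.len_unary]
      rw [hM]
      refine chain p j q E a k fun i hi => ⟨hmono (Nat.le_add_right _ _), (hE' i hi).1, ?_⟩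
      exact ((hH _ _ _).1 (hE' i hi).2).1
  · intro y hy
    simp only [RO.Par.items, T.left, T.right, Pool.Agent.H19.T.len_unary, hlen, hlg,
      Pool.Agent.H19.bn_bl, List.mem_append, List.mem_map, List.mem_range,
      List.mem_flatMap] at hy
    rcases hy with ⟨i, hi, rfl⟩ | ⟨F, hF, φ, hφ, rfl⟩
    · have h1 : R (pos (p.m (j + d)) x i) = true := hbits i hi
      have h2 : (2 * pos (p.m (j + d)) x i + 1) % 2 = 1 := by omega
      have h3 : (2 * pos (p.m (j + d)) x i + 1) / 2 = pos (p.m (j + d)) x i := by omega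
      simp only [Par.ItemOK, T.left, T.right, if_true, Pool.Agent.H19.bn_bl, join, h2, h3]
      simpa using h1
    · obtain ⟨i, hi, rfl⟩ := mk_mem E a k hF
      have h1 := ((hH _ _ _).1 (hE' i hi).2).2 φ hφ
      simp only [Par.ItemOK, T.left, T.right]
      rw [if_neg (by simp), decFm_enc]
      exact h1
  · have h1 := mk_size p j E a k hpos fun i hi => (hE' i hi).1.trans
      (Nat.pow_le_pow_right (by norm_num) (Nat.div_le_self _ _))
    rw [← hM] at h1
    have h2 := Pool.Agent.H19.bl_size x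
    have h3 : x.size ≤ p.m (j + d) := Nat.size_le.2 hx
    have h4 := hpos (j + d)
    simp only [T.size, Pool.Agent.H19.T.size_unary]
    omega

end Pool.Agent.RN
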