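import Pool.Agent.RN.All

/-!
# Relative to a random oracle, finite reflection is hard for every theory plus one true axiom

All notions are relativised to an oracle `O ⊆ ℕ`: the language has a predicate symbol for `O`,
`S^1_2(O)` has polynomial induction for `Σ^b_1(O)` formulas, every theory of the class `𝒯`
relative to `O` contains `S^1_2(O)` and the diagram of `O`, and its axioms are decidable in
polynomial time relative to `O`.  Let `μ` be a universal `Σ^b_1(O)` formula and let `P` be an
assignment of `Δ^b_1(O)` proof formulas to clocked programs.  For every oracle `A` and almost every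
`R` (fair coin), relative to `O = A ⊕ R`: for every `S` in `𝒯` and every program `(c₀, κ₀)`
presenting a theory `T₀` that is true in the standard model there is a true sentence `∀x ψ(x)`,
with `ψ` in `Π^b_1(O)`, such that for `T = T₀ + ∀x ψ(x)` (presented by a program that accepts
exactly this sentence and what `(c₀, κ₀)` accepts, relative to every oracle) the `S`-proofs of the
reflection sentence of `T` for `n` have size greater than `2 ^ (n ^ (1/k))` for infinitely many
`n`, for some `k`.
-/

namespace Pool.Agent.RN.OneTrueAxiomResult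

open Pool.Agent.RO

theorem result (μ : Fm) (hμ : IsUniversal μ) (P : OCode → ℕ → Fm) (hP : IsFormalisation μ P)
    (A : Om) :
    ∀ᵐ R ∂coin, ∀ S : Set Fm, InClassT (join A R) S → ∀ (c₀ : OCode) (κ₀ : ℕ),
      HaltsWithin (join A R) c₀ κ₀ →
      (stdN (join A R)).Models (theory (join A R) c₀ κ₀) →
      ∃ (ψ : Fm) (c : OCode) (κ : ℕ), ψ.isPi = true ∧ ψ.fvBelow 1 ∧
        (∀ x : ℕ, ψ.sat (stdN (join A R)) fun _ => x) ∧
        (∀ O : Om, HaltsWithin O c₀ κ₀ → HaltsWithin O c κ ∧
          ∀ x : H19.T, Accepts O c κ x ↔ x = (Fm.all ψ).enc ∨ Accepts O c₀ κ₀ x) ∧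
        InClassT (join A R) (theory (join A R) c κ) ∧
        ∃ k : ℕ, ∀ N : ℕ, ∃ n ≥ N, ∀ π : List Step,
          IsProof S π (rfn (P c κ) μ n) → ∀ w : ℕ, w ^ k ≤ n → 2 ^ w < (encProof π).size :=
  Pool.Agent.RN.main μ hμ P hP A

end Pool.Agent.RN.OneTrueAxiomResult
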