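import Pool.Agent.RN.LOCAL
import Pool.Agent.RN.ACCFF
import Pool.Agent.RN.FFACC
import Pool.Agent.RO.ProbAll

/-!
# Theories with one more true axiom: PRES, the theorem for presented theories
-/

open MeasureTheory

namespace Pool.Agent.RN

open Pool.Agent.H19 (T PolyTime PolyDec PolyNat Tm scons bn bl ofBool encL tif)
open Pool.Agent.RO

namespace PRES

theorem tow_lt (s : ℕ) : tow s < tow (s + 1) := Nat.lt_two_pow_self

theorem tow_mono : StrictMono tow := strictMono_nat_of_lt_succ tow_lt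

theorem one_le_tow (s : ℕ) : 1 ≤ tow s := by
  cases s with
  | zero => exact le_rfl
  | succ s => exact Nat.one_le_two_pow

/-- A number which is larger than the window. -/
theorem le_of_grow {C B D J M n : ℕ}
    (h : ((C + 1) * M + 2) ^ 2 ^ ((C + 1) * ((B * (J + 1) + 2) ^ D + 1)) ≤ n) : M ≤ n := by
  refine le_trans ?_ h
  calc M ≤ (C + 1) * M := Nat.le_mul_of_pos_left _ (Nat.succ_pos C)
    _ ≤ (C + 1) * M + 2 := Nat.le_add_right _ _
    _ = ((C + 1) * M + 2) ^ 1 := (pow_one _).symm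
    _ ≤ _ := Nat.pow_le_pow_right (by omega) Nat.one_le_two_pow

theorem grow_mono {C B D J M n f : ℕ} (hf : f ≤ (B * (J + 1) + 2) ^ D)
    (h : ((C + 1) * M + 2) ^ 2 ^ ((C + 1) * ((B * (J + 1) + 2) ^ D + 1)) ≤ n) :
    (C * M + 2) ^ 2 ^ (C * (f + 1)) ≤ n := by
  refine le_trans ?_ h
  have h1 : C * M + 2 ≤ (C + 1) * M + 2 :=
    Nat.add_le_add_right (Nat.mul_le_mul_right _ (Nat.le_succ C)) _
  have h2 : C * (f + 1) ≤ (C + 1) * ((B * (J + 1) + 2) ^ D + 1) :=
    Nat.mul_le_mul (Nat.le_succ C) (Nat.add_le_add_right hf 1)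
  calc (C * M + 2) ^ 2 ^ (C * (f + 1)) ≤ ((C + 1) * M + 2) ^ 2 ^ (C * (f + 1)) :=
        Nat.pow_le_pow_left h1 _
    _ ≤ _ := Nat.pow_le_pow_right (by omega) (Nat.pow_le_pow_right (by norm_num) h2)

end PRES

open PRES in
theorem PRES_thm (hP : Stmt_PROG) (hC : Stmt_CONP) (hN : Stmt_NAT) (hE : Stmt_ERR)
    (hT : Stmt_TRUE) (hG : Stmt_GROW) (hF : Stmt_FINB) : Stmt_PRES := by
  intro μ hμ P hPf A cS kS c0 k0
  obtain ⟨e0, z0, hfalse⟩ := hμ.false_instance
  obtain ⟨fP, hfP, hfPe⟩ := hPf.poly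
  obtain ⟨cn, κn, g, hg, hge, hNat⟩ := hN c0 k0
  obtain ⟨hh, hhp, hhe⟩ := hC e0 z0
  obtain ⟨C, hErr⟩ := hE μ hμ e0 z0 hfalse
  have hTr := hT μ hμ e0 z0 hfalse P hPf
  set F : T → T := fun x => fP (g (hh (fP x))) with hFdef
  have hFp : PolyTime F := hfP.comp (hg.comp (hhp.comp hfP))
  have hFe : ∀ (c : OCode) (κ : ℕ), F (T.node c.enc (T.unary κ)) =
      (P (cn (con e0 z0 (P c κ))) (κn (con e0 z0 (P c κ)))).enc := by
    intro c κ
    simp only [hFdef]
    rw [hfPe, hhe, hge, hfPe]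
  obtain ⟨B, c, κ, hsize, hprog⟩ := hP A cS kS F μ hFp
  obtain ⟨D, hD⟩ := hfP.size_bound
  obtain ⟨J0, hJ0⟩ := hG B (C + 1) D
  set J1 : ℕ := J0 + (40 * (kS + 1) + 3) with hJ1
  set q : ℕ → T := fun J => T.node (c J).enc (T.unary (κ J)) with hq
  set p : ℕ → Par := fun j => par A cS kS F μ (J1 + j) with hp
  have hgood : ∀ j, (p j).Good := by
    intro j
    refine ⟨rfl, ?_⟩
    show 40 * (kS + 1) ≤ tow (J1 + j)
    have h1 : J1 + j ≤ tow (J1 + j) := tow_mono.le_apply
    omega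
  have hmj : ∀ j d, (p j).m (0 + d) = tow (J1 + (j + d)) := by
    intro j d
    show tow (J1 + j + (0 + d)) = tow (J1 + (j + d))
    congr 1
    omega
  -- the size of the proof formula
  have hfs : ∀ J, fs (P (c J) (κ J)) ≤ (B * (J + 1) + 2) ^ D := by
    intro J
    unfold fs
    rw [← hfPe]
    refine (hD _).trans (Nat.pow_le_pow_left (Nat.add_le_add_right (hsize J) 2) D)
  have hgrow : ∀ J, J1 ≤ J → ∀ M, tow J ≤ M →
      ((C + 1) * M + 2) ^ 2 ^ ((C + 1) * ((B * (J + 1) + 2) ^ D + 1)) ≤ nn J M := by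
    intro J hJ M hM
    exact hJ0 J (by omega) M hM
  -- the sentence
  have hsent : ∀ j M, (p j).snt (q (J1 + j)) M =
      rfn (P (cn (con e0 z0 (P (c (J1 + j)) (κ (J1 + j)))))
        (κn (con e0 z0 (P (c (J1 + j)) (κ (J1 + j)))))) μ (nn (J1 + j) M) := by
    intro j M
    show rfn (decFm (F (q (J1 + j)))) μ (nn (J1 + j) M) = _
    rw [show F (q (J1 + j)) = _ from hFe _ _, decFm_enc]
  have hCR := RO.core (fun d => tow (J1 + d)) (fun d => pos (tow (J1 + d)))
    (fun j => (p j).Acc 0 (q (J1 + j))) (windows (par A cS kS F μ J1)) (by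
      intro j
      have h1 := LOCAL_thm (p j) (hgood j) 0 (q (J1 + j))
      have e1 : (fun d => (p j).m (0 + d)) = fun d => tow (J1 + (j + d)) := by
        funext d
        exact hmj j d
      have e2 : (fun d => (p j).β (0 + d)) = fun d => pos (tow (J1 + (j + d))) := by
        funext d x i
        show pos ((p j).m (0 + d)) x i = _
        rw [hmj]
      rw [e1, e2] at h1
      exact h1)
  have e1 : ∀ j, (fun d => (p j).m (0 + d)) = fun d => tow (J1 + (j + d)) := by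
    intro j
    funext d
    exact hmj j d
  have e2 : ∀ j, (fun d => (p j).β (0 + d)) = fun d => pos (tow (J1 + (j + d))) := by
    intro j
    funext d x i
    show pos ((p j).m (0 + d)) x i = _
    rw [hmj]
  filter_upwards [hCR] with R hR hHS hH0 hcS
  have hprog' := fun J => (hprog J (join A R) hHS).2
  rcases hR with ⟨j, d, hAcc, hFF⟩ | ⟨j, hnoF, hinf⟩
  · exfalso
    have hFF' : R ∈ FF (fun d => (p j).m (0 + d)) (fun d => (p j).β (0 + d))
        ((p j).Acc 0 (q (J1 + j))) d := by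
      rw [e1, e2]
      exact hFF
    obtain ⟨v, hv, hvs⟩ := FFACC_thm (p j) (hgood j) 0 (q (J1 + j)) R d hFF'
    obtain ⟨E, -, hEp⟩ := hAcc
    rw [hmj] at hvs
    rw [hmj, hsent] at hEp
    have hacc : Accepts (join A R) (c (J1 + j)) (κ (J1 + j)) (falsum v).enc := by
      rw [hprog']
      unfold Want
      rw [unfalsum_enc]
      exact ⟨rfl, hv⟩
    have hN1 := hNat (con e0 z0 (P (c (J1 + j)) (κ (J1 + j)))) (join A R) hH0
    refine hErr P hPf (join A R) (c (J1 + j)) (κ (J1 + j)) _ _ v (tow (J1 + (j + d)))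
      (nn (J1 + j) (tow (J1 + (j + d)))) (theory (join A R) cS kS) (one_le_tow _) hvs hacc
      ((hN1.2 _).2 (Or.inl rfl)) (fun φ hφ => Or.inl hφ) (fun φ hφ => Or.inr (Or.inl hφ)) hcS ?_
      ⟨_, hEp⟩
    refine grow_mono (hfs _) (hgrow (J1 + j) (by omega) _ ?_)
    rw [← Nat.add_assoc]
    exact tow_mono.monotone (by omega)
  · have hno : ∀ x : T, ¬ Accepts (join A R) (c (J1 + j)) (κ (J1 + j)) x := by
      intro x hx
      rw [hprog'] at hx
      obtain ⟨d, hd⟩ := ACCFF_thm (p j) 0 (q (J1 + j)) R _ hx.2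
      rw [e1, e2] at hd
      exact hnoF d hd
    obtain ⟨hpi, hfv, hsat⟩ := hTr (c (J1 + j)) (κ (J1 + j))
    obtain ⟨k, D0, hk⟩ := hF (4 * (kS + 1)) (J1 + j) (by omega) (by omega)
    refine ⟨mat e0 z0 (P (c (J1 + j)) (κ (J1 + j))), cn (con e0 z0 (P (c (J1 + j)) (κ (J1 + j)))),
      κn (con e0 z0 (P (c (J1 + j)) (κ (J1 + j)))), hpi, hfv, hsat (join A R) hno,
      fun O hO => hNat _ O hO, k, fun N => ?_⟩
    obtain ⟨d, hd, hdA⟩ := hinf (max N D0)
    refine ⟨nn (J1 + j) (tow (J1 + (j + d))), ?_, fun π hπ w hw => ?_⟩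
    · have h1 : tow (J1 + (j + d)) ≤ nn (J1 + j) (tow (J1 + (j + d))) :=
        le_of_grow (hgrow (J1 + j) (by omega) _ (tow_mono.monotone (by omega)))
      have h2 : J1 + (j + d) ≤ tow (J1 + (j + d)) := tow_mono.le_apply
      have h3 : N ≤ d := (le_max_left _ _).trans hd
      show N ≤ nn (J1 + j) (tow (J1 + (j + d)))
      omega
    · by_contra hlt
      rw [not_lt] at hlt
      have h1 : w ≤ tow (J1 + j + d) / (4 * (kS + 1)) := by
        refine hk d ((le_max_right _ _).trans hd) w ?_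
        rw [show J1 + j + d = J1 + (j + d) from Nat.add_assoc _ _ _]
        exact hw
      refine hdA ⟨encProof π, ?_, ?_⟩
      · rw [hmj]
        refine hlt.trans ?_
        rw [show J1 + j + d = J1 + (j + d) from Nat.add_assoc _ _ _] at h1
        exact Nat.pow_le_pow_right (by norm_num) h1
      · rw [decProof_enc, hmj, hsent]
        exact hπ

end Pool.Agent.RN
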