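import Pool.Agent.RO.Chk

/-!
# Short proofs of true `Σ^b_1(O)` sentences: definitions and statements of the modules

`Pr Th l s φ`: the formula `φ` has a proof from `Th` with at most `l` lines, all of size at most
`s`. The aim is `Stmt_PC`: true closed instances of `Σ^b_1(O)` formulas have short proofs from
`S^1_2(O)` and the diagram of `O`, with an explicit bound.
-/

namespace Pool.Agent.RN

open Pool.Agent.H19 (T Tm scons)
open Pool.Agent.RO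

/-! ### Closing a formula by numerals -/

/-- Replace the variable `d + i` of a term by the numeral of `v i`, for all `i`; the variables
below `d` are kept. -/
def clT (v : ℕ → ℕ) (d : ℕ) : Tm → Tm
  | Tm.var i => if i < d then Tm.var i else Tm.numeral (v (i - d))
  | Tm.zero => Tm.zero
  | Tm.succ t => Tm.succ (clT v d t)
  | Tm.half t => Tm.half (clT v d t)
  | Tm.len t => Tm.len (clT v d t)
  | Tm.add s t => Tm.add (clT v d s) (clT v d t)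
  | Tm.mul s t => Tm.mul (clT v d s) (clT v d t)
  | Tm.smash s t => Tm.smash (clT v d s) (clT v d t)

/-- Replace the free variable `d + i` of a formula by the numeral of `v i`, for all `i`. -/
def clF (v : ℕ → ℕ) : ℕ → Fm → Fm
  | _, Fm.bot => Fm.bot
  | d, Fm.eq s t => Fm.eq (clT v d s) (clT v d t)
  | d, Fm.le s t => Fm.le (clT v d s) (clT v d t)
  | d, Fm.rel t => Fm.rel (clT v d t)
  | d, Fm.imp φ ψ => Fm.imp (clF v d φ) (clF v d ψ)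
  | d, Fm.all φ => Fm.all (clF v (d + 1) φ)

/-- Size of (the code of) a formula. -/
def fs (φ : Fm) : ℕ := φ.enc.size

/-- Size of (the code of) a term. -/
def ts (t : Tm) : ℕ := t.enc.size

/-- `φ` has a proof from `Th` with at most `l` lines, all of size at most `s`. -/
def Pr (Th : Set Fm) (l s : ℕ) (φ : Fm) : Prop :=
  ∃ π : List Step, IsProof Th π φ ∧ π.length ≤ l ∧ ∀ a ∈ π, a.enc.size ≤ s

/-! ### SUB: substitution -/

/-- Facts about closing, substitution and sizes. -/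
structure Sub : Prop where
  instF : ∀ (v : ℕ → ℕ) (a d : ℕ) (φ : Fm),
    (clF v (d + 1) φ).inst d (Tm.numeral a) = clF (scons a v) d φ
  instT : ∀ (v : ℕ → ℕ) (a d : ℕ) (t : Tm),
    (clT v (d + 1) t).inst d (Tm.numeral a) = clT (scons a v) d t
  ofBelowF : ∀ (v : ℕ → ℕ) (d : ℕ) (φ : Fm), φ.fvBelow d → clF v d φ = φ
  ofBelowT : ∀ (v : ℕ → ℕ) (d : ℕ) (t : Tm), t.fvBelow d → clT v d t = t
  belowF : ∀ (v : ℕ → ℕ) (d : ℕ) (φ : Fm), (clF v d φ).fvBelow d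
  belowT : ∀ (v : ℕ → ℕ) (d : ℕ) (t : Tm), (clT v d t).fvBelow d
  monoF : ∀ (φ : Fm) (k k' : ℕ), φ.fvBelow k → k ≤ k' → φ.fvBelow k'
  monoT : ∀ (t : Tm) (k k' : ℕ), t.fvBelow k → k ≤ k' → t.fvBelow k'
  exBelowF : ∀ φ : Fm, ∃ k, φ.fvBelow k
  numBelow : ∀ n k : ℕ, (Tm.numeral n).fvBelow k
  /-- substitution and shift have no effect above the free variables -/
  instIdF : ∀ (φ : Fm) (k : ℕ) (t : Tm), φ.fvBelow k → φ.inst k t = φ
  instIdT : ∀ (s : Tm) (k : ℕ) (t : Tm), s.fvBelow k → s.inst k t = s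
  shiftIdF : ∀ (φ : Fm) (k d : ℕ), φ.fvBelow k → φ.shift k d = φ
  shiftIdT : ∀ (s : Tm) (k d : ℕ), s.fvBelow k → s.shift k d = s
  instShiftF : ∀ (φ : Fm) (k : ℕ) (t : Tm), (φ.shift k 1).inst k t = φ
  instShiftT : ∀ (s : Tm) (k : ℕ) (t : Tm), (s.shift k 1).inst k t = s
  /-- a term without the variable `0` -/
  occT : ∀ (v : ℕ → ℕ) (a : ℕ) (t : Tm), t.occurs 0 = false →
    clT v 1 t = clT (scons a v) 0 t
  sat : ∀ (v : ℕ → ℕ) (O : Om) (φ : Fm) (w : ℕ → ℕ),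
    (clF v 0 φ).sat (stdN O) w ↔ φ.sat (stdN O) v
  sigma : ∀ (φ : Fm) (k a : ℕ), (φ.inst k (Tm.numeral a)).isSigma = φ.isSigma
  pi : ∀ (φ : Fm) (k a : ℕ), (φ.inst k (Tm.numeral a)).isPi = φ.isPi
  instBelowF : ∀ (φ : Fm) (k a : ℕ), φ.fvBelow (k + 1) →
    (φ.inst k (Tm.numeral a)).fvBelow k
  /-- instantiation at `0` of the lowest variable of a formula with more variables -/
  instBelowF0 : ∀ (φ : Fm) (k a : ℕ), φ.fvBelow (k + 1) →
    (φ.inst 0 (Tm.numeral a)).fvBelow k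
  /-- sizes -/
  numSize : ∀ n : ℕ, ts (Tm.numeral n) ≤ 60 * (n.size + 1)
  sizeF : ∀ (v : ℕ → ℕ) (L d : ℕ) (φ : Fm), (∀ i, (v i).size ≤ L) →
    fs (clF v d φ) ≤ 60 * (L + 1) * fs φ
  sizeT : ∀ (v : ℕ → ℕ) (L d : ℕ) (t : Tm), (∀ i, (v i).size ≤ L) →
    ts (clT v d t) ≤ 60 * (L + 1) * ts t
  instSizeF : ∀ (φ : Fm) (k a : ℕ), fs (φ.inst k (Tm.numeral a)) ≤ 60 * (a.size + 1) * fs φ
  instSizeT : ∀ (t : Tm) (k a : ℕ), ts (t.inst k (Tm.numeral a)) ≤ 60 * (a.size + 1) * ts t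
  shiftSizeF : ∀ (φ : Fm) (k d : ℕ), fs (φ.shift k d) ≤ (2 * d + 1) * fs φ
  shiftSizeT : ∀ (t : Tm) (k d : ℕ), ts (t.shift k d) ≤ (2 * d + 1) * ts t
  /-- numerals -/
  num0 : Tm.numeral 0 = Tm.zero
  numEven : ∀ a : ℕ, a ≠ 0 → Tm.numeral (2 * a) = Tm.mul Tm.two (Tm.numeral a)
  numOdd : ∀ a : ℕ, Tm.numeral (2 * a + 1) = Tm.succ (Tm.mul Tm.two (Tm.numeral a))

/-! ### CALC: derived rules -/

/-- The derived rules of the calculus, with bounds. -/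
structure Calc : Prop where
  mono : ∀ {Th : Set Fm} {l s l' s' : ℕ} {φ : Fm}, Pr Th l s φ → l ≤ l' → s ≤ s' →
    Pr Th l' s' φ
  monoTh : ∀ {Th Th' : Set Fm} {l s : ℕ} {φ : Fm}, Pr Th l s φ → Th ⊆ Th' → Pr Th' l s φ
  size : ∀ {Th : Set Fm} {l s : ℕ} {φ : Fm}, Pr Th l s φ →
    ∃ π, IsProof Th π φ ∧ (encProof π).size ≤ l * (s + 1) + 1
  ofProvable : ∀ {Th : Set Fm} {φ : Fm}, Provable Th φ → ∃ C, Pr Th C C φ
  hyp : ∀ {Th : Set Fm} {s : ℕ} {φ : Fm}, φ ∈ Th → 1000 * (fs φ + 1) ≤ s → Pr Th 1000 s φ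
  mp : ∀ {Th : Set Fm} {l l' s : ℕ} {a b : Fm}, Pr Th l s (Fm.imp a b) → Pr Th l' s a →
    1000 * (fs a + fs b + 1) ≤ s → Pr Th (l + l' + 1000) s b
  gen : ∀ {Th : Set Fm} {l s : ℕ} {φ : Fm}, Pr Th l s φ → 1000 * (fs φ + 1) ≤ s →
    Pr Th (l + 1000) s (Fm.all φ)
  inst : ∀ {Th : Set Fm} {l s : ℕ} {φ : Fm} {t : Tm}, Pr Th l s (Fm.all φ) →
    1000 * (fs φ + ts t + fs (φ.inst 0 t) + 1) ≤ s → Pr Th (l + 1000) s (φ.inst 0 t)
  weak : ∀ {Th : Set Fm} {l s : ℕ} {a b : Fm}, Pr Th l s b →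
    1000 * (fs a + fs b + 1) ≤ s → Pr Th (l + 1000) s (Fm.imp a b)
  exf : ∀ {Th : Set Fm} {l s : ℕ} {a b : Fm}, Pr Th l s (Fm.neg a) →
    1000 * (fs a + fs b + 1) ≤ s → Pr Th (l + 1000) s (Fm.imp a b)
  botE : ∀ {Th : Set Fm} {l s : ℕ} {b : Fm}, Pr Th l s Fm.bot →
    1000 * (fs b + 1) ≤ s → Pr Th (l + 1000) s b
  nbot : ∀ {Th : Set Fm} {s : ℕ}, 100000 ≤ s → Pr Th 1000 s (Fm.neg Fm.bot)
  nimp : ∀ {Th : Set Fm} {l l' s : ℕ} {a b : Fm}, Pr Th l s a → Pr Th l' s (Fm.neg b) →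
    1000 * (fs a + fs b + 1) ≤ s → Pr Th (l + l' + 1000) s (Fm.neg (Fm.imp a b))
  nall : ∀ {Th : Set Fm} {l s : ℕ} {φ : Fm} {t : Tm}, Pr Th l s (Fm.neg (φ.inst 0 t)) →
    1000 * (fs φ + ts t + fs (φ.inst 0 t) + 1) ≤ s → Pr Th (l + 1000) s (Fm.neg (Fm.all φ))
  trans : ∀ {Th : Set Fm} {l l' s : ℕ} {a b c : Fm}, Pr Th l s (Fm.imp a b) →
    Pr Th l' s (Fm.imp b c) → 1000 * (fs a + fs b + fs c + 1) ≤ s →
    Pr Th (l + l' + 1000) s (Fm.imp a c)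
  cases : ∀ {Th : Set Fm} {l l' l'' s : ℕ} {a b c d : Fm}, Pr Th l s (Fm.imp a (Fm.or b c)) →
    Pr Th l' s (Fm.imp b d) → Pr Th l'' s (Fm.imp c d) →
    1000 * (fs a + fs b + fs c + fs d + 1) ≤ s → Pr Th (l + l' + l'' + 1000) s (Fm.imp a d)
  /-- equality: replace `x` by `y` in a formula -/
  subst : ∀ {Th : Set Fm} {l l' s : ℕ} {φ : Fm} {x y : Tm}, Pr Th l s (Fm.eq x y) →
    Pr Th l' s (φ.inst 0 x) →
    1000 * (fs φ + ts x + ts y + fs (φ.inst 0 x) + fs (φ.inst 0 y) + 1) ≤ s →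
    Pr Th (l + l' + 1000) s (φ.inst 0 y)
  /-- equality under a hypothesis: `x = y → φ(x) → φ(y)` -/
  substI : ∀ {Th : Set Fm} {s : ℕ} {φ : Fm} {x y : Tm},
    1000 * (fs φ + ts x + ts y + fs (φ.inst 0 x) + fs (φ.inst 0 y) + 1) ≤ s →
    Pr Th 1000 s (Fm.imp (Fm.eq x y) (Fm.imp (φ.inst 0 x) (φ.inst 0 y)))
  refl : ∀ {Th : Set Fm} {s : ℕ} {x : Tm}, 1000 * (ts x + 1) ≤ s → Pr Th 1000 s (Fm.eq x x)
  symm : ∀ {Th : Set Fm} {l s : ℕ} {x y : Tm}, Pr Th l s (Fm.eq x y) →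
    1000 * (ts x + ts y + 1) ≤ s → Pr Th (l + 1000) s (Fm.eq y x)
  etrans : ∀ {Th : Set Fm} {l l' s : ℕ} {x y z : Tm}, Pr Th l s (Fm.eq x y) →
    Pr Th l' s (Fm.eq y z) → 1000 * (ts x + ts y + ts z + 1) ≤ s →
    Pr Th (l + l' + 1000) s (Fm.eq x z)
  succ : ∀ {Th : Set Fm} {l s : ℕ} {x y : Tm}, Pr Th l s (Fm.eq x y) →
    1000 * (ts x + ts y + 1) ≤ s → Pr Th (l + 1000) s (Fm.eq (Tm.succ x) (Tm.succ y))
  half : ∀ {Th : Set Fm} {l s : ℕ} {x y : Tm}, Pr Th l s (Fm.eq x y) →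
    1000 * (ts x + ts y + 1) ≤ s → Pr Th (l + 1000) s (Fm.eq (Tm.half x) (Tm.half y))
  len : ∀ {Th : Set Fm} {l s : ℕ} {x y : Tm}, Pr Th l s (Fm.eq x y) →
    1000 * (ts x + ts y + 1) ≤ s → Pr Th (l + 1000) s (Fm.eq (Tm.len x) (Tm.len y))
  add : ∀ {Th : Set Fm} {l l' s : ℕ} {x y x' y' : Tm}, Pr Th l s (Fm.eq x y) →
    Pr Th l' s (Fm.eq x' y') → 1000 * (ts x + ts y + ts x' + ts y' + 1) ≤ s →
    Pr Th (l + l' + 1000) s (Fm.eq (Tm.add x x') (Tm.add y y'))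
  mul : ∀ {Th : Set Fm} {l l' s : ℕ} {x y x' y' : Tm}, Pr Th l s (Fm.eq x y) →
    Pr Th l' s (Fm.eq x' y') → 1000 * (ts x + ts y + ts x' + ts y' + 1) ≤ s →
    Pr Th (l + l' + 1000) s (Fm.eq (Tm.mul x x') (Tm.mul y y'))
  smash : ∀ {Th : Set Fm} {l l' s : ℕ} {x y x' y' : Tm}, Pr Th l s (Fm.eq x y) →
    Pr Th l' s (Fm.eq x' y') → 1000 * (ts x + ts y + ts x' + ts y' + 1) ≤ s →
    Pr Th (l + l' + 1000) s (Fm.eq (Tm.smash x x') (Tm.smash y y'))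
  /-- atomic formulas respect equality -/
  leC : ∀ {Th : Set Fm} {l l' l'' s : ℕ} {x y x' y' : Tm}, Pr Th l s (Fm.eq x y) →
    Pr Th l' s (Fm.eq x' y') → Pr Th l'' s (Fm.le y y') →
    1000 * (ts x + ts y + ts x' + ts y' + 1) ≤ s →
    Pr Th (l + l' + l'' + 1000) s (Fm.le x x')
  nleC : ∀ {Th : Set Fm} {l l' l'' s : ℕ} {x y x' y' : Tm}, Pr Th l s (Fm.eq x y) →
    Pr Th l' s (Fm.eq x' y') → Pr Th l'' s (Fm.neg (Fm.le y y')) →
    1000 * (ts x + ts y + ts x' + ts y' + 1) ≤ s →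
    Pr Th (l + l' + l'' + 1000) s (Fm.neg (Fm.le x x'))
  neqC : ∀ {Th : Set Fm} {l l' l'' s : ℕ} {x y x' y' : Tm}, Pr Th l s (Fm.eq x y) →
    Pr Th l' s (Fm.eq x' y') → Pr Th l'' s (Fm.neg (Fm.eq y y')) →
    1000 * (ts x + ts y + ts x' + ts y' + 1) ≤ s →
    Pr Th (l + l' + l'' + 1000) s (Fm.neg (Fm.eq x x'))
  relC : ∀ {Th : Set Fm} {l l' s : ℕ} {x y : Tm}, Pr Th l s (Fm.eq x y) →
    Pr Th l' s (Fm.rel y) → 1000 * (ts x + ts y + 1) ≤ s →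
    Pr Th (l + l' + 1000) s (Fm.rel x)
  nrelC : ∀ {Th : Set Fm} {l l' s : ℕ} {x y : Tm}, Pr Th l s (Fm.eq x y) →
    Pr Th l' s (Fm.neg (Fm.rel y)) → 1000 * (ts x + ts y + 1) ≤ s →
    Pr Th (l + l' + 1000) s (Fm.neg (Fm.rel x))

/-! ### QFC and FACTS: completeness for quantifier-free formulas, facts provable from BASIC -/

/-- The formula has no quantifier. -/
def qf : Fm → Bool
  | Fm.bot => true
  | Fm.eq _ _ => true
  | Fm.le _ _ => true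
  | Fm.rel _ => true
  | Fm.imp φ ψ => qf φ && qf ψ
  | Fm.all _ => false

/-- QFC: a quantifier-free formula that holds in all models of BASIC is provable. -/
def Stmt_QFC : Prop := ∀ θ : Fm, qf θ = true →
  (∀ (M : Type) (A : Str M), (∀ φ ∈ basicList, ∀ v : ℕ → M, φ.sat A v) →
    ∀ v : ℕ → M, θ.sat A v) → Provable S12 θ

section
open Pool.Agent.H19.Tm (var succ half len add mul smash two)
open Pool.Agent.RO.Fm (imp neg)

/-- The numeral of `1`. -/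
def one : Tm := succ (mul two Tm.zero)

/-- The facts about numbers that are used. -/
def factList : List Fm :=
  let x := var 0
  let y := var 1
  let nz := Fm.neg (Fm.eq x Tm.zero)
  [ Fm.eq (succ Tm.zero) one,
    Fm.eq (succ (succ (mul two x))) (mul two (succ x)),
    Fm.eq (add (mul two x) (mul two y)) (mul two (add x y)),
    Fm.eq (add (succ (mul two x)) (mul two y)) (succ (mul two (add x y))),
    Fm.eq (add (mul two x) (succ (mul two y))) (succ (mul two (add x y))),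
    Fm.eq (add (succ (mul two x)) (succ (mul two y))) (mul two (succ (add x y))),
    Fm.eq (add Tm.zero x) x,
    Fm.eq (add x Tm.zero) x,
    Fm.eq (mul (mul two x) y) (mul two (mul x y)),
    Fm.eq (mul (succ (mul two x)) y) (add (mul two (mul x y)) y),
    Fm.eq (mul Tm.zero x) Tm.zero,
    Fm.eq (mul two Tm.zero) Tm.zero,
    Fm.eq (half (mul two x)) x,
    Fm.eq (half (succ (mul two x))) x,
    Fm.eq (half Tm.zero) Tm.zero,
    Fm.eq (len Tm.zero) Tm.zero,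
    Fm.eq (len (succ (mul two x))) (succ (len x)),
    imp nz (Fm.eq (len (mul two x)) (succ (len x))),
    neg (Fm.eq (succ x) Tm.zero),
    imp nz (neg (Fm.eq (mul two x) Tm.zero)),
    Fm.eq (smash Tm.zero x) one,
    Fm.eq (smash x Tm.zero) one,
    Fm.eq (smash one one) (mul two one),
    imp nz (Fm.eq (smash one (mul two x)) (mul two (smash one x))),
    imp nz (Fm.eq (smash one (succ (mul two x))) (mul two (smash one x))),
    imp nz (Fm.eq (smash (mul two x) y) (mul (smash x y) (smash one y))),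
    imp nz (Fm.eq (smash (succ (mul two x)) y) (mul (smash x y) (smash one y))),
    Fm.le x (add x y),
    imp (Fm.le (succ x) y) (neg (Fm.eq x y)),
    imp (Fm.le (succ x) y) (neg (Fm.eq y x)),
    imp (Fm.le (succ x) y) (neg (Fm.le y x)),
    imp (Fm.le x (succ y)) (Fm.or (Fm.le x y) (Fm.eq x (succ y))),
    imp (Fm.le x Tm.zero) (Fm.eq x Tm.zero) ]

end

/-- FACTS: these facts are provable. -/
def Stmt_FACTS : Prop := ∀ θ ∈ factList, Provable S12 θ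

/-- INST: instances by numerals of a provable formula have short proofs. -/
def Stmt_INST : Prop := ∀ θ : Fm, Provable S12 θ → ∃ C : ℕ, ∀ (Th : Set Fm), S12 ⊆ Th →
  ∀ (v : ℕ → ℕ) (L : ℕ), (∀ i, (v i).size ≤ L) → Pr Th C (C * (L + 1)) (clF v 0 θ)

/-! ### Arithmetic of numerals -/

/-- NUM1: successor and addition. -/
def Stmt_NUM1 : Prop := ∃ C : ℕ, ∀ (Th : Set Fm), S12 ⊆ Th → ∀ L a b : ℕ,
  a.size ≤ L → b.size ≤ L →
  Pr Th (C * (L + 1)) (C * (L + 1)) (Fm.eq (Tm.succ (Tm.numeral a)) (Tm.numeral (a + 1))) ∧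
  Pr Th (C * (L + 1) ^ 2) (C * (L + 1))
    (Fm.eq (Tm.add (Tm.numeral a) (Tm.numeral b)) (Tm.numeral (a + b)))

/-- ORD: order and inequality. -/
def Stmt_ORD : Prop := ∃ C : ℕ, ∀ (Th : Set Fm), S12 ⊆ Th → ∀ L a b : ℕ,
  a.size ≤ L → b.size ≤ L →
  (a ≤ b → Pr Th (C * (L + 1) ^ 2) (C * (L + 1)) (Fm.le (Tm.numeral a) (Tm.numeral b))) ∧
  (b < a → Pr Th (C * (L + 1) ^ 2) (C * (L + 1))
    (Fm.neg (Fm.le (Tm.numeral a) (Tm.numeral b)))) ∧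
  (a ≠ b → Pr Th (C * (L + 1) ^ 2) (C * (L + 1))
    (Fm.neg (Fm.eq (Tm.numeral a) (Tm.numeral b))))

/-- NUM2: multiplication and smash. -/
def Stmt_NUM2 : Prop := ∃ C : ℕ, ∀ (Th : Set Fm), S12 ⊆ Th → ∀ L a b : ℕ,
  a.size ≤ L → b.size ≤ L →
  Pr Th (C * (L + 1) ^ 8) (C * (L + 1) ^ 2)
    (Fm.eq (Tm.mul (Tm.numeral a) (Tm.numeral b)) (Tm.numeral (a * b))) ∧
  Pr Th (C * (L + 1) ^ 8) (C * (L + 1) ^ 2)
    (Fm.eq (Tm.smash (Tm.numeral a) (Tm.numeral b)) (Tm.numeral (2 ^ (a.size * b.size))))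

/-- NUM3: half and length. -/
def Stmt_NUM3 : Prop := ∃ C : ℕ, ∀ (Th : Set Fm), S12 ⊆ Th → ∀ L a : ℕ, a.size ≤ L →
  Pr Th (C * (L + 1) ^ 2) (C * (L + 1))
    (Fm.eq (Tm.half (Tm.numeral a)) (Tm.numeral (a / 2))) ∧
  Pr Th (C * (L + 1) ^ 2) (C * (L + 1)) (Fm.eq (Tm.len (Tm.numeral a)) (Tm.numeral a.size))

/-- TERM: evaluation of closed terms. -/
def Stmt_TERM : Prop := ∃ C : ℕ, ∀ (Th : Set Fm), S12 ⊆ Th → ∀ (t : Tm) (v : ℕ → ℕ) (L : ℕ),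
  (∀ i, (v i).size ≤ L) → (t.val H19.stdN v).size ≤ (L + 2) ^ ts t ∧
  Pr Th ((L + 2) ^ (C * ts t)) ((L + 2) ^ (C * ts t))
    (Fm.eq (clT v 0 t) (Tm.numeral (t.val H19.stdN v)))

/-- BALL: a bounded quantification from its instances. -/
def Stmt_BALL : Prop := ∃ C : ℕ, ∀ (Th : Set Fm), S12 ⊆ Th → ∀ (χ : Fm) (b l s : ℕ),
  χ.fvBelow 1 → (∀ a ≤ b, Pr Th l s (χ.inst 0 (Tm.numeral a))) →
  Pr Th ((b + 1) * (l + C * (b.size + 1) ^ 2)) (s + C * (fs χ + 1) * (b.size + 1))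
    (Fm.all (Fm.imp (Fm.le (Tm.var 0) (Tm.numeral b)) χ))

/-- The bound for the number of lines and their size. -/
def Bd (C a L : ℕ) : ℕ := (L + 2) ^ (2 ^ (C * a))

/-- PC: true closed instances of `Σ^b_1(O)` formulas have short proofs, false closed instances of
`Π^b_1(O)` formulas have short refutations. -/
def Stmt_PC : Prop := ∃ C : ℕ, ∀ (O : Om) (α : Fm) (v : ℕ → ℕ) (L : ℕ),
  (∀ i, (v i).size ≤ L) →
  (α.isSigma = true → α.sat (stdN O) v →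
    Pr (S12 ∪ diag O) (Bd C (fs α) L) (Bd C (fs α) L) (clF v 0 α)) ∧
  (α.isPi = true → ¬ α.sat (stdN O) v →
    Pr (S12 ∪ diag O) (Bd C (fs α) L) (Bd C (fs α) L) (Fm.neg (clF v 0 α)))

end Pool.Agent.RN
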