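import Pool.Agent.RN.Cst
import Pool.Agent.RO.WINSYS
import Pool.Agent.RO.HYPS
import Pool.Agent.RO.PROGRAM

/-! # The windows -/

namespace Pool.Agent.RN

open Pool.Agent.RO

theorem windows (p : Par) : Windows p.m p.β :=
  RO.WINSYS_thm ⟨p.A, p.cS, p.kS, OCode.id, 0, Fm.bot, fun x => x, p.e, 0, p.s0⟩

end Pool.Agent.RN
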